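import Mathlib

/-!
# Lie algebras with invariant inner product, the adjoint group, tori, root planes: definitions

`V` is a finite dimensional real inner product space.  Everything here is abstract linear algebra;
in the application `V` is the Lie algebra of a compact connected group `G` of unitary matrices and `A` is
the set of the maps `Ad(a)`, `a ∈ G`.
-/

set_option autoImplicit false

open scoped RealInnerProductSpace

namespace Pool.Agent.W_9986fc_G

/-- a Lie bracket `ad x y = [x, y]` with invariant inner product -/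
structure LieIP (V : Type*) [NormedAddCommGroup V] [InnerProductSpace ℝ V] where
  /-- `ad x y = [x, y]` -/
  ad : V →ₗ[ℝ] (V →L[ℝ] V)
  antisymm : ∀ x y, ad x y = - ad y x
  jacobi : ∀ x y z, ad x (ad y z) = ad (ad x y) z + ad y (ad x z)
  inv : ∀ x y z : V, ⟪ad x y, z⟫ = ⟪x, ad y z⟫

variable {V : Type*} [NormedAddCommGroup V] [InnerProductSpace ℝ V]

namespace LieIP

variable (L : LieIP V)

theorem ad_self (x : V) : L.ad x x = 0 := by
  have h := L.antisymm x x
  have h2 : (2 : ℝ) • L.ad x x = 0 := by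
    rw [two_smul]
    nth_rewrite 2 [h]
    exact add_neg_cancel _
  exact (smul_eq_zero.1 h2).resolve_left (by norm_num)

theorem skew (x y z : V) : ⟪L.ad x y, z⟫ = - ⟪y, L.ad x z⟫ := by
  rw [L.antisymm x y, inner_neg_left, L.inv]

theorem skew' (x y z : V) : ⟪y, L.ad x z⟫ = - ⟪L.ad x y, z⟫ := by
  rw [L.skew, neg_neg]

theorem ad_smul_self (c : ℝ) (x : V) : L.ad (c • x) x = 0 := by
  rw [map_smul]
  change c • L.ad x x = 0
  rw [L.ad_self, smul_zero]

end LieIP

variable [FiniteDimensional ℝ V]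

/-- a compact connected group of automorphisms of the Lie algebra, consisting of the exponentials of
the maps `ad y` -/
structure AdGroup (L : LieIP V) (A : Set (V →L[ℝ] V)) : Prop where
  compact : IsCompact A
  exp_mem : ∀ y, NormedSpace.exp (L.ad y) ∈ A
  exp_surj : ∀ a ∈ A, ∃ y, NormedSpace.exp (L.ad y) = a
  mul_mem : ∀ a ∈ A, ∀ b ∈ A, a * b ∈ A

/-- `t` is a maximal abelian subspace -/
structure IsTorus (L : LieIP V) (t : Submodule ℝ V) : Prop where
  abelian : ∀ h ∈ t, ∀ k ∈ t, L.ad h k = 0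
  maximal : ∀ c, (∀ h ∈ t, L.ad h c = 0) → c ∈ t

/-- the root planes `ℝ x i + ℝ y i` with the roots `α i` -/
structure Roots (L : LieIP V) (t : Submodule ℝ V) (n : ℕ) where
  x : Fin n → V
  y : Fin n → V
  α : Fin n → V
  xx : ∀ i j, ⟪x i, x j⟫ = if i = j then (1 : ℝ) else 0
  yy : ∀ i j, ⟪y i, y j⟫ = if i = j then (1 : ℝ) else 0
  xy : ∀ i j, ⟪x i, y j⟫ = 0
  tx : ∀ h ∈ t, ∀ i, ⟪h, x i⟫ = 0
  ty : ∀ h ∈ t, ∀ i, ⟪h, y i⟫ = 0
  span : ∀ v : V, ∃ h ∈ t, v = h + ∑ i, (⟪x i, v⟫ • x i + ⟪y i, v⟫ • y i)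
  mem : ∀ i, α i ∈ t
  ne : ∀ i, α i ≠ 0
  adx : ∀ h ∈ t, ∀ i, L.ad h (x i) = ⟪α i, h⟫ • y i
  ady : ∀ h ∈ t, ∀ i, L.ad h (y i) = -(⟪α i, h⟫ • x i)

/-- `α j` is a long root: no root that is not orthogonal to `α j` is longer -/
def Roots.Long {L : LieIP V} {t : Submodule ℝ V} {n : ℕ} (R : Roots L t n) (j : Fin n) : Prop :=
  ∀ k, ⟪R.α k, R.α j⟫ ≠ 0 → ‖R.α k‖ ≤ ‖R.α j‖

/-- the subalgebra `su(2)` of the root `α j` -/
def Roots.su {L : LieIP V} {t : Submodule ℝ V} {n : ℕ} (R : Roots L t n) (j : Fin n) :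
    Submodule ℝ V := Submodule.span ℝ {R.x j, R.y j, R.α j}

end Pool.Agent.W_9986fc_G
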