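import Pool.Agent.W_9986fc_G.Alg0

/-!
# Brackets in a root plane and multiplicity one

* `br_xy`: `[h, [x, y]] = [[h, x], y] + [x, [h, y]] = ⟪α, h⟫ ([y, y] - [x, x]) = 0` for `h ∈ t`, so
  `[x, y] ∈ t` by maximality; and `⟪[x, y], h⟫ = ⟪x, [y, h]⟫ = - ⟪x, [h, y]⟫ = ⟪α, h⟫`; so `[x, y] - α ∈ t` is
  orthogonal to `t`, hence zero.
* `ne_of_ne`: let `i ≠ j`, `α i = α j`.  `u₁ = [x i, x j] + [y i, y j]` and `u₂ = [x i, y j] - [y i, x j]` commute
  with `t` (compute `[h, .]` by Jacobi), so they lie in `t`; they are orthogonal to `t`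
  (`⟪[x i, x j], h⟫ = ⟪x i, [x j, h]⟫ = - ⟪α, h⟫ ⟪x i, y j⟫ = 0` etc.), so `u₁ = u₂ = 0`.  Then
  `⟪α i, α j⟫ = ⟪[α i, x j], y j⟫ = ⟪[[x i, y i], x j], y j⟫`
  `= ⟪[x i, [y i, x j]], y j⟫ - ⟪[y i, [x i, x j]], y j⟫ = - ⟪[y i, x j], [x i, y j]⟫ + ⟪[x i, x j], [y i, y j]⟫`
  `= - ‖[x i, y j]‖² - ‖[x i, x j]‖² ≤ 0`, but it is `‖α i‖² > 0`.
* `ne_neg_of_ne`: let `i ≠ j`, `α i = - α j`: the same with `x j`, `y j` exchanged (their root is `- α j`).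
-/

set_option autoImplicit false

open scoped RealInnerProductSpace

namespace Pool.Agent.W_9986fc_G

variable {V : Type*} [NormedAddCommGroup V] [InnerProductSpace ℝ V] [FiniteDimensional ℝ V]
variable {L : LieIP V} {t : Submodule ℝ V} {n : ℕ}

omit [FiniteDimensional ℝ V] in
theorem AlgBr_zero (ht : IsTorus L t) (u : V) (h1 : ∀ h ∈ t, L.ad h u = 0)
    (h2 : ∀ h ∈ t, ⟪u, h⟫ = 0) : u = 0 :=
  inner_self_eq_zero.1 (h2 u (ht.maximal u h1))

omit [FiniteDimensional ℝ V] in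
theorem AlgBr_t (x z w h : V) (c : ℝ) (hz : L.ad h z = c • w) (hw : ⟪x, w⟫ = 0) :
    ⟪L.ad x z, h⟫ = 0 := by
  rw [L.inv, L.antisymm z h, hz, inner_neg_right, inner_smul_right, hw, mul_zero, neg_zero]

omit [FiniteDimensional ℝ V] in
theorem AlgBr_pair (ht : IsTorus L t) (a x y X Y : V) (ha : a ∈ t) (ha0 : a ≠ 0)
    (hx : ∀ h ∈ t, L.ad h x = ⟪a, h⟫ • y) (hy : ∀ h ∈ t, L.ad h y = -(⟪a, h⟫ • x))
    (hX : ∀ h ∈ t, L.ad h X = ⟪a, h⟫ • Y) (hY : ∀ h ∈ t, L.ad h Y = -(⟪a, h⟫ • X))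
    (oxX : ⟪x, X⟫ = 0) (oxY : ⟪x, Y⟫ = 0) (oyX : ⟪y, X⟫ = 0) (oyY : ⟪y, Y⟫ = 0)
    (hxy : L.ad x y = a) (hYY : ⟪Y, Y⟫ = 1) : False := by
  have smul_left : ∀ (c : ℝ) (u v : V), L.ad (c • u) v = c • L.ad u v := fun c u v => by
    rw [map_smul]
    rfl
  have neg_left : ∀ (u v : V), L.ad (-u) v = -L.ad u v := fun u v => by
    rw [map_neg]
    rfl
  have hyX' : ∀ h ∈ t, L.ad h Y = (-⟪a, h⟫) • X := fun h hh => by rw [hY h hh, neg_smul]
  have e1 : L.ad x X + L.ad y Y = 0 := by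
    refine AlgBr_zero ht _ (fun h hh => ?_) fun h hh => ?_
    · rw [map_add, L.jacobi h x X, L.jacobi h y Y, hx h hh, hX h hh, hy h hh, hY h hh]
      rw [smul_left, neg_left, smul_left, map_neg, map_smul, map_smul]
      abel
    · rw [inner_add_left, AlgBr_t x X Y h _ (hX h hh) oxY, AlgBr_t y Y X h _ (hyX' h hh) oyX,
        add_zero]
  have e2 : L.ad x Y - L.ad y X = 0 := by
    refine AlgBr_zero ht _ (fun h hh => ?_) fun h hh => ?_
    · rw [map_sub, L.jacobi h x Y, L.jacobi h y X, hx h hh, hX h hh, hy h hh, hY h hh]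
      rw [smul_left, neg_left, smul_left, map_neg, map_smul, map_smul]
      abel
    · rw [inner_sub_left, AlgBr_t x Y X h _ (hyX' h hh) oxX, AlgBr_t y X Y h _ (hX h hh) oyY,
        sub_zero]
  have e3 : L.ad y Y = -L.ad x X := by
    rw [eq_neg_iff_add_eq_zero, add_comm]
    exact e1
  have e4 : L.ad y X = L.ad x Y := (sub_eq_zero.1 e2).symm
  have e5 : L.ad a X = L.ad x (L.ad y X) - L.ad y (L.ad x X) := by
    rw [L.jacobi x y X, hxy, add_sub_cancel_right]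
  have e6 : ⟪L.ad a X, Y⟫ = -⟪L.ad x Y, L.ad x Y⟫ - ⟪L.ad x X, L.ad x X⟫ := by
    rw [e5, inner_sub_left, L.skew x (L.ad y X) Y, L.skew y (L.ad x X) Y, e3, e4,
      inner_neg_right]
    ring
  have e7 : ⟪L.ad a X, Y⟫ = ⟪a, a⟫ := by
    rw [hX a ha, inner_smul_left, hYY, mul_one]
    rfl
  have h1 : 0 < ⟪a, a⟫ := real_inner_self_pos.2 ha0
  have h2 : 0 ≤ ⟪L.ad x Y, L.ad x Y⟫ := real_inner_self_nonneg
  have h3 : 0 ≤ ⟪L.ad x X, L.ad x X⟫ := real_inner_self_nonneg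
  linarith

theorem Roots.br_xy (R : Roots L t n) (ht : IsTorus L t) (i : Fin n) :
    L.ad (R.x i) (R.y i) = R.α i := by
  have smul_left : ∀ (c : ℝ) (u v : V), L.ad (c • u) v = c • L.ad u v := fun c u v => by
    rw [map_smul]
    rfl
  have h1 : ∀ h ∈ t, L.ad h (L.ad (R.x i) (R.y i)) = 0 := by
    intro h hh
    rw [L.jacobi, R.adx h hh, R.ady h hh, smul_left, L.ad_self, map_neg, map_smul, L.ad_self,
      smul_zero, neg_zero, add_zero]
  have h2 : L.ad (R.x i) (R.y i) ∈ t := ht.maximal _ h1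
  rw [← sub_eq_zero]
  refine AlgBr_zero ht _ (fun h hh => ?_) fun h hh => ?_
  · rw [map_sub, h1 h hh, ht.abelian h hh _ (R.mem i), sub_zero]
  · rw [inner_sub_left, L.inv, L.antisymm (R.y i) h, R.ady h hh, neg_neg, inner_smul_right,
      R.xx i i, if_pos rfl, mul_one, sub_self]

theorem Roots.ne_of_ne (R : Roots L t n) (ht : IsTorus L t) {i j : Fin n} (hij : i ≠ j) :
    R.α i ≠ R.α j := by
  intro heq
  refine AlgBr_pair ht (R.α i) (R.x i) (R.y i) (R.x j) (R.y j) (R.mem i) (R.ne i)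
    (fun h hh => R.adx h hh i) (fun h hh => R.ady h hh i) (fun h hh => ?_) (fun h hh => ?_)
    ?_ (R.xy i j) ?_ ?_ (R.br_xy ht i) ?_
  · rw [heq]
    exact R.adx h hh j
  · rw [heq]
    exact R.ady h hh j
  · rw [R.xx, if_neg hij]
  · rw [real_inner_comm]
    exact R.xy j i
  · rw [R.yy, if_neg hij]
  · rw [R.yy, if_pos rfl]

theorem Roots.ne_neg_of_ne (R : Roots L t n) (ht : IsTorus L t) {i j : Fin n} (hij : i ≠ j) :
    R.α i ≠ -R.α j := by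
  intro heq
  refine AlgBr_pair ht (R.α i) (R.x i) (R.y i) (R.y j) (R.x j) (R.mem i) (R.ne i)
    (fun h hh => R.adx h hh i) (fun h hh => R.ady h hh i) (fun h hh => ?_) (fun h hh => ?_)
    (R.xy i j) ?_ ?_ ?_ (R.br_xy ht i) ?_
  · rw [heq, inner_neg_left, neg_smul]
    exact R.ady h hh j
  · rw [heq, inner_neg_left, neg_smul, neg_neg]
    exact R.adx h hh j
  · rw [R.xx, if_neg hij]
  · rw [R.yy, if_neg hij]
  · rw [real_inner_comm]
    exact R.xy j i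
  · rw [R.xx, if_pos rfl]

end Pool.Agent.W_9986fc_G
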