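import Pool.Agent.W_9986fc_G.AlgExp
import Pool.Agent.W_9986fc_G.AlgBr

/-!
# The group `SU(2)` of a root acts transitively on spheres of `su(2)`

`ρ = ‖α j‖`.  `[x, y] = α`, `[x, α] = - ρ² y`, `[y, α] = ρ² x`, `[α, x] = ρ² y`, `[α, y] = - ρ² x` (`adx`, `ady`
with `h = α j`, `br_xy`).  By `exp_rot` (with `v = α / ρ` where needed) `exp (ad (s • x j))` fixes `x j` and
rotates the plane `y j, α j / ρ`; `exp (ad (s • α j))` fixes `α j` and rotates `x j, y j`; similarly `y j`.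
`to_alpha`: `p = a x + b y + c α`.  First a rotation about `α` makes `a = 0`: (a, b) becomes (0, r),
`r = sqrt (a² + b²)`; then a rotation about `x` moves `r y + c α` to `c' α`, `c' ≥ 0`.  (To find the angles:
`Complex.arg` or `∃ θ, cos θ = .., sin θ = ..` for unit vectors.)
All these exponentials fix every `v` with `[v, x j] = [v, y j] = 0` (then `[v, α j] = 0` by Jacobi, and
`exp_fix`), and map `su j` to itself.
`sphere`: from `to_alpha` applied to `η` and the inverse in `A` (`exists_inv`); `c ≥ 0` is determined by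
`‖η‖ = c ‖α j‖`, so it is `c = r` (if `r < 0`, first turn `r α` to `- r α = |r| α`: apply `to_alpha` to `r • α j`
too).
-/

set_option autoImplicit false

open scoped RealInnerProductSpace

namespace Pool.Agent.W_9986fc_G

variable {V : Type*} [NormedAddCommGroup V] [InnerProductSpace ℝ V] [FiniteDimensional ℝ V]
variable {L : LieIP V} {t : Submodule ℝ V} {n : ℕ} {A : Set (V →L[ℝ] V)}

theorem AlgRot_polar (a b : ℝ) : ∃ r θ : ℝ, 0 ≤ r ∧ a = r * Real.sin θ ∧ b = r * Real.cos θ := by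
  refine ⟨‖(⟨b, a⟩ : ℂ)‖, Complex.arg ⟨b, a⟩, norm_nonneg _, ?_, ?_⟩
  · rw [Complex.norm_mul_sin_arg]
  · rw [Complex.norm_mul_cos_arg]

theorem AlgRot_mem (R : Roots L t n) (j : Fin n) (a b c : ℝ) :
    a • R.x j + b • R.y j + c • R.α j ∈ R.su j := by
  refine Submodule.add_mem _ (Submodule.add_mem _ ?_ ?_) ?_
  · exact Submodule.smul_mem _ _ (Submodule.subset_span (by simp))
  · exact Submodule.smul_mem _ _ (Submodule.subset_span (by simp))
  · exact Submodule.smul_mem _ _ (Submodule.subset_span (by simp))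

theorem AlgRot_exists (R : Roots L t n) (j : Fin n) {p : V} (hp : p ∈ R.su j) :
    ∃ a b c : ℝ, p = a • R.x j + b • R.y j + c • R.α j := by
  rw [Roots.su, Submodule.mem_span_triple] at hp
  obtain ⟨a, b, c, h⟩ := hp
  exact ⟨a, b, c, h.symm⟩

/-- rotation about `α` -/
theorem AlgRot_alpha (R : Roots L t n) (j : Fin n) (s a b c : ℝ) :
    NormedSpace.exp (L.ad (s • R.α j)) (a • R.x j + b • R.y j + c • R.α j) =
      (a * Real.cos (⟪R.α j, R.α j⟫ * s) - b * Real.sin (⟪R.α j, R.α j⟫ * s)) • R.x j +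
      (a * Real.sin (⟪R.α j, R.α j⟫ * s) + b * Real.cos (⟪R.α j, R.α j⟫ * s)) • R.y j +
      c • R.α j := by
  have hx := exp_rot L (R.adx _ (R.mem j) j) (R.ady _ (R.mem j) j) s
  have hy := exp_rot L (y := R.α j) (u := R.y j) (v := -R.x j) (w := ⟪R.α j, R.α j⟫)
    (by rw [R.ady _ (R.mem j) j, smul_neg]) (by rw [map_neg, R.adx _ (R.mem j) j]) s
  have ha := exp_fix L (L.ad_smul_self s (R.α j))
  generalize NormedSpace.exp (L.ad (s • R.α j)) = E at hx hy ha ⊢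
  rw [map_add, map_add, map_smul, map_smul, map_smul, hx, hy, ha]
  module

theorem AlgRot_ne (R : Roots L t n) (j : Fin n) : ‖R.α j‖ ≠ 0 := norm_ne_zero_iff.2 (R.ne j)

/-- rotation about `x` -/
theorem AlgRot_x (R : Roots L t n) (ht : IsTorus L t) (j : Fin n) (s a b c : ℝ) :
    NormedSpace.exp (L.ad (s • R.x j)) (a • R.x j + b • R.y j + c • (‖R.α j‖⁻¹ • R.α j)) =
      a • R.x j + (b * Real.cos (‖R.α j‖ * s) - c * Real.sin (‖R.α j‖ * s)) • R.y j +
      (b * Real.sin (‖R.α j‖ * s) + c * Real.cos (‖R.α j‖ * s)) • (‖R.α j‖⁻¹ • R.α j) := by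
  have hne := AlgRot_ne R j
  have e1 : L.ad (R.x j) (R.y j) = ‖R.α j‖ • (‖R.α j‖⁻¹ • R.α j) := by
    rw [R.br_xy ht, smul_smul, mul_inv_cancel₀ hne, one_smul]
  have e2 : L.ad (R.x j) (‖R.α j‖⁻¹ • R.α j) = -(‖R.α j‖ • R.y j) := by
    rw [map_smul, L.antisymm, R.adx _ (R.mem j) j, real_inner_self_eq_norm_sq, smul_neg, smul_smul]
    congr 2
    field_simp
  have hy := exp_rot L e1 e2 s
  have ha := exp_rot L (y := R.x j) (u := ‖R.α j‖⁻¹ • R.α j) (v := -R.y j) (w := ‖R.α j‖)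
    (by rw [e2, smul_neg]) (by rw [map_neg, e1]) s
  have hx := exp_fix L (L.ad_smul_self s (R.x j))
  generalize NormedSpace.exp (L.ad (s • R.x j)) = E at hx hy ha ⊢
  rw [map_add, map_add, map_smul, map_smul, map_smul _ c, hx, hy, ha]
  module

theorem AlgRot_fix_alpha (R : Roots L t n) (ht : IsTorus L t) (j : Fin n) (s : ℝ) {v : V}
    (hx : L.ad v (R.x j) = 0) (hy : L.ad v (R.y j) = 0) :
    NormedSpace.exp (L.ad (s • R.α j)) v = v := by
  refine exp_fix L ?_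
  rw [map_smul]
  change s • L.ad (R.α j) v = 0
  rw [L.antisymm, ← R.br_xy ht, L.jacobi, hx, hy]
  simp

theorem AlgRot_fix_x (R : Roots L t n) (j : Fin n) (s : ℝ) {v : V}
    (hx : L.ad v (R.x j) = 0) :
    NormedSpace.exp (L.ad (s • R.x j)) v = v := by
  refine exp_fix L ?_
  rw [map_smul]
  change s • L.ad (R.x j) v = 0
  rw [L.antisymm, hx]
  simp

theorem Roots.to_alpha (R : Roots L t n) (ht : IsTorus L t) (hA : AdGroup L A) (j : Fin n) {p : V}
    (hp : p ∈ R.su j) : ∃ s ∈ A, (∃ c : ℝ, 0 ≤ c ∧ s p = c • R.α j) ∧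
      (∀ q ∈ R.su j, s q ∈ R.su j) ∧
      ∀ v, L.ad v (R.x j) = 0 → L.ad v (R.y j) = 0 → s v = v := by
  have hne := AlgRot_ne R j
  have hne2 : ⟪R.α j, R.α j⟫ ≠ (0 : ℝ) := by
    rw [real_inner_self_eq_norm_sq]
    exact pow_ne_zero 2 hne
  obtain ⟨a, b, c, rfl⟩ := AlgRot_exists R j hp
  obtain ⟨r, θ, hr, rfl, rfl⟩ := AlgRot_polar a b
  obtain ⟨r', θ', hr', h1, h2⟩ := AlgRot_polar r (c * ‖R.α j‖)
  refine ⟨NormedSpace.exp (L.ad ((θ' / ‖R.α j‖) • R.x j)) *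
    NormedSpace.exp (L.ad ((θ / ⟪R.α j, R.α j⟫) • R.α j)),
    hA.mul_mem _ (hA.exp_mem _) _ (hA.exp_mem _), ⟨r' / ‖R.α j‖, div_nonneg hr' (norm_nonneg _), ?_⟩,
    ?_, ?_⟩
  · change NormedSpace.exp (L.ad ((θ' / ‖R.α j‖) • R.x j))
      (NormedSpace.exp (L.ad ((θ / ⟪R.α j, R.α j⟫) • R.α j)) _) = _
    rw [AlgRot_alpha, mul_div_cancel₀ θ hne2]
    have e1 : r * Real.sin θ * Real.cos θ - r * Real.cos θ * Real.sin θ = 0 := by ring
    have e2 : r * Real.sin θ * Real.sin θ + r * Real.cos θ * Real.cos θ = r := by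
      have := Real.sin_sq_add_cos_sq θ
      linear_combination r * this
    have e3 : c • R.α j = (c * ‖R.α j‖) • (‖R.α j‖⁻¹ • R.α j) := by
      rw [smul_smul, mul_assoc, mul_inv_cancel₀ hne, mul_one]
    rw [e1, e2, e3, AlgRot_x R ht, mul_div_cancel₀ θ' hne]
    have e4 : r * Real.cos θ' - c * ‖R.α j‖ * Real.sin θ' = 0 := by
      rw [h1, h2]; ring
    have e5 : r * Real.sin θ' + c * ‖R.α j‖ * Real.cos θ' = r' := by
      rw [h1, h2]
      have := Real.sin_sq_add_cos_sq θ'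
      linear_combination r' * this
    rw [e4, e5, zero_smul, zero_smul, zero_add, zero_add, smul_smul, div_eq_mul_inv]
  · intro q hq
    obtain ⟨a, b, c, rfl⟩ := AlgRot_exists R j hq
    change NormedSpace.exp (L.ad ((θ' / ‖R.α j‖) • R.x j))
      (NormedSpace.exp (L.ad ((θ / ⟪R.α j, R.α j⟫) • R.α j)) _) ∈ _
    rw [AlgRot_alpha]
    have e3 : c • R.α j = (c * ‖R.α j‖) • (‖R.α j‖⁻¹ • R.α j) := by
      rw [smul_smul, mul_assoc, mul_inv_cancel₀ hne, mul_one]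
    rw [e3, AlgRot_x R ht, smul_smul]
    exact AlgRot_mem R j _ _ _
  · intro v hx hy
    change NormedSpace.exp (L.ad ((θ' / ‖R.α j‖) • R.x j))
      (NormedSpace.exp (L.ad ((θ / ⟪R.α j, R.α j⟫) • R.α j)) v) = _
    rw [AlgRot_fix_alpha R ht j _ hx hy, AlgRot_fix_x R j _ hx]

theorem Roots.sphere (R : Roots L t n) (ht : IsTorus L t) (hA : AdGroup L A) (j : Fin n) {η : V}
    (hη : η ∈ R.su j) {r : ℝ} (hr : ‖η‖ = |r| * ‖R.α j‖) :
    ∃ s ∈ A, s (r • R.α j) = η ∧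
      ∀ v, L.ad v (R.x j) = 0 → L.ad v (R.y j) = 0 → s v = v := by
  have hne := AlgRot_ne R j
  have hnorm : ∀ {a : V →L[ℝ] V}, a ∈ A → ∀ v, ‖a v‖ = ‖v‖ := fun {a} ha v => by
    have h := hA.inner ha v v
    rw [real_inner_self_eq_norm_sq, real_inner_self_eq_norm_sq] at h
    exact (sq_eq_sq₀ (norm_nonneg _) (norm_nonneg _)).1 h
  have key : ∀ {a : V →L[ℝ] V} (_ : a ∈ A) {v : V} (_ : ‖v‖ = |r| * ‖R.α j‖) {c : ℝ} (_ : 0 ≤ c)
      (_ : a v = c • R.α j), c = |r| := fun {a} ha {v} hv {c} hc h => by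
    have h1 := hnorm ha v
    rw [h, hv, norm_smul, Real.norm_of_nonneg hc] at h1
    exact mul_right_cancel₀ hne h1
  obtain ⟨s1, hs1, ⟨c1, hc1, h1⟩, -, hf1⟩ := R.to_alpha ht hA j hη
  have hrα : r • R.α j ∈ R.su j := by
    have := AlgRot_mem R j 0 0 r
    simpa using this
  obtain ⟨s2, hs2, ⟨c2, hc2, h2⟩, -, hf2⟩ := R.to_alpha ht hA j hrα
  have e1 := key hs1 hr hc1 h1
  have e2 := key hs2 (v := r • R.α j) (by rw [norm_smul, Real.norm_eq_abs]) hc2 h2
  obtain ⟨b, hb, -, hb2⟩ := hA.exists_inv hs1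
  have hbs : ∀ v, b (s1 v) = v := fun v => by
    change (b * s1) v = v
    rw [hb2]
    rfl
  refine ⟨b * s2, hA.mul_mem _ hb _ hs2, ?_, ?_⟩
  · change b (s2 (r • R.α j)) = η
    rw [h2, e2, ← e1, ← h1, hbs]
  · intro v hx hy
    change b (s2 v) = v
    rw [hf2 v hx hy]
    conv_lhs => rw [← hf1 v hx hy]
    exact hbs v

end Pool.Agent.W_9986fc_G
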