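import Pool.Agent.W_9986fc_G.AlgBr

/-!
# A trace identity

For `u, v ∈ V` let `B u v = trace (ad u ∘ ad v)`.
* `B [u, x] y = B u [x, y]`: `ad [u, x] = ad u ∘ ad x - ad x ∘ ad u` (Jacobi) and
  `trace (f g) = trace (g f)`.
* The vectors `x i, y i` together with an orthonormal basis of `t` are an orthonormal basis of `V`
  (`span`), `trace f = ∑ ⟪e, f e⟫` (`LinearMap.trace_eq_sum_inner`).  Alternatively: for a linear map `f`
  with `f h = 0` for `h ∈ t`, `trace f = ∑ i, (⟪x i, f (x i)⟫ + ⟪y i, f (y i)⟫)`: by `span`,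
  `f = ∑ i, (f (x i)) ⊗ ⟪x i, .⟫ + ...` and the trace of the rank one map `v ↦ ⟪a, v⟫ • b` is `⟪a, b⟫`.
* For `f = ad u ∘ ad (α j)`: `f h = 0`, `f (x k) = ⟪α k, α j⟫ [u, y k]`, `⟪x k, [u, y k]⟫ = ⟪u, [y k, x k]⟫ =
  - ⟪u, α k⟫`, `f (y k) = - ⟪α k, α j⟫ [u, x k]`, `⟪y k, [u, x k]⟫ = ⟪u, [x k, y k]⟫ = ⟪u, α k⟫` (up to
  checking: total `trace f = - 2 ∑ k, ⟪α k, α j⟫ * ⟪u, α k⟫`).
* If `[u, x j] = 0` then `B u (α j) = B u [x j, y j] = B [u, x j] (y j) = 0`.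
-/

set_option autoImplicit false

open scoped RealInnerProductSpace

namespace Pool.Agent.W_9986fc_G

variable {V : Type*} [NormedAddCommGroup V] [InnerProductSpace ℝ V] [FiniteDimensional ℝ V]
variable {L : LieIP V} {t : Submodule ℝ V} {n : ℕ}

theorem AlgTrace_inv (L : LieIP V) (u x y : V) :
    (LinearMap.trace ℝ V) ((L.ad (L.ad u x) : V →ₗ[ℝ] V) * (L.ad y : V →ₗ[ℝ] V)) =
      (LinearMap.trace ℝ V) ((L.ad u : V →ₗ[ℝ] V) * (L.ad (L.ad x y) : V →ₗ[ℝ] V)) := by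
  have h : ∀ a b : V, (L.ad (L.ad a b) : V →ₗ[ℝ] V) = (L.ad a : V →ₗ[ℝ] V) * (L.ad b : V →ₗ[ℝ] V) -
      (L.ad b : V →ₗ[ℝ] V) * (L.ad a : V →ₗ[ℝ] V) := by
    intro a b
    refine LinearMap.ext fun v => ?_
    show L.ad (L.ad a b) v = L.ad a (L.ad b v) - L.ad b (L.ad a v)
    rw [L.jacobi a b v, add_sub_cancel_right]
  rw [h u x, h x y, sub_mul, mul_sub, map_sub, map_sub, mul_assoc]
  congr 1
  rw [mul_assoc, LinearMap.trace_mul_comm, mul_assoc]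

theorem AlgTrace_rank (a b : V) :
    (LinearMap.trace ℝ V) ((innerₛₗ ℝ a).smulRight b) = ⟪a, b⟫ := by
  rw [LinearMap.trace_smulRight]
  rfl

theorem AlgTrace_sum (R : Roots L t n) (f : V →ₗ[ℝ] V) (hf : ∀ h ∈ t, f h = 0) :
    (LinearMap.trace ℝ V) f = ∑ i, (⟪R.x i, f (R.x i)⟫ + ⟪R.y i, f (R.y i)⟫ : ℝ) := by
  have h : f = ∑ i, ((innerₛₗ ℝ (R.x i)).smulRight (f (R.x i)) +
      (innerₛₗ ℝ (R.y i)).smulRight (f (R.y i))) := by
    refine LinearMap.ext fun v => ?_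
    obtain ⟨w, hw, hv⟩ := R.span v
    conv_lhs => rw [hv]
    rw [map_add, hf w hw, zero_add, map_sum, LinearMap.sum_apply]
    refine Finset.sum_congr rfl fun i _ => ?_
    rw [map_add, map_smul, map_smul]
    rfl
  conv_lhs => rw [h]
  rw [map_sum]
  refine Finset.sum_congr rfl fun i _ => ?_
  rw [map_add, AlgTrace_rank, AlgTrace_rank]

theorem Roots.trace_sum (R : Roots L t n) (ht : IsTorus L t) {j : Fin n} {u : V}
    (hu : L.ad u (R.x j) = 0) : ∑ k, ⟪R.α k, R.α j⟫ * ⟪u, R.α k⟫ = (0 : ℝ) := by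
  have h1 := AlgTrace_inv L u (R.x j) (R.y j)
  rw [hu, R.br_xy ht j, map_zero] at h1
  have h2 : (LinearMap.trace ℝ V) ((L.ad u : V →ₗ[ℝ] V) * (L.ad (R.α j) : V →ₗ[ℝ] V)) = 0 := by
    rw [← h1]
    have : ((0 : V →L[ℝ] V) : V →ₗ[ℝ] V) = 0 := rfl
    rw [this, zero_mul, map_zero]
  rw [AlgTrace_sum R _ (fun h hh => ?_)] at h2
  · have h3 : ∀ k, (⟪R.x k, ((L.ad u : V →ₗ[ℝ] V) * (L.ad (R.α j) : V →ₗ[ℝ] V)) (R.x k)⟫ +
        ⟪R.y k, ((L.ad u : V →ₗ[ℝ] V) * (L.ad (R.α j) : V →ₗ[ℝ] V)) (R.y k)⟫ : ℝ) =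
        (-2 : ℝ) * (⟪R.α k, R.α j⟫ * ⟪u, R.α k⟫) := by
      intro k
      have e1 : ((L.ad u : V →ₗ[ℝ] V) * (L.ad (R.α j) : V →ₗ[ℝ] V)) (R.x k) =
          ⟪R.α k, R.α j⟫ • L.ad u (R.y k) := by
        show L.ad u (L.ad (R.α j) (R.x k)) = _
        rw [R.adx _ (R.mem j), map_smul]
      have e2 : ((L.ad u : V →ₗ[ℝ] V) * (L.ad (R.α j) : V →ₗ[ℝ] V)) (R.y k) =
          -(⟪R.α k, R.α j⟫ • L.ad u (R.x k)) := by
        show L.ad u (L.ad (R.α j) (R.y k)) = _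
        rw [R.ady _ (R.mem j), map_neg, map_smul]
      have e3 : (⟪L.ad u (R.x k), R.y k⟫ : ℝ) = ⟪u, R.α k⟫ := by
        rw [L.inv, R.br_xy ht k]
      have e4 : (⟪R.x k, L.ad u (R.y k)⟫ : ℝ) = -⟪u, R.α k⟫ := by
        rw [L.skew', e3]
      rw [e1, e2, inner_smul_right, inner_neg_right, inner_smul_right, e4,
        real_inner_comm (L.ad u (R.x k)) (R.y k), e3]
      ring
    rw [Finset.sum_congr rfl fun k _ => h3 k, ← Finset.mul_sum] at h2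
    exact (mul_eq_zero.1 h2).resolve_left (by norm_num)
  · show L.ad u (L.ad (R.α j) h) = 0
    rw [ht.abelian _ (R.mem j) h hh, map_zero]

end Pool.Agent.W_9986fc_G
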