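import Pool.Agent.W_9986fc_G.AlgExp

/-!
# First and second variation

`φ t = ‖P (exp (t ad y) b)‖²` is smooth, with `φ' t = 2 ⟪P [y, b t], P (b t)⟫`, `b t = exp (t ad y) b`,
`φ'' 0 = 2 ‖P [y, b]‖² + 2 ⟪[y, [y, b]], P b⟫` (`P` symmetric idempotent: `⟪P u, P v⟫ = ⟪u, P v⟫`).  A minimum at
`t = 0` gives `φ' 0 = 0` (`IsLocalMin.hasDerivAt_eq_zero`) and `φ'' 0 ≥ 0`: otherwise `φ'` is strictly
negative on a right neighbourhood of `0` (it is differentiable at `0` with negative derivative and `φ' 0 = 0`), so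
`φ` is strictly decreasing there.
-/

set_option autoImplicit false

open scoped RealInnerProductSpace

namespace Pool.Agent.W_9986fc_G

variable {V : Type*} [NormedAddCommGroup V] [InnerProductSpace ℝ V] [FiniteDimensional ℝ V]

/-- second derivative test for a minimum -/
theorem second_deriv_nonneg {φ ψ : ℝ → ℝ} {c : ℝ} (h1 : ∀ t, HasDerivAt φ (ψ t) t)
    (h2 : HasDerivAt ψ c 0) (hmin : ∀ t, φ 0 ≤ φ t) : ψ 0 = 0 ∧ 0 ≤ c := by
  have h0 : ψ 0 = 0 := by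
    have hl : IsLocalMin φ 0 := Filter.Eventually.of_forall hmin
    exact hl.hasDerivAt_eq_zero (h1 0)
  refine ⟨h0, ?_⟩
  by_contra hc
  push Not at hc
  have h3 := (hasDerivAt_iff_tendsto_slope.1 h2).eventually_lt_const hc
  rw [eventually_nhdsWithin_iff, Metric.eventually_nhds_iff] at h3
  obtain ⟨ε, hε, h3⟩ := h3
  have h4 : ∀ t : ℝ, 0 < t → t < ε → ψ t < 0 := by
    intro t ht0 ht
    have h5 := h3 (y := t) (by rw [Real.dist_eq, sub_zero, abs_of_pos ht0]; exact ht) (ne_of_gt ht0)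
    rw [slope_def_field, h0, sub_zero, sub_zero] at h5
    by_contra h6
    push Not at h6
    exact absurd h5 (not_lt.2 (div_nonneg h6 ht0.le))
  have h5 : StrictAntiOn φ (Set.Icc 0 (ε / 2)) := by
    refine strictAntiOn_of_deriv_neg (convex_Icc _ _) ?_ ?_
    · exact fun t _ => (h1 t).continuousAt.continuousWithinAt
    · intro t ht
      rw [interior_Icc] at ht
      rw [(h1 t).deriv]
      exact h4 t ht.1 (by linarith [ht.2])
  have h6 := h5 (Set.left_mem_Icc.2 (by linarith)) (Set.right_mem_Icc.2 (by linarith))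
    (show (0 : ℝ) < ε / 2 by linarith)
  exact absurd h6 (not_lt.2 (hmin _))

theorem variation (L : LieIP V) (P : V →L[ℝ] V) (hPP : ∀ v, P (P v) = P v)
    (hsym : ∀ u v, ⟪P u, v⟫ = ⟪u, P v⟫) (y b : V)
    (hmin : ∀ t : ℝ, ‖P b‖ ^ 2 ≤ ‖P (NormedSpace.exp (t • L.ad y) b)‖ ^ 2) :
    ⟪L.ad y b, P b⟫ = (0 : ℝ) ∧ 0 ≤ ‖P (L.ad y b)‖ ^ 2 + ⟪L.ad y (L.ad y b), P b⟫ := by
  have hPi : ∀ u v, ⟪P u, P v⟫ = ⟪P u, v⟫ := fun u v => by
    rw [← hsym, hPP]
  have hb : ∀ t : ℝ, HasDerivAt (fun t : ℝ => NormedSpace.exp (t • L.ad y) b)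
      (L.ad y (NormedSpace.exp (t • L.ad y) b)) t := fun t => hasDerivAt_exp_apply L y b t
  have hlin : ∀ (Q : V →L[ℝ] V) (t : ℝ),
      HasDerivAt (fun t : ℝ => Q (NormedSpace.exp (t • L.ad y) b))
        (Q (L.ad y (NormedSpace.exp (t • L.ad y) b))) t := fun Q t =>
    Q.hasFDerivAt.comp_hasDerivAt t (hb t)
  have h1 : ∀ t : ℝ, HasDerivAt (fun t : ℝ => ‖P (NormedSpace.exp (t • L.ad y) b)‖ ^ 2)
      (2 * ⟪P (NormedSpace.exp (t • L.ad y) b), P (L.ad y (NormedSpace.exp (t • L.ad y) b))⟫) t :=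
    fun t => (hlin P t).norm_sq
  have h2 : HasDerivAt (fun t : ℝ => 2 * ⟪P (NormedSpace.exp (t • L.ad y) b),
      P (L.ad y (NormedSpace.exp (t • L.ad y) b))⟫)
      (2 * (⟪P (NormedSpace.exp ((0 : ℝ) • L.ad y) b),
        (P * L.ad y) (L.ad y (NormedSpace.exp ((0 : ℝ) • L.ad y) b))⟫ +
        ⟪P (L.ad y (NormedSpace.exp ((0 : ℝ) • L.ad y) b)),
          (P * L.ad y) (NormedSpace.exp ((0 : ℝ) • L.ad y) b)⟫)) 0 :=
    ((hlin P 0).inner ℝ (hlin (P * L.ad y) 0)).const_mul 2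
  have he : NormedSpace.exp ((0 : ℝ) • L.ad y) b = b := by
    rw [zero_smul, NormedSpace.exp_zero]; rfl
  obtain ⟨h3, h4⟩ := second_deriv_nonneg h1 h2 (fun t => by
    rw [he]
    exact hmin t)
  rw [he] at h3 h4
  constructor
  · have : ⟪P b, P (L.ad y b)⟫ = (0 : ℝ) := by linarith
    rw [hPi] at this
    rw [real_inner_comm]
    exact this
  · have h5 : ⟪P b, (P * L.ad y) (L.ad y b)⟫ = ⟪L.ad y (L.ad y b), P b⟫ := by
      change ⟪P b, P (L.ad y (L.ad y b))⟫ = _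
      rw [hPi, real_inner_comm]
    have h6 : ⟪P (L.ad y b), (P * L.ad y) b⟫ = ‖P (L.ad y b)‖ ^ 2 := by
      change ⟪P (L.ad y b), P (L.ad y b)⟫ = _
      rw [real_inner_self_eq_norm_sq]
    rw [h5, h6] at h4
    linarith

end Pool.Agent.W_9986fc_G
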