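import Pool.Agent.W_9986fc_G.AlgLong
import Pool.Agent.W_9986fc_G.AlgTrace
import Pool.Agent.W_9986fc_G.AlgRot
import Pool.Agent.W_9986fc_G.AlgVar

/-!
# Every orbit meets the orthogonal complement of `su j` (`j` long, `su j` not an ideal)

`P` = orthogonal projection to `su j` (`(R.su j).starProjection` or `Submodule.orthogonalProjection`).
`A` is compact: let `a₀ ∈ A` minimise `‖P (a₀ a)‖²`.  Suppose `P (a₀ a) ≠ 0`.  By `to_alpha` there is `s ∈ A` with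
`s (P (a₀ a)) = c α j`, `c > 0`, `s` maps `su j` to itself, so (isometry) it commutes with `P`.  Put
`b = s (a₀ a)`: `P b = c α j =: p`, and `b` is again a minimum: `‖P (g b)‖² ≥ ‖P b‖²` for all `g ∈ A`.
`variation` for all `y`: `⟪[y, b], p⟫ = 0`, i.e. `⟪y, [b, p]⟫ = 0`, so `[b, p] = 0`, `[b, α j] = 0`; and
`0 ≤ ‖P [y, b]‖² + ⟪[y, [y, b]], p⟫ = ‖P [y, b]‖² - ⟪[y, b], [y, p]⟫`.
Take `k ≠ j`, `y = x k` or `y = y k`: `P [y, b] = 0`, because `⟪[x k, b], q⟫ = ⟪x k, [b, q]⟫ = 0` for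
`q = α j` (`[b, α j] = 0`), `q = x j, y j` (`inner_comm`).  So `⟪[x k, b], [x k, p]⟫ + ⟪[y k, b], [y k, p]⟫ ≤ 0`; with
`[x k, p] = - c ⟪α k, α j⟫ y k`, `[y k, p] = c ⟪α k, α j⟫ x k`, `⟪[x k, b], y k⟫ = - ⟪b, α k⟫`,
`⟪[y k, b], x k⟫ = ⟪b, α k⟫` the left side is `2 c ⟪α k, α j⟫ ⟪b, α k⟫`.  Hence
`⟪α k, α j⟫ ⟪b, α k⟫ ≤ 0` for all `k ≠ j`.
`b' = b - p`: `[b', α j] = 0`, `⟪b', α j⟫ = 0`, so `[b', x j] = 0` (`commutes`) and by `trace_sum`
`∑ k, ⟪α k, α j⟫ ⟪b', α k⟫ = 0`, i.e. `∑ k, ⟪α k, α j⟫ ⟪b, α k⟫ = c ∑ k, ⟪α k, α j⟫²`.  The terms `k = j` agree: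
`⟪b, α j⟫ = ⟪p, α j⟫ = c ‖α j‖²`.  So `∑_{k ≠ j} ⟪α k, α j⟫ ⟪b, α k⟫ = c ∑_{k ≠ j} ⟪α k, α j⟫² > 0`
by `hne`.  Contradiction.
-/

set_option autoImplicit false

open scoped RealInnerProductSpace

namespace Pool.Agent.W_9986fc_G

variable {V : Type*} [NormedAddCommGroup V] [InnerProductSpace ℝ V] [FiniteDimensional ℝ V]
variable {L : LieIP V} {t : Submodule ℝ V} {n : ℕ} {A : Set (V →L[ℝ] V)}

/-- orthogonal projections -/
theorem AlgAvoid_proj (W : Submodule ℝ V) : ∃ P : V →L[ℝ] V, (∀ v, P v ∈ W) ∧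
    (∀ q ∈ W, P q = q) ∧ ∀ u v, ⟪P u, v⟫ = (⟪u, P v⟫ : ℝ) :=
  ⟨W.starProjection, fun v => W.starProjection_apply_mem v,
    fun q hq => Submodule.starProjection_eq_self_iff.2 hq,
    fun u v => W.inner_starProjection_left_eq_right u v⟩

/-- an isometry which maps `W` into itself commutes with the projection to `W` -/
theorem AlgAvoid_comm {W : Submodule ℝ V} {P : V →L[ℝ] V} (hmem : ∀ v, P v ∈ W)
    (hfix : ∀ q ∈ W, P q = q) (hsym : ∀ u v, ⟪P u, v⟫ = (⟪u, P v⟫ : ℝ)) {s : V →L[ℝ] V}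
    (hs : ∀ u v, ⟪s u, s v⟫ = (⟪u, v⟫ : ℝ)) (hsW : ∀ q ∈ W, s q ∈ W) (v : V) :
    P (s v) = s (P v) := by
  have hinj : Function.Injective ((s : V →ₗ[ℝ] V).restrict hsW) := by
    rw [← LinearMap.ker_eq_bot, LinearMap.ker_eq_bot']
    rintro ⟨q, hq⟩ h
    have h1 : s q = 0 := congrArg Subtype.val h
    have h2 : (⟪q, q⟫ : ℝ) = 0 := by rw [← hs, h1, inner_zero_left]
    exact Subtype.ext (inner_self_eq_zero.1 h2)
  have hsurj := LinearMap.surjective_of_injective hinj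
  have hd : P (s v) - s (P v) ∈ W := W.sub_mem (hmem _) (hsW _ (hmem _))
  obtain ⟨⟨w, hw⟩, hw'⟩ := hsurj ⟨_, hd⟩
  have hw2 : s w = P (s v) - s (P v) := congrArg Subtype.val hw'
  have h1 : (⟪P (s v) - s (P v), P (s v) - s (P v)⟫ : ℝ) = 0 := by
    have e1 : (⟪P (s v), s w⟫ : ℝ) = ⟪v, w⟫ := by
      rw [hsym, hfix _ (hsW w hw), hs]
    have e2 : (⟪s (P v), s w⟫ : ℝ) = ⟪v, w⟫ := by
      rw [hs, hsym, hfix w hw]
    rw [← hw2]
    nth_rewrite 1 [hw2]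
    rw [inner_sub_left, e1, e2, sub_self]
  exact sub_eq_zero.1 (inner_self_eq_zero.1 h1)

theorem AlgAvoid_span {R : Roots L t n} {j : Fin n} {u : V} (hx : ⟪u, R.x j⟫ = (0 : ℝ))
    (hy : ⟪u, R.y j⟫ = (0 : ℝ)) (hα : ⟪u, R.α j⟫ = (0 : ℝ)) : ∀ q ∈ R.su j, ⟪u, q⟫ = (0 : ℝ) := by
  intro q hq
  unfold Roots.su at hq
  induction hq using Submodule.span_induction with
  | mem q hq =>
    rcases hq with rfl | rfl | rfl
    · exact hx
    · exact hy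
    · exact hα
  | zero => exact inner_zero_right _
  | add q r _ _ h1 h2 => rw [inner_add_right, h1, h2, add_zero]
  | smul c q _ h1 => rw [inner_smul_right, h1, mul_zero]

theorem Roots.avoid (R : Roots L t n) (ht : IsTorus L t) (hA : AdGroup L A) {j : Fin n}
    (hj : R.Long j) (hne : ∃ k, k ≠ j ∧ ⟪R.α k, R.α j⟫ ≠ (0 : ℝ)) (a : V) :
    ∃ g ∈ A, ∀ q ∈ R.su j, ⟪g a, q⟫ = (0 : ℝ) := by
  obtain ⟨P, hmem, hfix, hsym⟩ := AlgAvoid_proj (R.su j)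
  have hPP : ∀ v, P (P v) = P v := fun v => hfix _ (hmem v)
  have hcont : Continuous fun g : V →L[ℝ] V => ‖P (g a)‖ ^ 2 := by fun_prop
  obtain ⟨a₀, ha₀, hmin⟩ := hA.compact.exists_isMinOn ⟨1, hA.one_mem⟩ hcont.continuousOn
  rw [isMinOn_iff] at hmin
  by_cases hP : P (a₀ a) = 0
  · refine ⟨a₀, ha₀, fun q hq => ?_⟩
    rw [← hfix q hq, ← hsym, hP, inner_zero_left]
  exfalso
  obtain ⟨s, hsA, ⟨c, hc0, hc⟩, hsW, -⟩ := R.to_alpha ht hA j (hmem (a₀ a))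
  have hsi : ∀ u v, ⟪s u, s v⟫ = (⟪u, v⟫ : ℝ) := fun u v => hA.inner hsA u v
  have hcomm := AlgAvoid_comm hmem hfix hsym hsi hsW
  have hαj : (⟪R.α j, R.α j⟫ : ℝ) ≠ 0 := fun h => R.ne j (inner_self_eq_zero.1 h)
  have hcpos : 0 < c := by
    rcases hc0.lt_or_eq with h | h
    · exact h
    · exfalso
      rw [← h, zero_smul] at hc
      apply hP
      have h2 : (⟪P (a₀ a), P (a₀ a)⟫ : ℝ) = 0 := by rw [← hsi, hc, inner_zero_left]
      exact inner_self_eq_zero.1 h2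
  obtain ⟨b, hb⟩ : ∃ b, b = s (a₀ a) := ⟨_, rfl⟩
  have hPb : P b = c • R.α j := by rw [hb, hcomm, hc]
  have hmin2 : ∀ g ∈ A, ‖P b‖ ^ 2 ≤ ‖P (g b)‖ ^ 2 := by
    intro g hg
    have h1 := hmin (g * (s * a₀)) (hA.mul_mem g hg _ (hA.mul_mem s hsA a₀ ha₀))
    have h2 : ‖P b‖ ^ 2 = ‖P (a₀ a)‖ ^ 2 := by
      rw [hb, hcomm, ← real_inner_self_eq_norm_sq, ← real_inner_self_eq_norm_sq, hsi]
    rw [h2, hb]
    exact h1
  have hvar : ∀ y, ⟪L.ad y b, P b⟫ = (0 : ℝ) ∧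
      0 ≤ ‖P (L.ad y b)‖ ^ 2 + ⟪L.ad y (L.ad y b), P b⟫ := by
    intro y
    refine variation L P hPP hsym y b fun τ => hmin2 _ ?_
    have h1 := hA.exp_mem (τ • y)
    rw [map_smul] at h1
    exact h1
  rw [hPb] at hvar
  -- `[b, α j] = 0`
  have hbα : L.ad b (R.α j) = 0 := by
    have h1 := (hvar (L.ad b (R.α j))).1
    rw [L.inv, map_smul, inner_smul_right] at h1
    have h2 := (mul_eq_zero.1 h1).resolve_left hcpos.ne'
    exact inner_self_eq_zero.1 h2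
  -- the inequality for the other roots
  have hle : ∀ k, k ≠ j → ⟪R.α k, R.α j⟫ * ⟪b, R.α k⟫ ≤ (0 : ℝ) := by
    intro k hk
    obtain ⟨i1, -, i3, -⟩ := R.inner_comm ht hj hk hbα
    have hP0 : P (L.ad (R.x k) b) = 0 := by
      have h1 : ∀ q ∈ R.su j, ⟪L.ad (R.x k) b, q⟫ = (0 : ℝ) := by
        refine AlgAvoid_span ?_ ?_ ?_
        · rw [L.inv]; exact i1
        · rw [L.inv]; exact i3
        · rw [L.inv, hbα, inner_zero_right]
      have h2 : (⟪P (L.ad (R.x k) b), P (L.ad (R.x k) b)⟫ : ℝ) = 0 := by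
        rw [hsym, hPP]
        exact h1 _ (hmem _)
      exact inner_self_eq_zero.1 h2
    have h3 := (hvar (R.x k)).2
    have e1 : L.ad (R.x k) (c • R.α j) = -((c * ⟪R.α k, R.α j⟫) • R.y k) := by
      rw [map_smul, L.antisymm, R.adx _ (R.mem j), smul_neg, smul_smul]
    rw [hP0, L.skew, e1, inner_neg_right, inner_smul_right, L.skew, R.br_xy ht] at h3
    have h4 : 0 ≤ c * -(⟪R.α k, R.α j⟫ * ⟪b, R.α k⟫ : ℝ) := by
      have h5 : ‖(0 : V)‖ ^ 2 = 0 := by rw [norm_zero]; norm_num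
      rw [h5] at h3
      linarith [h3]
    have h6 := nonneg_of_mul_nonneg_right h4 hcpos
    linarith
  -- the trace identity
  have hbj : (⟪b, R.α j⟫ : ℝ) = c * ⟪R.α j, R.α j⟫ := by
    have h1 : R.α j ∈ R.su j := Submodule.subset_span (by simp)
    rw [← hfix _ h1, ← hsym, hPb, hfix _ h1, real_inner_smul_left]
  have hb'1 : L.ad (b - c • R.α j) (R.α j) = 0 := by
    rw [map_sub, map_smul]
    show L.ad b (R.α j) - c • L.ad (R.α j) (R.α j) = 0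
    rw [hbα, L.ad_self, smul_zero, sub_zero]
  have hb'2 : ⟪b - c • R.α j, R.α j⟫ = (0 : ℝ) := by
    rw [inner_sub_left, hbj, real_inner_smul_left, sub_self]
  have htr := R.trace_sum ht (R.commutes ht hj hb'1 hb'2).1
  have hsum : ∑ k, ⟪R.α k, R.α j⟫ * ⟪b, R.α k⟫ = c * ∑ k, (⟪R.α k, R.α j⟫ : ℝ) ^ 2 := by
    rw [Finset.mul_sum, ← sub_eq_zero, ← Finset.sum_sub_distrib, ← htr]
    refine Finset.sum_congr rfl fun k _ => ?_
    rw [inner_sub_left, real_inner_smul_left, real_inner_comm (R.α k) (R.α j)]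
    ring
  obtain ⟨k, hk, hkj⟩ := hne
  have h1 : ∑ k, ⟪R.α k, R.α j⟫ * ⟪b, R.α k⟫ ≤
      ∑ k, if k = j then c * (⟪R.α k, R.α j⟫ : ℝ) ^ 2 else 0 := by
    refine Finset.sum_le_sum fun k _ => ?_
    split_ifs with h
    · rw [h, hbj]
      exact le_of_eq (by ring)
    · exact hle k h
  have h2 : ∑ k, (if k = j then c * (⟪R.α k, R.α j⟫ : ℝ) ^ 2 else 0) <
      ∑ k, c * (⟪R.α k, R.α j⟫ : ℝ) ^ 2 := by
    refine Finset.sum_lt_sum (fun i _ => ?_) ⟨k, Finset.mem_univ _, ?_⟩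
    · split_ifs
      · exact le_refl _
      · positivity
    · rw [if_neg hk]
      have h3 : 0 < (⟪R.α k, R.α j⟫ : ℝ) ^ 2 := by positivity
      positivity
  rw [← Finset.mul_sum] at h2
  linarith

end Pool.Agent.W_9986fc_G
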