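import Pool.Agent.W_9986fc_G.Alg0

/-!
# Exponentials of `ad y`

`exp (t • ad y)` is a one-parameter group of isometries and automorphisms of the Lie algebra.

* `hasDerivAt_exp_apply`: from `hasDerivAt_exp_smul_const'` (derivative `x * exp (t x)`).
* `exp_inner`: the derivative of `t ↦ ⟪exp (t ad y) u, exp (t ad y) v⟫` is 0 by `L.skew`; hence it is
  constant (`is_const_of_deriv_eq_zero`); take `t = 1`.
* `exp_hom`: `F t = exp (-(t ad y)) (ad (exp (t ad y) u) (exp (t ad y) v))` has derivative 0 by Jacobi, so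
  `F 1 = F 0 = ad u v`.
* `exp_fix`: if `ad y u = 0` then the derivative of `exp (t ad y) u = exp (t ad y) (ad y u)` is 0.
* `exp_rot`: if `ad y u = w • v`, `ad y v = - w • u` then
  `exp (t ad y) u = cos (w t) u + sin (w t) v`: `t ↦ exp (-(t ad y)) (cos (w t) u + sin (w t) v)` has
  derivative 0.
* `A` is a group of isometries and automorphisms: from `exp_surj`.
* `isPreconnected`: every `exp (ad y)` is joined to `1` in `A` by `t ↦ exp (t ad y)`
  (`exp (ad (t • y)) = exp (t • ad y)`), so `A` is path connected.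
-/

set_option autoImplicit false

open scoped RealInnerProductSpace

namespace Pool.Agent.W_9986fc_G

variable {V : Type*} [NormedAddCommGroup V] [InnerProductSpace ℝ V] [FiniteDimensional ℝ V]
variable (L : LieIP V)

theorem hasDerivAt_exp_apply (y u : V) (t : ℝ) :
    HasDerivAt (fun t : ℝ => NormedSpace.exp (t • L.ad y) u)
      (L.ad y (NormedSpace.exp (t • L.ad y) u)) t := by
  have : CompleteSpace V := FiniteDimensional.complete ℝ V
  have h1 : HasDerivAt (fun t : ℝ => NormedSpace.exp (t • L.ad y))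
      (L.ad y * NormedSpace.exp (t • L.ad y)) t := hasDerivAt_exp_smul_const' (L.ad y) t
  have h2 := h1.clm_apply (hasDerivAt_const t u)
  simpa using h2

theorem exp_comm_ad (y u : V) (t : ℝ) :
    L.ad y (NormedSpace.exp (t • L.ad y) u) = NormedSpace.exp (t • L.ad y) (L.ad y u) := by
  have : CompleteSpace V := FiniteDimensional.complete ℝ V
  have h1 : Commute (L.ad y) (NormedSpace.exp (t • L.ad y)) :=
    ((Commute.refl (L.ad y)).smul_right t).exp_right
  exact congrArg (fun F : V →L[ℝ] V => F u) h1.eq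

theorem exp_neg_mul (y : V) : NormedSpace.exp (L.ad (-y)) * NormedSpace.exp (L.ad y) = 1 := by
  have : CompleteSpace V := FiniteDimensional.complete ℝ V
  have h1 : Commute (L.ad (-y)) (L.ad y) := by
    rw [map_neg]
    exact (Commute.refl (L.ad y)).neg_left
  letI : NormedAlgebra ℚ (V →L[ℝ] V) := NormedAlgebra.restrictScalars ℚ ℝ (V →L[ℝ] V)
  rw [← NormedSpace.exp_add_of_commute h1, map_neg, neg_add_cancel, NormedSpace.exp_zero]

theorem exp_inner (y u v : V) :
    ⟪NormedSpace.exp (L.ad y) u, NormedSpace.exp (L.ad y) v⟫ = ⟪u, v⟫ := by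
  have : CompleteSpace V := FiniteDimensional.complete ℝ V
  have h1 : ∀ t : ℝ, HasDerivAt (fun t : ℝ => ⟪NormedSpace.exp (t • L.ad y) u,
      NormedSpace.exp (t • L.ad y) v⟫) 0 t := by
    intro t
    have h2 := (hasDerivAt_exp_apply L y u t).inner ℝ (hasDerivAt_exp_apply L y v t)
    rw [L.skew', neg_add_cancel] at h2
    exact h2
  have h3 := is_const_of_deriv_eq_zero (fun t => (h1 t).differentiableAt) (fun t => (h1 t).deriv)
    1 0
  simpa [NormedSpace.exp_zero] using h3

/-- A solution of `w' = [y, w]` is `exp (t ad y) (w 0)`. -/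
theorem AlgExp_unique (y : V) (w : ℝ → V) (hw : ∀ t, HasDerivAt w (L.ad y (w t)) t) (t : ℝ) :
    w t = NormedSpace.exp (t • L.ad y) (w 0) := by
  have : CompleteSpace V := FiniteDimensional.complete ℝ V
  have h1 : ∀ t : ℝ, HasDerivAt (fun t : ℝ => ⟪w t - NormedSpace.exp (t • L.ad y) (w 0),
      w t - NormedSpace.exp (t • L.ad y) (w 0)⟫) 0 t := by
    intro t
    have h2 := ((hw t).sub (hasDerivAt_exp_apply L y (w 0) t)).inner ℝ
      ((hw t).sub (hasDerivAt_exp_apply L y (w 0) t))
    rw [← map_sub, Pi.sub_apply, L.skew', neg_add_cancel] at h2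
    exact h2
  have h3 := is_const_of_deriv_eq_zero (fun t => (h1 t).differentiableAt) (fun t => (h1 t).deriv)
    t 0
  simp only [zero_smul, NormedSpace.exp_zero, one_apply_eq_self, sub_self,
    inner_zero_left] at h3
  exact sub_eq_zero.1 (inner_self_eq_zero.1 h3)

theorem exp_hom (y u v : V) : NormedSpace.exp (L.ad y) (L.ad u v) =
    L.ad (NormedSpace.exp (L.ad y) u) (NormedSpace.exp (L.ad y) v) := by
  have : CompleteSpace V := FiniteDimensional.complete ℝ V
  have h1 := AlgExp_unique L y (fun t => L.ad (NormedSpace.exp (t • L.ad y) u)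
    (NormedSpace.exp (t • L.ad y) v)) (fun t => ?_) 1
  · simpa [NormedSpace.exp_zero] using h1.symm
  · have h2 : HasDerivAt (fun t : ℝ => L.ad (NormedSpace.exp (t • L.ad y) u))
        (L.ad (L.ad y (NormedSpace.exp (t • L.ad y) u))) t :=
      (LinearMap.toContinuousLinearMap L.ad).hasFDerivAt.comp_hasDerivAt t
        (hasDerivAt_exp_apply L y u t)
    have h3 := h2.clm_apply (hasDerivAt_exp_apply L y v t)
    rw [← L.jacobi] at h3
    exact h3

theorem exp_fix {y u : V} (h : L.ad y u = 0) : NormedSpace.exp (L.ad y) u = u := by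
  have h1 := AlgExp_unique L y (fun _ => u) (fun t => by
    rw [h]
    exact hasDerivAt_const t u) 1
  rw [one_smul] at h1
  exact h1.symm

theorem exp_rot {y u v : V} {w : ℝ} (h1 : L.ad y u = w • v) (h2 : L.ad y v = -(w • u)) (t : ℝ) :
    NormedSpace.exp (L.ad (t • y)) u = Real.cos (w * t) • u + Real.sin (w * t) • v := by
  have h3 := AlgExp_unique L y (fun t => Real.cos (w * t) • u + Real.sin (w * t) • v)
    (fun t => ?_) t
  · simp only [mul_zero, Real.cos_zero, one_smul, Real.sin_zero, zero_smul, add_zero] at h3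
    rw [map_smul]
    exact h3.symm
  · have h4 : HasDerivAt (fun t : ℝ => w * t) w t := by
      simpa using (hasDerivAt_id t).const_mul w
    have h5 := (h4.cos.smul_const u).add (h4.sin.smul_const v)
    have h6 : L.ad y (Real.cos (w * t) • u + Real.sin (w * t) • v) =
        (-Real.sin (w * t) * w) • u + (Real.cos (w * t) * w) • v := by
      rw [map_add, map_smul, map_smul, h1, h2, smul_neg, smul_smul, smul_smul, neg_mul, neg_smul,
        add_comm]
    rw [h6]
    exact h5

variable {L} {A : Set (V →L[ℝ] V)}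

theorem AdGroup.one_mem (hA : AdGroup L A) : (1 : V →L[ℝ] V) ∈ A := by
  have h1 := hA.exp_mem 0
  rw [map_zero, NormedSpace.exp_zero] at h1
  exact h1

theorem AdGroup.inner (hA : AdGroup L A) {a : V →L[ℝ] V} (ha : a ∈ A) (u v : V) :
    ⟪a u, a v⟫ = ⟪u, v⟫ := by
  obtain ⟨y, rfl⟩ := hA.exp_surj a ha
  exact exp_inner L y u v

theorem AdGroup.hom (hA : AdGroup L A) {a : V →L[ℝ] V} (ha : a ∈ A) (u v : V) :
    a (L.ad u v) = L.ad (a u) (a v) := by
  obtain ⟨y, rfl⟩ := hA.exp_surj a ha
  exact exp_hom L y u v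

theorem AdGroup.exists_inv (hA : AdGroup L A) {a : V →L[ℝ] V} (ha : a ∈ A) :
    ∃ b ∈ A, a * b = 1 ∧ b * a = 1 := by
  obtain ⟨y, rfl⟩ := hA.exp_surj a ha
  refine ⟨NormedSpace.exp (L.ad (-y)), hA.exp_mem _, ?_, exp_neg_mul L y⟩
  have h1 := exp_neg_mul L (-y)
  rw [neg_neg] at h1
  exact h1

theorem AdGroup.isPreconnected (hA : AdGroup L A) : IsPreconnected A := by
  have : CompleteSpace V := FiniteDimensional.complete ℝ V
  refine isPreconnected_of_forall 1 fun a ha => ?_
  obtain ⟨y, rfl⟩ := hA.exp_surj a ha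
  have hc : Continuous (fun t : ℝ => NormedSpace.exp (t • L.ad y)) := by
    have h1 : Differentiable ℝ (fun t : ℝ => NormedSpace.exp (t • L.ad y)) :=
      fun t => (hasDerivAt_exp_smul_const' (L.ad y) t).differentiableAt
    exact h1.continuous
  refine ⟨Set.range (fun t : ℝ => NormedSpace.exp (t • L.ad y)), ?_, ⟨0, ?_⟩, ⟨1, ?_⟩,
    isPreconnected_range hc⟩
  · rintro _ ⟨t, rfl⟩
    have h1 := hA.exp_mem (t • y)
    rw [map_smul] at h1
    exact h1
  · simp [NormedSpace.exp_zero]
  · simp

end Pool.Agent.W_9986fc_G
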