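import Pool.Agent.W_9986fc_G.AlgBr

/-!
# Long roots: strict inequality, and the centralizer of a long root

* `Long.abs_lt`: if `⟪α k, α j⟫ ≠ 0`, `k ≠ j`: `|⟪α k, α j⟫| ≤ ‖α k‖ ‖α j‖ ≤ ‖α j‖²`; equality would give
  `‖α k‖ = ‖α j‖` and `α k = ± α j` (`abs_real_inner_div_norm_mul_norm_eq_one_iff` or
  `‖‖a‖ b - ‖b‖ a‖² = ...`), impossible by `ne_of_ne`, `ne_neg_of_ne`.
* `Long.inner_comm`: let `[b, α j] = 0`.  `D = ad (α j)` commutes with `ad b` (Jacobi),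
  `D (D (x j)) = - ‖α j‖⁴ x j`, `D (D (x k)) = - ⟪α k, α j⟫² x k`, and `D ∘ D` is symmetric, so
  `‖α j‖⁴ ⟪x k, [b, x j]⟫ = ⟪α k, α j⟫² ⟪x k, [b, x j]⟫` and the coefficients are different.  Similarly with
  `y` for `x`.
* `Long.commutes`: let in addition `⟪b, α j⟫ = 0`.  By `span`, `[b, x j]` is the sum of its components; the
  component in `t` vanishes: for `h ∈ t` the same argument with `D (D h) = 0`; components in
  `x k, y k`, `k ≠ j` vanish by `inner_comm`; `⟪x j, [b, x j]⟫ = 0` by skewness and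
  `⟪y j, [b, x j]⟫ = ⟪[b, x j], y j⟫ = ⟪b, [x j, y j]⟫ = ⟪b, α j⟫ = 0`.  So `[b, x j] = 0`; similarly `[b, y j] = 0`.
-/

set_option autoImplicit false

open scoped RealInnerProductSpace

namespace Pool.Agent.W_9986fc_G

variable {V : Type*} [NormedAddCommGroup V] [InnerProductSpace ℝ V] [FiniteDimensional ℝ V]
variable {L : LieIP V} {t : Submodule ℝ V} {n : ℕ}

omit [FiniteDimensional ℝ V] in
theorem AlgLong_comm {a b : V} (hb : L.ad b a = 0) (z : V) :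
    L.ad b (L.ad a z) = L.ad a (L.ad b z) := by
  have h := L.jacobi b a z
  rw [hb, map_zero] at h
  change L.ad b (L.ad a z) = (0 : V →L[ℝ] V) z + L.ad a (L.ad b z) at h
  rw [h, zero_apply, zero_add]

omit [FiniteDimensional ℝ V] in
theorem AlgLong_key {a b u v : V} (hb : L.ad b a = 0) {c d : ℝ}
    (hu : L.ad a (L.ad a u) = -(d ^ 2 • u)) (hv : L.ad a (L.ad a v) = -(c ^ 2 • v))
    (hcd : c ^ 2 ≠ d ^ 2) : ⟪u, L.ad b v⟫ = (0 : ℝ) := by
  have h1 : L.ad a (L.ad a (L.ad b v)) = -(c ^ 2 • L.ad b v) := by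
    rw [← AlgLong_comm hb, ← AlgLong_comm hb, hv, map_neg, map_smul]
  have h2 : ⟪u, L.ad a (L.ad a (L.ad b v))⟫ = ⟪L.ad a (L.ad a u), L.ad b v⟫ := by
    rw [L.skew', L.skew', neg_neg]
  rw [h1, hu, inner_neg_right, inner_neg_left, inner_smul_right, inner_smul_left] at h2
  change -(c ^ 2 * ⟪u, L.ad b v⟫) = -(d ^ 2 * ⟪u, L.ad b v⟫) at h2
  have h3 : (c ^ 2 - d ^ 2) * ⟪u, L.ad b v⟫ = 0 := by linarith
  rcases mul_eq_zero.1 h3 with h4 | h4
  · exact absurd (sub_eq_zero.1 h4) hcd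
  · exact h4

omit [FiniteDimensional ℝ V] in
theorem AlgLong_xx (R : Roots L t n) {h : V} (hh : h ∈ t) (i : Fin n) :
    L.ad h (L.ad h (R.x i)) = -(⟪R.α i, h⟫ ^ 2 • R.x i) := by
  rw [R.adx h hh, map_smul, R.ady h hh, smul_neg, smul_smul, pow_two]

omit [FiniteDimensional ℝ V] in
theorem AlgLong_yy (R : Roots L t n) {h : V} (hh : h ∈ t) (i : Fin n) :
    L.ad h (L.ad h (R.y i)) = -(⟪R.α i, h⟫ ^ 2 • R.y i) := by
  rw [R.ady h hh, map_neg, map_smul, R.adx h hh, smul_smul, pow_two]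

theorem Roots.abs_lt (R : Roots L t n) (ht : IsTorus L t) {j k : Fin n} (hj : R.Long j)
    (hk : k ≠ j) : |⟪R.α k, R.α j⟫| < ‖R.α j‖ ^ 2 := by
  have hc : 0 < ‖R.α j‖ := norm_pos_iff.2 (R.ne j)
  by_contra hno
  push Not at hno
  have h0 : ⟪R.α k, R.α j⟫ ≠ (0 : ℝ) := by
    intro h0
    rw [h0, abs_zero] at hno
    have : 0 < ‖R.α j‖ ^ 2 := by positivity
    linarith
  have hle := hj k h0
  have hsq : ‖R.α k‖ ^ 2 ≤ ‖R.α j‖ ^ 2 := pow_le_pow_left₀ (norm_nonneg _) hle 2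
  rcases le_total 0 ⟪R.α k, R.α j⟫ with hs | hs
  · rw [abs_of_nonneg hs] at hno
    have h1 := norm_sub_sq_real (R.α k) (R.α j)
    have h2 : ‖R.α k - R.α j‖ ^ 2 ≤ 0 := by linarith
    have h3 : ‖R.α k - R.α j‖ = 0 := by
      have h4 : ‖R.α k - R.α j‖ ^ 2 = 0 := le_antisymm h2 (by positivity)
      exact pow_eq_zero_iff (two_ne_zero) |>.1 h4
    exact R.ne_of_ne ht hk (sub_eq_zero.1 (norm_eq_zero.1 h3))
  · rw [abs_of_nonpos hs] at hno
    have h1 := norm_add_sq_real (R.α k) (R.α j)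
    have h2 : ‖R.α k + R.α j‖ ^ 2 ≤ 0 := by linarith
    have h3 : ‖R.α k + R.α j‖ = 0 := by
      have h4 : ‖R.α k + R.α j‖ ^ 2 = 0 := le_antisymm h2 (by positivity)
      exact pow_eq_zero_iff (two_ne_zero) |>.1 h4
    exact R.ne_neg_of_ne ht hk (eq_neg_of_add_eq_zero_left (norm_eq_zero.1 h3))

theorem Roots.inner_comm (R : Roots L t n) (ht : IsTorus L t) {j k : Fin n} (hj : R.Long j)
    (hk : k ≠ j) {b : V} (hb : L.ad b (R.α j) = 0) :
    ⟪R.x k, L.ad b (R.x j)⟫ = (0 : ℝ) ∧ ⟪R.y k, L.ad b (R.x j)⟫ = (0 : ℝ) ∧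
      ⟪R.x k, L.ad b (R.y j)⟫ = (0 : ℝ) ∧ ⟪R.y k, L.ad b (R.y j)⟫ = (0 : ℝ) := by
  have hlt := R.abs_lt ht hj hk
  have hcd : ⟪R.α j, R.α j⟫ ^ 2 ≠ ⟪R.α k, R.α j⟫ ^ 2 := by
    rw [real_inner_self_eq_norm_sq]
    intro h
    have h1 := sq_eq_sq_iff_abs_eq_abs _ _ |>.1 h
    rw [← h1, abs_of_nonneg (by positivity)] at hlt
    exact lt_irrefl _ hlt
  have hxj := AlgLong_xx R (R.mem j) j
  have hyj := AlgLong_yy R (R.mem j) j
  have hxk := AlgLong_xx R (R.mem j) k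
  have hyk := AlgLong_yy R (R.mem j) k
  exact ⟨AlgLong_key hb hxk hxj hcd, AlgLong_key hb hyk hxj hcd, AlgLong_key hb hxk hyj hcd,
    AlgLong_key hb hyk hyj hcd⟩

theorem Roots.commutes (R : Roots L t n) (ht : IsTorus L t) {j : Fin n} (hj : R.Long j)
    {b : V} (hb : L.ad b (R.α j) = 0) (hb' : ⟪b, R.α j⟫ = (0 : ℝ)) :
    L.ad b (R.x j) = 0 ∧ L.ad b (R.y j) = 0 := by
  have hc : 0 < ‖R.α j‖ := norm_pos_iff.2 (R.ne j)
  have hcd : ⟪R.α j, R.α j⟫ ^ 2 ≠ (0 : ℝ) ^ 2 := by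
    rw [real_inner_self_eq_norm_sq]
    have : 0 < (‖R.α j‖ ^ 2) ^ 2 := by positivity
    rw [zero_pow two_ne_zero]
    exact this.ne'
  have hself : ∀ z : V, ⟪z, L.ad b z⟫ = (0 : ℝ) := by
    intro z
    have h1 := L.skew' b z z
    rw [real_inner_comm z] at h1
    have h2 := real_inner_comm z (L.ad b z)
    linarith
  -- the common argument
  have main : ∀ v : V, L.ad (R.α j) (L.ad (R.α j) v) = -(⟪R.α j, R.α j⟫ ^ 2 • v) →
      (∀ k, ⟪R.x k, L.ad b v⟫ = (0 : ℝ)) → (∀ k, ⟪R.y k, L.ad b v⟫ = (0 : ℝ)) →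
      L.ad b v = 0 := by
    intro v hv hx hy
    obtain ⟨h, hh, e⟩ := R.span (L.ad b v)
    have h1 : ∑ i, (⟪R.x i, L.ad b v⟫ • R.x i + ⟪R.y i, L.ad b v⟫ • R.y i) = 0 := by
      refine Finset.sum_eq_zero fun i _ => ?_
      rw [hx i, hy i, zero_smul, zero_smul, add_zero]
    rw [h1, add_zero] at e
    have h2 : L.ad (R.α j) (L.ad (R.α j) h) = -((0 : ℝ) ^ 2 • h) := by
      rw [ht.abelian _ (R.mem j) h hh, map_zero, zero_pow two_ne_zero, zero_smul, neg_zero]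
    have h3 := AlgLong_key hb h2 hv hcd
    rw [e, real_inner_self_eq_norm_sq] at h3
    have h4 : h = 0 := norm_eq_zero.1 (pow_eq_zero_iff (two_ne_zero) |>.1 h3)
    rw [e, h4]
  have hxy : ⟪R.y j, L.ad b (R.x j)⟫ = (0 : ℝ) := by
    rw [real_inner_comm, L.inv, R.br_xy ht j, hb']
  have hyx : ⟪R.x j, L.ad b (R.y j)⟫ = (0 : ℝ) := by
    rw [real_inner_comm, L.inv, L.antisymm, R.br_xy ht j, inner_neg_right, hb', neg_zero]
  constructor
  · refine main _ (AlgLong_xx R (R.mem j) j) (fun k => ?_) fun k => ?_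
    · by_cases hk : k = j
      · rw [hk]
        exact hself _
      · exact (R.inner_comm ht hj hk hb).1
    · by_cases hk : k = j
      · rw [hk]
        exact hxy
      · exact (R.inner_comm ht hj hk hb).2.1
  · refine main _ (AlgLong_yy R (R.mem j) j) (fun k => ?_) fun k => ?_
    · by_cases hk : k = j
      · rw [hk]
        exact hyx
      · exact (R.inner_comm ht hj hk hb).2.2.1
    · by_cases hk : k = j
      · rw [hk]
        exact hself _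
      · exact (R.inner_comm ht hj hk hb).2.2.2

end Pool.Agent.W_9986fc_G
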