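import Mathlib

/-!
# A set closed under the segments of a reflection group contains the projections

`Φ` finite set of nonzero vectors of a Euclidean space, `- Φ = Φ`, closed under its reflections
`s_a v = v - 2 ⟪v, a⟫ / ‖a‖² a`, `S` a set containing with `v` the segment from `v` to `s_a v` for all `a ∈ Φ`.
Claim: if `z ∈ S` there is `c ∈ S` with `z - c ∈ span Φ`, `c ⟂ Φ`.

Induction on `d = finrank (span Φ)` (for all `Φ`, `S` fixed or general).  `d = 0`: `Φ = ∅`, `c = z`.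
`d ≥ 1`: choose linearly independent `b 1, .., b d ∈ Φ` spanning `span Φ` (`exists_linearIndependent`), let
`H = span (b 1, .., b (d-1))`, `Φ' = Φ ∩ H`: finite, symmetric, closed under its reflections, `span Φ' = H`, of
dimension `d - 1`.  By induction: (*) for all `v ∈ S` there is `v' ∈ S` with `v - v' ∈ H`, `v' ⟂ H`.
Let `e ∈ span Φ`, `e ≠ 0`, `e ⟂ H` (so `span Φ = H + ℝ e`).
Suppose some `v ∈ S` with `v - z ∈ span Φ` has `⟪v, e⟫ = 0`: then `v'` from (*) satisfies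
`v' ⟂ H`, `⟪v', e⟫ = ⟪v, e⟫ = 0` (`e ⟂ H`), so `v' ⟂ span Φ`, `z - v' ∈ span Φ`: done with `c = v'`.
Suppose there is none.  WLOG `⟪z, e⟫ > 0` (replace `e` by `-e`).  Let
`B = {v ∈ S | v - z ∈ span Φ, ⟪v, e⟫ > 0, ∀ a ∈ Φ, ∃ b ∈ Φ, ⟪v, a⟫ = ⟪z, b⟫}`.  `z ∈ B`.  `B` is finite: `v ∈ B` is
determined by the numbers `⟪v, a⟫`, `a ∈ Φ` (as `v - z ∈ span Φ`), which take finitely many values.
`B` is closed under `s_a`, `a ∈ Φ`: `s_a v ∈ S` (segment, `τ = 1`), `⟪s_a v, b⟫ = ⟪v, s_a b⟫`, `s_a b ∈ Φ`; and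
`⟪s_a v, e⟫ > 0`, otherwise by the intermediate value theorem a point of the segment (which is in `S`, and in
`z + span Φ`) is orthogonal to `e`.  `s_a` is an involution, so it permutes `B`; the sum `m = ∑_{v ∈ B} v` satisfies
`s_a m = m`, i.e. `⟪m, a⟫ = 0`, for all `a ∈ Φ`, so `⟪m, e⟫ = 0` as `e ∈ span Φ`; but `⟪m, e⟫ > 0`.  Contradiction.
-/

set_option autoImplicit false

open scoped RealInnerProductSpace

namespace Pool.Agent.W_9986fc_G

variable {V : Type*} [NormedAddCommGroup V] [InnerProductSpace ℝ V] [FiniteDimensional ℝ V]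

/-- one step of the induction: the case of a transversal direction without zeros is impossible -/
theorem Comb_step (Φ : Finset V) (h0 : ∀ a ∈ Φ, a ≠ 0)
    (hrefl : ∀ a ∈ Φ, ∀ b ∈ Φ, b - (2 * ⟪b, a⟫ / ‖a‖ ^ 2) • a ∈ Φ) (S : Set V)
    (hS : ∀ v ∈ S, ∀ a ∈ Φ, ∀ τ : ℝ, 0 ≤ τ → τ ≤ 1 → v - (τ * (2 * ⟪v, a⟫ / ‖a‖ ^ 2)) • a ∈ S)
    {z : V} (hz : z ∈ S) (e : V) (he : e ∈ Submodule.span ℝ (Φ : Set V)) (hze : 0 < ⟪z, e⟫) :
    ∃ v ∈ S, v - z ∈ Submodule.span ℝ (Φ : Set V) ∧ ⟪v, e⟫ = (0 : ℝ) := by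
  classical
  by_contra hcon
  push Not at hcon
  set B : Set V := {v | v ∈ S ∧ v - z ∈ Submodule.span ℝ (Φ : Set V) ∧ 0 < ⟪v, e⟫ ∧
    ∀ a ∈ Φ, ∃ b ∈ Φ, ⟪v, a⟫ = ⟪z, b⟫} with hB
  have hzB : z ∈ B := ⟨hz, by simp, hze, fun a ha => ⟨a, ha, rfl⟩⟩
  -- closed under reflections
  have hcl : ∀ v ∈ B, ∀ a ∈ Φ, v - (2 * ⟪v, a⟫ / ‖a‖ ^ 2) • a ∈ B := by
    rintro v ⟨hvS, hvz, hve, hva⟩ a ha
    refine ⟨?_, ?_, ?_, ?_⟩
    · have := hS v hvS a ha 1 zero_le_one le_rfl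
      rwa [one_mul] at this
    · have h1 : v - (2 * ⟪v, a⟫ / ‖a‖ ^ 2) • a - z = (v - z) - (2 * ⟪v, a⟫ / ‖a‖ ^ 2) • a := by abel
      rw [h1]
      exact Submodule.sub_mem _ hvz (Submodule.smul_mem _ _ (Submodule.subset_span ha))
    · by_contra hneg
      push Not at hneg
      set c : ℝ := 2 * ⟪v, a⟫ / ‖a‖ ^ 2 with hc
      rw [inner_sub_left, real_inner_smul_left] at hneg
      have hd : 0 < c * ⟪a, e⟫ := by linarith
      have hτ0 : 0 ≤ ⟪v, e⟫ / (c * ⟪a, e⟫) := div_nonneg hve.le hd.le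
      have hτ1 : ⟪v, e⟫ / (c * ⟪a, e⟫) ≤ 1 := by
        rw [div_le_one hd]; linarith
      refine hcon _ (hS v hvS a ha _ hτ0 hτ1) ?_ ?_
      · have h1 : v - (⟪v, e⟫ / (c * ⟪a, e⟫) * c) • a - z
          = (v - z) - (⟪v, e⟫ / (c * ⟪a, e⟫) * c) • a := by abel
        rw [h1]
        exact Submodule.sub_mem _ hvz (Submodule.smul_mem _ _ (Submodule.subset_span ha))
      · rw [inner_sub_left, real_inner_smul_left]
        have : ⟪v, e⟫ / (c * ⟪a, e⟫) * c * ⟪a, e⟫ = ⟪v, e⟫ := by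
          rw [mul_assoc, div_mul_cancel₀ _ hd.ne']
        rw [this, sub_self]
    · intro b hb
      obtain ⟨b', hb', h2⟩ := hva _ (hrefl a ha b hb)
      refine ⟨b', hb', ?_⟩
      rw [← h2, inner_sub_left, inner_sub_right, real_inner_smul_left, real_inner_smul_right,
        real_inner_comm a b]
      ring
  -- finite
  have hfin : B.Finite := by
    have hval : (((Φ.image (fun b => ⟪z, b⟫ : V → ℝ)) : Finset ℝ) : Set ℝ).Finite :=
      Finset.finite_toSet _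
    have hpi : (Set.pi (Set.univ : Set Φ)
        (fun _ => (((Φ.image (fun b => ⟪z, b⟫ : V → ℝ)) : Finset ℝ) : Set ℝ))).Finite :=
      Set.Finite.pi' (fun _ => hval) |>.subset (by
        intro f hf i
        exact hf i (Set.mem_univ i))
    refine Set.Finite.of_injOn (f := fun v => fun a : Φ => ⟪v, (a : V)⟫) ?_ ?_ hpi
    · rintro v ⟨-, -, -, hva⟩ a -
      obtain ⟨b, hb, h⟩ := hva a a.2
      simp only [Finset.coe_image, Set.mem_image, Finset.mem_coe]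
      exact ⟨b, hb, h.symm⟩
    · rintro v ⟨-, hvz, -, -⟩ w ⟨-, hwz, -, -⟩ hvw
      have h1 : v - w ∈ Submodule.span ℝ (Φ : Set V) := by
        have : v - w = (v - z) - (w - z) := by abel
        rw [this]
        exact Submodule.sub_mem _ hvz hwz
      have h2 : ∀ x ∈ Submodule.span ℝ (Φ : Set V), ⟪v - w, x⟫ = (0 : ℝ) := by
        intro x hx
        induction hx using Submodule.span_induction with
        | mem x hx =>
          have := congrFun hvw ⟨x, hx⟩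
          simp only at this
          rw [inner_sub_left, this, sub_self]
        | zero => exact inner_zero_right _
        | add x y _ _ hx hy => rw [inner_add_right, hx, hy, add_zero]
        | smul c x _ hx => rw [real_inner_smul_right, hx, mul_zero]
      have h3 := h2 _ h1
      exact sub_eq_zero.mp (inner_self_eq_zero.mp h3)
  -- the sum
  have hsum : ∀ a ∈ Φ, ∑ v ∈ hfin.toFinset, ⟪v, a⟫ = (0 : ℝ) := by
    intro a ha
    have hna : ‖a‖ ^ 2 ≠ 0 := pow_ne_zero _ (norm_ne_zero_iff.mpr (h0 a ha))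
    have haa : ⟪a, a⟫ = ‖a‖ ^ 2 := real_inner_self_eq_norm_sq a
    have hs : ∀ v : V, ⟪v - (2 * ⟪v, a⟫ / ‖a‖ ^ 2) • a, a⟫ = -⟪v, a⟫ := by
      intro v
      rw [inner_sub_left, real_inner_smul_left, haa, div_mul_cancel₀ _ hna]
      ring
    refine Finset.sum_involution (fun v _ => v - (2 * ⟪v, a⟫ / ‖a‖ ^ 2) • a) ?_ ?_ ?_ ?_
    · intro v _
      rw [hs v, add_neg_cancel]
    · intro v _ hv heq
      have := hs v
      rw [heq] at this
      apply hv
      linarith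
    · intro v hv
      rw [Set.Finite.mem_toFinset] at hv ⊢
      exact hcl v hv a ha
    · intro v _
      rw [hs v]
      have : 2 * -⟪v, a⟫ / ‖a‖ ^ 2 = -(2 * ⟪v, a⟫ / ‖a‖ ^ 2) := by ring
      rw [this, neg_smul]
      abel
  have hsum' : ∀ x ∈ Submodule.span ℝ (Φ : Set V), ∑ v ∈ hfin.toFinset, ⟪v, x⟫ = (0 : ℝ) := by
    intro x hx
    induction hx using Submodule.span_induction with
    | mem x hx => exact hsum x hx
    | zero => simp
    | add x y _ _ hx hy => simp only [inner_add_right, Finset.sum_add_distrib, hx, hy, add_zero]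
    | smul c x _ hx => simp only [real_inner_smul_right, ← Finset.mul_sum, hx, mul_zero]
  have hpos : 0 < ∑ v ∈ hfin.toFinset, ⟪v, e⟫ := by
    refine Finset.sum_pos (fun v hv => ?_) ⟨z, by rwa [Set.Finite.mem_toFinset]⟩
    rw [Set.Finite.mem_toFinset] at hv
    exact hv.2.2.1
  rw [hsum' e he] at hpos
  exact lt_irrefl _ hpos

theorem Comb_main (S : Set V) (Φ : Finset V) : (∀ a ∈ Φ, a ≠ 0) → (∀ a ∈ Φ, -a ∈ Φ) →
    (∀ a ∈ Φ, ∀ b ∈ Φ, b - (2 * ⟪b, a⟫ / ‖a‖ ^ 2) • a ∈ Φ) →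
    (∀ v ∈ S, ∀ a ∈ Φ, ∀ τ : ℝ, 0 ≤ τ → τ ≤ 1 → v - (τ * (2 * ⟪v, a⟫ / ‖a‖ ^ 2)) • a ∈ S) →
    ∀ z ∈ S, ∃ c ∈ S, z - c ∈ Submodule.span ℝ (Φ : Set V) ∧ ∀ a ∈ Φ, ⟪c, a⟫ = (0 : ℝ) := by
  classical
  induction Φ using Finset.strongInduction with
  | H Φ ih =>
  intro h0 hneg hrefl hS z hz
  by_cases hbot : Submodule.span ℝ (Φ : Set V) = ⊥
  · refine ⟨z, hz, by simp, ?_⟩
    intro a ha
    exfalso
    apply h0 a ha
    have : a ∈ Submodule.span ℝ (Φ : Set V) := Submodule.subset_span ha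
    rw [hbot] at this
    exact (Submodule.mem_bot ℝ).mp this
  -- a maximal subset not spanning
  have hne : (Φ.powerset.filter (fun Ψ : Finset V => Submodule.span ℝ (Ψ : Set V) ≠
      Submodule.span ℝ (Φ : Set V))).Nonempty := by
    refine ⟨∅, ?_⟩
    rw [Finset.mem_filter]
    refine ⟨Finset.empty_mem_powerset _, ?_⟩
    simpa using fun h => hbot h.symm
  obtain ⟨Ψ, hΨmax⟩ := Finset.exists_maximal hne
  have hΨ1 : Ψ ∈ Φ.powerset.filter (fun Ψ : Finset V => Submodule.span ℝ (Ψ : Set V) ≠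
      Submodule.span ℝ (Φ : Set V)) := hΨmax.1
  rw [Finset.mem_filter, Finset.mem_powerset] at hΨ1
  obtain ⟨hsub, hspan⟩ := hΨ1
  have hmax : ∀ a ∈ Φ, a ∉ Ψ → Submodule.span ℝ ((insert a Ψ : Finset V) : Set V) =
      Submodule.span ℝ (Φ : Set V) := by
    intro a ha haΨ
    by_contra hcon
    have h1 : insert a Ψ ∈ Φ.powerset.filter (fun Ψ : Finset V => Submodule.span ℝ (Ψ : Set V) ≠
        Submodule.span ℝ (Φ : Set V)) := by
      rw [Finset.mem_filter, Finset.mem_powerset]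
      exact ⟨Finset.insert_subset ha hsub, hcon⟩
    have h2 : insert a Ψ ≤ Ψ := hΨmax.2 h1 (Finset.subset_insert a Ψ)
    exact haΨ (h2 (Finset.mem_insert_self a Ψ))
  set H := Submodule.span ℝ (Ψ : Set V) with hH
  have hmemΨ : ∀ a ∈ Φ, a ∈ H → a ∈ Ψ := by
    intro a ha haH
    by_contra hcon
    apply hspan
    rw [← hmax a ha hcon, Finset.coe_insert, Submodule.span_insert_eq_span haH]
  have hHle : H ≤ Submodule.span ℝ (Φ : Set V) := Submodule.span_mono (by exact_mod_cast hsub)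
  have hss : Ψ ⊂ Φ := by
    refine Finset.ssubset_iff_subset_ne.mpr ⟨hsub, ?_⟩
    intro h
    apply hspan
    rw [hH, h]
  obtain ⟨a, haΦ, haΨ⟩ := Finset.exists_of_ssubset hss
  have haH : a ∉ H := fun h => haΨ (hmemΨ a haΦ h)
  have hstar : ∀ v ∈ S, ∃ v' ∈ S, v - v' ∈ H ∧ ∀ b ∈ Ψ, ⟪v', b⟫ = (0 : ℝ) := by
    refine ih Ψ hss (fun b hb => h0 b (hsub hb)) ?_ ?_ ?_
    · intro b hb
      exact hmemΨ _ (hneg b (hsub hb)) (Submodule.neg_mem _ (Submodule.subset_span hb))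
    · intro b hb b' hb'
      exact hmemΨ _ (hrefl b (hsub hb) b' (hsub hb')) (Submodule.sub_mem _
        (Submodule.subset_span hb') (Submodule.smul_mem _ _ (Submodule.subset_span hb)))
    · intro v hv b hb
      exact hS v hv b (hsub hb)
  -- the orthogonal direction
  obtain ⟨e₀, he₀⟩ : ∃ e₀ : V, e₀ = a - H.starProjection a := ⟨_, rfl⟩
  have hprojH : H.starProjection a ∈ H := Submodule.starProjection_apply_mem H a
  have he₀H : ∀ x ∈ H, ⟪x, e₀⟫ = (0 : ℝ) := by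
    intro x hx
    rw [he₀]
    have := Submodule.sub_starProjection_mem_orthogonal (K := H) a
    exact (Submodule.mem_orthogonal H _).mp this x hx
  have he₀span : e₀ ∈ Submodule.span ℝ (Φ : Set V) := by
    rw [he₀]
    exact Submodule.sub_mem _ (Submodule.subset_span haΦ) (hHle hprojH)
  have hdec : ∀ b ∈ Φ, ∃ x ∈ H, ∃ s : ℝ, b = x + s • e₀ := by
    intro b hb
    have h1 : b ∈ Submodule.span ℝ ((insert a Ψ : Finset V) : Set V) := by
      rw [hmax a haΦ haΨ]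
      exact Submodule.subset_span hb
    rw [Finset.coe_insert, Submodule.mem_span_insert] at h1
    obtain ⟨s, x, hx, hbx⟩ := h1
    refine ⟨x + s • H.starProjection a, Submodule.add_mem _ hx (Submodule.smul_mem _ _ hprojH), s, ?_⟩
    rw [hbx, he₀, smul_sub]
    abel
  have hfinish : ∀ v ∈ S, v - z ∈ Submodule.span ℝ (Φ : Set V) → ⟪v, e₀⟫ = (0 : ℝ) →
      ∃ c ∈ S, z - c ∈ Submodule.span ℝ (Φ : Set V) ∧ ∀ a ∈ Φ, ⟪c, a⟫ = (0 : ℝ) := by
    intro v hv hvz hve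
    obtain ⟨v', hv', hvv', hort⟩ := hstar v hv
    refine ⟨v', hv', ?_, ?_⟩
    · have : z - v' = -(v - z) + (v - v') := by abel
      rw [this]
      exact Submodule.add_mem _ (Submodule.neg_mem _ hvz) (hHle hvv')
    · intro b hb
      obtain ⟨x, hx, s, hbx⟩ := hdec b hb
      have h1 : ⟪v', x⟫ = (0 : ℝ) := by
        rw [hH] at hx
        clear hbx
        induction hx using Submodule.span_induction with
        | mem x hx => exact hort x hx
        | zero => exact inner_zero_right _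
        | add x y _ _ hx hy => rw [inner_add_right, hx, hy, add_zero]
        | smul c x _ hx => rw [real_inner_smul_right, hx, mul_zero]
      have h2 : ⟪v', e₀⟫ = (0 : ℝ) := by
        have h3 := he₀H _ hvv'
        rw [inner_sub_left, hve, zero_sub, neg_eq_zero] at h3
        exact h3
      rw [hbx, inner_add_right, real_inner_smul_right, h1, h2, mul_zero, add_zero]
  rcases lt_trichotomy (⟪z, e₀⟫ : ℝ) 0 with hlt | heq | hgt
  · obtain ⟨v, hv, hvz, hve⟩ := Comb_step Φ h0 hrefl S hS hz (-e₀) (Submodule.neg_mem _ he₀span)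
      (by rw [inner_neg_right]; linarith)
    rw [inner_neg_right, neg_eq_zero] at hve
    exact hfinish v hv hvz hve
  · exact hfinish z hz (by simp) heq
  · obtain ⟨v, hv, hvz, hve⟩ := Comb_step Φ h0 hrefl S hS hz e₀ he₀span hgt
    exact hfinish v hv hvz hve

theorem comb_segments (Φ : Finset V) (h0 : ∀ a ∈ Φ, a ≠ 0) (hneg : ∀ a ∈ Φ, -a ∈ Φ)
    (hrefl : ∀ a ∈ Φ, ∀ b ∈ Φ, b - (2 * ⟪b, a⟫ / ‖a‖ ^ 2) • a ∈ Φ) (S : Set V)
    (hS : ∀ v ∈ S, ∀ a ∈ Φ, ∀ τ : ℝ, 0 ≤ τ → τ ≤ 1 → v - (τ * (2 * ⟪v, a⟫ / ‖a‖ ^ 2)) • a ∈ S)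
    {z : V} (hz : z ∈ S) :
    ∃ c ∈ S, z - c ∈ Submodule.span ℝ (Φ : Set V) ∧ ∀ a ∈ Φ, ⟪c, a⟫ = (0 : ℝ) :=
  Comb_main S Φ h0 hneg hrefl hS z hz

end Pool.Agent.W_9986fc_G
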