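import Pool.Agent.W_9986fc_G.AlgSpan
import Pool.Agent.W_9986fc_G.Comb

/-!
# Reduction to the centre

`comb_segments` for `Φ = {± α j | j long}` (`long_reflect`: closed under reflections; `s_{-a} = s_a`) and
`S ∩ t` gives `c ∈ S`, `c ∈ t`, `z - c ∈ span Φ`, `c ⟂ Φ`; by `long_span` `c` is orthogonal to all roots, so
`[c, x k] = [c, y k] = 0`, `[c, h] = 0` for `h ∈ t`, i.e. `ad c = 0` by `span`.
The second part: if `[v, u] = 0` for all `u` then `⟪z - c, v⟫ = 0`, as `⟪α j, v⟫ = ⟪[x j, y j], v⟫ = ⟪x j, [y j, v]⟫ = 0`.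
-/

set_option autoImplicit false

open scoped RealInnerProductSpace

namespace Pool.Agent.W_9986fc_G

variable {V : Type*} [NormedAddCommGroup V] [InnerProductSpace ℝ V] [FiniteDimensional ℝ V]
variable {L : LieIP V} {t : Submodule ℝ V} {n : ℕ} {A : Set (V →L[ℝ] V)}

open Classical in
/-- the long roots and their negatives -/
noncomputable def AlgRed_Phi (R : Roots L t n) : Finset V :=
  (Finset.univ.filter fun j => R.Long j).image R.α ∪
    (Finset.univ.filter fun j => R.Long j).image fun j => -R.α j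

theorem AlgRed_mem {R : Roots L t n} {a : V} :
    a ∈ AlgRed_Phi R ↔ ∃ j, R.Long j ∧ (a = R.α j ∨ a = -R.α j) := by
  classical
  rw [AlgRed_Phi, Finset.mem_union, Finset.mem_image, Finset.mem_image]
  constructor
  · rintro (⟨j, hj, h⟩ | ⟨j, hj, h⟩)
    · exact ⟨j, (Finset.mem_filter.1 hj).2, Or.inl h.symm⟩
    · exact ⟨j, (Finset.mem_filter.1 hj).2, Or.inr h.symm⟩
  · rintro ⟨j, hj, h | h⟩
    · exact Or.inl ⟨j, Finset.mem_filter.2 ⟨Finset.mem_univ _, hj⟩, h.symm⟩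
    · exact Or.inr ⟨j, Finset.mem_filter.2 ⟨Finset.mem_univ _, hj⟩, h.symm⟩

theorem Roots.reduce (R : Roots L t n) (ht : IsTorus L t) (hA : AdGroup L A) (S : Set V)
    (hS : ∀ j, R.Long j → ∀ ξ ∈ S, ξ ∈ t → ∀ τ : ℝ, 0 ≤ τ → τ ≤ 1 →
      ξ - (τ * (2 * ⟪ξ, R.α j⟫ / ‖R.α j‖ ^ 2)) • R.α j ∈ S) {z : V} (hz : z ∈ S) (hzt : z ∈ t) :
    ∃ c ∈ S, (∀ v, L.ad c v = 0) ∧ ∀ v, (∀ u, L.ad v u = 0) → ⟪v, z - c⟫ = (0 : ℝ) := by
  classical
  obtain ⟨c, hc, hspan, hperp⟩ : ∃ c ∈ {v : V | v ∈ S ∧ v ∈ t},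
      z - c ∈ Submodule.span ℝ ((AlgRed_Phi R : Finset V) : Set V) ∧
      ∀ a ∈ AlgRed_Phi R, ⟪c, a⟫ = (0 : ℝ) := by
    apply comb_segments (AlgRed_Phi R)
    · intro a ha
      obtain ⟨j, hj, h | h⟩ := AlgRed_mem.1 ha
      · rw [h]; exact R.ne j
      · rw [h]; exact neg_ne_zero.2 (R.ne j)
    · intro a ha
      obtain ⟨j, hj, h | h⟩ := AlgRed_mem.1 ha
      · exact AlgRed_mem.2 ⟨j, hj, Or.inr (by rw [h])⟩
      · exact AlgRed_mem.2 ⟨j, hj, Or.inl (by rw [h, neg_neg])⟩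
    · intro a ha b hb
      obtain ⟨j, hj, h⟩ := AlgRed_mem.1 ha
      obtain ⟨k, hk, h'⟩ := AlgRed_mem.1 hb
      obtain ⟨l, hl, h2⟩ := R.long_reflect ht hA (j := j) hk
      have key : b - (2 * ⟪b, a⟫ / ‖a‖ ^ 2) • a = refl (R.α j) (R.α k) ∨
          b - (2 * ⟪b, a⟫ / ‖a‖ ^ 2) • a = -refl (R.α j) (R.α k) := by
        rcases h with h | h <;> rcases h' with h' | h'
        · left; rw [h, h']; rfl
        · right; rw [h, h', refl, inner_neg_left, mul_neg, neg_div, neg_smul, neg_sub,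
            sub_neg_eq_add]; abel
        · left; rw [h, h', refl, inner_neg_right, norm_neg, mul_neg, neg_div, neg_smul, smul_neg,
            neg_neg]
        · right; rw [h, h', refl, inner_neg_right, inner_neg_left, neg_neg, norm_neg, smul_neg,
            neg_sub, sub_neg_eq_add]; abel
      rcases key with key | key <;> rcases h2 with h2 | h2
      · rw [key, h2]; exact AlgRed_mem.2 ⟨l, hl, Or.inl rfl⟩
      · rw [key, h2]; exact AlgRed_mem.2 ⟨l, hl, Or.inr rfl⟩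
      · rw [key, h2]; exact AlgRed_mem.2 ⟨l, hl, Or.inr rfl⟩
      · rw [key, h2, neg_neg]; exact AlgRed_mem.2 ⟨l, hl, Or.inl rfl⟩
    · rintro v ⟨hv, hvt⟩ a ha τ h0 h1
      obtain ⟨j, hj, h | h⟩ := AlgRed_mem.1 ha
      · rw [h]
        exact ⟨hS j hj v hv hvt τ h0 h1, t.sub_mem hvt (t.smul_mem _ (R.mem j))⟩
      · have e : v - (τ * (2 * ⟪v, a⟫ / ‖a‖ ^ 2)) • a =
            v - (τ * (2 * ⟪v, R.α j⟫ / ‖R.α j‖ ^ 2)) • R.α j := by
          rw [h, inner_neg_right, norm_neg, mul_neg, neg_div, mul_neg, neg_smul, smul_neg, neg_neg]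
        rw [e]
        exact ⟨hS j hj v hv hvt τ h0 h1, t.sub_mem hvt (t.smul_mem _ (R.mem j))⟩
    · exact ⟨hz, hzt⟩
  have hck : ∀ k, ⟪R.α k, c⟫ = (0 : ℝ) := by
    intro k
    have h1 : ∀ w ∈ Submodule.span ℝ {v | ∃ j, R.Long j ∧ v = R.α j}, ⟪w, c⟫ = (0 : ℝ) := by
      intro w hw
      induction hw using Submodule.span_induction with
      | mem w hw =>
        obtain ⟨j, hj, rfl⟩ := hw
        rw [real_inner_comm]
        exact hperp _ (AlgRed_mem.2 ⟨j, hj, Or.inl rfl⟩)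
      | zero => exact inner_zero_left _
      | add u v _ _ hu hv => rw [inner_add_left, hu, hv, add_zero]
      | smul r u _ hu => rw [real_inner_smul_left, hu, mul_zero]
    exact h1 _ (R.long_span ht hA k)
  refine ⟨c, hc.1, fun v => ?_, fun v hv => ?_⟩
  · obtain ⟨h, hh, hv⟩ := R.span v
    rw [hv, map_add, map_sum, ht.abelian c hc.2 h hh, zero_add]
    refine Finset.sum_eq_zero fun i _ => ?_
    rw [map_add, map_smul, map_smul, R.adx c hc.2, R.ady c hc.2, hck i, zero_smul, zero_smul,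
      neg_zero, smul_zero, smul_zero, add_zero]
  · have hj : ∀ j, ⟪v, R.α j⟫ = (0 : ℝ) := by
      intro j
      rw [← R.br_xy ht j, real_inner_comm, L.inv, L.antisymm, hv, neg_zero, inner_zero_right]
    have h1 : ∀ w ∈ Submodule.span ℝ ((AlgRed_Phi R : Finset V) : Set V), ⟪v, w⟫ = (0 : ℝ) := by
      intro w hw
      induction hw using Submodule.span_induction with
      | mem w hw =>
        obtain ⟨j, _, h | h⟩ := AlgRed_mem.1 hw
        · rw [h, hj]
        · rw [h, inner_neg_right, hj, neg_zero]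
      | zero => exact inner_zero_right _
      | add u w _ _ hu hw => rw [inner_add_right, hu, hw, add_zero]
      | smul r u _ hu => rw [real_inner_smul_right, hu, mul_zero]
    exact h1 _ hspan

end Pool.Agent.W_9986fc_G
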