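import Pool.Agent.W_9986fc_G.AlgRot

/-!
# Reflections permute the roots up to sign

Let `ρ = ‖α j‖`, `s = exp (ad ((π / ρ) • x j)) ∈ A`.  For `h ∈ t`: `h = c₀ + r α j` with `r = ⟪h, α j⟫ / ρ²`,
`⟪c₀, α j⟫ = 0`, `[x j, c₀] = - [c₀, x j] = 0`, so `s c₀ = c₀` (`exp_fix`), and `s (α j) = - α j` (`exp_rot` with
`u = α j`, `v = - ρ y j`, `w = ρ`: `[x j, α j] = - ρ² y j`).  So `s h = h - 2 r α j =: σ h ∈ t`, and `s (σ h) = h`.
Let `u = s (x k)`, `u' = s (y k)`: `[h, u] = [s (σ h), s (x k)] = s [σ h, x k] = ⟪α k, σ h⟫ u'`,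
`[h, u'] = - ⟪α k, σ h⟫ u`, `⟪α k, σ h⟫ = ⟪σ (α k), h⟫`.  `u` is a unit vector orthogonal to `t` (`s` isometry with
`s t = t`), so some `⟪x l, u⟫ ≠ 0` or `⟪y l, u⟫ ≠ 0` (`span`).  `ad h ∘ ad h` is symmetric, with eigenvalue
`- ⟪σ (α k), h⟫²` on `u` and `- ⟪α l, h⟫²` on `x l, y l`; hence `⟪σ (α k), h⟫² = ⟪α l, h⟫²` for all `h ∈ t`.
Two vectors `a, b ∈ t` with `⟪a, h⟫² = ⟪b, h⟫²` for all `h ∈ t` satisfy `a = b` or `a = - b`
(`⟪a - b, h⟫ ⟪a + b, h⟫ = 0`; if `a ≠ b` and `a ≠ -b` take `h` = a combination of `a - b`, `a + b`; e.g. the two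
hyperplanes do not cover `t`; or: `h = a`: `‖a‖² = |⟪a, b⟫|`, `h = b`: `‖b‖² = |⟪a, b⟫|`, so
`‖a ∓ b‖² = 0`).
-/

set_option autoImplicit false

open scoped RealInnerProductSpace

namespace Pool.Agent.W_9986fc_G

variable {V : Type*} [NormedAddCommGroup V] [InnerProductSpace ℝ V] [FiniteDimensional ℝ V]
variable {L : LieIP V} {t : Submodule ℝ V} {n : ℕ} {A : Set (V →L[ℝ] V)}

omit [FiniteDimensional ℝ V] in
/-- Two vectors with the same squared inner products with both of them. -/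
theorem AlgRefl_eq_or {a b : V} (h1 : ⟪a, a⟫ ^ 2 = ⟪b, a⟫ ^ 2) (h2 : ⟪a, b⟫ ^ 2 = ⟪b, b⟫ ^ 2) :
    a = b ∨ a = -b := by
  have hab : ⟪b, a⟫ = ⟪a, b⟫ := real_inner_comm _ _
  have ha0 : 0 ≤ ⟪a, a⟫ := real_inner_self_nonneg
  have hb0 : 0 ≤ ⟪b, b⟫ := real_inner_self_nonneg
  rw [hab] at h1
  have e1 : ⟪a, a⟫ = |⟪a, b⟫| := by
    rw [← abs_of_nonneg ha0]
    exact (sq_eq_sq_iff_abs_eq_abs _ _).1 h1
  have e2 : ⟪b, b⟫ = |⟪a, b⟫| := by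
    rw [← abs_of_nonneg hb0]
    exact (sq_eq_sq_iff_abs_eq_abs _ _).1 h2.symm
  rcases le_total 0 ⟪a, b⟫ with h | h
  · left
    rw [abs_of_nonneg h] at e1 e2
    have h3 : ⟪a - b, a - b⟫ = 0 := by
      rw [inner_sub_left, inner_sub_right, inner_sub_right, hab, e1, e2]
      ring
    exact sub_eq_zero.1 (inner_self_eq_zero.1 h3)
  · right
    rw [abs_of_nonpos h] at e1 e2
    have h3 : ⟪a + b, a + b⟫ = 0 := by
      rw [inner_add_left, inner_add_right, inner_add_right, hab, e1, e2]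
      ring
    exact eq_neg_of_add_eq_zero_left (inner_self_eq_zero.1 h3)

theorem Roots.reflect (R : Roots L t n) (ht : IsTorus L t) (hA : AdGroup L A) (j k : Fin n) :
    ∃ l, R.α k - (2 * ⟪R.α k, R.α j⟫ / ‖R.α j‖ ^ 2) • R.α j = R.α l ∨
      R.α k - (2 * ⟪R.α k, R.α j⟫ / ‖R.α j‖ ^ 2) • R.α j = -R.α l := by
  have hρ : 0 < ‖R.α j‖ := norm_pos_iff.2 (R.ne j)
  have hρ2 : ⟪R.α j, R.α j⟫ = ‖R.α j‖ ^ 2 := real_inner_self_eq_norm_sq _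
  have hρ3 : ‖R.α j‖ ^ 2 ≠ 0 := pow_ne_zero 2 hρ.ne'
  generalize ‖R.α j‖ = ρ at hρ hρ2 hρ3 ⊢
  obtain ⟨S, hS, hSA⟩ : ∃ S : V →L[ℝ] V,
      S = NormedSpace.exp (L.ad ((Real.pi / ρ) • R.x j)) ∧ S ∈ A := ⟨_, rfl, hA.exp_mem _⟩
  -- the reflection
  obtain ⟨σ, hσ⟩ : ∃ σ : V → V, ∀ h, σ h = h - (2 * ⟪h, R.α j⟫ / ρ ^ 2) • R.α j := ⟨_, fun _ => rfl⟩
  have hσt : ∀ h ∈ t, σ h ∈ t := fun h hh => by
    rw [hσ]
    exact t.sub_mem hh (t.smul_mem _ (R.mem j))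
  have hσσ : ∀ h, σ (σ h) = h := fun h => by
    have h1 : ⟪σ h, R.α j⟫ = -⟪h, R.α j⟫ := by
      rw [hσ, inner_sub_left, real_inner_smul_left, hρ2]
      field_simp
      ring
    rw [hσ (σ h), h1, hσ h]
    have h2 : (2 * -⟪h, R.α j⟫ / ρ ^ 2) = -(2 * ⟪h, R.α j⟫ / ρ ^ 2) := by ring
    rw [h2, neg_smul]
    abel
  have hσs : ∀ a h, ⟪a, σ h⟫ = ⟪σ a, h⟫ := fun a h => by
    rw [hσ, hσ, inner_sub_left, inner_sub_right, real_inner_smul_left, real_inner_smul_right,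
      real_inner_comm (R.α j) h]
    ring
  -- `S` on `t`
  have hSα : S (R.α j) = -R.α j := by
    have h1 : L.ad (R.x j) (R.α j) = ρ • (-(ρ • R.y j)) := by
      rw [L.antisymm, R.adx _ (R.mem j), hρ2, smul_neg, smul_smul, sq]
    have h2 : L.ad (R.x j) (-(ρ • R.y j)) = -(ρ • R.α j) := by
      rw [map_neg, map_smul, R.br_xy ht]
    have h3 := exp_rot L h1 h2 (Real.pi / ρ)
    rw [hS, h3, mul_div_cancel₀ _ hρ.ne', Real.cos_pi, Real.sin_pi, zero_smul, add_zero, neg_smul,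
      one_smul]
  have hSt : ∀ h ∈ t, S h = σ h := fun h hh => by
    have h1 : h = (h - (⟪h, R.α j⟫ / ρ ^ 2) • R.α j) + (⟪h, R.α j⟫ / ρ ^ 2) • R.α j := by abel
    have hc : h - (⟪h, R.α j⟫ / ρ ^ 2) • R.α j ∈ t := t.sub_mem hh (t.smul_mem _ (R.mem j))
    have hc0 : ⟪R.α j, h - (⟪h, R.α j⟫ / ρ ^ 2) • R.α j⟫ = 0 := by
      rw [inner_sub_right, real_inner_smul_right, hρ2, real_inner_comm (R.α j) h]
      field_simp
      ring
    have h2 : S (h - (⟪h, R.α j⟫ / ρ ^ 2) • R.α j) = h - (⟪h, R.α j⟫ / ρ ^ 2) • R.α j := by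
      rw [hS]
      refine exp_fix L ?_
      rw [map_smul]
      change (Real.pi / ρ) • L.ad (R.x j) _ = 0
      rw [L.antisymm, R.adx _ hc, hc0, zero_smul, neg_zero, smul_zero]
    have h3 : S h = S (h - (⟪h, R.α j⟫ / ρ ^ 2) • R.α j) + S ((⟪h, R.α j⟫ / ρ ^ 2) • R.α j) := by
      rw [← map_add, ← h1]
    rw [h3, h2, map_smul, hSα, hσ]
    have h4 : (2 * ⟪h, R.α j⟫ / ρ ^ 2) = ⟪h, R.α j⟫ / ρ ^ 2 + ⟪h, R.α j⟫ / ρ ^ 2 := by ring
    rw [h4, add_smul, smul_neg]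
    abel
  have hSσ : ∀ h ∈ t, S (σ h) = h := fun h hh => by rw [hSt _ (hσt h hh), hσσ]
  -- the root vectors `S (x k)`, `S (y k)`
  have hu : ∀ h ∈ t, L.ad h (S (R.x k)) = ⟪σ (R.α k), h⟫ • S (R.y k) := fun h hh => by
    have h1 := hA.hom hSA (σ h) (R.x k)
    rw [hSσ h hh, R.adx _ (hσt h hh), map_smul, hσs] at h1
    exact h1.symm
  have hu' : ∀ h ∈ t, L.ad h (S (R.y k)) = -(⟪σ (R.α k), h⟫ • S (R.x k)) := fun h hh => by
    have h1 := hA.hom hSA (σ h) (R.y k)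
    rw [hSσ h hh, R.ady _ (hσt h hh), map_neg, map_smul, hσs] at h1
    exact h1.symm
  have huu : ⟪S (R.x k), S (R.x k)⟫ = 1 := by
    rw [hA.inner hSA, R.xx, if_pos rfl]
  have hut : ∀ h ∈ t, ⟪h, S (R.x k)⟫ = 0 := fun h hh => by
    have h1 := hA.inner hSA (σ h) (R.x k)
    rw [hSσ h hh, R.tx _ (hσt h hh)] at h1
    exact h1
  -- a root vector which is not orthogonal to `S (x k)`
  obtain ⟨l, z, hz, hzl⟩ : ∃ (l : Fin n) (z : V), ⟪z, S (R.x k)⟫ ≠ 0 ∧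
      ∀ h ∈ t, L.ad h (L.ad h z) = -(⟪R.α l, h⟫ ^ 2 • z) := by
    by_contra hcon
    have hx : ∀ l, ⟪R.x l, S (R.x k)⟫ = 0 := fun l => by
      by_contra h
      refine hcon ⟨l, R.x l, h, fun h hh => ?_⟩
      rw [R.adx h hh, map_smul, R.ady h hh, smul_neg, smul_smul, sq]
    have hy : ∀ l, ⟪R.y l, S (R.x k)⟫ = 0 := fun l => by
      by_contra h
      refine hcon ⟨l, R.y l, h, fun h hh => ?_⟩
      rw [R.ady h hh, map_neg, map_smul, R.adx h hh, smul_smul, sq]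
    obtain ⟨h₀, hh₀, he⟩ := R.span (S (R.x k))
    have h1 : S (R.x k) = h₀ := by
      rw [he]
      have h2 : ∑ i, (⟪R.x i, S (R.x k)⟫ • R.x i + ⟪R.y i, S (R.x k)⟫ • R.y i) = 0 :=
        Finset.sum_eq_zero fun i _ => by rw [hx, hy, zero_smul, zero_smul, add_zero]
      rw [h2, add_zero]
    have h2 := hut h₀ hh₀
    rw [← h1, huu] at h2
    exact one_ne_zero h2
  have key : ∀ h ∈ t, ⟪σ (R.α k), h⟫ ^ 2 = ⟪R.α l, h⟫ ^ 2 := fun h hh => by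
    have h1 : ⟪L.ad h (L.ad h z), S (R.x k)⟫ = ⟪z, L.ad h (L.ad h (S (R.x k)))⟫ := by
      rw [L.skew, L.skew, neg_neg]
    rw [hzl h hh, hu h hh, map_smul, hu' h hh, inner_neg_left, real_inner_smul_left, smul_neg,
      smul_smul, inner_neg_right, real_inner_smul_right, neg_inj, ← sq] at h1
    exact (mul_right_cancel₀ hz h1).symm
  have ha : σ (R.α k) ∈ t := hσt _ (R.mem k)
  refine ⟨l, ?_⟩
  rw [← hσ]
  exact AlgRefl_eq_or (key _ ha) (key _ (R.mem l))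

end Pool.Agent.W_9986fc_G
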