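import Pool.Agent.W_9986fc_G.Alg0

/-!
# One root plane

Let `U ≠ 0` be a subspace orthogonal to the torus `t` and invariant under `ad h`, `h ∈ t`.  The operators
`ad h ∘ ad k` (`h, k ∈ t`) restricted to `U` are symmetric (`L.skew` twice, and `ad h`, `ad k` commute by
Jacobi and `ad h k = 0`) and commute.  Hence there is a common unit eigenvector `u ∈ U`:
`ad h (ad k u) = - b h k • u` for all `h, k ∈ t` (use
`LinearMap.IsSymmetric.directSum_isInternal_of_pairwise_commute` for the finite family of the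
`ad (h i) ∘ ad (h j)`, `h i` a basis of `t`, on `U`; or an induction on the dimension of `U`: if some
`ad h ∘ ad k` is not a scalar on `U` pass to a proper eigenspace, which is invariant under all `ad l`).
`u ∉ t`, so `ad k u ≠ 0` for some `k ∈ t` (maximality of `t`), `y = ad k u / ‖ad k u‖`.  `b h k = ⟪ad h u, ad k u⟫`.
For `h ∈ t`: `ad h (ad k (ad h (ad k u))) = (b h k)² u` and it is `ad h (ad h (ad k (ad k u))) =
b h h * b k k • u`, so `‖ad h u‖² ‖ad k u‖² = ⟪ad h u, ad k u⟫²` and by the equality case of Cauchy-Schwarz (or: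
`‖ad h u - c y‖² = 0` with `c = b h k / ‖ad k u‖`) `ad h u = c h • y`, `c h = b h k / ‖ad k u‖` linear in `h`;
let `α ∈ t` be the vector with `⟪α, h⟫ = c h` on `t` (orthogonal projection to `t` of the Riesz vector).
Then `ad h y = ad h (ad k u) / ‖ad k u‖ = - (b h k / ‖ad k u‖) u = - c h u`.
`y ⟂ u` (`⟪u, ad k u⟫ = 0` by skewness), `‖y‖ = 1`, `y ∈ U`, `α ≠ 0` as `c k = ‖ad k u‖ ≠ 0`.
-/

set_option autoImplicit false

open scoped RealInnerProductSpace

namespace Pool.Agent.W_9986fc_G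

variable {V : Type*} [NormedAddCommGroup V] [InnerProductSpace ℝ V] [FiniteDimensional ℝ V]

/-- the maps `ad h`, `h ∈ t`, commute -/
theorem torus_comm {L : LieIP V} {t : Submodule ℝ V} (ht : IsTorus L t) {h k : V} (hh : h ∈ t)
    (hk : k ∈ t) (v : V) : L.ad h (L.ad k v) = L.ad k (L.ad h v) := by
  rw [L.jacobi, ht.abelian h hh k hk, map_zero]
  change 0 + _ = _
  rw [zero_add]

/-- a common eigenvector of the maps `ad h ∘ ad k` -/
theorem algRootA_common {L : LieIP V} {t : Submodule ℝ V} (ht : IsTorus L t) :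
    ∀ (n : ℕ) (U : Submodule ℝ V), Module.finrank ℝ U = n → U ≠ ⊥ →
      (∀ h ∈ t, ∀ u ∈ U, L.ad h u ∈ U) →
      ∃ u ∈ U, u ≠ 0 ∧ ∀ h ∈ t, ∀ k ∈ t, ∃ c : ℝ, L.ad h (L.ad k u) = c • u := by
  intro n
  induction n using Nat.strong_induction_on with
  | _ n ih =>
    intro U hn hU hinv
    by_cases hsc : ∀ h ∈ t, ∀ k ∈ t, ∃ c : ℝ, ∀ u ∈ U, L.ad h (L.ad k u) = c • u
    · obtain ⟨u, hu, hu0⟩ := Submodule.exists_mem_ne_zero_of_ne_bot hU
      refine ⟨u, hu, hu0, fun h hh k hk => ?_⟩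
      obtain ⟨c, hc⟩ := hsc h hh k hk
      exact ⟨c, hc u hu⟩
    · push Not at hsc
      obtain ⟨h, hh, k, hk, hc⟩ := hsc
      -- the restricted operator
      let T : U →ₗ[ℝ] U := LinearMap.restrict
        ((L.ad h).toLinearMap ∘ₗ (L.ad k).toLinearMap)
        (fun u hu => hinv h hh _ (hinv k hk u hu))
      have hTa : ∀ u : U, ((T u : U) : V) = L.ad h (L.ad k (u : V)) := fun u => rfl
      have hTs : T.IsSymmetric := by
        intro u v
        change ⟪((T u : U) : V), (v : V)⟫ = ⟪(u : V), ((T v : U) : V)⟫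
        rw [hTa, hTa, L.skew, L.skew, neg_neg, torus_comm ht hh hk]
      haveI : Nontrivial U := Submodule.nontrivial_iff_ne_bot.2 hU
      have hev := hTs.hasEigenvalue_iSup_of_finiteDimensional
      obtain ⟨μ, hμ⟩ : ∃ μ : ℝ, Module.End.HasEigenvalue T μ := ⟨_, hev⟩
      obtain ⟨w, hw⟩ := hμ.exists_hasEigenvector
      have hw1 : L.ad h (L.ad k (w : V)) = μ • (w : V) := by
        have := hw.apply_eq_smul
        rw [← hTa, this]
        rfl
      have hw0 : (w : V) ≠ 0 := fun h0 => hw.2 (Subtype.ext h0)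
      let U' : Submodule ℝ V :=
        { carrier := {u | u ∈ U ∧ L.ad h (L.ad k u) = μ • u}
          add_mem' := by
            rintro a b ⟨ha, ha'⟩ ⟨hb, hb'⟩
            exact ⟨U.add_mem ha hb, by rw [map_add, map_add, ha', hb', smul_add]⟩
          zero_mem' := ⟨U.zero_mem, by simp⟩
          smul_mem' := by
            rintro c a ⟨ha, ha'⟩
            exact ⟨U.smul_mem c ha, by rw [map_smul, map_smul, ha', smul_comm]⟩ }
      have hU'U : U' ≤ U := fun u hu => hu.1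
      have hU'ne : U' ≠ U := by
        intro he
        obtain ⟨u, hu, hne⟩ := hc μ
        rw [← he] at hu
        exact hne hu.2
      have hlt : Module.finrank ℝ U' < n := by
        rw [← hn]
        exact Submodule.finrank_lt_finrank_of_lt (lt_of_le_of_ne hU'U hU'ne)
      have hU'b : U' ≠ ⊥ := by
        intro he
        have : (w : V) ∈ U' := ⟨w.2, hw1⟩
        rw [he, Submodule.mem_bot] at this
        exact hw0 this
      obtain ⟨u, hu, hu0, huc⟩ := ih _ hlt U' rfl hU'b (by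
        intro l hl u hu
        refine ⟨hinv l hl u hu.1, ?_⟩
        rw [torus_comm ht hk hl, torus_comm ht hh hl, hu.2, map_smul])
      exact ⟨u, hU'U hu, hu0, huc⟩

theorem exists_plane {L : LieIP V} {t : Submodule ℝ V} (ht : IsTorus L t) (U : Submodule ℝ V)
    (hU : U ≠ ⊥) (hperp : ∀ u ∈ U, ∀ h ∈ t, ⟪h, u⟫ = (0 : ℝ))
    (hinv : ∀ h ∈ t, ∀ u ∈ U, L.ad h u ∈ U) :
    ∃ x y α : V, x ∈ U ∧ y ∈ U ∧ α ∈ t ∧ α ≠ 0 ∧ ⟪x, x⟫ = (1 : ℝ) ∧ ⟪y, y⟫ = (1 : ℝ) ∧
      ⟪x, y⟫ = (0 : ℝ) ∧ (∀ h ∈ t, L.ad h x = ⟪α, h⟫ • y) ∧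
      ∀ h ∈ t, L.ad h y = -(⟪α, h⟫ • x) := by
  obtain ⟨u0, hu0, hu00, huc0⟩ := algRootA_common ht _ U rfl hU hinv
  -- normalise
  obtain ⟨u, hu, huu, huc⟩ : ∃ u ∈ U, ⟪u, u⟫ = (1 : ℝ) ∧
      ∀ h ∈ t, ∀ k ∈ t, ∃ c : ℝ, L.ad h (L.ad k u) = c • u := by
    refine ⟨‖u0‖⁻¹ • u0, U.smul_mem _ hu0, ?_, fun h hh k hk => ?_⟩
    · have : ‖u0‖ ≠ 0 := norm_ne_zero_iff.2 hu00
      rw [inner_smul_left, inner_smul_right, real_inner_self_eq_norm_sq]
      simp only [conj_trivial]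
      field_simp
    · obtain ⟨c, hc⟩ := huc0 h hh k hk
      exact ⟨c, by rw [map_smul, map_smul, hc, smul_comm]⟩
  have hb : ∀ h ∈ t, ∀ k ∈ t, L.ad h (L.ad k u) = -(⟪L.ad h u, L.ad k u⟫ • u) := by
    intro h hh k hk
    obtain ⟨c, hc⟩ := huc h hh k hk
    have h1 : ⟪u, L.ad h (L.ad k u)⟫ = c := by
      rw [hc, inner_smul_right, huu, mul_one]
    rw [L.skew', ] at h1
    rw [hc, ← h1, neg_smul]
  have hut : u ∉ t := by
    intro hut
    have := hperp u hu u hut
    rw [huu] at this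
    exact one_ne_zero this
  obtain ⟨k, hk, hku⟩ : ∃ k ∈ t, L.ad k u ≠ 0 := by
    by_contra hcon
    push Not at hcon
    exact hut (ht.maximal u hcon)
  set r : ℝ := ‖L.ad k u‖ with hr
  have hr0 : r ≠ 0 := norm_ne_zero_iff.2 hku
  have hrr : ⟪L.ad k u, L.ad k u⟫ = r ^ 2 := by rw [real_inner_self_eq_norm_sq]
  have hcs : ∀ h ∈ t, ⟪L.ad h u, L.ad h u⟫ * r ^ 2 = ⟪L.ad h u, L.ad k u⟫ ^ 2 := by
    intro h hh
    have e1 : L.ad h (L.ad k (L.ad h (L.ad k u))) = (⟪L.ad h u, L.ad k u⟫ ^ 2) • u := by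
      rw [hb h hh k hk, map_neg, map_neg, map_smul, map_smul, hb h hh k hk, smul_neg, neg_neg,
        smul_smul, sq]
    have e2 : L.ad h (L.ad k (L.ad h (L.ad k u))) =
        (⟪L.ad h u, L.ad h u⟫ * r ^ 2) • u := by
      rw [torus_comm ht hk hh, hb k hk k hk, hrr, map_neg, map_neg, map_smul, map_smul,
        hb h hh h hh, smul_neg, neg_neg, smul_smul, mul_comm]
    have e3 : (⟪L.ad h u, L.ad h u⟫ * r ^ 2) • u = (⟪L.ad h u, L.ad k u⟫ ^ 2) • u := by
      rw [← e2, e1]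
    have e4 := congrArg (fun v => ⟪u, v⟫) e3
    simp only [inner_smul_right, huu, mul_one] at e4
    exact e4
  have hadh : ∀ h ∈ t, L.ad h u = (⟪L.ad h u, L.ad k u⟫ / r ^ 2) • L.ad k u := by
    intro h hh
    have h0 : ⟪L.ad h u - (⟪L.ad h u, L.ad k u⟫ / r ^ 2) • L.ad k u,
        L.ad h u - (⟪L.ad h u, L.ad k u⟫ / r ^ 2) • L.ad k u⟫ = (0 : ℝ) := by
      rw [inner_sub_left, inner_sub_right, inner_sub_right, inner_smul_left, inner_smul_right,
        inner_smul_left, inner_smul_right, hrr, real_inner_comm (L.ad h u) (L.ad k u)]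
      simp only [conj_trivial]
      have := hcs h hh
      field_simp
      linarith
    exact sub_eq_zero.1 (inner_self_eq_zero.1 h0)
  -- the vector α
  set w : V := L.ad u (L.ad k u) with hw
  have hwh : ∀ h : V, ⟪L.ad h u, L.ad k u⟫ = ⟪h, w⟫ := fun h => L.inv h u _
  have hαh : ∀ h ∈ t, ⟪r⁻¹ • t.starProjection w, h⟫ = r⁻¹ * ⟪L.ad h u, L.ad k u⟫ := by
    intro h hh
    rw [inner_smul_left, conj_trivial, hwh]
    congr 1
    have h1 := t.starProjection_inner_eq_zero w h hh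
    rw [inner_sub_left, sub_eq_zero] at h1
    rw [← h1, real_inner_comm]
  refine ⟨u, r⁻¹ • L.ad k u, r⁻¹ • t.starProjection w, hu, U.smul_mem _ (hinv k hk u hu),
    t.smul_mem _ (t.starProjection_apply_mem w), ?_, huu, ?_, ?_, ?_, ?_⟩
  · intro h0
    have h1 := hαh k hk
    rw [h0, inner_zero_left, hrr] at h1
    field_simp at h1
    exact hr0 h1.symm
  · rw [inner_smul_left, inner_smul_right, hrr, conj_trivial]
    field_simp
  · rw [inner_smul_right]
    have h1 : ⟪u, L.ad k u⟫ = (0 : ℝ) := by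
      have h2 := L.skew' k u u
      rw [real_inner_comm (L.ad k u) u] at h2
      linarith [h2, real_inner_comm (L.ad k u) u]
    rw [h1, mul_zero]
  · intro h hh
    rw [hαh h hh, smul_smul]
    conv_lhs => rw [hadh h hh]
    congr 1
    field_simp
  · intro h hh
    rw [hαh h hh, map_smul, hb h hh k hk, smul_neg, smul_smul]

end Pool.Agent.W_9986fc_G
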