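import Pool.Agent.W_9986fc_G.AlgRootA

/-!
# Existence of the root planes

Strong induction on `finrank U` for a subspace `U` orthogonal to `t` and invariant under `t`: there are root
planes as in `Roots` spanning `U`, i.e. `∀ v ∈ U, v = ∑ i, (⟪x i, v⟫ • x i + ⟪y i, v⟫ • y i)`.  If `U ≠ ⊥` take
`x, y` from `exists_plane`; `U' = {u ∈ U | ⟪x, u⟫ = ⟪y, u⟫ = 0}` is invariant by `L.skew`, of smaller
dimension.  (Families on `Fin n`: `Fin.cons`.)  Finally `U = tᗮ` (invariant by `L.skew` and `abelian`), and
`v = P_t v + (v - P_t v)`.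
-/

set_option autoImplicit false

open scoped RealInnerProductSpace

namespace Pool.Agent.W_9986fc_G

variable {V : Type*} [NormedAddCommGroup V] [InnerProductSpace ℝ V] [FiniteDimensional ℝ V]

/-- root planes spanning a subspace `U` -/
theorem algRootB_aux {L : LieIP V} {t : Submodule ℝ V} (ht : IsTorus L t) :
    ∀ (m : ℕ) (U : Submodule ℝ V), Module.finrank ℝ U = m →
      (∀ u ∈ U, ∀ h ∈ t, ⟪h, u⟫ = (0 : ℝ)) → (∀ h ∈ t, ∀ u ∈ U, L.ad h u ∈ U) →
      ∃ (n : ℕ) (x y α : Fin n → V), (∀ i, x i ∈ U) ∧ (∀ i, y i ∈ U) ∧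
        (∀ i j, ⟪x i, x j⟫ = if i = j then (1 : ℝ) else 0) ∧
        (∀ i j, ⟪y i, y j⟫ = if i = j then (1 : ℝ) else 0) ∧
        (∀ i j, ⟪x i, y j⟫ = (0 : ℝ)) ∧
        (∀ v ∈ U, v = ∑ i, (⟪x i, v⟫ • x i + ⟪y i, v⟫ • y i)) ∧
        (∀ i, α i ∈ t) ∧ (∀ i, α i ≠ 0) ∧
        (∀ h ∈ t, ∀ i, L.ad h (x i) = ⟪α i, h⟫ • y i) ∧
        (∀ h ∈ t, ∀ i, L.ad h (y i) = -(⟪α i, h⟫ • x i)) := by
  intro m
  induction m using Nat.strong_induction_on with
  | _ m ih =>
    intro U hm hperp hinv
    by_cases hU : U = ⊥
    · refine ⟨0, Fin.elim0, Fin.elim0, Fin.elim0, fun i => i.elim0, fun i => i.elim0,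
        fun i => i.elim0, fun i => i.elim0, fun i => i.elim0, ?_, fun i => i.elim0,
        fun i => i.elim0, fun _ _ i => i.elim0, fun _ _ i => i.elim0⟩
      intro v hv
      rw [hU, Submodule.mem_bot] at hv
      rw [hv]
      simp
    · obtain ⟨x0, y0, a0, hx0, hy0, ha0, ha0', hxx, hyy, hxy, hadx, hady⟩ :=
        exists_plane ht U hU hperp hinv
      have hyx : ⟪y0, x0⟫ = (0 : ℝ) := by rw [real_inner_comm]; exact hxy
      let U' : Submodule ℝ V :=
        { carrier := {u | u ∈ U ∧ ⟪x0, u⟫ = (0 : ℝ) ∧ ⟪y0, u⟫ = (0 : ℝ)}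
          add_mem' := by
            rintro a b ⟨ha, ha', ha''⟩ ⟨hb, hb', hb''⟩
            exact ⟨U.add_mem ha hb, by rw [inner_add_right, ha', hb', add_zero],
              by rw [inner_add_right, ha'', hb'', add_zero]⟩
          zero_mem' := ⟨U.zero_mem, inner_zero_right _, inner_zero_right _⟩
          smul_mem' := by
            rintro c a ⟨ha, ha', ha''⟩
            exact ⟨U.smul_mem c ha, by rw [inner_smul_right, ha', mul_zero],
              by rw [inner_smul_right, ha'', mul_zero]⟩ }
      have hU'U : U' ≤ U := fun u hu => hu.1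
      have hU'ne : U' ≠ U := by
        intro he
        have h1 : x0 ∈ U' := by rw [he]; exact hx0
        have h2 := h1.2.1
        rw [hxx] at h2
        exact one_ne_zero h2
      have hlt : Module.finrank ℝ U' < m := by
        rw [← hm]
        exact Submodule.finrank_lt_finrank_of_lt (lt_of_le_of_ne hU'U hU'ne)
      obtain ⟨n, x, y, α, hxU, hyU, hxx', hyy', hxy', hsp, hα, hα', hX, hY⟩ :=
        ih _ hlt U' rfl (fun u hu => hperp u hu.1) (by
          intro h hh u hu
          refine ⟨hinv h hh u hu.1, ?_, ?_⟩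
          · rw [L.skew', hadx h hh, inner_smul_left, hu.2.2, mul_zero, neg_zero]
          · rw [L.skew', hady h hh, inner_neg_left, inner_smul_left, hu.2.1, mul_zero, neg_zero,
              neg_zero])
      refine ⟨n + 1, Fin.cons x0 x, Fin.cons y0 y, Fin.cons a0 α, ?_, ?_, ?_, ?_, ?_, ?_, ?_, ?_,
        ?_, ?_⟩
      · intro i
        refine Fin.cases ?_ (fun i => ?_) i
        · simpa using hx0
        · simpa using hU'U (hxU i)
      · intro i
        refine Fin.cases ?_ (fun i => ?_) i
        · simpa using hy0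
        · simpa using hU'U (hyU i)
      · intro i j
        refine Fin.cases ?_ (fun i => ?_) i <;> refine Fin.cases ?_ (fun j => ?_) j
        · simpa using hxx
        · have := (hxU j).2.1
          rw [Fin.cons_zero, Fin.cons_succ, this, if_neg (Fin.succ_ne_zero j).symm]
        · have := (hxU i).2.1
          rw [Fin.cons_zero, Fin.cons_succ, real_inner_comm, this,
            if_neg (Fin.succ_ne_zero i)]
        · rw [Fin.cons_succ, Fin.cons_succ, hxx' i j]
          simp only [Fin.succ_inj]
      · intro i j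
        refine Fin.cases ?_ (fun i => ?_) i <;> refine Fin.cases ?_ (fun j => ?_) j
        · simpa using hyy
        · have := (hyU j).2.2
          rw [Fin.cons_zero, Fin.cons_succ, this, if_neg (Fin.succ_ne_zero j).symm]
        · have := (hyU i).2.2
          rw [Fin.cons_zero, Fin.cons_succ, real_inner_comm, this,
            if_neg (Fin.succ_ne_zero i)]
        · rw [Fin.cons_succ, Fin.cons_succ, hyy' i j]
          simp only [Fin.succ_inj]
      · intro i j
        refine Fin.cases ?_ (fun i => ?_) i <;> refine Fin.cases ?_ (fun j => ?_) j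
        · simpa using hxy
        · rw [Fin.cons_zero, Fin.cons_succ]
          exact (hyU j).2.1
        · rw [Fin.cons_zero, Fin.cons_succ, real_inner_comm]
          exact (hxU i).2.2
        · rw [Fin.cons_succ, Fin.cons_succ]
          exact hxy' i j
      · intro v hv
        rw [Fin.sum_univ_succ]
        simp only [Fin.cons_zero, Fin.cons_succ]
        set v' : V := v - (⟪x0, v⟫ • x0 + ⟪y0, v⟫ • y0) with hv'
        have hv'U : v' ∈ U' := by
          refine ⟨U.sub_mem hv (U.add_mem (U.smul_mem _ hx0) (U.smul_mem _ hy0)), ?_, ?_⟩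
          · rw [hv', inner_sub_right, inner_add_right, inner_smul_right, inner_smul_right, hxx,
              hxy]
            ring
          · rw [hv', inner_sub_right, inner_add_right, inner_smul_right, inner_smul_right, hyy,
              hyx]
            ring
        have h1 := hsp v' hv'U
        have h2 : ∀ i, ⟪x i, v'⟫ = ⟪x i, v⟫ := by
          intro i
          rw [hv', inner_sub_right, inner_add_right, inner_smul_right, inner_smul_right,
            real_inner_comm x0 (x i), real_inner_comm y0 (x i), (hxU i).2.1, (hxU i).2.2]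
          ring
        have h3 : ∀ i, ⟪y i, v'⟫ = ⟪y i, v⟫ := by
          intro i
          rw [hv', inner_sub_right, inner_add_right, inner_smul_right, inner_smul_right,
            real_inner_comm x0 (y i), real_inner_comm y0 (y i), (hyU i).2.1, (hyU i).2.2]
          ring
        simp only [h2, h3] at h1
        rw [← h1, hv']
        abel
      · intro i
        refine Fin.cases ?_ (fun i => ?_) i
        · simpa using ha0
        · simpa using hα i
      · intro i
        refine Fin.cases ?_ (fun i => ?_) i
        · simpa using ha0'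
        · simpa using hα' i
      · intro h hh i
        refine Fin.cases ?_ (fun i => ?_) i
        · simpa using hadx h hh
        · simpa using hX h hh i
      · intro h hh i
        refine Fin.cases ?_ (fun i => ?_) i
        · simpa using hady h hh
        · simpa using hY h hh i

theorem exists_roots {L : LieIP V} {t : Submodule ℝ V} (ht : IsTorus L t) :
    ∃ n, Nonempty (Roots L t n) := by
  have hperp : ∀ u ∈ tᗮ, ∀ h ∈ t, ⟪h, u⟫ = (0 : ℝ) := fun u hu h hh =>
    (Submodule.mem_orthogonal t u).1 hu h hh
  have hinv : ∀ h ∈ t, ∀ u ∈ tᗮ, L.ad h u ∈ tᗮ := by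
    intro h hh u hu
    rw [Submodule.mem_orthogonal]
    intro k hk
    rw [L.skew', ht.abelian h hh k hk, inner_zero_left, neg_zero]
  obtain ⟨n, x, y, α, hxU, hyU, hxx, hyy, hxy, hsp, hα, hα', hX, hY⟩ :=
    algRootB_aux ht _ tᗮ rfl hperp hinv
  refine ⟨n, ⟨{ x := x, y := y, α := α, xx := hxx, yy := hyy, xy := hxy,
                tx := fun h hh i => hperp _ (hxU i) h hh,
                ty := fun h hh i => hperp _ (hyU i) h hh,
                span := ?_, mem := hα, ne := hα', adx := hX, ady := hY }⟩⟩
  intro v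
  refine ⟨t.starProjection v, t.starProjection_apply_mem v, ?_⟩
  have h1 := hsp _ (t.sub_starProjection_mem_orthogonal v)
  have h2 : ∀ i, ⟪x i, v - t.starProjection v⟫ = ⟪x i, v⟫ := by
    intro i
    rw [inner_sub_right, real_inner_comm (t.starProjection v) (x i),
      hperp _ (hxU i) _ (t.starProjection_apply_mem v), sub_zero]
  have h3 : ∀ i, ⟪y i, v - t.starProjection v⟫ = ⟪y i, v⟫ := by
    intro i
    rw [inner_sub_right, real_inner_comm (t.starProjection v) (y i),
      hperp _ (hyU i) _ (t.starProjection_apply_mem v), sub_zero]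
  simp only [h2, h3] at h1
  rw [← h1]
  abel

end Pool.Agent.W_9986fc_G
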