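import Mathlib

/-!
# A clopen argument for affine maps `ℝ³ → ℝ³`

`D = {z ∈ Z | ∀ η, ‖η‖ ≤ R → b z + M z η ≠ 0}`.
If `z ∉ D` there is `η` with `‖η‖ ≤ R`, `b z + M z η = 0`; by `hsph` `‖η‖ < R`.  `M z` is injective: if `M z κ = 0`,
`κ ≠ 0`, then by continuity some `η + τ κ` has norm `R` (intermediate value theorem for `τ ↦ ‖η + τ κ‖`, which
is `< R` at 0 and tends to infinity) and `b z + M z (η + τ κ) = 0`, contradicting `hsph`.  So `M z` is invertible
(`E3` finite dimensional), and for `z'` near `z` in `Z`, `M z'` is invertible and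
`η' = - (M z')⁻¹ (b z')` is near `η`, of norm `< R`: `z' ∉ D`.  (Concretely: inversion of continuous linear
equivalences is continuous, `ContinuousLinearMap.inverse`, `NormedRing.inverse_continuousAt`; or use
determinants and Cramer's rule.)
`D` is relatively open: compactness of the ball (`IsCompact.exists_isMinOn` / tube lemma).
`Z` preconnected: since `D ≠ Z` by `hex`, `D = ∅` and all `M z` are injective.
-/

set_option autoImplicit false

open scoped RealInnerProductSpace

namespace Pool.Agent.W_9986fc_G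

/-- the space `ℝ³` -/
abbrev E3 : Type := EuclideanSpace ℝ (Fin 3)

/-- interior zeros of an affine map without zeros on the sphere are unique -/
theorem Clopen3_inj {r : ℝ} (B : E3) (N : E3 →L[ℝ] E3)
    (hsph : ∀ η : E3, ‖η‖ = r → B + N η ≠ 0) (η : E3) (hη : ‖η‖ ≤ r) (h0 : B + N η = 0) :
    Function.Injective N := by
  rw [injective_iff_map_eq_zero]
  intro κ hκ
  by_contra hne
  have hκ0 : 0 < ‖κ‖ := norm_pos_iff.mpr hne
  have hcont : Continuous (fun τ : ℝ => ‖η + τ • κ‖) := by fun_prop
  have hT : (0 : ℝ) ≤ (r + ‖η‖) / ‖κ‖ := by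
    have := norm_nonneg η
    exact div_nonneg (by linarith) hκ0.le
  have hiv := intermediate_value_Icc hT hcont.continuousOn
  have h1 : r ∈ Set.Icc ‖η + (0 : ℝ) • κ‖ ‖η + ((r + ‖η‖) / ‖κ‖) • κ‖ := by
    constructor
    · simpa using hη
    · have h2 : ‖((r + ‖η‖) / ‖κ‖) • κ‖ = r + ‖η‖ := by
        rw [norm_smul, Real.norm_of_nonneg hT]
        field_simp
      have h3 : ‖((r + ‖η‖) / ‖κ‖) • κ‖ ≤ ‖η + ((r + ‖η‖) / ‖κ‖) • κ‖ + ‖η‖ := by
        have := norm_sub_le (η + ((r + ‖η‖) / ‖κ‖) • κ) η
        simpa using this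
      linarith
  obtain ⟨τ, -, hτ⟩ := hiv h1
  apply hsph (η + τ • κ) hτ
  rw [map_add, map_smul, hκ, smul_zero, add_zero]
  exact h0

theorem Clopen3_aux {X : Type*} [TopologicalSpace X] [PreconnectedSpace X]
    {b : X → E3} {M : X → E3 →L[ℝ] E3} (hb : Continuous b) (hM : Continuous M) {r : ℝ}
    (hsph : ∀ z, ∀ η : E3, ‖η‖ = r → b z + M z η ≠ 0)
    (hex : ∃ z, ∃ η : E3, ‖η‖ ≤ r ∧ b z + M z η = 0) :
    ∀ z, Function.Injective (M z) := by
  set D : Set X := {z | ∀ η ∈ Metric.closedBall (0 : E3) r, b z + M z η ≠ 0} with hD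
  have hDopen : IsOpen D := by
    rw [isOpen_iff_mem_nhds]
    intro z hz
    have hK : IsCompact (Metric.closedBall (0 : E3) r) := isCompact_closedBall 0 r
    have hcont : Continuous (fun p : X × E3 => b p.1 + M p.1 p.2) := by
      have h1 : Continuous (fun p : X × E3 => M p.1 p.2) :=
        (hM.comp continuous_fst).clm_apply continuous_snd
      exact (hb.comp continuous_fst).add h1
    have := hK.eventually_forall_of_forall_eventually (x₀ := z)
      (P := fun z' η => b z' + M z' η ≠ 0) (fun η hη => by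
        exact hcont.continuousAt.eventually_ne (hz η hη))
    exact this
  have hDclosed : IsClosed D := by
    rw [← isOpen_compl_iff, isOpen_iff_mem_nhds]
    intro z hz
    have : ∃ η : E3, ‖η‖ ≤ r ∧ b z + M z η = 0 := by
      by_contra hcon
      apply hz
      intro η hη h0
      exact hcon ⟨η, by simpa using hη, h0⟩
    obtain ⟨η, hη, h0⟩ := this
    have hinj := Clopen3_inj (b z) (M z) (hsph z) η hη h0
    have hlt : ‖η‖ < r := lt_of_le_of_ne hη (fun h => hsph z η h h0)
    have hunit : IsUnit (M z) := by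
      have hbij : Function.Bijective (M z : E3 →ₗ[ℝ] E3) :=
        ⟨hinj, LinearMap.injective_iff_surjective.mp hinj⟩
      let e : E3 ≃L[ℝ] E3 :=
        (LinearEquiv.ofBijective (M z : E3 →ₗ[ℝ] E3) hbij).toContinuousLinearEquiv
      refine ⟨⟨M z, (e.symm : E3 →L[ℝ] E3), ?_, ?_⟩, rfl⟩
      · ext1 v
        change M z (e.symm v) = v
        have : e (e.symm v) = v := e.apply_symm_apply v
        exact this
      · ext1 v
        change e.symm (M z v) = v
        have : e.symm (e v) = v := e.symm_apply_apply v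
        exact this
    obtain ⟨u, hu⟩ := hunit
    have hinv : ContinuousAt (fun z' => Ring.inverse (M z')) z := by
      have h1 : ContinuousAt Ring.inverse (M z) := by
        rw [← hu]
        exact NormedRing.inverse_continuousAt u
      exact ContinuousAt.comp (f := M) h1 hM.continuousAt
    have hη' : ContinuousAt (fun z' => -((Ring.inverse (M z')) (b z'))) z :=
      (hinv.clm_apply hb.continuousAt).neg
    have hval : -((Ring.inverse (M z)) (b z)) = η := by
      have h1 : Ring.inverse (M z) * M z = 1 := Ring.inverse_mul_cancel _ ⟨u, hu⟩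
      have h2 : b z = - M z η := eq_neg_of_add_eq_zero_left h0
      have h3 : (Ring.inverse (M z)) (M z η) = η := by
        have := congrArg (fun T : E3 →L[ℝ] E3 => T η) h1
        simpa using this
      rw [h2, map_neg, h3, neg_neg]
    have hev1 : ∀ᶠ z' in nhds z, ‖-((Ring.inverse (M z')) (b z'))‖ < r := by
      have hc : ContinuousAt (fun z' => ‖-((Ring.inverse (M z')) (b z'))‖) z := hη'.norm
      have : ‖-((Ring.inverse (M z)) (b z))‖ < r := by rw [hval]; exact hlt
      exact hc.eventually (gt_mem_nhds this) 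
    have hev2 : ∀ᶠ z' in nhds z, IsUnit (M z') := by
      have h1 : {T : E3 →L[ℝ] E3 | IsUnit T} ∈ nhds (M z) := by
        rw [← hu]
        exact Units.nhds u
      exact hM.continuousAt.eventually h1
    filter_upwards [hev1, hev2] with z' h1 h2
    intro hzD
    apply hzD (-((Ring.inverse (M z')) (b z'))) (by simpa using h1.le)
    have h3 : M z' * Ring.inverse (M z') = 1 := Ring.mul_inverse_cancel _ h2
    have h4 : M z' ((Ring.inverse (M z')) (b z')) = b z' := by
      have := congrArg (fun T : E3 →L[ℝ] E3 => T (b z')) h3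
      simpa using this
    rw [map_neg, h4, add_neg_cancel]
  have hclopen : IsClopen D := ⟨hDclosed, hDopen⟩
  have hempty : D = ∅ := by
    rcases isClopen_iff.mp hclopen with h | h
    · exact h
    · exfalso
      obtain ⟨z, η, hη, h0⟩ := hex
      have hz : z ∈ D := by rw [h]; exact Set.mem_univ z
      exact hz η (by simpa using hη) h0
  intro z
  have hz : z ∉ D := by rw [hempty]; exact Set.notMem_empty z
  have : ∃ η : E3, ‖η‖ ≤ r ∧ b z + M z η = 0 := by
    by_contra hcon
    apply hz
    intro η hη h0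
    exact hcon ⟨η, by simpa using hη, h0⟩
  obtain ⟨η, hη, h0⟩ := this
  exact Clopen3_inj (b z) (M z) (hsph z) η hη h0

theorem clopen3 {Y : Type*} [TopologicalSpace Y] {Z : Set Y} (hZ : IsPreconnected Z)
    {b : Y → E3} {M : Y → E3 →L[ℝ] E3} (hb : ContinuousOn b Z) (hM : ContinuousOn M Z) {r : ℝ}
    (hsph : ∀ z ∈ Z, ∀ η : E3, ‖η‖ = r → b z + M z η ≠ 0)
    (hex : ∃ z ∈ Z, ∃ η : E3, ‖η‖ ≤ r ∧ b z + M z η = 0) :
    ∀ z ∈ Z, Function.Injective (M z) := by
  have : PreconnectedSpace Z := isPreconnected_iff_preconnectedSpace.mp hZ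
  have hb' : Continuous (Z.domRestrict b) := continuousOn_iff_continuous_domRestrict.mp hb
  have hM' : Continuous (Z.domRestrict M) := continuousOn_iff_continuous_domRestrict.mp hM
  have := Clopen3_aux (X := Z) (b := Z.domRestrict b) (M := Z.domRestrict M) hb' hM' (r := r)
    (fun z η hη => hsph z z.2 η hη) (by
      obtain ⟨z, hz, η, h1, h2⟩ := hex
      exact ⟨⟨z, hz⟩, η, h1, h2⟩)
  intro z hz
  exact this ⟨z, hz⟩

end Pool.Agent.W_9986fc_G
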