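import Pool.Agent.W_9986fc_G.AlgAvoid
import Pool.Agent.W_9986fc_G.Clopen3

/-!
# Segments along long roots

`ξ ∈ t`, `r = ⟪ξ, α j⟫ / ‖α j‖²`, `c₀ = ξ - r α j`: `c₀ ∈ t`, `⟪c₀, α j⟫ = 0`, so `[c₀, x j] = [c₀, y j] = 0`.  The point
of the statement is `c₀ + (1 - 2 τ) r α j`.  For `η ∈ su j` with `‖η‖ = |r| ‖α j‖` there is `s ∈ A` with
`s (r α j) = η`, `s c₀ = c₀` (`sphere`), so `s ξ = c₀ + η` and `w + ψ (g (c₀ + η)) = w + ψ ((g * s) ξ) ≠ 0` for all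
`g ∈ A`.  Suppose `w + ψ (g₀ (c₀ + (1 - 2τ) r α j)) = 0` for some `g₀ ∈ A`.  Let `ι : E3 → V` be the isometry onto
`su j` given by the orthonormal vectors `x j, y j, α j / ‖α j‖`.  `clopen3` with `Z = A`,
`b g = w + ψ (g c₀)`, `M g = ψ ∘ g ∘ ι`, radius `|r| ‖α j‖`, gives: `ψ ∘ g ∘ ι` is injective for all
`g ∈ A`.  Let `a` be the Riesz vector of the first component of `ψ` (`⟪a, v⟫ = ψ v 0`).  By `avoid` some
`g ∈ A` has `g a ⟂ su j`; let `g' ∈ A` be its inverse: `ψ (g' q) 0 = ⟪a, g' q⟫ = ⟪g a, q⟫ = 0` for `q ∈ su j`.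
So `ψ ∘ g' ∘ ι` maps `E3` to the plane of vectors with first component 0: not injective.
-/

set_option autoImplicit false

open scoped RealInnerProductSpace

namespace Pool.Agent.W_9986fc_G

variable {V : Type*} [NormedAddCommGroup V] [InnerProductSpace ℝ V] [FiniteDimensional ℝ V]
variable {L : LieIP V} {t : Submodule ℝ V} {n : ℕ} {A : Set (V →L[ℝ] V)}

/-- the isometry of `ℝ³` onto `su j` -/
noncomputable def Roots.AlgSeg_iota (R : Roots L t n) (j : Fin n) : E3 →L[ℝ] V :=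
  LinearMap.toContinuousLinearMap
    { toFun := fun η => η 0 • R.x j + η 1 • R.y j + (η 2 / ‖R.α j‖) • R.α j
      map_add' := by
        intro a b
        simp only [PiLp.add_apply, add_smul, add_div]
        abel
      map_smul' := by
        intro c a
        simp only [PiLp.smul_apply, smul_eq_mul, RingHom.id_apply, smul_add, smul_smul,
          mul_div_assoc] }

omit [FiniteDimensional ℝ V] in
theorem Roots.AlgSeg_iota_apply (R : Roots L t n) (j : Fin n) (η : E3) :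
    R.AlgSeg_iota j η = η 0 • R.x j + η 1 • R.y j + (η 2 / ‖R.α j‖) • R.α j := rfl

omit [FiniteDimensional ℝ V] in
theorem Roots.AlgSeg_iota_mem (R : Roots L t n) (j : Fin n) (η : E3) :
    R.AlgSeg_iota j η ∈ R.su j := by
  rw [R.AlgSeg_iota_apply]
  unfold Roots.su
  refine Submodule.add_mem _ (Submodule.add_mem _ ?_ ?_) ?_ <;>
    refine Submodule.smul_mem _ _ (Submodule.subset_span ?_) <;> simp

omit [FiniteDimensional ℝ V] in
theorem Roots.AlgSeg_iota_norm (R : Roots L t n) (j : Fin n) (η : E3) :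
    ‖R.AlgSeg_iota j η‖ = ‖η‖ := by
  have hρ : ‖R.α j‖ ≠ 0 := norm_ne_zero_iff.mpr (R.ne j)
  have h1 : ‖R.AlgSeg_iota j η‖ ^ 2 = ‖η‖ ^ 2 := by
    rw [← real_inner_self_eq_norm_sq, R.AlgSeg_iota_apply, EuclideanSpace.norm_sq_eq,
      Fin.sum_univ_three]
    simp only [inner_add_left, inner_add_right, real_inner_smul_left, real_inner_smul_right]
    rw [R.xx, R.yy, R.xy, R.tx _ (R.mem j), R.ty _ (R.mem j), real_inner_comm (R.α j) (R.x j),
      real_inner_comm (R.α j) (R.y j), real_inner_comm (R.x j) (R.y j), R.xy, R.tx _ (R.mem j),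
      R.ty _ (R.mem j), real_inner_self_eq_norm_sq]
    simp only [if_true, Real.norm_eq_abs, sq_abs]
    field_simp
    ring
  have h2 : ‖R.AlgSeg_iota j η‖ = |‖η‖| := by
    rw [← sq_eq_sq₀ (norm_nonneg _) (abs_nonneg _), sq_abs]
    exact h1
  rw [h2, abs_norm]

theorem Roots.segment (R : Roots L t n) (ht : IsTorus L t) (hA : AdGroup L A) {j : Fin n}
    (hj : R.Long j) (hne : ∃ k, k ≠ j ∧ ⟪R.α k, R.α j⟫ ≠ (0 : ℝ)) (ψ : V →ₗ[ℝ] E3) (w : E3)
    {ξ : V} (hξ : ξ ∈ t) (h : ∀ g ∈ A, w + ψ (g ξ) ≠ 0) {τ : ℝ} (h0 : 0 ≤ τ) (h1 : τ ≤ 1) :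
    ∀ g ∈ A, w + ψ (g (ξ - (τ * (2 * ⟪ξ, R.α j⟫ / ‖R.α j‖ ^ 2)) • R.α j)) ≠ 0 := by
  have hcomp : CompleteSpace V := FiniteDimensional.complete ℝ V
  have hρ : ‖R.α j‖ ≠ 0 := norm_ne_zero_iff.mpr (R.ne j)
  intro g₀ hg₀ hzero
  obtain ⟨r, hr⟩ : ∃ r : ℝ, r = ⟪ξ, R.α j⟫ / ‖R.α j‖ ^ 2 := ⟨_, rfl⟩
  obtain ⟨c₀, hc₀⟩ : ∃ c₀ : V, c₀ = ξ - r • R.α j := ⟨_, rfl⟩
  have hc₀t : c₀ ∈ t := by
    rw [hc₀]
    exact Submodule.sub_mem _ hξ (Submodule.smul_mem _ _ (R.mem j))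
  have hc₀α : (⟪R.α j, c₀⟫ : ℝ) = 0 := by
    rw [hc₀, inner_sub_right, real_inner_smul_right, real_inner_self_eq_norm_sq, hr,
      div_mul_cancel₀ _ (pow_ne_zero 2 hρ), real_inner_comm ξ (R.α j), sub_self]
  have hc₀x : L.ad c₀ (R.x j) = 0 := by rw [R.adx _ hc₀t, hc₀α, zero_smul]
  have hc₀y : L.ad c₀ (R.y j) = 0 := by rw [R.ady _ hc₀t, hc₀α, zero_smul, neg_zero]
  have hξ' : ξ = c₀ + r • R.α j := by rw [hc₀, sub_add_cancel]
  set ψL : V →L[ℝ] E3 := LinearMap.toContinuousLinearMap ψ with hψL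
  have hψ : ∀ v, ψL v = ψ v := fun v => rfl
  have hinj := clopen3 (Y := V →L[ℝ] V) (Z := A) hA.isPreconnected
    (b := fun g => w + ψL (g c₀)) (M := fun g => ψL ∘L (g ∘L R.AlgSeg_iota j))
    (by fun_prop) (by fun_prop) (r := |r| * ‖R.α j‖) (by
      intro g hg η hη
      obtain ⟨s, hs, hs1, hs2⟩ := R.sphere ht hA j (η := R.AlgSeg_iota j η)
        (R.AlgSeg_iota_mem j η) (r := r) (by rw [R.AlgSeg_iota_norm, hη])
      have h3 := h (g * s) (hA.mul_mem g hg s hs)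
      have h4 : (g * s) ξ = g c₀ + g (R.AlgSeg_iota j η) := by
        change g (s ξ) = _
        rw [hξ', map_add, hs1, hs2 c₀ hc₀x hc₀y, map_add]
      rw [h4, map_add, ← add_assoc] at h3
      exact h3) (by
      refine ⟨g₀, hg₀, EuclideanSpace.single 2 ((1 - 2 * τ) * r * ‖R.α j‖), ?_, ?_⟩
      · rw [EuclideanSpace.norm_single, Real.norm_eq_abs, abs_mul, abs_mul, abs_norm]
        have h5 : |1 - 2 * τ| ≤ 1 := by
          rw [abs_le]; constructor <;> linarith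
        have h6 : 0 ≤ |r| * ‖R.α j‖ := by positivity
        calc |1 - 2 * τ| * |r| * ‖R.α j‖ = |1 - 2 * τ| * (|r| * ‖R.α j‖) := by ring
          _ ≤ 1 * (|r| * ‖R.α j‖) := mul_le_mul_of_nonneg_right h5 h6
          _ = _ := one_mul _
      · have h7 : R.AlgSeg_iota j (EuclideanSpace.single 2 ((1 - 2 * τ) * r * ‖R.α j‖)) =
            ((1 - 2 * τ) * r) • R.α j := by
          rw [R.AlgSeg_iota_apply]
          simp [hρ]
        change w + ψL (g₀ c₀) + ψL (g₀ (R.AlgSeg_iota j _)) = 0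
        rw [h7, add_assoc, ← map_add, ← map_add]
        have h8 : c₀ + ((1 - 2 * τ) * r) • R.α j =
            ξ - (τ * (2 * ⟪ξ, R.α j⟫ / ‖R.α j‖ ^ 2)) • R.α j := by
          have h9 : τ * (2 * ⟪ξ, R.α j⟫ / ‖R.α j‖ ^ 2) = 2 * τ * r := by
            rw [hr]; ring
          rw [h9, hc₀]
          module
        rw [h8]
        exact hzero)
  obtain ⟨g, hg, hort⟩ := R.avoid ht hA hj hne
    ((InnerProductSpace.toDual ℝ V).symm ((EuclideanSpace.proj (0 : Fin 3) : E3 →L[ℝ] ℝ) ∘L ψL))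
  obtain ⟨a, ha⟩ : ∃ a : V, a = (InnerProductSpace.toDual ℝ V).symm
    ((EuclideanSpace.proj (0 : Fin 3) : E3 →L[ℝ] ℝ) ∘L ψL) := ⟨_, rfl⟩
  rw [← ha] at hort
  have haψ : ∀ v, (⟪a, v⟫ : ℝ) = ψL v 0 := by
    intro v
    rw [ha, InnerProductSpace.toDual_symm_apply]
    rfl
  obtain ⟨g', hg', hgg', -⟩ := hA.exists_inv hg
  have hinj' := hinj g' hg'
  have hsurj : Function.Surjective ((ψL ∘L (g' ∘L R.AlgSeg_iota j) : E3 →L[ℝ] E3) : E3 →ₗ[ℝ] E3) :=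
    LinearMap.injective_iff_surjective.mp hinj'
  obtain ⟨η, hη⟩ := hsurj (EuclideanSpace.single 0 1)
  have h10 : ψL (g' (R.AlgSeg_iota j η)) = EuclideanSpace.single 0 1 := hη
  have h11 : ψL (g' (R.AlgSeg_iota j η)) 0 = 0 := by
    rw [← haψ, ← hA.inner hg]
    have h12 : g (g' (R.AlgSeg_iota j η)) = R.AlgSeg_iota j η :=
      congrArg (fun T : V →L[ℝ] V => T (R.AlgSeg_iota j η)) hgg'
    rw [h12]
    exact hort _ (R.AlgSeg_iota_mem j η)
  rw [h10] at h11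
  simp at h11

end Pool.Agent.W_9986fc_G
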