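import Pool.Agent.W_9986fc_G.AlgRefl

/-!
# Long roots: reflections and span

* `long_reflect`: if `k` is long then the root `± α l = s_j (α k)` is long: `‖α l‖ = ‖α k‖`; if `⟪α m, α l⟫ ≠ 0` then
  `⟪s_j (α m), α k⟫ ≠ 0` (`s_j` is a symmetric involution), `s_j (α m) = ± α m'`, `‖α m‖ = ‖α m'‖ ≤ ‖α k‖`.
* `long_span`: let `W` = span of the long roots; suppose some root is not in `W` and take `k` with `α k ∉ W` and
  `‖α k‖` maximal.  `k` is not long (otherwise `α k ∈ W`), so there is `m` with `⟪α m, α k⟫ ≠ 0`, `‖α m‖ > ‖α k‖`, so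
  `α m ∈ W`.  `s_k (α m) = α m - (2 ⟪α m, α k⟫ / ‖α k‖²) α k = ± α l`, `‖α l‖ = ‖α m‖ > ‖α k‖`, so `α l ∈ W`, and
  then `α k ∈ W` because the coefficient is not 0.
-/

set_option autoImplicit false

open scoped RealInnerProductSpace

namespace Pool.Agent.W_9986fc_G

variable {V : Type*} [NormedAddCommGroup V] [InnerProductSpace ℝ V] [FiniteDimensional ℝ V]
variable {L : LieIP V} {t : Submodule ℝ V} {n : ℕ} {A : Set (V →L[ℝ] V)}

/-- the reflection in the hyperplane orthogonal to `a` -/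
noncomputable def refl (a v : V) : V := v - (2 * ⟪v, a⟫ / ‖a‖ ^ 2) • a

theorem AlgSpan_inner (a v w : V) : ⟪refl a v, w⟫ = ⟪v, refl a w⟫ := by
  unfold refl
  rw [inner_sub_left, inner_sub_right, real_inner_smul_left, real_inner_smul_right,
    real_inner_comm w a]
  ring

theorem AlgSpan_norm {a : V} (ha : a ≠ 0) (v : V) : ‖refl a v‖ = ‖v‖ := by
  have h0 : ‖a‖ ^ 2 ≠ 0 := pow_ne_zero _ (norm_ne_zero_iff.2 ha)
  have h1 : ‖refl a v‖ ^ 2 = ‖v‖ ^ 2 := by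
    unfold refl
    rw [norm_sub_sq_real, real_inner_smul_right, norm_smul, mul_pow, Real.norm_eq_abs, sq_abs]
    field_simp
    ring
  exact (sq_eq_sq₀ (norm_nonneg _) (norm_nonneg _)).1 h1

theorem AlgSpan_reflect (R : Roots L t n) (ht : IsTorus L t) (hA : AdGroup L A) (j k : Fin n) :
    ∃ l, (refl (R.α j) (R.α k) = R.α l ∨ refl (R.α j) (R.α k) = -R.α l) ∧
      ‖R.α l‖ = ‖R.α k‖ := by
  obtain ⟨l, hl⟩ := R.reflect ht hA j k
  refine ⟨l, hl, ?_⟩
  rw [← AlgSpan_norm (R.ne j) (R.α k)]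
  rcases hl with hl | hl
  · exact (congrArg norm hl).symm
  · rw [← norm_neg]
    exact (congrArg norm hl).symm

theorem Roots.long_reflect (R : Roots L t n) (ht : IsTorus L t) (hA : AdGroup L A) {j k : Fin n}
    (hk : R.Long k) : ∃ l, R.Long l ∧ (refl (R.α j) (R.α k) = R.α l ∨
      refl (R.α j) (R.α k) = -R.α l) := by
  obtain ⟨l, hl, hn⟩ := AlgSpan_reflect R ht hA j k
  refine ⟨l, fun m hm => ?_, hl⟩
  obtain ⟨m', hm', hn'⟩ := AlgSpan_reflect R ht hA j m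
  rw [hn, ← hn']
  apply hk
  intro h0
  apply hm
  have h1 : ⟪refl (R.α j) (R.α m), R.α k⟫ = 0 := by
    rcases hm' with h | h
    · rw [h, h0]
    · rw [h, inner_neg_left, h0, neg_zero]
  rw [AlgSpan_inner] at h1
  rcases hl with h | h
  · rw [← h, h1]
  · have h2 : R.α l = -refl (R.α j) (R.α k) := by rw [h, neg_neg]
    rw [h2, inner_neg_right, h1, neg_zero]

theorem Roots.long_span (R : Roots L t n) (ht : IsTorus L t) (hA : AdGroup L A) (k : Fin n) :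
    R.α k ∈ Submodule.span ℝ {v | ∃ j, R.Long j ∧ v = R.α j} := by
  classical
  set W : Submodule ℝ V := Submodule.span ℝ {v | ∃ j, R.Long j ∧ v = R.α j} with hW
  by_contra hk
  obtain ⟨k₀, hk₀, hmax⟩ := Finset.exists_max_image
    (Finset.univ.filter fun k : Fin n => R.α k ∉ W) (fun k => ‖R.α k‖)
    ⟨k, Finset.mem_filter.2 ⟨Finset.mem_univ _, hk⟩⟩
  have hk0 : R.α k₀ ∉ W := (Finset.mem_filter.1 hk₀).2
  have hbig : ∀ m, ‖R.α k₀‖ < ‖R.α m‖ → R.α m ∈ W := by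
    intro m hm
    by_contra h
    exact absurd (hmax m (Finset.mem_filter.2 ⟨Finset.mem_univ _, h⟩)) (not_le.2 hm)
  have hnl : ¬ R.Long k₀ := fun h => hk0 (Submodule.subset_span ⟨k₀, h, rfl⟩)
  unfold Roots.Long at hnl
  push Not at hnl
  obtain ⟨m, hm1, hm2⟩ := hnl
  obtain ⟨l, hl, hn⟩ := AlgSpan_reflect R ht hA k₀ m
  have hmW := hbig m hm2
  have hlW := hbig l (by rw [hn]; exact hm2)
  have hrW : refl (R.α k₀) (R.α m) ∈ W := by
    rcases hl with h | h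
    · rw [h]
      exact hlW
    · rw [h]
      exact W.neg_mem hlW
  have h0 : ‖R.α k₀‖ ^ 2 ≠ 0 := pow_ne_zero _ (norm_ne_zero_iff.2 (R.ne k₀))
  have hc : 2 * ⟪R.α m, R.α k₀⟫ / ‖R.α k₀‖ ^ 2 ≠ 0 :=
    div_ne_zero (mul_ne_zero two_ne_zero hm1) h0
  have h3 : (2 * ⟪R.α m, R.α k₀⟫ / ‖R.α k₀‖ ^ 2) • R.α k₀ ∈ W := by
    have h4 := W.sub_mem hmW hrW
    unfold refl at h4
    rwa [sub_sub_cancel] at h4
  exact hk0 ((W.smul_mem_iff hc).1 h3)

end Pool.Agent.W_9986fc_G
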