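import Pool.Agent.W_9986fc_G.Alg0

/-!
# Every element lies in a maximal abelian subspace

Among the abelian subspaces containing `z` (e.g. `ℝ z`, by `L.ad_self`) take one, `t`, of maximal
dimension (`Module.finrank`, bounded by `finrank V`).  If `c` commutes with `t` then `t ⊔ ℝ c` is abelian,
so it has the same dimension and `c ∈ t`.
-/

set_option autoImplicit false

open scoped RealInnerProductSpace

namespace Pool.Agent.W_9986fc_G

variable {V : Type*} [NormedAddCommGroup V] [InnerProductSpace ℝ V] [FiniteDimensional ℝ V]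

theorem exists_torus (L : LieIP V) (z : V) : ∃ t : Submodule ℝ V, z ∈ t ∧ IsTorus L t := by
  obtain ⟨t, ⟨hz, hab⟩, hmax⟩ := (wellFounded_gt (α := Submodule ℝ V)).has_min
    {t : Submodule ℝ V | z ∈ t ∧ ∀ h ∈ t, ∀ k ∈ t, L.ad h k = 0} ⟨Submodule.span ℝ {z},
      Submodule.mem_span_singleton_self z, fun h hh k hk => by
        obtain ⟨a, rfl⟩ := Submodule.mem_span_singleton.1 hh
        obtain ⟨b, rfl⟩ := Submodule.mem_span_singleton.1 hk
        rw [map_smul, map_smul]
        change b • a • L.ad z z = 0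
        rw [L.ad_self, smul_zero, smul_zero]⟩
  refine ⟨t, hz, hab, fun c hc => ?_⟩
  have h1 : t ⊔ Submodule.span ℝ {c} ∈
      {t : Submodule ℝ V | z ∈ t ∧ ∀ h ∈ t, ∀ k ∈ t, L.ad h k = 0} := by
    refine ⟨Submodule.mem_sup_left hz, fun h hh k hk => ?_⟩
    obtain ⟨h1, hh1, h2, hh2, rfl⟩ := Submodule.mem_sup.1 hh
    obtain ⟨k1, hk1, k2, hk2, rfl⟩ := Submodule.mem_sup.1 hk
    obtain ⟨a, rfl⟩ := Submodule.mem_span_singleton.1 hh2
    obtain ⟨b, rfl⟩ := Submodule.mem_span_singleton.1 hk2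
    have e1 : L.ad c k1 = 0 := by rw [L.antisymm, hc k1 hk1, neg_zero]
    have e2 : L.ad c (k1 + b • c) = 0 := by
      rw [map_add, map_smul, e1, L.ad_self, smul_zero, add_zero]
    have e3 : L.ad h1 (k1 + b • c) = 0 := by
      rw [map_add, map_smul, hab h1 hh1 k1 hk1, hc h1 hh1, smul_zero, add_zero]
    have e4 : L.ad (h1 + a • c) (k1 + b • c) =
        L.ad h1 (k1 + b • c) + a • L.ad c (k1 + b • c) := by
      rw [map_add L.ad, map_smul L.ad]
      rfl
    rw [e4, e3, e2, smul_zero, add_zero]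
  have h2 : ¬ t < t ⊔ Submodule.span ℝ {c} := hmax _ h1
  have h3 : t ⊔ Submodule.span ℝ {c} = t := by
    by_contra hne
    exact h2 (lt_of_le_of_ne le_sup_left (Ne.symm hne))
  rw [← h3]
  exact Submodule.mem_sup_right (Submodule.mem_span_singleton_self c)

end Pool.Agent.W_9986fc_G
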