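import Pool.Agent.W_9986fc_G.EllC

/-!
# Thurston's construction: `t Ω` is a coupling form for large `t`

* `q6_large`: `q6 (t • b + l) = t² q6 b + t B(b, l) + q6 l`; on the compact set `D`, `|q6 (b y)| ≥ δ > 0`, `|b y k| ≤ C`, so
  `|q6 (t • b + l)| ≥ t² δ - 6 t C B - 3 B² > 0` for large `t`.
* `exists_smul`: `β = fun x => t • Ω x` (as elements of the space of alternating maps; `locForm` is linear).
* `big_local`: chart `c = x₀`, `y₀ = φ (x₀)`, section `σ` over `U ∋ x₀`; `D` a compact neighbourhood of `y₀` in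
  `{y ∈ dom c | inv c y ∈ U}` (open), `W = inv c '' D` is a neighbourhood of `x₀`.  For `f ∈ F x`, `x = inv c y`, `f = σ x * a`,
  `a ∈ G`: `ellc c y f (Φ.mu m) = ellc c y (σ x) (a * Φ.mu m * a*)` (`curv_mul`).  The set of the matrices
  `a * Φ.mu m * a*` is bounded (`Y` compact, `Φ.mu` continuous, entries of `a` bounded by 1), and
  `ξ ↦ ellc c y (σ x) ξ` is linear with coefficients continuous in `y ∈ D` (`continuousOn_ellc` for the
  matrix units and `Complex.I` times matrix units), so these components are bounded by some `B`.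
  `q6_large` with `b = bbc Ω c` (nonzero on `D` by `chart_change` with `ξ = 0` and `nondeg_iff` at `ξ = 0`,
  `hΩ.nondeg`) and `chart_change` for `t • Ω`: state it for `β` with `val2 β = t * val2 Ω` (`bb β = t • bb Ω`).
* `big`: finite subcover.  `clauseB`: `exists_smul`, `coupling_iff`.
-/

set_option autoImplicit false

open scoped Manifold ContDiff Matrix Topology

namespace Pool.Agent.W_9986fc_G

open Pool.Agent.W_MP_d8b8b7_S

universe u

variable {X : Type u} [TopologicalSpace X] [ChartedSpace E4 X] [IsManifold I4 ∞ X] {K N : ℕ}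
variable {G : Set (Mat N N)} {g : Submodule ℝ (Mat N N)} {F : X → Set (Mat K N)}

theorem Big_two {x y B C : ℝ} (hx : |x| ≤ C) (hy : |y| ≤ B) : |x * y| ≤ C * B := by
  rw [abs_mul]
  exact mul_le_mul hx hy (abs_nonneg _) ((abs_nonneg _).trans hx)

theorem Big_q6 (t : ℝ) (b l : Fin 6 → ℝ) : q6 (t • b + l) = t ^ 2 * q6 b +
    t * (b 0 * l 5 + b 5 * l 0 - b 1 * l 4 - b 4 * l 1 + b 2 * l 3 + b 3 * l 2) + q6 l := by
  unfold q6
  simp only [Pi.add_apply, Pi.smul_apply, smul_eq_mul]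
  ring

theorem Big_bound {b l : Fin 6 → ℝ} {B C δ t : ℝ} (hb : ∀ k, |b k| ≤ C) (hl : ∀ k, |l k| ≤ B)
    (hδ : 0 < δ) (hδ' : δ ≤ |q6 b|) (ht1 : 1 ≤ t) (ht : δ + 6 * C * B + 3 * B ^ 2 ≤ t * δ) :
    q6 (t • b + l) ≠ 0 := by
  intro h
  rw [Big_q6] at h
  have hB : 0 ≤ B := (abs_nonneg _).trans (hl 0)
  have hC : 0 ≤ C := (abs_nonneg _).trans (hb 0)
  have e1 := abs_le.1 (Big_two (hb 0) (hl 5))
  have e2 := abs_le.1 (Big_two (hb 5) (hl 0))
  have e3 := abs_le.1 (Big_two (hb 1) (hl 4))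
  have e4 := abs_le.1 (Big_two (hb 4) (hl 1))
  have e5 := abs_le.1 (Big_two (hb 2) (hl 3))
  have e6 := abs_le.1 (Big_two (hb 3) (hl 2))
  have f1 := abs_le.1 (Big_two (hl 0) (hl 5))
  have f2 := abs_le.1 (Big_two (hl 1) (hl 4))
  have f3 := abs_le.1 (Big_two (hl 2) (hl 3))
  have hP : |b 0 * l 5 + b 5 * l 0 - b 1 * l 4 - b 4 * l 1 + b 2 * l 3 + b 3 * l 2| ≤
      6 * (C * B) := by
    rw [abs_le]
    constructor
    · linarith [e1.1, e2.1, e3.2, e4.2, e5.1, e6.1]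
    · linarith [e1.2, e2.2, e3.1, e4.1, e5.2, e6.2]
  have hQ : |q6 l| ≤ 3 * (B * B) := by
    unfold q6
    rw [abs_le]
    constructor
    · linarith [f1.1, f2.2, f3.1]
    · linarith [f1.2, f2.1, f3.2]
  set P := b 0 * l 5 + b 5 * l 0 - b 1 * l 4 - b 4 * l 1 + b 2 * l 3 + b 3 * l 2 with hPd
  have h1 : t ^ 2 * q6 b = -(t * P + q6 l) := by linarith
  have h2 : t ^ 2 * |q6 b| ≤ t * (6 * (C * B)) + 3 * (B * B) := by
    have h3 : t ^ 2 * |q6 b| = |t ^ 2 * q6 b| := by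
      rw [abs_mul, abs_of_nonneg (sq_nonneg t)]
    rw [h3, h1, abs_neg]
    refine (abs_add_le _ _).trans (add_le_add ?_ hQ)
    rw [abs_mul, abs_of_nonneg (by linarith)]
    exact mul_le_mul_of_nonneg_left hP (by linarith)
  have h4 : t ^ 2 * δ ≤ t ^ 2 * |q6 b| := mul_le_mul_of_nonneg_left hδ' (sq_nonneg t)
  have h5 : t * (δ + 6 * C * B + 3 * B ^ 2) ≤ t * (t * δ) :=
    mul_le_mul_of_nonneg_left ht (by linarith)
  have h6 : 3 * (B * B) ≤ t * (3 * (B * B)) := by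
    have h7 : 0 ≤ 3 * (B * B) := by positivity
    have h8 := mul_le_mul_of_nonneg_right ht1 h7
    linarith
  have h9 : 0 < t * δ := mul_pos (by linarith) hδ
  nlinarith

theorem Big_isCompact (hG : IsCompactGroup G g) : IsCompact G := by
  have h1 : IsCompact (Set.pi Set.univ fun _ : Fin N => Set.pi Set.univ fun _ : Fin N =>
      Metric.closedBall (0 : ℂ) 1) :=
    isCompact_univ_pi fun _ => isCompact_univ_pi fun _ => isCompact_closedBall 0 1
  refine IsCompact.of_isClosed_subset h1 hG.closed fun a ha => ?_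
  intro j _ k _
  rw [mem_closedBall_zero_iff]
  refine entry_norm_bound_of_unitary (U := a) ?_ j k
  rw [Matrix.mem_unitaryGroup_iff']
  exact hG.unitary a ha

theorem Big_bb {t : ℝ} {β Ω : Form X 2}
    (h : ∀ (x : X) (v w : T x), val2 β x v w = t * val2 Ω x v w) (x : X) :
    bb β x = t • bb Ω x := by
  funext k
  fin_cases k <;> exact h x _ _

theorem Big_bbc {t : ℝ} {β Ω : Form X 2}
    (h : ∀ (x : X) (v w : T x), val2 β x v w = t * val2 Ω x v w) (c : X) (y : EE) :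
    bbc β c y = t • bbc Ω c y := by
  funext k
  fin_cases k <;> exact h (inv c y) _ _

/-- the components of the curvature are jointly continuous -/
theorem Big_cont (hG : IsCompactGroup G g) {U : Set X} {s : X → Mat K N}
    (hs : IsSection G F U s) (c : X) :
    ContinuousOn (fun p : EE × Mat N N => ellc G g F c p.1 (s (inv c p.1)) p.2)
      ({y : EE | y ∈ dom c ∧ inv c y ∈ U} ×ˢ Set.univ) := by
  have h1 : ∀ p : EE × Mat N N, ellc G g F c p.1 (s (inv c p.1)) p.2 =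
      ∑ j, (Module.finBasis ℝ (Mat N N)).repr p.2 j •
        ellc G g F c p.1 (s (inv c p.1)) (Module.finBasis ℝ (Mat N N) j) := by
    intro p
    conv_lhs => rw [← (Module.finBasis ℝ (Mat N N)).sum_repr p.2]
    rw [map_sum]
    exact Finset.sum_congr rfl fun j _ => map_smul _ _ _
  simp only [h1]
  refine continuousOn_finsetSum _ fun j _ => ?_
  have h2 : Continuous fun ξ : Mat N N => (Module.finBasis ℝ (Mat N N)).repr ξ j := by
    have h3 : Continuous ((Module.finBasis ℝ (Mat N N)).coord j) :=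
      LinearMap.continuous_of_finiteDimensional _
    exact h3
  have h4 : ContinuousOn (fun p : EE × Mat N N => (Module.finBasis ℝ (Mat N N)).repr p.2 j)
      ({y : EE | y ∈ dom c ∧ inv c y ∈ U} ×ˢ Set.univ) := (h2.comp continuous_snd).continuousOn
  have h5 : ContinuousOn (fun p : EE × Mat N N =>
      ellc G g F c p.1 (s (inv c p.1)) (Module.finBasis ℝ (Mat N N) j))
      ({y : EE | y ∈ dom c ∧ inv c y ∈ U} ×ˢ Set.univ) :=
    (continuousOn_ellc hG hs c _).comp continuous_fst.continuousOn fun p hp => hp.1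
  exact h4.smul h5

theorem q6_large {D : Set EE} (hD : IsCompact D) {b : EE → Fin 6 → ℝ} (hb : ContinuousOn b D)
    (h0 : ∀ y ∈ D, q6 (b y) ≠ 0) (B : ℝ) : ∃ t₀ : ℝ, 0 < t₀ ∧ ∀ t, t₀ ≤ t → ∀ y ∈ D,
      ∀ l : Fin 6 → ℝ, (∀ k, |l k| ≤ B) → q6 (t • b y + l) ≠ 0 := by
  rcases D.eq_empty_or_nonempty with rfl | hne
  · exact ⟨1, one_pos, fun t _ y hy => absurd hy (Set.notMem_empty y)⟩
  obtain ⟨y₀, hy₀, hmin⟩ := hD.exists_isMinOn hne
    ((continuous_abs.comp continuous_q6).comp_continuousOn hb)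
  have hδ : 0 < |q6 (b y₀)| := abs_pos.2 (h0 y₀ hy₀)
  obtain ⟨C, hC⟩ := hD.exists_bound_of_continuousOn hb
  have hC0 : 0 ≤ C := (norm_nonneg _).trans (hC y₀ hy₀)
  refine ⟨1 + (6 * C * |B| + 3 * B ^ 2) / |q6 (b y₀)|, by positivity, fun t ht y hy l hl => ?_⟩
  have hB : 0 ≤ B := (abs_nonneg _).trans (hl 0)
  rw [abs_of_nonneg hB] at ht
  have hpos : 0 ≤ (6 * C * B + 3 * B ^ 2) / |q6 (b y₀)| := by positivity
  refine Big_bound (C := C) (B := B) (δ := |q6 (b y₀)|)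
    (fun k => (norm_le_pi_norm (b y) k).trans (hC y hy)) hl hδ (hmin hy) (by linarith) ?_
  have h2 := mul_le_mul_of_nonneg_right ht hδ.le
  rw [add_mul, one_mul, div_mul_cancel₀ _ hδ.ne'] at h2
  linarith

theorem exists_smul (t : ℝ) {Ω : Form X 2} (h1 : SmoothForm Ω) (h2 : ClosedForm Ω) :
    ∃ β : Form X 2, SmoothForm β ∧ ClosedForm β ∧
      ∀ (x : X) (v w : T x), val2 β x v w = t * val2 Ω x v w := by
  refine ⟨fun x => (t • (show T x [⋀^Fin 2]→L[ℝ] ℝ from Ω x)), ?_, ?_, fun x v w => rfl⟩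
  · intro c
    exact (h1 c).const_smul t
  · intro c y hy
    have h3 : extDeriv (E := E4) (F := ℝ) (n := 2) (t • (locForm Ω c)) y =
        t • extDeriv (E := E4) (F := ℝ) (n := 2) (locForm Ω c) y :=
      extDeriv_smul (𝕜 := ℝ) (E := E4) (F := ℝ) (n := 2) t (locForm Ω c)
    have h4 : extDeriv (E := E4) (F := ℝ) (n := 2) (locForm Ω c) y = 0 := h2 c y hy
    rw [h4, smul_zero] at h3
    exact h3

theorem big_local (hG : IsCompactGroup G g) (hF : IsPrincipal G F) {d : ℕ} {Y : Type}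
    [TopologicalSpace Y] [ChartedSpace (EuclideanSpace ℝ (Fin d)) Y] [CompactSpace Y]
    (Φ : Fibre G g d Y) (hμ : Continuous Φ.mu) {Ω : Form X 2} (hΩ : IsSymplectic Ω) (x₀ : X) :
    ∃ W ∈ 𝓝 x₀, ∃ t₀ : ℝ, 0 < t₀ ∧ ∀ t, t₀ ≤ t → ∀ x ∈ W, ∀ f ∈ F x, ∀ m : Y,
      q6 (t • bb Ω x + ell G g F x f (Φ.mu m)) ≠ 0 := by
  obtain ⟨U, s, hxU, hs⟩ := hF x₀
  have hopen := CurvC_isOpen hs.isOpen x₀
  let _ : ChartedSpace (EuclideanSpace ℝ (Fin 4)) X := oldChart X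
  have hsrc : (extChartAt 𝓘(ℝ, EE) x₀).source ∈ 𝓝 x₀ := extChartAt_source_mem_nhds x₀
  have hx0 : x₀ ∈ (extChartAt 𝓘(ℝ, EE) x₀).source := mem_extChartAt_source x₀
  have hcont : ContinuousAt (extChartAt 𝓘(ℝ, EE) x₀) x₀ := continuousAt_extChartAt x₀
  have hinv : ∀ x ∈ (extChartAt 𝓘(ℝ, EE) x₀).source,
      (inv x₀ (extChartAt 𝓘(ℝ, EE) x₀ x) : X) = x := fun x hx =>
    (extChartAt 𝓘(ℝ, EE) x₀).left_inv hx
  have hy₀ : (extChartAt 𝓘(ℝ, EE) x₀ x₀ : EE) ∈ {y : EE | y ∈ dom x₀ ∧ inv x₀ y ∈ U} := by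
    refine ⟨(extChartAt 𝓘(ℝ, EE) x₀).map_source hx0, ?_⟩
    rw [hinv x₀ hx0]
    exact hxU
  obtain ⟨D, hDc, hyD, hDs⟩ := exists_compact_subset hopen hy₀
  have hS : IsCompact ((fun p : Mat N N × Y => p.1 * Φ.mu p.2 * p.1ᴴ) ''
      (G ×ˢ (Set.univ : Set Y))) := by
    refine ((Big_isCompact hG).prod isCompact_univ).image ?_
    exact (continuous_fst.matrix_mul (hμ.comp continuous_snd)).matrix_mul
      continuous_fst.matrix_conjTranspose
  obtain ⟨B, hB⟩ := (hDc.prod hS).exists_bound_of_continuousOn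
    ((Big_cont hG hs x₀).mono (Set.prod_mono hDs (Set.subset_univ _)))
  have hq : ∀ y ∈ D, q6 (bbc Ω x₀ y) ≠ 0 := by
    intro y hy
    obtain ⟨d, hd, H⟩ := chart_change hG hF Ω x₀ (hDs hy).1
    obtain ⟨f, hf⟩ := frame_nonempty hG hF (inv x₀ y)
    have h1 := H f hf 0
    have h2 : ∀ v w : T (inv x₀ y), curv G g F (inv x₀ y) f 0 v w = 0 := by
      intro v w
      have h3 := curv_smul (G := G) (g := g) (F := F) (inv x₀ y) f 0 (0 : Mat N N) v w
      rwa [zero_smul, zero_mul] at h3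
    have h3 := (nondeg_iff hG hF hf Ω 0).1 (fun v hv => hΩ.nondeg _ v fun w => by
      have h4 := hv w
      rwa [h2, add_zero] at h4)
    rw [map_zero, add_zero, map_zero, add_zero] at h1
    rw [map_zero, add_zero] at h3
    rw [h1]
    exact mul_ne_zero hd h3
  obtain ⟨t₀, ht₀, hlarge⟩ := q6_large hDc
    ((continuousOn_bbc hΩ.smooth x₀).mono fun y hy => (hDs hy).1) hq B
  have key : ∀ t, t₀ ≤ t → ∀ y ∈ D, ∀ f ∈ F (inv x₀ y), ∀ m : Y,
      q6 (t • bb Ω (inv x₀ y) + ell G g F (inv x₀ y) f (Φ.mu m)) ≠ 0 := by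
    intro t ht y hy f hf m
    obtain ⟨β, hβ1, hβ2, hβ⟩ := exists_smul t hΩ.smooth hΩ.closed
    rw [← Big_bb hβ]
    have hf' := hf
    rw [hs.fibre _ (hDs hy).2] at hf'
    obtain ⟨a, ha, rfl⟩ := hf'
    have hsf : s (inv x₀ y) ∈ F (inv x₀ y) := by
      rw [hs.fibre _ (hDs hy).2]
      exact ⟨1, hG.one, (Matrix.mul_one (s (inv x₀ y))).symm⟩
    rw [ell_mul hG hF hsf ha]
    obtain ⟨d, hd, H⟩ := chart_change hG hF β x₀ (hDs hy).1
    have h1 := H _ hsf (a * Φ.mu m * aᴴ)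
    rw [Big_bbc hβ] at h1
    have h2 := hlarge t ht y hy (ellc G g F x₀ y (s (inv x₀ y)) (a * Φ.mu m * aᴴ)) (fun k =>
      (norm_le_pi_norm (ellc G g F x₀ y (s (inv x₀ y)) (a * Φ.mu m * aᴴ)) k).trans
        (hB (y, a * Φ.mu m * aᴴ) ⟨hy, (a, m), ⟨ha, Set.mem_univ m⟩, rfl⟩))
    intro h3
    rw [h3, mul_zero] at h1
    exact h2 h1
  refine ⟨{x | x ∈ (extChartAt 𝓘(ℝ, EE) x₀).source ∧ extChartAt 𝓘(ℝ, EE) x₀ x ∈ D},
    Filter.inter_mem hsrc (hcont.preimage_mem_nhds (mem_interior_iff_mem_nhds.1 hyD)), t₀, ht₀,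
    fun t ht x hx f hf m => ?_⟩
  have h1 := key t ht (extChartAt 𝓘(ℝ, EE) x₀ x) hx.2
  rw [hinv x hx.1] at h1
  exact h1 f hf m

theorem big [CompactSpace X] (hG : IsCompactGroup G g) (hF : IsPrincipal G F) {d : ℕ} {Y : Type}
    [TopologicalSpace Y] [ChartedSpace (EuclideanSpace ℝ (Fin d)) Y] [CompactSpace Y]
    (Φ : Fibre G g d Y) (hμ : Continuous Φ.mu) {Ω : Form X 2} (hΩ : IsSymplectic Ω) :
    ∃ t : ℝ, 0 < t ∧ ∀ (x : X), ∀ f ∈ F x, ∀ m : Y,
      q6 (t • bb Ω x + ell G g F x f (Φ.mu m)) ≠ 0 := by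
  have h := fun x₀ : X => big_local hG hF Φ hμ hΩ x₀
  choose W hW t₀ ht₀ H using h
  obtain ⟨fs, hfs⟩ := CompactSpace.elim_nhds_subcover W hW
  refine ⟨1 + ∑ x ∈ fs, t₀ x, ?_, fun x f hf m => ?_⟩
  · have h1 : 0 ≤ ∑ x ∈ fs, t₀ x := Finset.sum_nonneg fun x _ => (ht₀ x).le
    linarith
  · have hx : x ∈ ⋃ x ∈ fs, W x := by
      rw [hfs]
      exact Set.mem_univ x
    simp only [Set.mem_iUnion] at hx
    obtain ⟨z, hz, hxz⟩ := hx
    refine H z _ ?_ x hxz f hf m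
    have h1 : t₀ z ≤ ∑ x ∈ fs, t₀ x :=
      Finset.single_le_sum (f := t₀) (fun x _ => (ht₀ x).le) hz
    linarith

theorem clauseB [CompactSpace X] (hG : IsCompactGroup G g) (hF : IsPrincipal G F) {d : ℕ}
    {Y : Type} [TopologicalSpace Y] [ChartedSpace (EuclideanSpace ℝ (Fin d)) Y] [CompactSpace Y]
    (Φ : Fibre G g d Y) (hμ : Continuous Φ.mu) {Ω : Form X 2} (hΩ : IsSymplectic Ω) :
    ∃ β : Form X 2, SmoothForm β ∧ ClosedForm β ∧ CouplingSymplectic G g F Φ β := by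
  obtain ⟨t, _, h⟩ := big hG hF Φ hμ hΩ
  obtain ⟨β, hβ1, hβ2, hβ⟩ := exists_smul t hΩ.smooth hΩ.closed
  refine ⟨β, hβ1, hβ2, (coupling_iff hG hF Φ β).2 fun x f hf m => ?_⟩
  rw [Big_bb hβ]
  exact h x f hf m

end Pool.Agent.W_9986fc_G
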