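import Pool.Agent.W_9986fc_G.CurvC
import Pool.Agent.W_MP_d8b8b7_G1.PullSmooth

/-!
# The closed form of a central element

* `central_comm`: derivative at `t = 0` of `exp (t ξ) c₀ = c₀ exp (t ξ)`; `comm_central`: `conn`.
* `curv_central`: for a section `s` with `Z v = s* dM s v` (skew by `iso`), `A v = pr (Z v)`:
  `D v = dM s v - s A v`, `D v* D w - D w* D v = ds v* ds w - ds w* ds v + [Z v, A w] + [A v, Z w] - [A v, A w]`,
  and `ip c₀ [Y, A] = 0` for `A ∈ g`, `Y` skew, because `c₀` commutes with `A` (`ip_bracket`).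
* `exists_central`: `curv x (s x) c₀ v w = ip c₀ (ds v* ds w - ds w* ds v)`, independent of the frame
  (`curv_mul`).  Define the form at `x` by this formula for any frame (`frame_nonempty`); in the chart `c`, near
  `y₀` (section over `U`) the form is `dλ`, `λ y a = ip c₀ ((σ y)* (fderiv σ y a))`, `σ = s ∘ inv c`: smooth, and
  `d d λ = 0` (`extDeriv_extDeriv` or by symmetry of second derivatives).  To build elements of
  `Form X 2` and to compute `dLoc` see `Pool.Agent.W_MP_d8b8b7_G1.PullSmooth` (`pb2`, `smooth_pb2`,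
  `closed_pb2`), and `Pool.Agent.W_9986fc_h63.Man1`, `Man2` (`formOf`, `curvForm`), or use
  `AlternatingMap.mkContinuous`/`LinearMap.mkContinuous₂`-type constructions.
-/

set_option autoImplicit false

open scoped Manifold ContDiff Matrix

namespace Pool.Agent.W_9986fc_G

open Pool.Agent.W_MP_d8b8b7_S

universe u

variable {X : Type u} [TopologicalSpace X] [ChartedSpace E4 X] [IsManifold I4 ∞ X] {K N : ℕ}
variable {G : Set (Mat N N)} {g : Submodule ℝ (Mat N N)} {F : X → Set (Mat K N)}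

/-- a central element commutes with the Lie algebra -/
theorem central_comm (hG : IsCompactGroup G g) {c₀ : Mat N N} (hc : ∀ a ∈ G, a * c₀ = c₀ * a)
    {ξ : Mat N N} (hξ : ξ ∈ g) : ξ * c₀ = c₀ * ξ := by
  let _ : NormedRing (Mat N N) := Matrix.linftyOpNormedRing
  let _ : NormedAlgebra ℝ (Mat N N) := Matrix.linftyOpNormedAlgebra
  have h1 : HasDerivAt (fun t : ℝ => NormedSpace.exp (t • ξ)) (NormedSpace.exp ((0 : ℝ) • ξ) * ξ) 0 :=
    hasDerivAt_exp_smul_const (𝕂 := ℝ) ξ 0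
  rw [zero_smul, NormedSpace.exp_zero, one_mul] at h1
  have h2 : HasDerivAt (fun t : ℝ => NormedSpace.exp (t • ξ) * c₀) (ξ * c₀) 0 := h1.mul_const c₀
  have h3 : HasDerivAt (fun t : ℝ => c₀ * NormedSpace.exp (t • ξ)) (c₀ * ξ) 0 := h1.const_mul c₀
  have h4 : (fun t : ℝ => NormedSpace.exp (t • ξ) * c₀) = fun t => c₀ * NormedSpace.exp (t • ξ) := by
    funext t
    exact hc _ ((hG.lie ξ).1 hξ t)
  rw [h4] at h2
  exact h2.unique h3

/-- and conversely -/
theorem comm_central (hG : IsCompactGroup G g) {c₀ : Mat N N} (hc : ∀ ξ ∈ g, ξ * c₀ = c₀ * ξ)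
    {a : Mat N N} (ha : a ∈ G) : a * c₀ = c₀ * a := by
  obtain ⟨ξ, hξ, rfl⟩ := hG.conn a ha
  have h : Commute ξ c₀ := hc ξ hξ
  exact h.exp_left

omit [IsManifold I4 ∞ X] in
theorem Central_const {u : X → ℂ} {U : Set X} (hU : IsOpen U) {z : ℂ} (hu : ∀ y ∈ U, u y = z) {x : X}
    (hx : x ∈ U) (v : T x) : (show T x →L[ℝ] ℂ from mfderiv I4 𝓘(ℝ, ℂ) u x) v = 0 := by
  have h1 : u =ᶠ[nhds x] fun _ => z := by
    filter_upwards [hU.mem_nhds hx] with y hy
    exact hu y hy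
  have h2 : mfderiv I4 𝓘(ℝ, ℂ) u x = mfderiv I4 𝓘(ℝ, ℂ) (fun _ : X => z) x := h1.mfderiv_eq
  rw [h2, mfderiv_const]
  rfl

omit [IsManifold I4 ∞ X] in
theorem Central_star {U : Set X} {s : X → Mat K N}
    (hs : ∀ i j, ContMDiffOn I4 𝓘(ℝ, ℂ) ∞ (fun y => s y i j) U) (i : Fin N) (j : Fin K) :
    ContMDiffOn I4 𝓘(ℝ, ℂ) ∞ (fun y => (s y)ᴴ i j) U := by
  have h : ContMDiff 𝓘(ℝ, ℂ) 𝓘(ℝ, ℂ) ∞ (fun z : ℂ => Complex.conjCLE z) :=
    (Complex.conjCLE : ℂ ≃L[ℝ] ℂ).contDiff.contMDiff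
  exact h.comp_contMDiffOn (hs j i)

/-- `s* dM s v` is skew -/
theorem Central_skew {U : Set X} {s : X → Mat K N} (hs : IsSection G F U s) {x : X} (hx : x ∈ U)
    (v : T x) : ((s x)ᴴ * dM s x v)ᴴ = -((s x)ᴴ * dM s x v) := by
  have h1 := dM_mul (s := fun y => (s y)ᴴ) (k := s) hs.isOpen (Central_star hs.smooth) hs.smooth hx v
  rw [dM_conjTranspose hs.isOpen hs.smooth hx v] at h1
  have h2 : dM (fun y => (s y)ᴴ * s y) x v = 0 := by
    ext i j
    exact Central_const hs.isOpen (z := (1 : Mat N N) i j) (fun y hy => congrFun (congrFun (hs.iso y hy) i) j) hx v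
  rw [h2] at h1
  rw [Matrix.conjTranspose_mul, Matrix.conjTranspose_conjTranspose]
  exact eq_neg_of_add_eq_zero_left h1.symm

theorem Central_ip (hG : IsCompactGroup G g) {c₀ : Mat N N} (hc0 : c₀ ∈ g)
    (hc : ∀ a ∈ G, a * c₀ = c₀ * a) {A Y : Mat N N} (hA : A ∈ g) (hY : Yᴴ = -Y) :
    ip c₀ (A * Y) = ip c₀ (Y * A) := by
  have h1 := ip_bracket (hG.skewHerm hc0) (hG.skewHerm hA) hY
  rw [← central_comm hG hc hA, sub_self] at h1
  have h2 : ip (0 : Mat N N) Y = 0 := by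
    unfold ip
    simp
  rw [h2] at h1
  have h3 : A * Y = Y * A + (A * Y - Y * A) := by abel
  rw [h3, ip_add_right, ← h1, add_zero]

theorem Central_ip_sub (A B C : Mat K N) : ip A (B - C) = ip A B - ip A C := by
  have h : B = C + (B - C) := by abel
  have h2 := ip_add_right A C (B - C)
  rw [← h] at h2
  linarith

theorem curv_central (hG : IsCompactGroup G g) {U : Set X} {s : X → Mat K N}
    (hs : IsSection G F U s) {x : X} (hx : x ∈ U) {c₀ : Mat N N} (hc0 : c₀ ∈ g)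
    (hc : ∀ a ∈ G, a * c₀ = c₀ * a) (v w : T x) : curv G g F x (s x) c₀ v w =
      ip c₀ ((dM s x v)ᴴ * dM s x w - (dM s x w)ᴴ * dM s x v) := by
  obtain ⟨pr, h1, h2⟩ := exists_proj g
  unfold curv
  rw [hor_section hG hs hx h1 h2 v, hor_section hG hs hx h1 h2 w]
  have hiso := hs.iso x hx
  have hv := Central_skew hs hx v
  have hw := Central_skew hs hx w
  have hAv := h1 ((s x)ᴴ * dM s x v)
  have hAw := h1 ((s x)ᴴ * dM s x w)
  set Av := pr ((s x)ᴴ * dM s x v) with hAvd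
  set Aw := pr ((s x)ᴴ * dM s x w) with hAwd
  clear_value Av Aw
  have hsv := hG.skewHerm hAv
  have hsw := hG.skewHerm hAw
  set S := s x with hS
  set V := dM s x v with hV
  set W := dM s x w with hW
  clear_value S V W
  have key : ∀ (V W : Mat K N) (Av Aw : Mat N N), Avᴴ = -Av →
      (Sᴴ * V)ᴴ = -(Sᴴ * V) →
      (V - S * Av)ᴴ * (W - S * Aw) = Vᴴ * W + (Sᴴ * V) * Aw + Av * (Sᴴ * W) - Av * Aw := by
    intro V W Av Aw e1 e2
    have e3 : Vᴴ * S = -(Sᴴ * V) := by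
      rw [← e2, Matrix.conjTranspose_mul, Matrix.conjTranspose_conjTranspose]
    rw [Matrix.conjTranspose_sub, Matrix.conjTranspose_mul, e1, Matrix.sub_mul, Matrix.mul_sub,
      Matrix.mul_sub, ← Matrix.mul_assoc Vᴴ S Aw, e3, Matrix.neg_mul, Matrix.neg_mul, Matrix.neg_mul,
      Matrix.neg_mul, Matrix.mul_assoc Av Sᴴ (S * Aw), ← Matrix.mul_assoc Sᴴ S Aw, hiso,
      Matrix.one_mul, Matrix.mul_assoc Av Sᴴ W]
    abel
  rw [key V W Av Aw hsv hv, key W V Aw Av hsw hw]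
  simp only [Central_ip_sub, ip_add_right]
  rw [Central_ip hG hc0 hc hAv hw, Central_ip hG hc0 hc hAw hv, Central_ip hG hc0 hc hAv hsw]
  ring

/-- the bilinear form `ip c₀ (A* B - B* A)` -/
noncomputable def Central_b (K : ℕ) {N : ℕ} (c₀ : Mat N N) :
    (Fin K → Fin N → ℂ) →L[ℝ] (Fin K → Fin N → ℂ) →L[ℝ] ℝ :=
  LinearMap.toContinuousLinearMap
    { toFun := fun A => LinearMap.toContinuousLinearMap
        { toFun := fun B => ip c₀ ((Matrix.of A)ᴴ * Matrix.of B - (Matrix.of B)ᴴ * Matrix.of A)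
          map_add' := fun B C => by
            rw [← ip_add_right]
            congr 1
            rw [show Matrix.of (B + C) = Matrix.of B + Matrix.of C from rfl, Matrix.mul_add,
              Matrix.conjTranspose_add, Matrix.add_mul]
            abel
          map_smul' := fun r B => by
            rw [RingHom.id_apply, smul_eq_mul, ← ip_smul_right]
            congr 1
            rw [show Matrix.of (r • B) = r • Matrix.of B from rfl, Matrix.mul_smul,
              Matrix.conjTranspose_smul, star_trivial, Matrix.smul_mul, smul_sub] }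
      map_add' := fun A C => by
        refine ContinuousLinearMap.ext fun B => ?_
        change ip c₀ ((Matrix.of (A + C))ᴴ * Matrix.of B - (Matrix.of B)ᴴ * Matrix.of (A + C)) =
          ip c₀ ((Matrix.of A)ᴴ * Matrix.of B - (Matrix.of B)ᴴ * Matrix.of A) +
          ip c₀ ((Matrix.of C)ᴴ * Matrix.of B - (Matrix.of B)ᴴ * Matrix.of C)
        rw [← ip_add_right]
        congr 1
        rw [show Matrix.of (A + C) = Matrix.of A + Matrix.of C from rfl, Matrix.mul_add,
          Matrix.conjTranspose_add, Matrix.add_mul]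
        abel
      map_smul' := fun r A => by
        refine ContinuousLinearMap.ext fun B => ?_
        change ip c₀ ((Matrix.of (r • A))ᴴ * Matrix.of B - (Matrix.of B)ᴴ * Matrix.of (r • A)) =
          r * ip c₀ ((Matrix.of A)ᴴ * Matrix.of B - (Matrix.of B)ᴴ * Matrix.of A)
        rw [← ip_smul_right]
        congr 1
        rw [show Matrix.of (r • A) = r • Matrix.of A from rfl, Matrix.mul_smul,
          Matrix.conjTranspose_smul, star_trivial, Matrix.smul_mul, smul_sub] }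

theorem Central_b_apply (c₀ : Mat N N) (A B : Fin K → Fin N → ℂ) : Central_b K c₀ A B =
    ip c₀ ((Matrix.of A)ᴴ * Matrix.of B - (Matrix.of B)ᴴ * Matrix.of A) := rfl

/-- a bilinear map as a continuous bilinear map -/
noncomputable def Central_c (B : EE →ₗ[ℝ] EE →ₗ[ℝ] ℝ) : EE →L[ℝ] EE →L[ℝ] ℝ :=
  LinearMap.toContinuousLinearMap
    { toFun := fun u => LinearMap.toContinuousLinearMap (B u)
      map_add' := fun u v => by
        refine ContinuousLinearMap.ext fun w => ?_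
        change B (u + v) w = B u w + B v w
        rw [map_add, LinearMap.add_apply]
      map_smul' := fun r u => by
        refine ContinuousLinearMap.ext fun w => ?_
        change B (r • u) w = r * B u w
        rw [map_smul, LinearMap.smul_apply, smul_eq_mul] }

theorem Central_c_apply (B : EE →ₗ[ℝ] EE →ₗ[ℝ] ℝ) (u v : EE) : Central_c B u v = B u v := rfl

theorem Central_frame (hG : IsCompactGroup G g) (hF : IsPrincipal G F) {c₀ : Mat N N}
    (hc : ∀ a ∈ G, a * c₀ = c₀ * a) {x : X} {f f' : Mat K N} (hf : f ∈ F x) (hf' : f' ∈ F x)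
    (v w : T x) : curv G g F x f' c₀ v w = curv G g F x f c₀ v w := by
  obtain ⟨a, ha, rfl⟩ := frame_trans hG hF hf hf'
  rw [curv_mul hG hF hf ha, hc a ha, Matrix.mul_assoc, hG.mul_conj ha, Matrix.mul_one]

open Pool.Agent.W_MP_d8b8b7_G1 in
/-- the form of the central part of the curvature -/
theorem Central_form (hG : IsCompactGroup G g) (hF : IsPrincipal G F) {c₀ : Mat N N}
    (hc : ∀ a ∈ G, a * c₀ = c₀ * a) : ∃ b : X → EE →L[ℝ] EE →L[ℝ] ℝ,
      ∀ (x : X), ∀ f ∈ F x, ∀ v w : T x, b x v w = curv G g F x f c₀ v w := by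
  choose f hf using frame_nonempty hG hF
  choose B hB using fun x : X => exists_curvB hG hF (hf x) c₀
  refine ⟨fun x => Central_c (show EE →ₗ[ℝ] EE →ₗ[ℝ] ℝ from B x), ?_⟩
  intro x f' hf' v w
  rw [Central_frame hG hF hc (hf x) hf']
  exact hB x v w

open Pool.Agent.W_MP_d8b8b7_G1 in
theorem Central_loc (hG : IsCompactGroup G g) (hF : IsPrincipal G F) {c₀ : Mat N N}
    (hc0 : c₀ ∈ g) (hc : ∀ a ∈ G, a * c₀ = c₀ * a) {b : X → EE →L[ℝ] EE →L[ℝ] ℝ}
    (hb : ∀ (x : X), ∀ f ∈ F x, ∀ v w : T x, b x v w = curv G g F x f c₀ v w) (c : X) {y₀ : EE}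
    (hy₀ : y₀ ∈ dom c) : ∃ (O : Set EE) (σ : EE → Fin K → Fin N → ℂ), IsOpen O ∧ y₀ ∈ O ∧
      O ⊆ dom c ∧ ContDiffOn ℝ ∞ σ O ∧ ∀ y ∈ O, pull (dI c y) (b (inv c y)) =
        pull (fderiv ℝ σ y) (Central_b K c₀) := by
  obtain ⟨U, s, hxU, hs⟩ := hF (inv c y₀)
  have hO : IsOpen {y : EE | y ∈ dom c ∧ inv c y ∈ U} :=
    (continuousOn_inv c).isOpen_inter_preimage (isOpen_dom c) hs.isOpen
  have hσ : ContDiffOn ℝ ∞ (fun (y : EE) (i : Fin K) (j : Fin N) => s (inv c y) i j)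
      {y : EE | y ∈ dom c ∧ inv c y ∈ U} := by
    rw [contDiffOn_pi]
    intro i
    rw [contDiffOn_pi]
    intro j
    exact contDiffOn_chart hs.isOpen (hs.smooth i j) c
  refine ⟨{y : EE | y ∈ dom c ∧ inv c y ∈ U}, fun y i j => s (inv c y) i j, hO, ⟨hy₀, hxU⟩,
    fun y hy => hy.1, hσ, ?_⟩
  rintro y ⟨hy, hyU⟩
  have hd : DifferentiableAt ℝ (fun (y : EE) (i : Fin K) (j : Fin N) => s (inv c y) i j) y :=
    (hσ.contDiffAt (hO.mem_nhds ⟨hy, hyU⟩)).differentiableAt (by simp)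
  have hfd : ∀ a : EE, dM s (inv c y) (show T (inv c y) from dI c y a) =
      Matrix.of (fderiv ℝ (fun (y : EE) (i : Fin K) (j : Fin N) => s (inv c y) i j) y a) := by
    intro a
    ext i j
    rw [dM_chart hs.isOpen hs.smooth c hy hyU a i j]
    have h1 := hasFDerivAt_pi'.1 (hasFDerivAt_pi'.1 hd.hasFDerivAt i) j
    rw [h1.fderiv]
    rfl
  have hsF : s (inv c y) ∈ F (inv c y) := by
    rw [hs.fibre _ hyU]
    exact ⟨1, hG.one, (Matrix.mul_one _).symm⟩
  refine ContinuousLinearMap.ext fun a => ContinuousLinearMap.ext fun a' => ?_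
  have h2 := hb (inv c y) _ hsF (show T (inv c y) from dI c y a) (show T (inv c y) from dI c y a')
  rw [curv_central hG hs hyU hc0 hc, hfd a, hfd a'] at h2
  exact h2

open Pool.Agent.W_MP_d8b8b7_G1 in
theorem Central_pull_smooth {W : Type} [NormedAddCommGroup W] [NormedSpace ℝ W]
    (b : W →L[ℝ] W →L[ℝ] ℝ) {σ : EE → W} {O : Set EE} (hO : IsOpen O) (hσ : ContDiffOn ℝ ∞ σ O) :
    ContDiffOn ℝ ∞ (fun y => pull (fderiv ℝ σ y) b) O := by
  have h1 : ContDiffOn ℝ ∞ (fderiv ℝ σ) O := hσ.fderiv_of_isOpen hO (by simp)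
  have e : (fun y => pull (fderiv ℝ σ y) b) = fun y =>
      ((ContinuousLinearMap.compL ℝ EE W ℝ).flip (fderiv ℝ σ y)).comp (b.comp (fderiv ℝ σ y)) := by
    funext y
    rfl
  rw [e]
  exact (((ContinuousLinearMap.compL ℝ EE W ℝ).flip.contDiff).comp_contDiffOn h1).clm_comp
    (contDiffOn_const.clm_comp h1)

open Pool.Agent.W_MP_d8b8b7_G1 in
theorem Central_alt_smooth {W : Type} [NormedAddCommGroup W] [NormedSpace ℝ W]
    (b : W →L[ℝ] W →L[ℝ] ℝ) {σ : EE → W} {O : Set EE} (hO : IsOpen O) (hσ : ContDiffOn ℝ ∞ σ O) :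
    ContDiffOn ℝ ∞ (fun y => altOf (pull (fderiv ℝ σ y) b)) O := by
  have h := (altOfL (E := EE)).contDiff (n := ∞).comp_contDiffOn (Central_pull_smooth b hO hσ)
  exact h

open Pool.Agent.W_MP_d8b8b7_G1 in
theorem Central_pull_closed {W : Type} [NormedAddCommGroup W] [NormedSpace ℝ W]
    (b : W →L[ℝ] W →L[ℝ] ℝ) {σ : EE → W} {O : Set EE} (hO : IsOpen O) (hσ : ContDiffOn ℝ ∞ σ O)
    {y : EE} (hy : y ∈ O) : extDeriv (fun y => altOf (pull (fderiv ℝ σ y) b)) y = 0 := by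
  have e : (fun y => altOf (pull (fderiv ℝ σ y) b)) = fun y =>
      ((fun _ : W => altOf b) (σ y)).compContinuousLinearMap (fderiv ℝ σ y) := by
    funext y
    exact (altOf_comp _ _).symm
  rw [e, extDeriv_pullback (r := ∞) (differentiableAt_const _) (hσ.contDiffAt (hO.mem_nhds hy))
    PullSmooth_two_le]
  have h1 : extDeriv (fun _ : W => altOf b) (σ y) = 0 := by
    ext v
    rw [extDeriv_apply (differentiableAt_const _)]
    simp
  rw [h1]
  rfl

open Pool.Agent.W_MP_d8b8b7_G1 in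
theorem exists_central (hG : IsCompactGroup G g) (hF : IsPrincipal G F) {c₀ : Mat N N}
    (hc0 : c₀ ∈ g) (hc : ∀ a ∈ G, a * c₀ = c₀ * a) {β : Form X 2} (hβ : SmoothForm β)
    (hβ' : ClosedForm β) : ∃ Ω' : Form X 2, SmoothForm Ω' ∧ ClosedForm Ω' ∧
      ∀ (x : X), ∀ f ∈ F x, ∀ v w : T x, val2 Ω' x v w = val2 β x v w + curv G g F x f c₀ v w := by
  obtain ⟨b, hb⟩ := Central_form hG hF hc
  have halt : ∀ (x : X) (v : EE), b x v v = 0 := by
    intro x v
    obtain ⟨f, hf⟩ := frame_nonempty hG hF x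
    exact (hb x f hf v v).trans (curv_self x f c₀ v)
  have hloc : ∀ (c : X) (y₀ : EE), y₀ ∈ dom c → ∃ (O : Set EE) (σ : EE → Fin K → Fin N → ℂ),
      IsOpen O ∧ y₀ ∈ O ∧ ContDiffOn ℝ ∞ σ O ∧
      ∀ y ∈ O, altOf (pull (dI c y) (b (inv c y))) = altOf (pull (fderiv ℝ σ y) (Central_b K c₀)) := by
    intro c y₀ hy₀
    obtain ⟨O, σ, h1, h2, h3, h4, h5⟩ := Central_loc hG hF hc0 hc hb c hy₀
    exact ⟨O, σ, h1, h2, h4, fun y hy => by rw [h5 y hy]⟩
  refine ⟨fun x => (show EE [⋀^Fin 2]→L[ℝ] ℝ from β x) + altOf (b x), ?_, ?_, ?_⟩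
  · intro c
    have h1 : ContDiffOn ℝ ∞ (fun y : EE => altOf (pull (dI c y) (b (inv c y)))) (dom c) := by
      intro y₀ hy₀
      obtain ⟨O, σ, hO, hyO, hσ, h⟩ := hloc c y₀ hy₀
      have h2 : ContDiffOn ℝ ∞ (fun y => altOf (pull (fderiv ℝ σ y) (Central_b K c₀))) O :=
        Central_alt_smooth (Central_b K c₀) hO hσ
      have h3 : ContDiffAt ℝ ∞ (fun y : EE => altOf (pull (dI c y) (b (inv c y)))) y₀ := by
        refine (h2.contDiffAt (hO.mem_nhds hyO)).congr_of_eventuallyEq ?_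
        filter_upwards [hO.mem_nhds hyO] with y hy
        exact h y hy
      exact h3.contDiffWithinAt
    have h2 : ContDiffOn ℝ ∞ (fun y : EE => (show EE [⋀^Fin 2]→L[ℝ] ℝ from locForm β c y)) (dom c) :=
      hβ c
    have h3 : ContDiffOn ℝ ∞ (fun y : EE => (show EE [⋀^Fin 2]→L[ℝ] ℝ from locForm β c y) +
      altOf (pull (dI c y) (b (inv c y)))) (dom c) := ContDiffOn.add h2 h1
    exact h3
  · intro c y₀ hy₀
    obtain ⟨O, σ, hO, hyO, hσ, h⟩ := hloc c y₀ hy₀
    have h2 : ContDiffOn ℝ ∞ (fun y => altOf (pull (fderiv ℝ σ y) (Central_b K c₀))) O :=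
      Central_alt_smooth (Central_b K c₀) hO hσ
    have hev : (fun y : EE => altOf (pull (dI c y) (b (inv c y)))) =ᶠ[nhds y₀]
        fun y => altOf (pull (fderiv ℝ σ y) (Central_b K c₀)) := by
      filter_upwards [hO.mem_nhds hyO] with y hy
      exact h y hy
    have h3 : ContDiffAt ℝ ∞ (fun y : EE => altOf (pull (dI c y) (b (inv c y)))) y₀ :=
      (h2.contDiffAt (hO.mem_nhds hyO)).congr_of_eventuallyEq hev
    have h4 : extDeriv (fun y : EE => altOf (pull (dI c y) (b (inv c y)))) y₀ = 0 :=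
      hev.extDeriv_eq.trans (Central_pull_closed (Central_b K c₀) hO hσ hyO)
    have h5 : DifferentiableAt ℝ (fun y : EE => (show EE [⋀^Fin 2]→L[ℝ] ℝ from locForm β c y)) y₀ :=
      (ContDiffOn.contDiffAt (hβ c) ((isOpen_dom c).mem_nhds hy₀)).differentiableAt (by simp)
    have h6 := extDeriv_add h5 (h3.differentiableAt (by simp))
    have h7 : extDeriv (fun y : EE => (show EE [⋀^Fin 2]→L[ℝ] ℝ from locForm β c y)) y₀ = 0 :=
      hβ' c y₀ hy₀
    rw [h4, h7, add_zero] at h6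
    exact h6
  · intro x f hf v w
    rw [← hb x f hf v w, ← altOf_apply (b x) (halt x) v w]
    rfl

end Pool.Agent.W_9986fc_G
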