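import Pool.Agent.W_9986fc_G.Defs
import Pool.Agent.W_MP_d8b8b7_S.Transfer
import Pool.Agent.W_MP_d8b8b7_G1.BilOf
import Pool.Agent.W_MP_d8b8b7_G1.MFacts

set_option autoImplicit false

/-!
Facts on charts and 2-forms (copied from `Pool.Agent.W_9986fc_h63`): bases of tangent spaces, continuity,
openness in charts.
-/

open scoped Manifold ContDiff

namespace Pool.Agent.W_9986fc_G

open Pool.Agent.W_MP_d8b8b7_S

universe u

variable {X : Type u} [TopologicalSpace X] [ChartedSpace E4 X]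

/-- the standard `ℝ⁴` of Mathlib -/
abbrev EE : Type := EuclideanSpace ℝ (Fin 4)

/-- a 2-form at a point as a bilinear map -/
noncomputable def bl (η : Form X 2) (x : X) : EE →L[ℝ] EE →L[ℝ] ℝ :=
  Pool.Agent.W_MP_d8b8b7_G1.bilOf (E := EE) (η x)

/-- a 2-form at a point as a bilinear map on `T x` -/
noncomputable def bil (η : Form X 2) (x : X) : T x →ₗ[ℝ] T x →ₗ[ℝ] ℝ :=
  LinearMap.mk₂ ℝ (fun u v => val2 η x u v)
    (fun u u' v => congrArg (fun A : EE →L[ℝ] ℝ => A v) ((bl η x).map_add u u'))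
    (fun c u v => congrArg (fun A : EE →L[ℝ] ℝ => A v) ((bl η x).map_smul c u))
    (fun u v v' => (bl η x u).map_add v v')
    (fun c u v => (bl η x u).map_smul c v)

theorem bil_apply (η : Form X 2) (x : X) (u v : T x) : bil η x u v = val2 η x u v := rfl

theorem val2_self (η : Form X 2) (x : X) (v : T x) : val2 η x v v = 0 :=
  Pool.Agent.W_MP_d8b8b7_G1.bilOf_alt (E := EE) (η x) v

/-- the standard basis of `ℝ⁴` -/
noncomputable def e4 (i : Fin 4) : EE := EuclideanSpace.single i (1 : ℝ)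

/-- the standard basis of `T x` -/
noncomputable def std (x : X) : Module.Basis (Fin 4) ℝ (T x) :=
  (show Module.Basis (Fin 4) ℝ EE from (EuclideanSpace.basisFun (Fin 4) ℝ).toBasis)

theorem std_apply (x : X) (i : Fin 4) : std x i = (show T x from e4 i) := by
  have h : (EuclideanSpace.basisFun (Fin 4) ℝ).toBasis i = e4 i := by
    simp [e4]
  exact h

/-- the derivative of the inverse chart -/
noncomputable def dI (c : X) (y : EE) : EE →L[ℝ] EE := dInv c y

theorem isOpen_dom (c : X) : IsOpen (dom c) :=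
  @isOpen_extChartAt_target ℝ EE X EE _ _ _ _ _ 𝓘(ℝ, EE) (oldChart X) _ c

theorem continuousOn_inv (c : X) : ContinuousOn (inv c) (dom c) :=
  @continuousOn_extChartAt_symm ℝ EE X EE _ _ _ _ _ 𝓘(ℝ, EE) (oldChart X) c

section

variable [hX : IsManifold I4 ∞ X]

theorem dI_injective (c : X) {y : EE} (hy : y ∈ dom c) : Function.Injective (dI c y) := by
  letI : ChartedSpace (EuclideanSpace ℝ (Fin 4)) X := oldChart X
  have hM : @IsManifold ℝ _ _ _ _ _ _ 𝓘(ℝ, EuclideanSpace ℝ (Fin 4)) ∞ X _ (oldChart X) := hX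
  intro a b hab
  have h1 := @Pool.Agent.W_MP_d8b8b7_G1.dext_dsymm X _ (oldChart X) hM c y hy a
  have h2 := @Pool.Agent.W_MP_d8b8b7_G1.dext_dsymm X _ (oldChart X) hM c y hy b
  have h3 : @Pool.Agent.W_MP_d8b8b7_G1.dsymm X _ (oldChart X) c y a =
      @Pool.Agent.W_MP_d8b8b7_G1.dsymm X _ (oldChart X) c y b := hab
  rw [← h1, h3, h2]

/-- the basis of the tangent space given by the chart -/
noncomputable def bas (c : X) {y : EE} (hy : y ∈ dom c) : Module.Basis (Fin 4) ℝ (T (inv c y)) :=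
  (show Module.Basis (Fin 4) ℝ EE from
    (EuclideanSpace.basisFun (Fin 4) ℝ).toBasis.map
      (LinearEquiv.ofInjectiveEndo (dI c y).toLinearMap (dI_injective c hy)))

theorem bas_apply (c : X) {y : EE} (hy : y ∈ dom c) (i : Fin 4) :
    bas c hy i = (show T (inv c y) from dI c y (e4 i)) := by
  have h : (show Module.Basis (Fin 4) ℝ EE from
      (EuclideanSpace.basisFun (Fin 4) ℝ).toBasis.map
      (LinearEquiv.ofInjectiveEndo (dI c y).toLinearMap (dI_injective c hy))) i =
      dI c y (e4 i) := by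
    simp [e4]
  exact h

end

theorem continuousOn_val2 {β : Form X 2} (h1 : SmoothForm β) (c : X) (a b : EE) :
    ContinuousOn (fun y => val2 β (inv c y) (show T (inv c y) from dI c y a)
      (show T (inv c y) from dI c y b)) (dom c) := by
  have h := Pool.Agent.W_MP_d8b8b7_G1.BilOf_contDiffOn_eval (E := EE) (F := EE)
    (c := locForm β c) (h1 c) ![a, b]
  refine h.continuousOn.congr fun y hy => ?_
  have e : (fun i => dI c y (![a, b] i)) = ![dI c y a, dI c y b] := by
    funext i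
    fin_cases i <;> rfl
  have e2 : (show EE [⋀^Fin 2]→L[ℝ] ℝ from locForm β c y) ![a, b] =
      (show EE [⋀^Fin 2]→L[ℝ] ℝ from β (inv c y)) (fun i => dI c y (![a, b] i)) := rfl
  rw [e] at e2
  exact e2.symm

/-- a set is open if it is open in all charts -/
theorem isOpen_of_charts {S : Set X}
    (h : ∀ c : X, IsOpen {y : {y : EE // y ∈ dom c} | inv c (y : EE) ∈ S}) : IsOpen S := by
  letI : ChartedSpace (EuclideanSpace ℝ (Fin 4)) X := oldChart X
  rw [isOpen_iff_mem_nhds]
  intro x hxS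
  obtain ⟨t, ht, hts⟩ := isOpen_induced_iff.1 (h x)
  have hcont : ContinuousAt (extChartAt 𝓘(ℝ, EE) x) x := continuousAt_extChartAt x
  have hsrc : (extChartAt 𝓘(ℝ, EE) x).source ∈ nhds x := extChartAt_source_mem_nhds x
  have hx0 : x ∈ (extChartAt 𝓘(ℝ, EE) x).source := mem_extChartAt_source x
  have hmem : extChartAt 𝓘(ℝ, EE) x x ∈ t := by
    have h1 : extChartAt 𝓘(ℝ, EE) x x ∈ dom x := (extChartAt 𝓘(ℝ, EE) x).map_source hx0
    have h2 : (⟨extChartAt 𝓘(ℝ, EE) x x, h1⟩ : {y : EE // y ∈ dom x}) ∈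
        {y : {y : EE // y ∈ dom x} | inv x (y : EE) ∈ S} := by
      have h3 : inv x (extChartAt 𝓘(ℝ, EE) x x) = x := (extChartAt 𝓘(ℝ, EE) x).left_inv hx0
      change inv x (extChartAt 𝓘(ℝ, EE) x x) ∈ S
      rw [h3]
      exact hxS
    rw [← hts] at h2
    exact h2
  filter_upwards [hcont.preimage_mem_nhds (ht.mem_nhds hmem), hsrc] with z hz1 hz2
  have h1 : extChartAt 𝓘(ℝ, EE) x z ∈ dom x := (extChartAt 𝓘(ℝ, EE) x).map_source hz2
  have h2 : (⟨extChartAt 𝓘(ℝ, EE) x z, h1⟩ : {y : EE // y ∈ dom x}) ∈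
      {y : {y : EE // y ∈ dom x} | inv x (y : EE) ∈ S} := by
    rw [← hts]
    exact hz1
  have h3 : inv x (extChartAt 𝓘(ℝ, EE) x z) = z := (extChartAt 𝓘(ℝ, EE) x).left_inv hz2
  have h4 : inv x (extChartAt 𝓘(ℝ, EE) x z) ∈ S := h2
  rw [h3] at h4
  exact h4

end Pool.Agent.W_9986fc_G
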