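import Pool.Agent.W_9986fc_G.Fill
import Pool.Agent.W_9986fc_G.AlgTorus
import Pool.Agent.W_9986fc_G.AlgRootB
import Pool.Agent.W_9986fc_G.AlgRed
import Pool.Agent.W_9986fc_G.Central

/-!
# From a coupling form to a symplectic form, or a fat `su(2)`-ideal

* `good_seg1`: `j` orthogonal to all other roots.  `ρ = ‖α j‖`, `s₀ = ⟪ξ, α j⟫`.  If `s₀ = 0` the conclusion is `hg`
  (`τ * 0 • ..= 0`).  Let `r = |s₀| / ρ > 0`, `c₀ = ξ - (s₀ / ρ²) • α j`, `e = R.e3 j`.  `SphC`: for `∑ η k ^ 2 = r ^ 2`,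
  `sphere3` gives `a ∈ A` with `a ξ = c₀ + ∑ η k • e k`; `good_ad`.  By `isClopen_filled` and connectedness either
  every `x` is filled: take `η = (0, 0, (1 - 2 τ) s₀ / ρ)`, `η 2 ^ 2 ≤ r ^ 2`, `c₀ + ∑ η k • e k = ξ - (τ * (2 s₀ / ρ²)) • α j`.
  Or no `x` is filled: then `s = (R.su j).map i` is an ideal (`su_ideal`) and `FatOn G g F s`: `ξ' ∈ s`, `ξ' ≠ 0`,
  is `i (∑ κ k • e k)`, `κ ≠ 0` (`exists_e3`), and `fat_of_not_filled`, `nondeg_iff0`: contradiction to `hfat`.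
* `clauseA`: let `m : Y` and `c` the central part of `Φ.mu m`.  `exists_model`; `Φ.mu m = i z` (`hM.range`,
  `mu_mem`); `coupling_iff` gives `hz`.  `exists_torus L z`, `exists_roots`, `Roots.reduce` with `S = {u | Good .. z u}`
  (`good_self`; `good_seg` if some `k ≠ j` is not orthogonal to `j`, otherwise `good_seg1`) gives `u` with `Good z u`,
  `L.ad u = 0`, `⟪v, z - u⟫ = 0` for central `v`.  `i u` commutes with `g` (`hM.bracket`, `hM.range`) so with `G`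
  (`comm_central`).  `c = i u`: `c - i u` is in `g` and commutes with `G`, it is `i v` with `L.ad v = 0` (injectivity,
  `central_comm`), `ip (c - i u) (Φ.mu m - c) = 0` (`IsCentralPart`), `ip (c - i u) (Φ.mu m - i u) = ⟪v, z - u⟫ = 0`,
  so `ip (c - i u) (c - i u) = 0`.  `exists_central` for `c` and `nondeg_iff` (for some frame, `frame_nonempty`).
-/

set_option autoImplicit false

open scoped Manifold ContDiff Matrix RealInnerProductSpace

namespace Pool.Agent.W_9986fc_G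

open Pool.Agent.W_MP_d8b8b7_S

universe u

variable {X : Type u} [TopologicalSpace X] [ChartedSpace E4 X] [IsManifold I4 ∞ X] {K N n : ℕ}
variable {G : Set (Mat N N)} {g : Submodule ℝ (Mat N N)} {F : X → Set (Mat K N)}
  {i : EuclideanSpace ℝ (Fin n) →ₗ[ℝ] Mat N N} {L : LieIP (EuclideanSpace ℝ (Fin n))}
  {β : Form X 2} {z : EuclideanSpace ℝ (Fin n)}

theorem good_seg1 [PreconnectedSpace X] (hG : IsCompactGroup G g) (hF : IsPrincipal G F)
    (hM : IsModel g i L) (hβ : SmoothForm β)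
    (hz : ∀ x : X, ∀ f ∈ F x, q6 (bb β x + ell G g F x f (i z)) ≠ 0)
    (hfat : ¬ ∃ s : Submodule ℝ (Mat N N), IsSu2Ideal G g s ∧ FatOn G g F s)
    {t : Submodule ℝ (EuclideanSpace ℝ (Fin n))} {q : ℕ} (R : Roots L t q) (ht : IsTorus L t)
    {j : Fin q} (hne : ∀ k, k ≠ j → ⟪R.α k, R.α j⟫ = (0 : ℝ))
    {ξ : EuclideanSpace ℝ (Fin n)} (hξ : ξ ∈ t) (hg : Good G g F β i z ξ) {τ : ℝ} (h0 : 0 ≤ τ)
    (h1 : τ ≤ 1) :
    Good G g F β i z (ξ - (τ * (2 * ⟪ξ, R.α j⟫ / ‖R.α j‖ ^ 2)) • R.α j) := by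
  have hρ : 0 < ‖R.α j‖ := norm_pos_iff.2 (R.ne j)
  by_cases hs0 : ⟪ξ, R.α j⟫ = (0 : ℝ)
  · rw [hs0, mul_zero, zero_div, mul_zero, zero_smul, sub_zero]
    exact hg
  · have hr : 0 < |⟪ξ, R.α j⟫| / ‖R.α j‖ := div_pos (abs_pos.2 hs0) hρ
    have hr2 : (|⟪ξ, R.α j⟫| / ‖R.α j‖) ^ 2 = (⟪ξ, R.α j⟫ / ‖R.α j‖) ^ 2 := by
      rw [div_pow, sq_abs, div_pow]
    have hS : SphC G g F β i z (ξ - (⟪ξ, R.α j⟫ / ‖R.α j‖ ^ 2) • R.α j) (R.e3 j)
        (|⟪ξ, R.α j⟫| / ‖R.α j‖) := by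
      intro x f hf η hη
      rw [hr2] at hη
      obtain ⟨a, ha, hae⟩ := R.sphere3 ht (adGroup hM hG) j hξ hη
      have h2 := good_ad hG hF hM hz hg hf ha
      rwa [hae] at h2
    rcases isClopen_iff.1 (isClopen_filled hG hF hM hβ hz hr hS) with h2 | h2
    · exfalso
      refine hfat ⟨(R.su j).map i, su_ideal hG hM R ht hne, ?_⟩
      intro x f hf ξ' hξ' hne' v hv
      obtain ⟨u, hu, rfl⟩ := hξ'
      obtain ⟨κ, rfl⟩ := R.exists_e3 j hu
      have hκ : κ ≠ 0 := by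
        intro h
        apply hne'
        rw [h]
        simp
      have hx : ¬ ∀ f ∈ F x, Filled G g F β i z (ξ - (⟪ξ, R.α j⟫ / ‖R.α j‖ ^ 2) • R.α j) (R.e3 j)
          (|⟪ξ, R.α j⟫| / ‖R.α j‖) x f := by
        intro h
        have h3 : x ∈ {x : X | ∀ f ∈ F x, Filled G g F β i z
            (ξ - (⟪ξ, R.α j⟫ / ‖R.α j‖ ^ 2) • R.α j) (R.e3 j)
            (|⟪ξ, R.α j⟫| / ‖R.α j‖) x f} := h
        rw [h2] at h3
        exact h3
      exact (nondeg_iff0 hG hF hf _).2 (fat_of_not_filled hG hF hM hz hr hS hx hf hκ) v hv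
    · intro x f hf
      have h3 : x ∈ {x : X | ∀ f ∈ F x, Filled G g F β i z
          (ξ - (⟪ξ, R.α j⟫ / ‖R.α j‖ ^ 2) • R.α j) (R.e3 j)
          (|⟪ξ, R.α j⟫| / ‖R.α j‖) x f} := by
        rw [h2]; exact Set.mem_univ x
      have h4 := h3 f hf ![0, 0, (1 - 2 * τ) * (⟪ξ, R.α j⟫ / ‖R.α j‖)] (by
        rw [hr2, Fin.sum_univ_three]
        simp only [Matrix.cons_val_zero, Matrix.cons_val_one, Matrix.cons_val]
        rw [mul_pow]
        have h5 : (1 - 2 * τ) ^ 2 ≤ 1 := by nlinarith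
        have h6 : 0 ≤ (⟪ξ, R.α j⟫ / ‖R.α j‖) ^ 2 := sq_nonneg _
        nlinarith)
      have h7 : ξ - (⟪ξ, R.α j⟫ / ‖R.α j‖ ^ 2) • R.α j +
          ∑ k, (![0, 0, (1 - 2 * τ) * (⟪ξ, R.α j⟫ / ‖R.α j‖)] : Fin 3 → ℝ) k • R.e3 j k =
          ξ - (τ * (2 * ⟪ξ, R.α j⟫ / ‖R.α j‖ ^ 2)) • R.α j := by
        rw [Fin.sum_univ_three]
        simp only [Roots.e3, Matrix.cons_val_zero, Matrix.cons_val_one, Matrix.cons_val,
          zero_smul, zero_add, smul_smul]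
        rw [sub_add, ← sub_smul]
        congr 2
        field_simp
        ring
      rw [h7] at h4
      exact h4

theorem clauseA [PreconnectedSpace X] (hG : IsCompactGroup G g) (hF : IsPrincipal G F) {d : ℕ}
    {Y : Type} [TopologicalSpace Y] [ChartedSpace (EuclideanSpace ℝ (Fin d)) Y]
    (Φ : Fibre G g d Y) (hβ : SmoothForm β) (hβ' : ClosedForm β)
    (hc : CouplingSymplectic G g F Φ β)
    (hfat : ¬ ∃ s : Submodule ℝ (Mat N N), IsSu2Ideal G g s ∧ FatOn G g F s)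
    (m : Y) (c : Mat N N) (hm : IsCentralPart G g (Φ.mu m) c) :
    ∃ Ω : Form X 2, IsSymplectic Ω ∧ ∀ (x : X), ∀ f ∈ F x, ∀ v w : T x,
      val2 Ω x v w = val2 β x v w + curv G g F x f c v w := by
  obtain ⟨n, i, L, hM⟩ := exists_model hG
  have hmr : Φ.mu m ∈ LinearMap.range i := by
    rw [hM.range]
    exact Φ.mu_mem m
  obtain ⟨z, hz0⟩ := hmr
  have hz : ∀ x : X, ∀ f ∈ F x, q6 (bb β x + ell G g F x f (i z)) ≠ 0 := by
    intro x f hf
    rw [hz0]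
    exact (coupling_iff hG hF Φ β).1 hc x f hf m
  obtain ⟨t, hzt, ht⟩ := exists_torus L z
  obtain ⟨q, ⟨R⟩⟩ := exists_roots ht
  obtain ⟨u, hu, hu0, huz⟩ := R.reduce ht (adGroup hM hG) {u | Good G g F β i z u}
    (fun j hj ξ hξ hξt τ h0 h1 => by
      by_cases hk : ∃ k, k ≠ j ∧ ⟪R.α k, R.α j⟫ ≠ (0 : ℝ)
      · exact good_seg hG hF hM hz R ht hj hk hξt hξ h0 h1
      · push Not at hk
        exact good_seg1 hG hF hM hβ hz hfat R ht hk hξt hξ h0 h1) (good_self hz) hzt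
  have huc : ∀ a ∈ G, a * i u = i u * a := by
    intro a ha
    refine comm_central hG ?_ ha
    intro ξ hξ
    rw [← hM.range] at hξ
    obtain ⟨w, rfl⟩ := hξ
    have h1 := hM.bracket u w
    rw [hu0 w, map_zero] at h1
    exact (sub_eq_zero.1 h1.symm).symm
  obtain ⟨hc1, hc2, hc3⟩ := hm
  have hd1 : c - i u ∈ g := g.sub_mem hc1 (hM.mem u)
  have hd2 : ∀ a ∈ G, a * (c - i u) = (c - i u) * a := by
    intro a ha
    rw [mul_sub, sub_mul, hc2 a ha, huc a ha]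
  obtain ⟨v, hv⟩ : ∃ v, i v = c - i u := by
    have h1 : c - i u ∈ LinearMap.range i := by rw [hM.range]; exact hd1
    exact h1
  have hv0 : ∀ w, L.ad v w = 0 := by
    intro w
    apply hM.injective
    rw [hM.bracket, map_zero, hv, central_comm hG hd2 (hM.mem w), sub_self]
  have h1 : ip (c - i u) (Φ.mu m - c) = 0 := hc3 _ hd1 hd2
  have h2 : ip (c - i u) (Φ.mu m - i u) = 0 := by
    rw [← hv, ← hz0, ← map_sub, hM.inner]
    exact huz v hv0
  have h3 : ip (c - i u) (c - i u) = 0 := by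
    have h4 := ip_add_right (c - i u) (Φ.mu m - c) (c - i u)
    have h5 : Φ.mu m - c + (c - i u) = Φ.mu m - i u := by abel
    rw [h5, h1, h2, zero_add] at h4
    exact h4.symm
  have hcu : c = i u := sub_eq_zero.1 (ip_self_eq_zero h3)
  obtain ⟨Ω', hs, hcl, hΩ⟩ := exists_central hG hF hc1 hc2 hβ hβ'
  refine ⟨Ω', ⟨hs, hcl, ?_⟩, hΩ⟩
  intro x w hw
  obtain ⟨f, hf⟩ := frame_nonempty hG hF x
  have h6 : q6 (bb β x + ell G g F x f c) ≠ 0 := by
    rw [hcu]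
    exact right_ne_zero_of_mul (ne_of_gt (hu x f hf))
  refine (nondeg_iff hG hF hf β c).2 h6 w fun w' => ?_
  rw [← hΩ x f hf]
  exact hw w'

end Pool.Agent.W_9986fc_G
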