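import Pool.Agent.W_9986fc_G.Ip

/-!
# Euclidean models of spaces of matrices, orthogonal projections

* `exists_model_sub`: every real subspace of matrices is the isometric image of a Euclidean space: make `g` an
  inner product space with `InnerProductSpace.Core` (inner product `ip`) and take
  `stdOrthonormalBasis ℝ g`; or Gram-Schmidt by hand / induction on the dimension.
* `exists_proj`: with `i` from `exists_model_sub`, `pr Z = ∑ k, ip (i (e k)) Z • i (e k)`.
-/

set_option autoImplicit false

open scoped Matrix RealInnerProductSpace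

namespace Pool.Agent.W_9986fc_G

variable {K N : ℕ}

/-- the inner product space structure on a subspace -/
noncomputable def IpM_core (g : Submodule ℝ (Mat K N)) : InnerProductSpace.Core ℝ g where
  inner A B := ip (A : Mat K N) (B : Mat K N)
  conj_inner_symm A B := ip_comm _ _
  re_inner_nonneg A := ip_self_nonneg _
  add_left A B C := ip_add_left _ _ _
  smul_left A B c := ip_smul_left _ _ _
  definite A h := Subtype.ext (ip_self_eq_zero h)

theorem IpM_sum_left {ι : Type} (s : Finset ι) (c : ι → ℝ) (A : ι → Mat K N) (B : Mat K N) :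
    ip (∑ k ∈ s, c k • A k) B = ∑ k ∈ s, c k * ip (A k) B := by
  classical
  induction s using Finset.induction_on with
  | empty =>
    rw [Finset.sum_empty, Finset.sum_empty]
    have h := ip_smul_left (0 : ℝ) (0 : Mat K N) B
    simpa using h
  | insert a t ha ih =>
    rw [Finset.sum_insert ha, Finset.sum_insert ha, ip_add_left, ip_smul_left, ih]

theorem exists_model_sub (g : Submodule ℝ (Mat K N)) :
    ∃ (n : ℕ) (i : EuclideanSpace ℝ (Fin n) →ₗ[ℝ] Mat K N),
      (∀ u v, ip (i u) (i v) = ⟪u, v⟫) ∧ LinearMap.range i = g := by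
  letI core := IpM_core g
  letI : NormedAddCommGroup g := core.toNormedAddCommGroup
  letI : InnerProductSpace ℝ g := InnerProductSpace.ofCore core.toCore
  have hinner : ∀ A B : g, ⟪A, B⟫ = ip (A : Mat K N) (B : Mat K N) := fun A B => rfl
  let b := stdOrthonormalBasis ℝ g
  refine ⟨Module.finrank ℝ g, g.subtype ∘ₗ b.repr.symm.toLinearEquiv.toLinearMap, ?_, ?_⟩
  · intro u v
    show ip ((b.repr.symm u : g) : Mat K N) ((b.repr.symm v : g) : Mat K N) = ⟪u, v⟫
    rw [← hinner, LinearIsometryEquiv.inner_map_map]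
  · rw [LinearMap.range_comp, LinearMap.range_eq_top.2, Submodule.map_top, Submodule.range_subtype]
    intro x
    exact ⟨b.repr x, b.repr.symm_apply_apply x⟩

theorem exists_proj (g : Submodule ℝ (Mat K N)) :
    ∃ pr : Mat K N →ₗ[ℝ] Mat K N, (∀ Z, pr Z ∈ g) ∧ ∀ Z, ∀ ξ ∈ g, ip ξ (Z - pr Z) = 0 := by
  obtain ⟨n, i, hi, hr⟩ := exists_model_sub g
  let b := EuclideanSpace.basisFun (Fin n) ℝ
  let w : Mat K N →ₗ[ℝ] EuclideanSpace ℝ (Fin n) :=
    { toFun := fun Z => ∑ k, ip (i (b k)) Z • b k
      map_add' := by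
        intro Z Z'
        rw [← Finset.sum_add_distrib]
        exact Finset.sum_congr rfl fun k _ => by rw [ip_add_right, add_smul]
      map_smul' := by
        intro c Z
        rw [RingHom.id_apply, Finset.smul_sum]
        exact Finset.sum_congr rfl fun k _ => by rw [ip_smul_right, mul_smul] }
  refine ⟨i ∘ₗ w, fun Z => ?_, fun Z ξ hξ => ?_⟩
  · rw [← hr]
    exact ⟨w Z, rfl⟩
  · rw [← hr] at hξ
    obtain ⟨u, rfl⟩ := hξ
    have h1 : ip (i u) (i (w Z)) = ∑ k, ⟪b k, u⟫ * ip (i (b k)) Z := by
      rw [hi]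
      show ⟪u, ∑ k, ip (i (b k)) Z • b k⟫ = _
      rw [inner_sum]
      refine Finset.sum_congr rfl fun k _ => ?_
      rw [inner_smul_right, real_inner_comm, mul_comm]
    have h2 : ip (i u) Z = ∑ k, ⟪b k, u⟫ * ip (i (b k)) Z := by
      conv_lhs => rw [← b.sum_repr' u, map_sum]
      simp only [map_smul]
      exact IpM_sum_left _ _ _ _
    have h3 : Z - (i ∘ₗ w) Z = Z + (-1 : ℝ) • i (w Z) := by
      rw [neg_one_smul, ← sub_eq_add_neg]
      rfl
    rw [h3, ip_add_right, ip_smul_right, h1, h2]
    ring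

end Pool.Agent.W_9986fc_G
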