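import Pool.Agent.W_9986fc_G.Ip
import Pool.Agent.W_9986fc_G.IpM

/-!
# Real coordinates of complex matrices; orthonormal bases of `su(2)`-ideals

* `co_ip`: `Re tr (A* B) = ∑ Re A_ij Re B_ij + Im A_ij Im B_ij`.
* `exists_onb`: `exists_model_sub s`, `finrank s = 3` forces `n = 3`; `η k = i (single k 1)`.
* `hor_perp`: `ip (f ηk f*) (D ηj f* + f ηj D*) = ip ηk (Z ηj - ηj Z)`, `Z = f* D`, `= ± ip Z [ηj, ηk] = 0` (`ip_mul_left`,
  `ip_mul_right`, `ip_bracket`).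
* `hor_curv`: expand; `ip (D ηk) (D' ηj) = - Re tr (ηj ηk D* D')`, `ip (ηk D*) (ηj D'*) = - Re tr (ηk ηj D'* D)`; the mixed
  terms are `- Re tr (ηk Z ηj Z')` and `- Re tr (Z ηk Z' ηj)` (`Z' = f* D'`) and cancel after antisymmetrization
  (cyclicity of the trace).  Checked numerically.
-/

set_option autoImplicit false

open scoped Matrix RealInnerProductSpace

namespace Pool.Agent.W_9986fc_G

variable {K N : ℕ}

/-- index set of the real coordinates of a `K × K` matrix -/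
abbrev Pk (K : ℕ) : Type := (Fin K × Fin K) × Fin 2

/-- real coordinates -/
noncomputable def co {K : ℕ} (m : Mat K K) (p : Pk K) : ℝ :=
  if p.2 = 0 then (m p.1.1 p.1.2).re else (m p.1.1 p.1.2).im

theorem co_ip (m m' : Mat K K) : ∑ p, co m p * co m' p = ip m m' := by
  unfold ip
  rw [Matrix.trace, Complex.re_sum, Fintype.sum_prod_type, Fintype.sum_prod_type,
    Finset.sum_comm]
  refine Finset.sum_congr rfl fun j _ => ?_
  rw [Matrix.diag_apply, Matrix.mul_apply, Complex.re_sum]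
  refine Finset.sum_congr rfl fun i _ => ?_
  rw [Fin.sum_univ_two, Matrix.conjTranspose_apply]
  unfold co
  simp [Complex.mul_re]

theorem co_add (m m' : Mat K K) (p : Pk K) : co (m + m') p = co m p + co m' p := by
  unfold co
  split_ifs <;> simp [Matrix.add_apply]

theorem co_smul (c : ℝ) (m : Mat K K) (p : Pk K) : co (c • m) p = c * co m p := by
  unfold co
  split_ifs <;> simp [Matrix.smul_apply]

theorem co_sum {ι : Type} [Fintype ι] (m : ι → Mat K K) (p : Pk K) :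
    co (∑ i, m i) p = ∑ i, co (m i) p := by
  unfold co
  split_ifs
  · rw [Matrix.sum_apply, Complex.re_sum]
  · rw [Matrix.sum_apply, Complex.im_sum]

/-- an orthonormal basis of a 3-dimensional space of matrices -/
structure IsOnb (s : Submodule ℝ (Mat N N)) (η : Fin 3 → Mat N N) : Prop where
  mem : ∀ k, η k ∈ s
  inner : ∀ k l, ip (η k) (η l) = if k = l then 1 else 0
  span : ∀ ξ ∈ s, ξ = ∑ k, ip (η k) ξ • η k

theorem exists_onb {s : Submodule ℝ (Mat N N)} (h : Module.finrank ℝ s = 3) :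
    ∃ η : Fin 3 → Mat N N, IsOnb s η := by
  obtain ⟨n, i, hi, hr⟩ := exists_model_sub s
  have hinj : Function.Injective i := by
    rw [← LinearMap.ker_eq_bot, LinearMap.ker_eq_bot']
    intro u hu
    have h1 := hi u u
    rw [hu] at h1
    have h2 : ip (0 : Mat N N) 0 = 0 := by
      have := ip_smul_left (0 : ℝ) (0 : Mat N N) 0
      simpa using this
    rw [h2] at h1
    exact inner_self_eq_zero.1 h1.symm
  have hn : n = 3 := by
    have h1 := LinearMap.finrank_range_of_inj hinj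
    rw [hr, h, finrank_euclideanSpace_fin] at h1
    exact h1.symm
  subst hn
  have hu : ∀ u : EuclideanSpace ℝ (Fin 3), u = ∑ k, u k • EuclideanSpace.single k (1 : ℝ) := by
    intro u
    have h1 := (EuclideanSpace.basisFun (Fin 3) ℝ).sum_repr u
    simpa using h1.symm
  refine ⟨fun k => i (EuclideanSpace.single k 1), fun k => ?_, fun k l => ?_, fun ξ hξ => ?_⟩
  · rw [← hr]
    exact ⟨_, rfl⟩
  · rw [hi, EuclideanSpace.inner_single_left]
    simp [PiLp.single_apply]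
  · rw [← hr] at hξ
    obtain ⟨u, rfl⟩ := hξ
    have h1 : ∀ k, ip (i (EuclideanSpace.single k 1)) (i u) = u k := by
      intro k
      rw [hi, EuclideanSpace.inner_single_left]
      simp
    simp only [h1]
    conv_lhs => rw [hu u, map_sum]
    simp only [map_smul]

theorem ip_frame {f : Mat K N} (hf : fᴴ * f = 1) (ξ η : Mat N N) :
    ip (f * ξ * fᴴ) (f * η * fᴴ) = ip ξ η := by
  have h1 : fᴴ * (f * η * fᴴ) = η * fᴴ := by
    rw [← Matrix.mul_assoc, ← Matrix.mul_assoc, hf, Matrix.one_mul]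
  rw [Matrix.mul_assoc f ξ, ip_mul_left, h1, ip_mul_right, Matrix.conjTranspose_conjTranspose,
    Matrix.mul_assoc, hf, Matrix.mul_one]

theorem CoP_skew {f D : Mat K N} (hD : (fᴴ * D)ᴴ = -(fᴴ * D)) : Dᴴ * f = -(fᴴ * D) := by
  rw [← hD, Matrix.conjTranspose_mul, Matrix.conjTranspose_conjTranspose]

theorem hor_perp {f D : Mat K N} (hf : fᴴ * f = 1) (hD : (fᴴ * D)ᴴ = -(fᴴ * D))
    {ηk ηj : Mat N N} (hk : ηkᴴ = -ηk) (hj : ηjᴴ = -ηj)
    (h : ip (ηj * ηk - ηk * ηj) (fᴴ * D) = 0) :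
    ip (f * ηk * fᴴ) (D * ηj * fᴴ + f * ηj * Dᴴ) = 0 := by
  have hZ := CoP_skew hD
  have h1 : fᴴ * (D * ηj * fᴴ + f * ηj * Dᴴ) * f = (fᴴ * D) * ηj - ηj * (fᴴ * D) := by
    rw [Matrix.mul_add, Matrix.add_mul]
    have e1 : fᴴ * (D * ηj * fᴴ) * f = (fᴴ * D) * ηj := by
      simp only [Matrix.mul_assoc]
      rw [hf, Matrix.mul_one]
    have e2 : fᴴ * (f * ηj * Dᴴ) * f = - (ηj * (fᴴ * D)) := by
      rw [Matrix.mul_assoc f ηj Dᴴ, ← Matrix.mul_assoc fᴴ f, hf, Matrix.one_mul,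
        Matrix.mul_assoc ηj, hZ, Matrix.mul_neg]
    rw [e1, e2, sub_eq_add_neg]
  rw [Matrix.mul_assoc f ηk, ip_mul_left, ip_mul_right, Matrix.conjTranspose_conjTranspose, h1,
    ip_comm, ip_bracket hD hj hk, ip_comm]
  exact h

theorem CoP_neg_ip {A B : Mat K K} (hA : Aᴴ = -A) : ip A B = -((A * B).trace).re := by
  unfold ip
  rw [hA, Matrix.neg_mul, Matrix.trace_neg, Complex.neg_re]

theorem CoP_key {f D D' : Mat K N} (hf : fᴴ * f = 1) (hD : (fᴴ * D)ᴴ = -(fᴴ * D))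
    (hD' : (fᴴ * D')ᴴ = -(fᴴ * D')) (ηk ηj : Mat N N) :
    ((D * ηk * fᴴ + f * ηk * Dᴴ) * (D' * ηj * fᴴ + f * ηj * D'ᴴ)).trace =
      ((fᴴ * D) * ηk * (fᴴ * D') * ηj).trace + (ηk * ηj * (D'ᴴ * D)).trace +
      (ηj * ηk * (Dᴴ * D')).trace + (ηk * (fᴴ * D) * ηj * (fᴴ * D')).trace := by
  have hZ := CoP_skew hD
  have hZ' := CoP_skew hD'
  rw [Matrix.add_mul, Matrix.mul_add, Matrix.mul_add, Matrix.trace_add, Matrix.trace_add,
    Matrix.trace_add]
  have t1 : ((D * ηk * fᴴ) * (D' * ηj * fᴴ)).trace = ((fᴴ * D) * ηk * (fᴴ * D') * ηj).trace := by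
    have e : (D * ηk * fᴴ) * (D' * ηj * fᴴ) = (D * ηk * fᴴ * D' * ηj) * fᴴ := by
      simp only [Matrix.mul_assoc]
    rw [e, Matrix.trace_mul_comm]
    simp only [Matrix.mul_assoc]
  have t2 : ((D * ηk * fᴴ) * (f * ηj * D'ᴴ)).trace = (ηk * ηj * (D'ᴴ * D)).trace := by
    have e : (D * ηk * fᴴ) * (f * ηj * D'ᴴ) = D * (ηk * (fᴴ * f) * ηj * D'ᴴ) := by
      simp only [Matrix.mul_assoc]
    rw [e, hf, Matrix.mul_one, Matrix.trace_mul_comm]
    simp only [Matrix.mul_assoc]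
  have t3 : ((f * ηk * Dᴴ) * (D' * ηj * fᴴ)).trace = (ηj * ηk * (Dᴴ * D')).trace := by
    have e : (f * ηk * Dᴴ) * (D' * ηj * fᴴ) = (f * (ηk * Dᴴ * D')) * (ηj * fᴴ) := by
      simp only [Matrix.mul_assoc]
    rw [e, Matrix.trace_mul_comm]
    have e2 : (ηj * fᴴ) * (f * (ηk * Dᴴ * D')) = ηj * (fᴴ * f) * (ηk * Dᴴ * D') := by
      simp only [Matrix.mul_assoc]
    rw [e2, hf, Matrix.mul_one]
    simp only [Matrix.mul_assoc]
  have t4 : ((f * ηk * Dᴴ) * (f * ηj * D'ᴴ)).trace = (ηk * (fᴴ * D) * ηj * (fᴴ * D')).trace := by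
    have e : (f * ηk * Dᴴ) * (f * ηj * D'ᴴ) = f * (ηk * (Dᴴ * f) * ηj * D'ᴴ) := by
      simp only [Matrix.mul_assoc]
    rw [e, Matrix.trace_mul_comm]
    have e2 : (ηk * (Dᴴ * f) * ηj * D'ᴴ) * f = ηk * (Dᴴ * f) * ηj * (D'ᴴ * f) := by
      simp only [Matrix.mul_assoc]
    rw [e2, hZ, hZ']
    simp only [Matrix.mul_neg, Matrix.neg_mul, neg_neg]
  rw [t1, t2, t3, t4]
  ring

theorem hor_curv {f D D' : Mat K N} (hf : fᴴ * f = 1) (hD : (fᴴ * D)ᴴ = -(fᴴ * D))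
    (hD' : (fᴴ * D')ᴴ = -(fᴴ * D')) {ηk ηj : Mat N N} (hk : ηkᴴ = -ηk) (hj : ηjᴴ = -ηj) :
    ip (D * ηk * fᴴ + f * ηk * Dᴴ) (D' * ηj * fᴴ + f * ηj * D'ᴴ) -
      ip (D' * ηk * fᴴ + f * ηk * D'ᴴ) (D * ηj * fᴴ + f * ηj * Dᴴ) =
    ip (ηj * ηk - ηk * ηj) (Dᴴ * D' - D'ᴴ * D) := by
  have s1 : ∀ D : Mat K N, (D * ηk * fᴴ + f * ηk * Dᴴ)ᴴ = -(D * ηk * fᴴ + f * ηk * Dᴴ) := by
    intro D
    simp only [Matrix.conjTranspose_add, Matrix.conjTranspose_mul,
      Matrix.conjTranspose_conjTranspose, hk, Matrix.mul_neg, Matrix.neg_mul, Matrix.mul_assoc]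
    abel
  have s2 : (ηj * ηk - ηk * ηj)ᴴ = -(ηj * ηk - ηk * ηj) := by
    simp only [Matrix.conjTranspose_sub, Matrix.conjTranspose_mul, hk, hj, Matrix.mul_neg,
      Matrix.neg_mul, neg_neg]
    abel
  have c1 : ((fᴴ * D) * ηk * (fᴴ * D') * ηj).trace = (ηk * (fᴴ * D') * ηj * (fᴴ * D)).trace := by
    have e : (fᴴ * D) * ηk * (fᴴ * D') * ηj = (fᴴ * D) * (ηk * (fᴴ * D') * ηj) := by
      simp only [Matrix.mul_assoc]
    rw [e, Matrix.trace_mul_comm]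
  have c2 : ((fᴴ * D') * ηk * (fᴴ * D) * ηj).trace = (ηk * (fᴴ * D) * ηj * (fᴴ * D')).trace := by
    have e : (fᴴ * D') * ηk * (fᴴ * D) * ηj = (fᴴ * D') * (ηk * (fᴴ * D) * ηj) := by
      simp only [Matrix.mul_assoc]
    rw [e, Matrix.trace_mul_comm]
  rw [CoP_neg_ip (s1 D), CoP_neg_ip (s1 D'), CoP_neg_ip s2, CoP_key hf hD hD', CoP_key hf hD' hD,
    c1, c2, Matrix.sub_mul, Matrix.mul_sub, Matrix.mul_sub]
  simp only [Matrix.trace_sub, Complex.add_re, Complex.sub_re]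
  ring

end Pool.Agent.W_9986fc_G
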