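import Pool.Agent.W_9986fc_G.LiftC

/-!
# Continuity of the curvature in a chart

* `contDiffOn_chart`, `dM_chart`: for a smooth complex function `u` on the open set `U`,
  `y ↦ mfderiv u (inv c y) (dI c y a)` is the derivative of `u ∘ inv c` at `y` in direction `a` (chain rule, see
  `Pool.Agent.W_9986fc_h63.Man3`: `fderiv_chart`, `contDiffOn_chart`, `continuousOn_mD`), smooth on
  `dom c ∩ (inv c)⁻¹ U`.
* `continuousOn_curv`: by `hor_section` the curvature is a polynomial in `s`, `dM s` and the linear map `pr`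
  (`exists_proj`).
-/

set_option autoImplicit false

open scoped Manifold ContDiff Matrix

namespace Pool.Agent.W_9986fc_G

open Pool.Agent.W_MP_d8b8b7_S

universe u

variable {X : Type u} [TopologicalSpace X] [ChartedSpace E4 X] [IsManifold I4 ∞ X] {K N : ℕ}
variable {G : Set (Mat N N)} {g : Submodule ℝ (Mat N N)} {F : X → Set (Mat K N)}

theorem contDiffOn_chart {u : X → ℂ} {U : Set X} (hU : IsOpen U)
    (hu : ContMDiffOn I4 𝓘(ℝ, ℂ) ∞ u U) (c : X) :
    ContDiffOn ℝ ∞ (fun y : EE => u (inv c y)) {y : EE | y ∈ dom c ∧ inv c y ∈ U} := by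
  letI : ChartedSpace (EuclideanSpace ℝ (Fin 4)) X := oldChart X
  have hM : @IsManifold ℝ _ _ _ _ _ _ 𝓘(ℝ, EuclideanSpace ℝ (Fin 4)) ∞ X _ (oldChart X) :=
    inferInstanceAs (IsManifold I4 ∞ X)
  have hu' : @ContMDiffOn ℝ _ EE _ _ EE _ 𝓘(ℝ, EE) X _ (oldChart X) ℂ _ _ ℂ _ 𝓘(ℝ, ℂ) ℂ _ _ ∞ u U :=
    hu
  rw [← contMDiffOn_iff_contDiffOn]
  have h1 : @ContMDiffOn ℝ _ EE _ _ EE _ 𝓘(ℝ, EE) EE _ _ EE _ _ EE _ 𝓘(ℝ, EE) X _ (oldChart X) ∞
      (fun y : EE => (inv c y : X)) (dom c) :=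
    contMDiffOn_extChartAt_symm (I := 𝓘(ℝ, EE)) (n := ∞) c
  exact hu'.comp (h1.mono fun y hy => hy.1) fun y hy => hy.2

theorem CurvC_isOpen {U : Set X} (hU : IsOpen U) (c : X) :
    IsOpen {y : EE | y ∈ dom c ∧ inv c y ∈ U} :=
  (continuousOn_inv c).isOpen_inter_preimage (isOpen_dom c) hU

theorem dM_chart {s : X → Mat K N} {U : Set X} (hU : IsOpen U)
    (hs : ∀ i j, ContMDiffOn I4 𝓘(ℝ, ℂ) ∞ (fun y => s y i j) U) (c : X) {y : EE} (hy : y ∈ dom c)
    (hyU : inv c y ∈ U) (a : EE) (i : Fin K) (j : Fin N) :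
    dM s (inv c y) (show T (inv c y) from dI c y a) i j =
      fderiv ℝ (fun z : EE => s (inv c z) i j) y a := by
  letI : ChartedSpace (EuclideanSpace ℝ (Fin 4)) X := oldChart X
  have hM : @IsManifold ℝ _ _ _ _ _ _ 𝓘(ℝ, EuclideanSpace ℝ (Fin 4)) ∞ X _ (oldChart X) :=
    inferInstanceAs (IsManifold I4 ∞ X)
  have hM1 : IsManifold 𝓘(ℝ, EE) 1 X := IsManifold.of_le (n := ∞) (by norm_cast)
  have hs' : @ContMDiffOn ℝ _ EE _ _ EE _ 𝓘(ℝ, EE) X _ (oldChart X) ℂ _ _ ℂ _ 𝓘(ℝ, ℂ) ℂ _ _ ∞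
      (fun y => s y i j) U := hs i j
  rw [← mfderiv_eq_fderiv]
  have h1 : MDifferentiableAt 𝓘(ℝ, EE) 𝓘(ℝ, ℂ) (fun y : X => s y i j)
      ((extChartAt 𝓘(ℝ, EE) c).symm y) :=
    (hs'.contMDiffAt (hU.mem_nhds hyU)).mdifferentiableAt (by simp)
  have h2 : MDifferentiableAt 𝓘(ℝ, EE) 𝓘(ℝ, EE) (extChartAt 𝓘(ℝ, EE) c).symm y := by
    have h := mdifferentiableWithinAt_extChartAt_symm (I := 𝓘(ℝ, EE)) (x := c) hy
    have hr : Set.range 𝓘(ℝ, EE) = Set.univ := ModelWithCorners.range_eq_univ _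
    rw [hr, mdifferentiableWithinAt_univ] at h
    exact h
  have h3 := mfderiv_comp y h1 h2
  have h4 := congrArg (fun A : EE →L[ℝ] ℂ => A a) h3
  exact h4.symm

/-- The curvature as a function of matrices. -/
noncomputable def CurvC_f (ξ : Mat N N) (pr : Mat N N →ₗ[ℝ] Mat N N)
    (z : Mat K N × Mat K N × Mat K N) : ℝ :=
  ip ξ ((z.2.1 - z.1 * pr (z.1ᴴ * z.2.1))ᴴ * (z.2.2 - z.1 * pr (z.1ᴴ * z.2.2)) -
    (z.2.2 - z.1 * pr (z.1ᴴ * z.2.2))ᴴ * (z.2.1 - z.1 * pr (z.1ᴴ * z.2.1)))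

theorem CurvC_cont (ξ : Mat N N) (pr : Mat N N →ₗ[ℝ] Mat N N) :
    Continuous (CurvC_f (K := K) ξ pr) := by
  have hpr : Continuous pr := pr.continuous_of_finiteDimensional
  have h1 : Continuous fun z : Mat K N × Mat K N × Mat K N => z.2.1 - z.1 * pr (z.1ᴴ * z.2.1) :=
    continuous_snd.fst.sub (continuous_fst.matrix_mul
      (hpr.comp (continuous_fst.matrix_conjTranspose.matrix_mul continuous_snd.fst)))
  have h2 : Continuous fun z : Mat K N × Mat K N × Mat K N => z.2.2 - z.1 * pr (z.1ᴴ * z.2.2) :=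
    continuous_snd.snd.sub (continuous_fst.matrix_mul
      (hpr.comp (continuous_fst.matrix_conjTranspose.matrix_mul continuous_snd.snd)))
  unfold CurvC_f ip
  exact Complex.continuous_re.comp (Continuous.matrix_trace (continuous_const.matrix_mul
    ((h1.matrix_conjTranspose.matrix_mul h2).sub (h2.matrix_conjTranspose.matrix_mul h1))))

theorem continuousOn_curv (hG : IsCompactGroup G g) {U : Set X} {s : X → Mat K N}
    (hs : IsSection G F U s) (ξ : Mat N N) (c : X) (a b : EE) :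
    ContinuousOn (fun y : EE => curv G g F (inv c y) (s (inv c y)) ξ
      (show T (inv c y) from dI c y a) (show T (inv c y) from dI c y b))
      {y : EE | y ∈ dom c ∧ inv c y ∈ U} := by
  obtain ⟨pr, h1, h2⟩ := exists_proj g
  have hS : ContinuousOn (fun y : EE => s (inv c y)) {y : EE | y ∈ dom c ∧ inv c y ∈ U} :=
    continuousOn_pi.2 fun i => continuousOn_pi.2 fun j =>
      (contDiffOn_chart hs.isOpen (hs.smooth i j) c).continuousOn
  have hD : ∀ a : EE, ContinuousOn (fun y : EE => dM s (inv c y) (show T (inv c y) from dI c y a))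
      {y : EE | y ∈ dom c ∧ inv c y ∈ U} := by
    intro a
    refine continuousOn_pi.2 fun i => continuousOn_pi.2 fun j => ?_
    have h3 : ContinuousOn (fun y : EE => fderiv ℝ (fun z : EE => s (inv c z) i j) y a)
        {y : EE | y ∈ dom c ∧ inv c y ∈ U} :=
      ((contDiffOn_chart hs.isOpen (hs.smooth i j) c).continuousOn_fderiv_of_isOpen
        (CurvC_isOpen hs.isOpen c) (by simp)).clm_apply continuousOn_const
    refine h3.congr fun y hy => ?_
    exact dM_chart hs.isOpen hs.smooth c hy.1 hy.2 a i j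
  have h3 := (CurvC_cont (K := K) ξ pr).comp_continuousOn (hS.prodMk ((hD a).prodMk (hD b)))
  refine h3.congr fun y hy => ?_
  unfold curv
  rw [hor_section hG hs hy.2 h1 h2, hor_section hG hs hy.2 h1 h2]
  rfl

end Pool.Agent.W_9986fc_G
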