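import Pool.Agent.W_MP_d8b8b7_S.Statement

/-!
# MP_9986fc_gt, coupling forms with compact structure group over 4-manifolds: definitions

`X` is a smooth 4-manifold (language of `Pool.Agent.W_MP_d8b8b7_S.Statement`: `Form X 2`, `val2`,
`SmoothForm`, `ClosedForm`, `IsSymplectic`).  `G` is a compact connected group of unitary `N × N`
matrices with Lie algebra `g`.  A principal `G`-bundle with connection over `X` is given as a bundle
of orthonormal `N`-frames `f ∈ F x` of `ℂ^K` (`K × N` matrices with `f* f = 1`), `F x = f G`, with the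
connection whose horizontal vectors `D` at `f` are those with `f* D ⟂ g` (by Narasimhan and Ramanan
every connection has this form).
-/

set_option autoImplicit false

open scoped Manifold ContDiff Matrix

namespace Pool.Agent.W_9986fc_G

open Pool.Agent.W_MP_d8b8b7_S

universe u

/-- complex `K × N` matrices -/
abbrev Mat (K N : ℕ) : Type := Matrix (Fin K) (Fin N) ℂ

/-- the inner product `Re tr (A* B)` -/
noncomputable def ip {K N : ℕ} (A B : Mat K N) : ℝ := (Matrix.trace (Aᴴ * B)).re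

/-- `G` is a compact connected group of unitary matrices with Lie algebra `g` (connected: every
element of `G` is the exponential of an element of `g`) -/
structure IsCompactGroup {N : ℕ} (G : Set (Mat N N)) (g : Submodule ℝ (Mat N N)) : Prop where
  one : 1 ∈ G
  mul : ∀ a ∈ G, ∀ b ∈ G, a * b ∈ G
  inv : ∀ a ∈ G, aᴴ ∈ G
  unitary : ∀ a ∈ G, aᴴ * a = 1
  closed : IsClosed G
  lie : ∀ ξ, ξ ∈ g ↔ ∀ t : ℝ, NormedSpace.exp (t • ξ) ∈ G
  conn : ∀ a ∈ G, ∃ ξ ∈ g, NormedSpace.exp ξ = a

/-- `s` is an ideal of the Lie algebra `g` of `G` isomorphic to `su(2)`: a nonabelian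
three-dimensional subspace invariant under `G` -/
structure IsSu2Ideal {N : ℕ} (G : Set (Mat N N)) (g s : Submodule ℝ (Mat N N)) : Prop where
  le : s ≤ g
  dim : Module.finrank ℝ s = 3
  inv : ∀ a ∈ G, ∀ ξ ∈ s, a * ξ * aᴴ ∈ s
  nonab : ∃ ξ ∈ s, ∃ η ∈ s, ξ * η ≠ η * ξ

/-- `c` is the central part of `ξ`: its orthogonal projection to the centre of `g` -/
def IsCentralPart {N : ℕ} (G : Set (Mat N N)) (g : Submodule ℝ (Mat N N)) (ξ c : Mat N N) : Prop :=
  c ∈ g ∧ (∀ a ∈ G, a * c = c * a) ∧ ∀ z ∈ g, (∀ a ∈ G, a * z = z * a) → ip z (ξ - c) = 0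

section Bundle

variable {X : Type u} [TopologicalSpace X] [ChartedSpace E4 X] {K N : ℕ}

/-- the derivative of a family of matrices in the direction of a tangent vector (entrywise) -/
noncomputable def dM (s : X → Mat K N) (x : X) (v : T x) : Mat K N :=
  Matrix.of fun i j =>
    (show T x →L[ℝ] ℂ from mfderiv I4 𝓘(ℝ, ℂ) (fun y => s y i j) x) v

/-- `s` is a smooth section over the open set `U` of the bundle with fibres `F x = s(x) G` -/
structure IsSection (G : Set (Mat N N)) (F : X → Set (Mat K N)) (U : Set X) (s : X → Mat K N) :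
    Prop where
  isOpen : IsOpen U
  smooth : ∀ i j, ContMDiffOn I4 𝓘(ℝ, ℂ) ∞ (fun y => s y i j) U
  iso : ∀ y ∈ U, (s y)ᴴ * s y = 1
  fibre : ∀ y ∈ U, F y = {f | ∃ a ∈ G, f = s y * a}

/-- `F` is a principal `G`-bundle of orthonormal frames in `ℂ^K` -/
def IsPrincipal (G : Set (Mat N N)) (F : X → Set (Mat K N)) : Prop :=
  ∀ x : X, ∃ (U : Set X) (s : X → Mat K N), x ∈ U ∧ IsSection G F U s

/-- `(v, D)` is a tangent vector of the total space `{(y, f) | f ∈ F y}` at `(x, f)`, and it is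
horizontal: `f* D ⟂ g` -/
def IsLift (G : Set (Mat N N)) (g : Submodule ℝ (Mat N N)) (F : X → Set (Mat K N)) (x : X)
    (f : Mat K N) (v : T x) (D : Mat K N) : Prop :=
  (∃ (U : Set X) (s : X → Mat K N), ∃ ξ ∈ g, x ∈ U ∧ IsSection G F U s ∧ s x = f ∧
    D = dM s x v + f * ξ) ∧ ∀ η ∈ g, ip η (fᴴ * D) = 0

/-- the horizontal lift of `v` at the frame `f` -/
noncomputable def hor (G : Set (Mat N N)) (g : Submodule ℝ (Mat N N)) (F : X → Set (Mat K N))
    (x : X) (f : Mat K N) (v : T x) : Mat K N :=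
  Classical.epsilon fun D => IsLift G g F x f v D

/-- the curvature at the frame `f`, paired with `ξ`: `⟨Ω_f(v, w), ξ⟩`, where `Ω_f(v, w)` is the
projection to `g` of `D* D' - D'* D`, `D`, `D'` the horizontal lifts of `v`, `w` -/
noncomputable def curv (G : Set (Mat N N)) (g : Submodule ℝ (Mat N N)) (F : X → Set (Mat K N))
    (x : X) (f : Mat K N) (ξ : Mat N N) (v w : T x) : ℝ :=
  ip ξ ((hor G g F x f v)ᴴ * hor G g F x f w - (hor G g F x f w)ᴴ * hor G g F x f v)

/-- the curvature is fat on `s`: the form `⟨Ω_f, ξ⟩` on `T_x X` is nondegenerate for all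
`ξ ≠ 0` in `s` -/
def FatOn (G : Set (Mat N N)) (g : Submodule ℝ (Mat N N)) (F : X → Set (Mat K N))
    (s : Submodule ℝ (Mat N N)) : Prop :=
  ∀ (x : X), ∀ f ∈ F x, ∀ ξ ∈ s, ξ ≠ 0 → ∀ v : T x, (∀ w : T x, curv G g F x f ξ v w = 0) → v = 0

end Bundle

/-- the tangent spaces of a `d`-dimensional manifold `Y` -/
def TY (d : ℕ) (Y : Type) [TopologicalSpace Y] [ChartedSpace (EuclideanSpace ℝ (Fin d)) Y]
    (m : Y) : Type := TangentSpace 𝓘(ℝ, EuclideanSpace ℝ (Fin d)) m

noncomputable instance instTY (d : ℕ) (Y : Type) [TopologicalSpace Y]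
    [ChartedSpace (EuclideanSpace ℝ (Fin d)) Y] (m : Y) : AddCommGroup (TY d Y m) :=
  (inferInstance : AddCommGroup (TangentSpace 𝓘(ℝ, EuclideanSpace ℝ (Fin d)) m))

noncomputable instance instTY' (d : ℕ) (Y : Type) [TopologicalSpace Y]
    [ChartedSpace (EuclideanSpace ℝ (Fin d)) Y] (m : Y) : Module ℝ (TY d Y m) :=
  (inferInstance : Module ℝ (TangentSpace 𝓘(ℝ, EuclideanSpace ℝ (Fin d)) m))

/-- bilinear forms on the tangent space -/
def BilY (d : ℕ) (Y : Type) [TopologicalSpace Y] [ChartedSpace (EuclideanSpace ℝ (Fin d)) Y]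
    (m : Y) : Type := TY d Y m →ₗ[ℝ] TY d Y m →ₗ[ℝ] ℝ

/-- the value of a bilinear form -/
noncomputable def BilY.val {d : ℕ} {Y : Type} [TopologicalSpace Y] [ChartedSpace (EuclideanSpace ℝ (Fin d)) Y]
    {m : Y} (σ : BilY d Y m) (u w : TY d Y m) : ℝ :=
  (show TY d Y m →ₗ[ℝ] TY d Y m →ₗ[ℝ] ℝ from σ) u w

/-- the fibre: a manifold `Y` with a nondegenerate 2-form `sigma`, maps `act a` for `a ∈ G` and an
equivariant map `mu` to `g`, for example a Hamiltonian `G`-manifold with its moment map (we do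
not need that `sigma` is closed or that `mu` is a moment map) -/
structure Fibre {N : ℕ} (G : Set (Mat N N)) (g : Submodule ℝ (Mat N N)) (d : ℕ) (Y : Type)
    [TopologicalSpace Y] [ChartedSpace (EuclideanSpace ℝ (Fin d)) Y] where
  /-- the 2-form -/
  sigma : ∀ m : Y, BilY d Y m
  alt : ∀ m u, (sigma m).val u u = 0
  nondeg : ∀ m u, (∀ w, (sigma m).val u w = 0) → u = 0
  /-- the action -/
  act : Mat N N → Y → Y
  /-- the moment map -/
  mu : Y → Mat N N
  mu_mem : ∀ m, mu m ∈ g
  equivariant : ∀ a ∈ G, ∀ m, mu (act a m) = a * mu m * aᴴ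

section Coupling

variable {X : Type u} [TopologicalSpace X] [ChartedSpace E4 X] {K N : ℕ}

/-- the coupling form plus `β` on `P ×_G Y`, `P = {(x, f) | f ∈ F x}`, is nondegenerate: the tangent
space at `[x, f, m]` is the sum of the horizontal space `T_x X` and the vertical space `T_m Y`, and
the form is `β(v, w) + ⟨Ω_f(v, w), mu m⟩ + sigma(u, u')` -/
def CouplingSymplectic (G : Set (Mat N N)) (g : Submodule ℝ (Mat N N)) (F : X → Set (Mat K N))
    {d : ℕ} {Y : Type} [TopologicalSpace Y] [ChartedSpace (EuclideanSpace ℝ (Fin d)) Y]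
    (Φ : Fibre G g d Y) (β : Form X 2) : Prop :=
  ∀ (x : X), ∀ f ∈ F x, ∀ (m : Y) (v : T x) (u : TY d Y m),
    (∀ (w : T x) (u' : TY d Y m),
      val2 β x v w + curv G g F x f (Φ.mu m) v w + (Φ.sigma m).val u u' = 0) → v = 0 ∧ u = 0

/-- the fields `e i` are smooth and a basis of every tangent space: `X` is parallelizable -/
structure IsParallelization (e : Fin 4 → ∀ x : X, T x) : Prop where
  smooth : ∀ (i : Fin 4) (c : X), ContDiffOn ℝ ∞ (fun y => dChart c y (e i (inv c y))) (dom c)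
  indep : ∀ x : X, LinearIndependent ℝ fun i => e i x

end Coupling

end Pool.Agent.W_9986fc_G
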