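import Pool.Agent.W_9986fc_G.Cht
import Pool.Agent.W_MP_d8b8b7_G1.Stokes4

/-!
# Stokes' theorem in `ℝ⁴`

`euclid_stokes`: apply `Pool.Agent.W_MP_d8b8b7_G1.stokes4` to `a y = w y • fderiv ℝ u₁ y` and
`b y = du₂ ∧ du₃` (`b y v w = du₂ v * du₃ w - du₂ w * du₃ v`): `dOne a = dw ∧ du₁` (second derivatives
symmetric), `dTwo b = 0`, and the wedge of the components is the determinant.  Or directly: `det (∂_b u_a)` is
`∑ b, ∂_b (w * cofactor)` (Piola), and `integral_fderiv_zero`.

`euclid_stokes_on`: `O` open, `w` has compact support in `O`, `u₁, u₂, u₃` and `σ` smooth on `O`, `dσ = 0` on `O`.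
Choose a smooth cut-off function `χ` with compact support in `O`, `χ = 1` on a neighbourhood of `tsupport w`
(`exists_contDiff_tsupport_subset`, or `exists_smooth_one_nhds_of_subset_interior`); replace `w` by `σ χ w` and `u i` by
`χ u i` (extended by 0), which are smooth on `ℝ⁴`; the determinant is the same (it vanishes outside
`tsupport w`).
-/

set_option autoImplicit false

open scoped ContDiff

namespace Pool.Agent.W_9986fc_G

open MeasureTheory Set Filter Topology
open Pool.Agent.W_MP_d8b8b7_G1 Pool.Agent.W_MP_d8b8b7_gt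
open scoped Manifold

theorem EStokes_sm {f : EE → ℝ} (hf : ContDiff ℝ ∞ f) : ContDiff ℝ ∞ (fderiv ℝ f) :=
  hf.fderiv_right (by simp)

theorem EStokes_symm {f : EE → ℝ} (hf : ContDiff ℝ ∞ f) (y v w : EE) :
    fderiv ℝ (fderiv ℝ f) y v w = fderiv ℝ (fderiv ℝ f) y w v :=
  (hf.contDiffAt.isSymmSndFDerivAt (by
    rw [minSmoothness_of_isRCLikeNormedField]
    exact ENat.LEInfty.out)).eq v w

theorem EStokes_mul {f g : EE → ℝ} (hf : ContDiff ℝ ∞ f) (hg : ContDiff ℝ ∞ g) (y u v w : EE) :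
    fderiv ℝ (fun z => fderiv ℝ f z v * fderiv ℝ g z w - fderiv ℝ g z v * fderiv ℝ f z w) y u =
      fderiv ℝ (fderiv ℝ f) y u v * fderiv ℝ g y w + fderiv ℝ f y v * fderiv ℝ (fderiv ℝ g) y u w -
      (fderiv ℝ (fderiv ℝ g) y u v * fderiv ℝ f y w +
        fderiv ℝ g y v * fderiv ℝ (fderiv ℝ f) y u w) := by
  have key : ∀ {h : EE → ℝ}, ContDiff ℝ ∞ h → ∀ v : EE, HasFDerivAt (fun z => fderiv ℝ h z v)
      ((ContinuousLinearMap.apply ℝ ℝ v).comp (fderiv ℝ (fderiv ℝ h) y)) y := fun {h} hh v =>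
    (ContinuousLinearMap.apply ℝ ℝ v).hasFDerivAt.comp y
      (((EStokes_sm hh).differentiable (by simp)) y).hasFDerivAt
  have h1 := ((key hf v).mul (key hg w)).sub ((key hg v).mul (key hf w))
  have h2 : fderiv ℝ (fun z => fderiv ℝ f z v * fderiv ℝ g z w -
    fderiv ℝ g z v * fderiv ℝ f z w) y = _ := h1.fderiv
  rw [h2]
  simp only [_root_.sub_apply, _root_.add_apply, _root_.smul_apply, smul_eq_mul,
    ContinuousLinearMap.comp_apply, ContinuousLinearMap.apply_apply]
  ring

theorem euclid_stokes {u : Fin 4 → EE → ℝ} (hu : ∀ a, ContDiff ℝ ∞ (u a))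
    (hs : HasCompactSupport (u 0)) :
    ∫ y, Matrix.det (Matrix.of fun a b : Fin 4 => fderiv ℝ (u a) y (e4 b)) = 0 := by
  set a : EN 4 → Cov 4 := fun y => u 0 y • fderiv ℝ (u 1) y with ha
  set b : EN 4 → Bil 4 := fun y => Bil.asym (fderiv ℝ (u 2) y) (fderiv ℝ (u 3) y) with hb
  have hbs : ContDiff ℝ ∞ b := by
    rw [Bil.contDiff_iff]
    intro v w
    simp only [hb, Bil.asym_apply]
    exact (((EStokes_sm (hu 2)).clm_apply contDiff_const).mul
      ((EStokes_sm (hu 3)).clm_apply contDiff_const)).sub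
      (((EStokes_sm (hu 3)).clm_apply contDiff_const).mul
      ((EStokes_sm (hu 2)).clm_apply contDiff_const))
  have has : ContDiff ℝ ∞ a := (hu 0).smul (EStokes_sm (hu 1))
  have hac : HasCompactSupport a := hs.smul_right
  have hbd : ∀ y u' v w, fderiv ℝ b y u' v w =
      fderiv ℝ (fderiv ℝ (u 2)) y u' v * fderiv ℝ (u 3) y w +
        fderiv ℝ (u 2) y v * fderiv ℝ (fderiv ℝ (u 3)) y u' w -
      (fderiv ℝ (fderiv ℝ (u 3)) y u' v * fderiv ℝ (u 2) y w +
        fderiv ℝ (u 3) y v * fderiv ℝ (fderiv ℝ (u 2)) y u' w) := by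
    intro y u' v w
    rw [← Bil.fderiv_apply ((hbs.differentiable (by simp)) y), ← EStokes_mul (hu 2) (hu 3)]
    rfl
  have hst := stokes4 a b has hbs hac (fun y v => by
    simp only [hb, Bil.asym_apply]
    ring) (fun y _ u' v w => by
    simp only [dTwo]
    rw [hbd, hbd, hbd, EStokes_symm (hu 2) y u' v, EStokes_symm (hu 3) y u' v,
      EStokes_symm (hu 2) y u' w, EStokes_symm (hu 3) y u' w,
      EStokes_symm (hu 2) y v w, EStokes_symm (hu 3) y v w]
    ring)
  rw [← hst]
  refine integral_congr_ae (Filter.Eventually.of_forall fun y => ?_)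
  have had : ∀ v w, fderiv ℝ a y v w = u 0 y * fderiv ℝ (fderiv ℝ (u 1)) y v w +
      fderiv ℝ (u 0) y v * fderiv ℝ (u 1) y w := by
    intro v w
    have h1 := (((hu 0).differentiable (by simp)) y).hasFDerivAt.smul
      (((EStokes_sm (hu 1)).differentiable (by simp)) y).hasFDerivAt
    have h2 : fderiv ℝ a y = _ := h1.fderiv
    rw [h2]
    simp only [_root_.add_apply, _root_.smul_apply, smul_eq_mul,
      ContinuousLinearMap.smulRight_apply]
  have hd1 : ∀ v w, dOne a y v w = fderiv ℝ (u 0) y v * fderiv ℝ (u 1) y w -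
      fderiv ℝ (u 0) y w * fderiv ℝ (u 1) y v := by
    intro v w
    rw [dOne_apply, had, had, EStokes_symm (hu 1) y v w]
    ring
  have he : ∀ i, std4 i = e4 i := fun i => rfl
  simp only [wedge, comp6, hd1, hb, Bil.asym_apply, PiLp.toLp_apply, he]
  simp only [Matrix.cons_val, Matrix.cons_val_zero, Matrix.cons_val_one]
  rw [Matrix.det_succ_row_zero]
  simp only [Fin.sum_univ_four, Matrix.det_fin_three, Matrix.submatrix_apply, Matrix.of_apply,
    Fin.succAbove, Fin.succ_zero_eq_one]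
  have e3 : (Fin.succ (2 : Fin 3)) = (3 : Fin 4) := rfl
  have e2 : (Fin.castSucc (2 : Fin 3)) = (2 : Fin 4) := rfl
  norm_num [Fin.ext_iff, Fin.lt_def, e3, e2]
  ring

theorem euclid_stokes_on {O : Set EE} (hO : IsOpen O) {u : Fin 4 → EE → ℝ}
    (hu : ∀ a, ContDiffOn ℝ ∞ (u a) O) (hs : HasCompactSupport (u 0)) (hs' : tsupport (u 0) ⊆ O)
    {σ : EE → ℝ} (hσ : ∀ y ∈ O, ∃ W, IsOpen W ∧ y ∈ W ∧ ∀ z ∈ W, σ z = σ y) :
    ∫ y in O, σ y * Matrix.det (Matrix.of fun a b : Fin 4 => fderiv ℝ (u a) y (e4 b)) = 0 := by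
  obtain ⟨K, hK, hKs, hKO⟩ := exists_compact_between hs hO hs'
  obtain ⟨χ, hχ1, hχ0, -⟩ := exists_contMDiffMap_one_nhds_of_subset_interior (n := ⊤)
    𝓘(ℝ, EE) (isClosed_tsupport (u 0)) hKs
  have hχs : ContDiff ℝ ∞ χ := χ.contMDiff.contDiff
  have hχt : tsupport χ ⊆ K := by
    refine closure_minimal ?_ hK.isClosed
    intro y hy
    by_contra h
    exact hy (hχ0 y h)
  have hu0 : ∀ y, y ∉ tsupport (u 0) → ∀ᶠ z in 𝓝 y, u 0 z = 0 := by
    intro y hy
    filter_upwards [(isClosed_tsupport (u 0)).isOpen_compl.mem_nhds hy] with z hz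
    exact image_eq_zero_of_notMem_tsupport hz
  have hσe : ∀ y ∈ O, ∀ᶠ z in 𝓝 y, σ z = σ y := by
    intro y hy
    obtain ⟨W, hW, hyW, hW2⟩ := hσ y hy
    filter_upwards [hW.mem_nhds hyW] with z hz using hW2 z hz
  have hua : ∀ a, ∀ y ∈ O, ContDiffAt ℝ ∞ (u a) y := fun a y hy =>
    (hu a).contDiffAt (hO.mem_nhds hy)
  let v : Fin 4 → EE → ℝ := fun a => if a = 0 then fun y => σ y * u 0 y else fun y => χ y * u a y
  have hv0 : v 0 = fun y => σ y * u 0 y := if_pos rfl
  have hva : ∀ a, a ≠ 0 → v a = fun y => χ y * u a y := fun a h => if_neg h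
  have hvs : ∀ a, ContDiff ℝ ∞ (v a) := by
    intro a
    rw [contDiff_iff_contDiffAt]
    intro y
    by_cases h : a = 0
    · subst h
      rw [hv0]
      by_cases hy : y ∈ tsupport (u 0)
      · have h1 : (fun z => σ z * u 0 z) =ᶠ[𝓝 y] fun z => σ y * u 0 z := by
          filter_upwards [hσe y (hs' hy)] with z hz
          rw [hz]
        exact ((contDiffAt_const).mul (hua 0 y (hs' hy))).congr_of_eventuallyEq h1
      · have h1 : (fun z => σ z * u 0 z) =ᶠ[𝓝 y] fun _ => 0 := by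
          filter_upwards [hu0 y hy] with z hz
          rw [hz, mul_zero]
        exact contDiffAt_const.congr_of_eventuallyEq h1
    · rw [hva a h]
      by_cases hy : y ∈ K
      · exact hχs.contDiffAt.mul (hua a y (hKO hy))
      · have h1 : (fun z => χ z * u a z) =ᶠ[𝓝 y] fun _ => 0 := by
          filter_upwards [hK.isClosed.isOpen_compl.mem_nhds hy] with z hz
          rw [hχ0 z hz, zero_mul]
        exact contDiffAt_const.congr_of_eventuallyEq h1
  have hvc : HasCompactSupport (v 0) := by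
    rw [hv0]
    exact hs.mul_left
  have hout : ∀ y, y ∉ tsupport (u 0) → fderiv ℝ (u 0) y = 0 ∧ fderiv ℝ (v 0) y = 0 := by
    intro y hy
    constructor
    · have h1 : u 0 =ᶠ[𝓝 y] fun _ => 0 := hu0 y hy
      rw [h1.fderiv_eq]
      simp
    · have h1 : v 0 =ᶠ[𝓝 y] fun _ => 0 := by
        rw [hv0]
        filter_upwards [hu0 y hy] with z hz
        rw [hz, mul_zero]
      rw [h1.fderiv_eq]
      simp
  have hdet : ∀ y ∈ O, σ y * Matrix.det (Matrix.of fun a b : Fin 4 => fderiv ℝ (u a) y (e4 b)) =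
      Matrix.det (Matrix.of fun a b : Fin 4 => fderiv ℝ (v a) y (e4 b)) := by
    intro y hy
    by_cases hyt : y ∈ tsupport (u 0)
    · have h0 : fderiv ℝ (v 0) y = σ y • fderiv ℝ (u 0) y := by
        have h1 : v 0 =ᶠ[𝓝 y] fun z => σ y • u 0 z := by
          rw [hv0]
          filter_upwards [hσe y hy] with z hz
          rw [hz, smul_eq_mul]
        rw [h1.fderiv_eq]
        exact fderiv_fun_const_smul ((hua 0 y hy).differentiableAt (by simp)) _
      have h1 : ∀ a, a ≠ 0 → fderiv ℝ (v a) y = fderiv ℝ (u a) y := by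
        intro a ha
        have h2 : v a =ᶠ[𝓝 y] u a := by
          rw [hva a ha]
          filter_upwards [hχ1.filter_mono (nhds_le_nhdsSet hyt)] with z hz
          rw [hz, one_mul]
        exact h2.fderiv_eq
      have h2 : (Matrix.of fun a b : Fin 4 => fderiv ℝ (v a) y (e4 b)) =
          Matrix.updateRow (Matrix.of fun a b : Fin 4 => fderiv ℝ (u a) y (e4 b)) 0
            (σ y • (Matrix.of fun a b : Fin 4 => fderiv ℝ (u a) y (e4 b)) 0) := by
        ext a b
        by_cases ha : a = 0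
        · subst ha
          rw [Matrix.updateRow_self, Matrix.of_apply, h0]
          rfl
        · rw [Matrix.updateRow_ne ha, Matrix.of_apply, Matrix.of_apply, h1 a ha]
      rw [h2, Matrix.det_updateRow_smul, Matrix.updateRow_eq_self]
    · obtain ⟨h1, h2⟩ := hout y hyt
      rw [Matrix.det_eq_zero_of_row_eq_zero 0, Matrix.det_eq_zero_of_row_eq_zero 0, mul_zero]
      · intro j
        rw [Matrix.of_apply, h2]
        rfl
      · intro j
        rw [Matrix.of_apply, h1]
        rfl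
  rw [setIntegral_congr_fun hO.measurableSet hdet,
    setIntegral_eq_integral_of_forall_compl_eq_zero, euclid_stokes hvs hvc]
  intro y hy
  obtain ⟨-, h2⟩ := hout y fun h => hy (hs' h)
  refine Matrix.det_eq_zero_of_row_eq_zero 0 fun j => ?_
  rw [Matrix.of_apply, h2]
  rfl

end Pool.Agent.W_9986fc_G
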