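import Mathlib
import Pool.Agent.W_9986fc_h63.ND
import Pool.Agent.W_9986fc_h42.Non

/-!
# The six components of a 2-form on `ℝ⁴`, the Pfaffian

`vec6 B e` are the values of `B` on the pairs (01), (02), (03), (12), (13), (23) of the frame `e`,
`q6` the Pfaffian.

* `nondeg_q6`: for `B` alternating bilinear and a basis `e`: nondegenerate iff `q6 (vec6 B e) ≠ 0`
  (`det (B (e i) (e j)) = q6²`; see `Pool.Agent.W_9986fc_h63.ND`, theorem `CF42.nondeg_iff`, which may be
  copied or imported).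
* `q6_change`: `q6 (vec6 B e') = det (e.toMatrix e') * q6 (vec6 B e)` (see `Pool.Agent.W_9986fc_h63.Man6`,
  `pf_change`, and `CF42.pf_trans` in `Pool.Agent.W_9986fc_h42`).
-/

set_option autoImplicit false

namespace Pool.Agent.W_9986fc_G

/-- the Pfaffian -/
def q6 (v : Fin 6 → ℝ) : ℝ := v 0 * v 5 - v 1 * v 4 + v 2 * v 3

/-- the six components of a 2-form in a frame -/
def vec6 {V : Type*} (B : V → V → ℝ) (e : Fin 4 → V) : Fin 6 → ℝ :=
  ![B (e 0) (e 1), B (e 0) (e 2), B (e 0) (e 3), B (e 1) (e 2), B (e 1) (e 3), B (e 2) (e 3)]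

variable {V : Type*} [AddCommGroup V] [Module ℝ V]

theorem Vec6_alt (B : V →ₗ[ℝ] V →ₗ[ℝ] ℝ) (hB : ∀ v, B v v = 0) (v w : V) : B w v = -B v w := by
  have h := hB (v + w)
  simp only [map_add, LinearMap.add_apply, hB, zero_add, add_zero] at h
  linarith

theorem Vec6_bil (b : V →ₗ[ℝ] V →ₗ[ℝ] ℝ) (f : Fin 4 → V) (c d : Fin 4 → ℝ) :
    b (∑ i, c i • f i) (∑ j, d j • f j) = ∑ i, ∑ j, c i * d j * b (f i) (f j) := by
  have h1 : b (∑ i, c i • f i) = ∑ i, c i • b (f i) := by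
    rw [map_sum]
    exact Finset.sum_congr rfl fun i _ => map_smul b (c i) (f i)
  rw [h1, LinearMap.sum_apply]
  refine Finset.sum_congr rfl fun i _ => ?_
  rw [map_sum]
  refine Finset.sum_congr rfl fun j _ => ?_
  rw [map_smul, LinearMap.smul_apply]
  simp only [smul_eq_mul]
  ring

theorem nondeg_q6 (e : Module.Basis (Fin 4) ℝ V) (B : V →ₗ[ℝ] V →ₗ[ℝ] ℝ) (hB : ∀ v, B v v = 0) :
    (∀ v, (∀ w, B v w = 0) → v = 0) ↔ q6 (vec6 (fun v w => B v w) e) ≠ 0 := by
  exact Pool.Agent.W_9986fc_h63.nondeg_iff e B hB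

theorem q6_change (e e' : Module.Basis (Fin 4) ℝ V) : ∃ d : ℝ, d ≠ 0 ∧
    ∀ B : V →ₗ[ℝ] V →ₗ[ℝ] ℝ, (∀ v, B v v = 0) →
      q6 (vec6 (fun v w => B v w) e') = d * q6 (vec6 (fun v w => B v w) e) := by
  refine ⟨(e.toMatrix e').det, ?_, fun B hB => ?_⟩
  · have := e.invertibleToMatrix e'
    exact (Matrix.isUnit_det_of_invertible (e.toMatrix e')).ne_zero
  · have h1 : ∀ i, e' i = ∑ a, e.toMatrix e' a i • e a :=
      fun i => (e.sum_toMatrix_smul_self e' i).symm
    have h2 := CF42.pf_trans (e.toMatrix e') (fun i j => B (e i) (e j)) (fun i => hB _)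
      (fun i j => Vec6_alt B hB _ _)
    have h3 : (fun i j => ∑ a, ∑ b, e.toMatrix e' a i * e.toMatrix e' b j * B (e a) (e b)) =
        fun i j => B (e' i) (e' j) := by
      funext i j
      conv_rhs => rw [h1 i, h1 j]
      exact (Vec6_bil B e (fun a => e.toMatrix e' a i) (fun a => e.toMatrix e' a j)).symm
    rw [h3] at h2
    exact h2

end Pool.Agent.W_9986fc_G
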