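import Pool.Agent.W_9986fc_G.LiftC
import Pool.Agent.W_9986fc_G.Vec6

/-!
# The components of `β + ⟨Ω, ξ⟩`

* `ell_mul`: `curv_mul`.
* `nondeg_iff`, `nondeg_iff0`: `nondeg_q6` for the bilinear form `bil β x + B`, `B` from `exists_curvB`
  (`val2_self`, `curv_self`).
* `coupling_iff`: from left to right take `u = 0`; from right to left `u' = 0` gives `v = 0`, then `w = 0` and
  `Φ.nondeg`.
-/

set_option autoImplicit false

open scoped Manifold ContDiff Matrix

namespace Pool.Agent.W_9986fc_G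

open Pool.Agent.W_MP_d8b8b7_S

universe u

variable {X : Type u} [TopologicalSpace X] [ChartedSpace E4 X] [IsManifold I4 ∞ X] {K N : ℕ}

/-- the components of `β` in the standard frame -/
noncomputable def bb (β : Form X 2) (x : X) : Fin 6 → ℝ :=
  vec6 (fun v w => val2 β x v w) (std x)

/-- the components of the curvature in the standard frame -/
noncomputable def ell (G : Set (Mat N N)) (g : Submodule ℝ (Mat N N)) (F : X → Set (Mat K N))
    (x : X) (f : Mat K N) : Mat N N →ₗ[ℝ] (Fin 6 → ℝ) where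
  toFun ξ := vec6 (fun v w => curv G g F x f ξ v w) (std x)
  map_add' ξ η := by
    funext k
    fin_cases k <;> exact curv_add x f ξ η _ _
  map_smul' c ξ := by
    funext k
    fin_cases k <;> exact curv_smul x f c ξ _ _

theorem continuous_q6 : Continuous q6 := by
  unfold q6
  fun_prop

variable {G : Set (Mat N N)} {g : Submodule ℝ (Mat N N)} {F : X → Set (Mat K N)}

theorem ell_mul (hG : IsCompactGroup G g) (hF : IsPrincipal G F) {x : X} {f : Mat K N}
    (hf : f ∈ F x) {a : Mat N N} (ha : a ∈ G) (ξ : Mat N N) :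
    ell G g F x (f * a) ξ = ell G g F x f (a * ξ * aᴴ) := by
  show vec6 (fun v w => curv G g F x (f * a) ξ v w) (std x) =
    vec6 (fun v w => curv G g F x f (a * ξ * aᴴ) v w) (std x)
  congr 1
  funext v w
  exact curv_mul hG hF hf ha ξ v w

theorem Ell_add {V : Type*} (B C : V → V → ℝ) (e : Fin 4 → V) :
    vec6 (fun v w => B v w + C v w) e = vec6 B e + vec6 C e := by
  funext k
  fin_cases k <;> rfl

theorem Ell_B (β : Form X 2) {x : X} {f : Mat K N} {ξ : Mat N N} {B : T x →ₗ[ℝ] T x →ₗ[ℝ] ℝ}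
    (hB : ∀ v w, B v w = curv G g F x f ξ v w) (v w : T x) :
    (bil β x + B) v w = val2 β x v w + curv G g F x f ξ v w := by
  rw [LinearMap.add_apply, LinearMap.add_apply, hB, bil_apply]

theorem nondeg_iff (hG : IsCompactGroup G g) (hF : IsPrincipal G F) {x : X} {f : Mat K N}
    (hf : f ∈ F x) (β : Form X 2) (ξ : Mat N N) :
    (∀ v : T x, (∀ w : T x, val2 β x v w + curv G g F x f ξ v w = 0) → v = 0) ↔
      q6 (bb β x + ell G g F x f ξ) ≠ 0 := by
  obtain ⟨B, hB⟩ := exists_curvB hG hF hf ξ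
  have h1 := nondeg_q6 (std x) (bil β x + B) (fun v => by
    rw [Ell_B β hB, val2_self, curv_self, add_zero])
  have h2 : vec6 (fun v w => (bil β x + B) v w) (std x) = bb β x + ell G g F x f ξ := by
    have h3 : (fun v w => (bil β x + B) v w) =
        fun v w => val2 β x v w + curv G g F x f ξ v w := by
      funext v w
      exact Ell_B β hB v w
    rw [h3, Ell_add]
    rfl
  rw [h2] at h1
  rw [← h1]
  simp only [Ell_B β hB]

theorem nondeg_iff0 (hG : IsCompactGroup G g) (hF : IsPrincipal G F) {x : X} {f : Mat K N}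
    (hf : f ∈ F x) (ξ : Mat N N) :
    (∀ v : T x, (∀ w : T x, curv G g F x f ξ v w = 0) → v = 0) ↔
      q6 (ell G g F x f ξ) ≠ 0 := by
  obtain ⟨B, hB⟩ := exists_curvB hG hF hf ξ
  have h1 := nondeg_q6 (std x) B (fun v => by rw [hB, curv_self])
  have h2 : vec6 (fun v w => B v w) (std x) = ell G g F x f ξ := by
    have h3 : (fun v w => B v w) = fun v w => curv G g F x f ξ v w := by
      funext v w
      exact hB v w
    rw [h3]
    rfl
  rw [h2] at h1
  rw [← h1]
  simp only [hB]

theorem Ell_val_left {d : ℕ} {Y : Type} [TopologicalSpace Y]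
    [ChartedSpace (EuclideanSpace ℝ (Fin d)) Y] {m : Y} (σ : BilY d Y m) (u : TY d Y m) :
    σ.val 0 u = 0 := by
  have h : (show TY d Y m →ₗ[ℝ] TY d Y m →ₗ[ℝ] ℝ from σ) 0 u = 0 := by
    rw [map_zero, LinearMap.zero_apply]
  exact h

theorem Ell_val_right {d : ℕ} {Y : Type} [TopologicalSpace Y]
    [ChartedSpace (EuclideanSpace ℝ (Fin d)) Y] {m : Y} (σ : BilY d Y m) (u : TY d Y m) :
    σ.val u 0 = 0 := by
  have h : (show TY d Y m →ₗ[ℝ] TY d Y m →ₗ[ℝ] ℝ from σ) u 0 = 0 := by
    rw [map_zero]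
  exact h

theorem coupling_iff (hG : IsCompactGroup G g) (hF : IsPrincipal G F) {d : ℕ} {Y : Type}
    [TopologicalSpace Y] [ChartedSpace (EuclideanSpace ℝ (Fin d)) Y] (Φ : Fibre G g d Y)
    (β : Form X 2) : CouplingSymplectic G g F Φ β ↔
      ∀ x : X, ∀ f ∈ F x, ∀ m : Y, q6 (bb β x + ell G g F x f (Φ.mu m)) ≠ 0 := by
  constructor
  · intro H x f hf m
    rw [← nondeg_iff hG hF hf β (Φ.mu m)]
    intro v hv
    refine (H x f hf m v 0 fun w u' => ?_).1
    rw [hv w, Ell_val_left, add_zero]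
  · intro H x f hf m v u h
    have hv : v = 0 := by
      refine (nondeg_iff hG hF hf β (Φ.mu m)).2 (H x f hf m) v fun w => ?_
      have h1 := h w 0
      rwa [Ell_val_right, add_zero] at h1
    refine ⟨hv, Φ.nondeg m u fun u' => ?_⟩
    have h1 := h 0 u'
    rw [hv, val2_self, curv_self, add_zero, zero_add] at h1
    exact h1

end Pool.Agent.W_9986fc_G
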