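import Pool.Agent.W_9986fc_G.Ell
import Pool.Agent.W_9986fc_G.CurvC

/-!
# Components in the frame of a chart

* `chart_change`: `q6_change` with `e = std (inv c y)` and `e' = bas c hy` (`bas_apply`), applied to the bilinear
  form `bil β x + B`, `B` from `exists_curvB`.
* `continuousOn_bbc`: `continuousOn_val2`; `continuousOn_ellc`: `continuousOn_curv` (components:
  `continuousOn_pi`, `fin_cases`).
-/

set_option autoImplicit false

open scoped Manifold ContDiff Matrix

namespace Pool.Agent.W_9986fc_G

open Pool.Agent.W_MP_d8b8b7_S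

universe u

variable {X : Type u} [TopologicalSpace X] [ChartedSpace E4 X] [IsManifold I4 ∞ X] {K N : ℕ}

/-- the frame of the chart `c` at `inv c y` -/
noncomputable def frc (c : X) (y : EE) (i : Fin 4) : T (inv c y) :=
  (show T (inv c y) from dI c y (e4 i))

/-- the components of `β` in the frame of the chart -/
noncomputable def bbc (β : Form X 2) (c : X) (y : EE) : Fin 6 → ℝ :=
  vec6 (fun v w => val2 β (inv c y) v w) (frc c y)

/-- the components of the curvature in the frame of the chart -/
noncomputable def ellc (G : Set (Mat N N)) (g : Submodule ℝ (Mat N N)) (F : X → Set (Mat K N))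
    (c : X) (y : EE) (f : Mat K N) : Mat N N →ₗ[ℝ] (Fin 6 → ℝ) where
  toFun ξ := vec6 (fun v w => curv G g F (inv c y) f ξ v w) (frc c y)
  map_add' ξ η := by
    funext k
    fin_cases k <;> exact curv_add (inv c y) f ξ η _ _
  map_smul' a ξ := by
    funext k
    fin_cases k <;> exact curv_smul (inv c y) f a ξ _ _

variable {G : Set (Mat N N)} {g : Submodule ℝ (Mat N N)} {F : X → Set (Mat K N)}

theorem EllC_B (β : Form X 2) {x : X} {f : Mat K N} {ξ : Mat N N} {B : T x →ₗ[ℝ] T x →ₗ[ℝ] ℝ}
    (hB : ∀ v w, B v w = curv G g F x f ξ v w) (v w : T x) :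
    (bil β x + B) v w = val2 β x v w + curv G g F x f ξ v w := by
  rw [LinearMap.add_apply, LinearMap.add_apply, hB, bil_apply]

theorem EllC_add {V : Type*} (B C : V → V → ℝ) (e : Fin 4 → V) :
    vec6 (fun v w => B v w + C v w) e = vec6 B e + vec6 C e := by
  funext k
  fin_cases k <;> rfl

theorem chart_change (hG : IsCompactGroup G g) (hF : IsPrincipal G F) (β : Form X 2) (c : X)
    {y : EE} (hy : y ∈ dom c) : ∃ d : ℝ, d ≠ 0 ∧ ∀ f ∈ F (inv c y), ∀ ξ : Mat N N,
      q6 (bbc β c y + ellc G g F c y f ξ) =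
        d * q6 (bb β (inv c y) + ell G g F (inv c y) f ξ) := by
  obtain ⟨d, hd, H⟩ := q6_change (std (inv c y)) (bas c hy)
  refine ⟨d, hd, fun f hf ξ => ?_⟩
  obtain ⟨B, hB⟩ := exists_curvB hG hF hf ξ
  have h1 := H (bil β (inv c y) + B) (fun v => by
    rw [EllC_B β hB, val2_self, curv_self, add_zero])
  have h3 : (fun v w => (bil β (inv c y) + B) v w) =
      fun v w => val2 β (inv c y) v w + curv G g F (inv c y) f ξ v w := by
    funext v w
    exact EllC_B β hB v w
  rw [h3, EllC_add, EllC_add] at h1
  have h4 : (bas c hy : Fin 4 → T (inv c y)) = frc c y := by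
    funext i
    exact bas_apply c hy i
  rw [h4] at h1
  exact h1

theorem continuousOn_bbc {β : Form X 2} (hβ : SmoothForm β) (c : X) :
    ContinuousOn (bbc β c) (dom c) := by
  refine continuousOn_pi.2 fun k => ?_
  fin_cases k <;> exact continuousOn_val2 hβ c _ _

theorem continuousOn_ellc (hG : IsCompactGroup G g) {U : Set X} {s : X → Mat K N}
    (hs : IsSection G F U s) (c : X) (ξ : Mat N N) :
    ContinuousOn (fun y : EE => ellc G g F c y (s (inv c y)) ξ)
      {y : EE | y ∈ dom c ∧ inv c y ∈ U} := by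
  refine continuousOn_pi.2 fun k => ?_
  fin_cases k <;> exact continuousOn_curv hG hs ξ c _ _

end Pool.Agent.W_9986fc_G
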