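import Pool.Agent.W_9986fc_G.Vec6

/-!
# A clopen argument for quadratic functions on the ball of `ℝ³`

`h z η = ε z * q6 (b z + ∑ η i • M z i)`, positive for `‖η‖ = r`.

`quad_fat` (one point `z`): if `h η ≤ 0` for some `η` in the ball, then for `κ ≠ 0` the quadratic polynomial
`τ ↦ h (η + τ κ) = A τ² + B τ + C`, `A = ε q6 (∑ κ i • M i)`, `C = h η ≤ 0` is positive at two points
`τ₁ < 0 < τ₂` (the line meets the sphere on both sides of the interior point `η`), so `A > 0`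
(`τ₂ (A τ₁² + B τ₁) - τ₁ (A τ₂² + B τ₂) > 0` gives `A τ₁ τ₂ (τ₁ - τ₂) > 0`).

`quad_clopen`: `D = {z | h z > 0 on the closed ball}` is open: the closed ball is compact and `h` is continuous on
`Z × ball` (tube lemma).
Complement open: let `z₀ ∉ D`.  WLOG `ε z₀ > 0` (the sign is constant near `z₀`; for `ε < 0` replace `q6` by
`- q6`, e.g. via `v ↦ (v 0, v 1, v 2, -v 3, -v 4, -v 5)`).  By `quad_fat` the quadratic form
`Q z κ = ε z * q6 (∑ κ i • M z i)` is positive definite for `z = z₀`, hence for `z` near `z₀`; let `η* z` be the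
unique critical point (= minimum) of `h z` on `ℝ³` (solution of a 3x3 linear system with invertible
matrix: continuous in `z` near `z₀`).  `‖η* z₀‖ < r`: `h z₀` is strictly convex, it is `≤ 0` at a point of the
open ball; if `‖η*‖ ≥ r` the segment from that point to `η*` meets the sphere in a point where, by convexity,
`h ≤ max (h η, h η*) ≤ 0`: contradiction.  So `‖η* z‖ < r` for `z` near `z₀`.  And
`h z (η* z) ≤ 0`: the vector `v = b z + ∑ (η* z) i • M z i` is orthogonal (for the polar form of `q6`) to the three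
vectors `M z i`, which span a positive definite 3-dimensional space; if `ε q6 v > 0` then `v, M z 0, M z 1, M z 2`
would span a positive definite space of dimension 4, impossible as `q6` has signature (3,3) (a
4-dimensional subspace of `ℝ⁶` meets the 3-dimensional negative definite space
`{v | s v = 0}`, `s v = (v 0 + v 5, v 1 - v 4, v 2 + v 3)`, `4 q6 v = ‖s v‖² - ‖a v‖²`).  So `z ∉ D`.
-/

set_option autoImplicit false

namespace Pool.Agent.W_9986fc_G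

/-- the polar form of `q6` -/
def QuadC_P (v w : Fin 6 → ℝ) : ℝ :=
  v 0 * w 5 + w 0 * v 5 - (v 1 * w 4 + w 1 * v 4) + (v 2 * w 3 + w 2 * v 3)

theorem QuadC_add_smul (v w : Fin 6 → ℝ) (τ : ℝ) :
    q6 (v + τ • w) = q6 w * τ ^ 2 + QuadC_P v w * τ + q6 v := by
  simp only [q6, QuadC_P, Pi.add_apply, Pi.smul_apply, smul_eq_mul]
  ring

theorem QuadC_smul (w : Fin 6 → ℝ) (τ : ℝ) : q6 (τ • w) = τ ^ 2 * q6 w := by
  simp only [q6, Pi.smul_apply, smul_eq_mul]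
  ring

theorem QuadC_line (b : Fin 6 → ℝ) (M : Fin 3 → Fin 6 → ℝ) (η κ : Fin 3 → ℝ) (τ : ℝ) :
    b + ∑ i, (η + τ • κ) i • M i = (b + ∑ i, η i • M i) + τ • ∑ i, κ i • M i := by
  simp only [Pi.add_apply, Pi.smul_apply, smul_eq_mul, add_smul, mul_smul,
    Finset.sum_add_distrib, Finset.smul_sum, add_assoc]

theorem QuadC_sq (η κ : Fin 3 → ℝ) (τ : ℝ) :
    ∑ i, (η + τ • κ) i ^ 2 = (∑ i, κ i ^ 2) * τ ^ 2 + 2 * (∑ i, η i * κ i) * τ + ∑ i, η i ^ 2 := by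
  simp only [Pi.add_apply, Pi.smul_apply, smul_eq_mul, Fin.sum_univ_three]
  ring

theorem QuadC_pos {κ : Fin 3 → ℝ} (hκ : κ ≠ 0) : 0 < ∑ i, κ i ^ 2 := by
  obtain ⟨i, hi⟩ := Function.ne_iff.mp hκ
  have hi' : κ i ≠ 0 := hi
  exact Finset.sum_pos' (fun j _ => sq_nonneg _) ⟨i, Finset.mem_univ i, by positivity⟩

theorem quad_fat {b : Fin 6 → ℝ} {M : Fin 3 → Fin 6 → ℝ} {ε r : ℝ} (hr : 0 < r)
    (hsph : ∀ η : Fin 3 → ℝ, ∑ i, η i ^ 2 = r ^ 2 → 0 < ε * q6 (b + ∑ i, η i • M i))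
    (hex : ∃ η : Fin 3 → ℝ, ∑ i, η i ^ 2 ≤ r ^ 2 ∧ ε * q6 (b + ∑ i, η i • M i) ≤ 0)
    (κ : Fin 3 → ℝ) (hκ : κ ≠ 0) : 0 < ε * q6 (∑ i, κ i • M i) := by
  obtain ⟨η, hη1, hη2⟩ := hex
  have hlt : ∑ i, η i ^ 2 < r ^ 2 := by
    rcases hη1.lt_or_eq with h | h
    · exact h
    · exact absurd (hsph η h) (not_lt.mpr hη2)
  have hK := QuadC_pos hκ
  obtain ⟨K, hKd⟩ : ∃ K : ℝ, K = ∑ i, κ i ^ 2 := ⟨_, rfl⟩
  obtain ⟨β, hβ⟩ : ∃ β : ℝ, β = ∑ i, η i * κ i := ⟨_, rfl⟩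
  obtain ⟨γ, hγ⟩ : ∃ γ : ℝ, γ = r ^ 2 - ∑ i, η i ^ 2 := ⟨_, rfl⟩
  rw [← hKd] at hK
  have hγ0 : 0 < γ := by rw [hγ]; linarith
  obtain ⟨S, hS⟩ : ∃ S : ℝ, S = Real.sqrt (β ^ 2 + K * γ) := ⟨_, rfl⟩
  have hS2 : S ^ 2 = β ^ 2 + K * γ := by
    rw [hS, Real.sq_sqrt (by positivity)]
  have hS0 : 0 ≤ S := by rw [hS]; exact Real.sqrt_nonneg _
  have hKγ : 0 < K * γ := mul_pos hK hγ0
  have hSβ : |β| < S := by
    rw [← Real.sqrt_sq_eq_abs, hS]
    exact Real.sqrt_lt_sqrt (sq_nonneg _) (by linarith)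
  have hSβ1 := (abs_lt.mp hSβ).1
  have hSβ2 := (abs_lt.mp hSβ).2
  have key : ∀ τ : ℝ, K * τ ^ 2 + 2 * β * τ - γ = 0 →
      0 < ε * q6 (∑ i, κ i • M i) * τ ^ 2 +
        ε * QuadC_P (b + ∑ i, η i • M i) (∑ i, κ i • M i) * τ := by
    intro τ hτ
    have h1 := hsph (η + τ • κ) (by
      rw [QuadC_sq, ← hKd, ← hβ]
      linarith)
    rw [QuadC_line, QuadC_add_smul] at h1
    nlinarith
  have h1 := key ((-β + S) / K) (by field_simp; nlinarith)
  have h2 := key ((-β - S) / K) (by field_simp; nlinarith)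
  have hτ2 : 0 < (-β + S) / K := div_pos (by linarith) hK
  have hτ1 : (-β - S) / K < 0 := div_neg_of_neg_of_pos (by linarith) hK
  obtain ⟨τ₁, e1⟩ : ∃ τ₁ : ℝ, τ₁ = (-β - S) / K := ⟨_, rfl⟩
  obtain ⟨τ₂, e2⟩ : ∃ τ₂ : ℝ, τ₂ = (-β + S) / K := ⟨_, rfl⟩
  rw [← e1] at h2 hτ1
  rw [← e2] at h1 hτ2
  obtain ⟨A, hA⟩ : ∃ A : ℝ, A = ε * q6 (∑ i, κ i • M i) := ⟨_, rfl⟩
  obtain ⟨B, hB⟩ : ∃ B : ℝ, B = ε * QuadC_P (b + ∑ i, η i • M i) (∑ i, κ i • M i) := ⟨_, rfl⟩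
  rw [← hA, ← hB] at h1 h2
  rw [← hA]
  have h3 : 0 < A * (τ₁ * τ₂ * (τ₁ - τ₂)) := by
    have h4 := mul_pos h2 hτ2
    have h5 := mul_pos h1 (neg_pos.mpr hτ1)
    have h6 : A * (τ₁ * τ₂ * (τ₁ - τ₂)) =
      (A * τ₁ ^ 2 + B * τ₁) * τ₂ + (A * τ₂ ^ 2 + B * τ₂) * -τ₁ := by ring
    rw [h6]
    exact add_pos h4 h5
  have h7 : 0 < τ₁ * τ₂ * (τ₁ - τ₂) :=
    mul_pos_of_neg_of_neg (mul_neg_of_neg_of_pos hτ1 hτ2) (by linarith)
  exact (pos_iff_pos_of_mul_pos h3).mpr h7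

theorem QuadC_sig (b : Fin 6 → ℝ) (M : Fin 3 → Fin 6 → ℝ) {ε : ℝ}
    (hpos : ∀ κ : Fin 3 → ℝ, κ ≠ 0 → 0 < ε * q6 (∑ i, κ i • M i)) :
    ∃ η : Fin 3 → ℝ, ε * q6 (b + ∑ i, η i • M i) ≤ 0 := by
  obtain ⟨σ, hσ, hεσ⟩ : ∃ σ : ℝ, σ ^ 2 = 1 ∧ 0 ≤ ε * σ := by
    rcases le_total 0 ε with h | h
    · exact ⟨1, by norm_num, by linarith⟩
    · exact ⟨-1, by norm_num, by linarith⟩
  let S : (Fin 6 → ℝ) →ₗ[ℝ] (Fin 3 → ℝ) := LinearMap.pi
    ![LinearMap.proj 0 + σ • LinearMap.proj 5, LinearMap.proj 1 - σ • LinearMap.proj 4,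
      LinearMap.proj 2 + σ • LinearMap.proj 3]
  have hS : ∀ v, S v = 0 → ε * q6 v ≤ 0 := by
    intro v hv
    have h0 : v 0 + σ * v 5 = 0 := congrFun hv 0
    have h1 : v 1 - σ * v 4 = 0 := congrFun hv 1
    have h2 : v 2 + σ * v 3 = 0 := congrFun hv 2
    have e0 : v 0 = -(σ * v 5) := by linarith
    have e1 : v 1 = σ * v 4 := by linarith
    have e2 : v 2 = -(σ * v 3) := by linarith
    have e : ε * q6 v = -(ε * σ * (v 5 ^ 2 + v 4 ^ 2 + v 3 ^ 2)) := by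
      simp only [q6]
      rw [e0, e1, e2]
      ring
    rw [e]
    have h3 : 0 ≤ v 5 ^ 2 + v 4 ^ 2 + v 3 ^ 2 := by positivity
    have h4 := mul_nonneg hεσ h3
    linarith
  let f : (Fin 4 → ℝ) →ₗ[ℝ] (Fin 3 → ℝ) :=
    S ∘ₗ Fintype.linearCombination ℝ (Fin.cons b M : Fin 4 → Fin 6 → ℝ)
  have hker : LinearMap.ker f ≠ ⊥ := by
    apply LinearMap.ker_ne_bot_of_finrank_lt
    simp
  obtain ⟨c, hc, hc0⟩ := Submodule.exists_mem_ne_zero_of_ne_bot hker
  have hfc : S (c 0 • b + ∑ i : Fin 3, c i.succ • M i) = 0 := by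
    have h1 : f c = 0 := hc
    have h2 : f c = S (c 0 • b + ∑ i : Fin 3, c i.succ • M i) := by
      change S (Fintype.linearCombination ℝ (Fin.cons b M : Fin 4 → Fin 6 → ℝ) c) = _
      rw [Fintype.linearCombination_apply, Fin.sum_univ_succ]
      simp only [Fin.cons_zero, Fin.cons_succ]
    rw [← h2, h1]
  have hle := hS _ hfc
  by_cases h00 : c 0 = 0
  · exfalso
    have hκ : (fun i : Fin 3 => c i.succ) ≠ 0 := by
      intro h
      apply hc0
      funext i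
      refine Fin.cases ?_ (fun j => ?_) i
      · exact h00
      · exact congrFun h j
    have h1 := hpos _ hκ
    rw [h00, zero_smul, zero_add] at hle
    exact absurd h1 (not_lt.mpr hle)
  · refine ⟨fun i => (c 0)⁻¹ * c i.succ, ?_⟩
    have h1 : b + ∑ i, ((c 0)⁻¹ * c i.succ) • M i =
        (c 0)⁻¹ • (c 0 • b + ∑ i : Fin 3, c i.succ • M i) := by
      rw [smul_add, smul_smul, inv_mul_cancel₀ h00, one_smul, Finset.smul_sum]
      simp only [smul_smul]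
    change ε * q6 (b + ∑ i, ((c 0)⁻¹ * c i.succ) • M i) ≤ 0
    rw [h1, QuadC_smul]
    have h2 : 0 ≤ ((c 0)⁻¹) ^ 2 := sq_nonneg _
    have h3 := mul_nonneg h2 (neg_nonneg.mpr hle)
    linarith

theorem QuadC_compact (r : ℝ) (hr : 0 ≤ r) : IsCompact {η : Fin 3 → ℝ | ∑ i, η i ^ 2 ≤ r ^ 2} := by
  apply Metric.isCompact_of_isClosed_isBounded
  · exact isClosed_le (by fun_prop) continuous_const
  · apply (Metric.isBounded_closedBall (x := (0 : Fin 3 → ℝ)) (r := r)).subset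
    intro η hη
    rw [mem_closedBall_zero_iff, pi_norm_le_iff_of_nonneg hr]
    intro i
    rw [Real.norm_eq_abs]
    apply abs_le_of_sq_le_sq _ hr
    exact (Finset.single_le_sum (f := fun i => η i ^ 2) (fun j _ => sq_nonneg _)
      (Finset.mem_univ i)).trans hη

theorem QuadC_sphere (r : ℝ) (hr : 0 ≤ r) : IsCompact {η : Fin 3 → ℝ | ∑ i, η i ^ 2 = r ^ 2} := by
  apply (QuadC_compact r hr).of_isClosed_subset (isClosed_eq (by fun_prop) continuous_const)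
  intro η hη
  exact le_of_eq hη

theorem QuadC_q6_cont : Continuous q6 := by
  unfold q6
  fun_prop

theorem quad_clopen {Z : Type*} [TopologicalSpace Z] {b : Z → Fin 6 → ℝ}
    {M : Z → Fin 3 → Fin 6 → ℝ} {ε : Z → ℝ} (hb : Continuous b) (hM : Continuous M)
    (hε : Continuous ε) (hε0 : ∀ z, ε z ≠ 0) {r : ℝ} (hr : 0 < r)
    (hsph : ∀ z, ∀ η : Fin 3 → ℝ, ∑ i, η i ^ 2 = r ^ 2 →
      0 < ε z * q6 (b z + ∑ i, η i • M z i)) :
    IsClopen {z | ∀ η : Fin 3 → ℝ, ∑ i, η i ^ 2 ≤ r ^ 2 →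
      0 < ε z * q6 (b z + ∑ i, η i • M z i)} := by
  have hH : Continuous (fun p : Z × (Fin 3 → ℝ) =>
      ε p.1 * q6 (b p.1 + ∑ i, p.2 i • M p.1 i)) := by
    refine (hε.comp continuous_fst).mul (QuadC_q6_cont.comp ?_)
    refine (hb.comp continuous_fst).add (continuous_finset_sum _ fun i _ => ?_)
    exact ((continuous_apply i).comp continuous_snd).smul
      ((continuous_apply i).comp (hM.comp continuous_fst))
  have hQ : Continuous (fun p : Z × (Fin 3 → ℝ) => ε p.1 * q6 (∑ i, p.2 i • M p.1 i)) := by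
    refine (hε.comp continuous_fst).mul (QuadC_q6_cont.comp ?_)
    refine continuous_finset_sum _ fun i _ => ?_
    exact ((continuous_apply i).comp continuous_snd).smul
      ((continuous_apply i).comp (hM.comp continuous_fst))
  constructor
  · rw [← isOpen_compl_iff, isOpen_iff_mem_nhds]
    intro z₀ hz₀
    have hz₁ : ∃ η : Fin 3 → ℝ, ∑ i, η i ^ 2 ≤ r ^ 2 ∧
        ε z₀ * q6 (b z₀ + ∑ i, η i • M z₀ i) ≤ 0 := by
      by_contra hcon
      apply hz₀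
      intro η hη
      by_contra h
      exact hcon ⟨η, hη, not_lt.mp h⟩
    have hfat := quad_fat hr (hsph z₀) hz₁
    obtain ⟨η₀, hη₀, hη₀'⟩ := hz₁
    have hA : ∀ᶠ z in nhds z₀, ∀ η ∈ {η : Fin 3 → ℝ | ∑ i, η i ^ 2 = r ^ 2},
        ε z * q6 (b z + ∑ i, η₀ i • M z i) < ε z * q6 (b z + ∑ i, η i • M z i) := by
      apply (QuadC_sphere r hr.le).eventually_forall_of_forall_eventually
      intro η hη
      have h1 : Continuous (fun p : Z × (Fin 3 → ℝ) =>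
          ε p.1 * q6 (b p.1 + ∑ i, η₀ i • M p.1 i)) :=
        hH.comp (continuous_fst.prodMk continuous_const)
      exact (isOpen_lt h1 hH).mem_nhds (lt_of_le_of_lt hη₀' (hsph z₀ η hη))
    have hB : ∀ᶠ z in nhds z₀, ∀ κ ∈ {κ : Fin 3 → ℝ | ∑ i, κ i ^ 2 = (1 : ℝ) ^ 2},
        0 < ε z * q6 (∑ i, κ i • M z i) := by
      apply (QuadC_sphere 1 zero_le_one).eventually_forall_of_forall_eventually
      intro κ hκ
      refine (isOpen_lt continuous_const hQ).mem_nhds (hfat κ ?_)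
      rintro rfl
      have h2 : ∑ i : Fin 3, (0 : Fin 3 → ℝ) i ^ 2 = (1 : ℝ) ^ 2 := hκ
      simp at h2
    filter_upwards [hA, hB] with z hAz hBz hD
    have hpos : ∀ κ : Fin 3 → ℝ, κ ≠ 0 → 0 < ε z * q6 (∑ i, κ i • M z i) := by
      intro κ hκ
      have hK := QuadC_pos hκ
      obtain ⟨t, ht⟩ : ∃ t : ℝ, t = Real.sqrt (∑ i, κ i ^ 2) := ⟨_, rfl⟩
      have ht0 : 0 < t := by rw [ht]; exact Real.sqrt_pos.mpr hK
      have ht2 : t ^ 2 = ∑ i, κ i ^ 2 := by rw [ht, Real.sq_sqrt hK.le]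
      have h1 := hBz (t⁻¹ • κ) (by
        change ∑ i, (t⁻¹ • κ) i ^ 2 = (1 : ℝ) ^ 2
        simp only [Pi.smul_apply, smul_eq_mul, mul_pow]
        rw [← Finset.mul_sum, ← ht2]
        field_simp)
      have h2 : ∑ i, (t⁻¹ • κ) i • M z i = t⁻¹ • ∑ i, κ i • M z i := by
        simp only [Pi.smul_apply, smul_eq_mul, Finset.smul_sum, smul_smul]
      rw [h2, QuadC_smul] at h1
      have h3 : 0 < (t⁻¹) ^ 2 := by positivity
      have h4 : 0 < (t⁻¹) ^ 2 * (ε z * q6 (∑ i, κ i • M z i)) := by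
        calc (0 : ℝ) < ε z * (t⁻¹ ^ 2 * q6 (∑ i, κ i • M z i)) := h1
          _ = _ := by ring
      exact (pos_iff_pos_of_mul_pos h4).mp h3
    obtain ⟨η, hη⟩ := QuadC_sig (b z) (M z) hpos
    rcases le_or_gt (∑ i, η i ^ 2) (r ^ 2) with hle | hgt
    · exact absurd (hD η hle) (not_lt.mpr hη)
    · obtain ⟨s, hs, hs2⟩ : ∃ s ∈ Set.Icc (0 : ℝ) 1,
          ∑ i, (η₀ + s • (η - η₀)) i ^ 2 = r ^ 2 := by
        have hc : ContinuousOn (fun s : ℝ => ∑ i, (η₀ + s • (η - η₀)) i ^ 2) (Set.Icc 0 1) := by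
          simp only [Pi.add_apply, Pi.smul_apply, smul_eq_mul]
          fun_prop
        have h5 := intermediate_value_Icc (zero_le_one (α := ℝ)) hc
        have h6 : r ^ 2 ∈ Set.Icc ((fun s : ℝ => ∑ i, (η₀ + s • (η - η₀)) i ^ 2) 0)
            ((fun s : ℝ => ∑ i, (η₀ + s • (η - η₀)) i ^ 2) 1) := by
          constructor
          · simpa using hη₀
          · simpa using hgt.le
        obtain ⟨s, hs, hs2⟩ := h5 h6
        exact ⟨s, hs, hs2⟩
      have h7 := hAz _ hs2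
      have h8 := hsph z _ hs2
      have h9 : 0 ≤ ε z * q6 (∑ i, (η - η₀) i • M z i) := by
        by_cases h0 : η - η₀ = 0
        · rw [h0]
          simp [q6]
        · exact (hpos _ h0).le
      have h10 : ε z * q6 (b z + ∑ i, η i • M z i) =
          ε z * q6 (∑ i, (η - η₀) i • M z i) +
          ε z * QuadC_P (b z + ∑ i, η₀ i • M z i) (∑ i, (η - η₀) i • M z i) +
          ε z * q6 (b z + ∑ i, η₀ i • M z i) := by
        have h11 : η = η₀ + (1 : ℝ) • (η - η₀) := by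
          rw [one_smul, add_sub_cancel]
        conv_lhs => rw [h11]
        rw [QuadC_line, QuadC_add_smul]
        ring
      rw [QuadC_line, QuadC_add_smul] at h7 h8
      rw [h10] at hη
      obtain ⟨A, hA'⟩ : ∃ A : ℝ, A = ε z * q6 (∑ i, (η - η₀) i • M z i) := ⟨_, rfl⟩
      obtain ⟨B, hB'⟩ : ∃ B : ℝ, B = ε z * QuadC_P (b z + ∑ i, η₀ i • M z i)
        (∑ i, (η - η₀) i • M z i) := ⟨_, rfl⟩
      obtain ⟨C, hC'⟩ : ∃ C : ℝ, C = ε z * q6 (b z + ∑ i, η₀ i • M z i) := ⟨_, rfl⟩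
      have e7 : C < A * s ^ 2 + B * s + C := by
        rw [hA', hB', hC']
        calc ε z * q6 (b z + ∑ i, η₀ i • M z i) < _ := h7
          _ = _ := by ring
      have e8 : 0 < A * s ^ 2 + B * s + C := by
        rw [hA', hB', hC']
        calc (0 : ℝ) < _ := h8
          _ = _ := by ring
      rw [← hA'] at h9
      rw [← hA', ← hB', ← hC'] at hη
      have h12 : A * s ^ 2 ≤ A * s := by
        have : s ^ 2 ≤ s := by nlinarith [hs.1, hs.2]
        exact mul_le_mul_of_nonneg_left this h9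
      have h13 : A * s ^ 2 + B * s + C ≤ (1 - s) * C + s * (A + B + C) := by linarith
      have h14 : s * (A + B + C) ≤ 0 := mul_nonpos_of_nonneg_of_nonpos hs.1 hη
      rcases le_total 0 C with hC | hC
      · have h15 : (1 - s) * C ≤ C := by nlinarith [hs.1]
        linarith
      · have h15 : (1 - s) * C ≤ 0 := mul_nonpos_of_nonneg_of_nonpos (by linarith [hs.2]) hC
        linarith
  · rw [isOpen_iff_mem_nhds]
    intro z hz
    have h := (QuadC_compact r hr.le).eventually_forall_of_forall_eventually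
      (P := fun z η => 0 < ε z * q6 (b z + ∑ i, η i • M z i)) (x₀ := z)
      (fun η hη => (isOpen_lt continuous_const hH).mem_nhds (hz η hη))
    exact h

end Pool.Agent.W_9986fc_G
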