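import Pool.Agent.W_9986fc_G.Model

/-!
# The adjoint group

* `adSet_exp`: `i (exp (L.ad y) u) = exp (i y) * i u * (exp (i y))*`: both sides, with `t • y` for `y`, are curves in
  `Mat N N` with the same value at `t = 0` and satisfy the same linear ODE `c' = (i y) c - c (i y)`
  (`(exp ξ)* = exp (-ξ)` for `ξ* = -ξ`); e.g. `exp (- t i y) * i (exp (t ad y) u) * exp (t i y)` has derivative 0.
* `adGroup`: `exp_mem`, `exp_surj` (via `conn`) from `adSet_exp`; `mul_mem` clear; compactness: `G` is compact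
  (closed and bounded: entries of a unitary matrix have norm `≤ 1`), and `AdSet G i` is its image under a
  continuous map to `V →L[ℝ] V` (`a ↦ i⁻¹ (a (i .) a*)`, well defined by `ad_mem`), or: it is closed and bounded
  in the finite dimensional space `V →L[ℝ] V` and sequentially: use the image description.
-/

set_option autoImplicit false

open scoped Matrix RealInnerProductSpace

namespace Pool.Agent.W_9986fc_G

variable {N : ℕ} {G : Set (Mat N N)} {g : Submodule ℝ (Mat N N)} {n : ℕ}
  {i : EuclideanSpace ℝ (Fin n) →ₗ[ℝ] Mat N N} {L : LieIP (EuclideanSpace ℝ (Fin n))}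

theorem ModelA_exists_left (hM : IsModel g i L) :
    ∃ P : Mat N N →ₗ[ℝ] EuclideanSpace ℝ (Fin n), ∀ u, P (i u) = u := by
  obtain ⟨P, hP⟩ := LinearMap.exists_leftInverse_of_injective i (LinearMap.ker_eq_bot.2 hM.injective)
  exact ⟨P, fun u => LinearMap.congr_fun hP u⟩

theorem ModelA_left_right (hM : IsModel g i L) {P : Mat N N →ₗ[ℝ] EuclideanSpace ℝ (Fin n)}
    (hP : ∀ u, P (i u) = u) (Z : Mat N N) (hZ : Z ∈ g) : i (P Z) = Z := by
  rw [← hM.range] at hZ
  obtain ⟨u, rfl⟩ := hZ
  rw [hP]

theorem ModelA_hasDerivAt (A B : Mat N N) (P : Mat N N →ₗ[ℝ] EuclideanSpace ℝ (Fin n)) (t : ℝ) :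
    HasDerivAt (fun t : ℝ => P (NormedSpace.exp (t • A) * B * NormedSpace.exp (t • (-A))))
      (P (A * (NormedSpace.exp (t • A) * B * NormedSpace.exp (t • (-A))) -
        NormedSpace.exp (t • A) * B * NormedSpace.exp (t • (-A)) * A)) t := by
  letI : NormedRing (Mat N N) := Matrix.linftyOpNormedRing
  letI : NormedAlgebra ℝ (Mat N N) := Matrix.linftyOpNormedAlgebra
  have : CompleteSpace (Mat N N) := FiniteDimensional.complete ℝ (Mat N N)
  have h1 : HasDerivAt (fun t : ℝ => NormedSpace.exp (t • A)) (A * NormedSpace.exp (t • A)) t :=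
    hasDerivAt_exp_smul_const' A t
  have h2 : HasDerivAt (fun t : ℝ => NormedSpace.exp (t • (-A)))
      (NormedSpace.exp (t • (-A)) * (-A)) t := hasDerivAt_exp_smul_const (-A) t
  have h3 := (h1.mul_const B).mul h2
  have h4 := (LinearMap.toContinuousLinearMap P).hasFDerivAt.comp_hasDerivAt t h3
  have h5 : A * NormedSpace.exp (t • A) * B * NormedSpace.exp (t • (-A)) +
      NormedSpace.exp (t • A) * B * (NormedSpace.exp (t • (-A)) * (-A)) =
      A * (NormedSpace.exp (t • A) * B * NormedSpace.exp (t • (-A))) -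
        NormedSpace.exp (t • A) * B * NormedSpace.exp (t • (-A)) * A := by
    rw [mul_neg, mul_neg, ← sub_eq_add_neg]
    simp only [mul_assoc]
  rw [← h5]
  exact h4

theorem adSet_exp (hM : IsModel g i L) (hG : IsCompactGroup G g)
    (y u : EuclideanSpace ℝ (Fin n)) :
    i (NormedSpace.exp (L.ad y) u) = NormedSpace.exp (i y) * i u * (NormedSpace.exp (i y))ᴴ := by
  obtain ⟨P, hP⟩ := ModelA_exists_left hM
  have hiP := ModelA_left_right hM hP
  have hA : (i y)ᴴ = -(i y) := hG.skewHerm (hM.mem y)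
  have hct : ∀ t : ℝ, (NormedSpace.exp (t • i y))ᴴ = NormedSpace.exp (t • (-(i y))) := by
    intro t
    rw [← Matrix.exp_conjTranspose]
    congr 1
    rw [Matrix.conjTranspose_smul, hA, star_trivial]
  have hC : ∀ t : ℝ, i (P (NormedSpace.exp (t • i y) * i u * NormedSpace.exp (t • (-(i y))))) =
      NormedSpace.exp (t • i y) * i u * NormedSpace.exp (t • (-(i y))) := by
    intro t
    apply hiP
    rw [← hct]
    exact hG.ad_mem ((hG.lie (i y)).1 (hM.mem y) t) (hM.mem u)
  have h1 := AlgExp_unique L y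
    (fun t => P (NormedSpace.exp (t • i y) * i u * NormedSpace.exp (t • (-(i y))))) (fun t => ?_) 1
  · have h2 : P (NormedSpace.exp ((1 : ℝ) • i y) * i u * NormedSpace.exp ((1 : ℝ) • (-(i y)))) =
        NormedSpace.exp ((1 : ℝ) • L.ad y)
          (P (NormedSpace.exp ((0 : ℝ) • i y) * i u * NormedSpace.exp ((0 : ℝ) • (-(i y))))) := h1
    have h3 : P (NormedSpace.exp ((0 : ℝ) • i y) * i u * NormedSpace.exp ((0 : ℝ) • (-(i y)))) = u := by
      rw [zero_smul, zero_smul, NormedSpace.exp_zero, one_mul, mul_one, hP]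
    rw [h3] at h2
    have h4 := congrArg i h2
    rw [hC 1, ← hct 1, one_smul, one_smul] at h4
    exact h4.symm
  · have h2 := ModelA_hasDerivAt (i y) (i u) P t
    have h3 : i y * (NormedSpace.exp (t • i y) * i u * NormedSpace.exp (t • (-(i y)))) -
        NormedSpace.exp (t • i y) * i u * NormedSpace.exp (t • (-(i y))) * i y =
        i (L.ad y (P (NormedSpace.exp (t • i y) * i u * NormedSpace.exp (t • (-(i y)))))) := by
      rw [hM.bracket, hC t]
    rw [h3, hP] at h2
    exact h2

theorem ModelA_isCompact (hG : IsCompactGroup G g) : IsCompact G := by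
  have h1 : IsCompact (Set.pi Set.univ fun _ : Fin N => Set.pi Set.univ fun _ : Fin N =>
      Metric.closedBall (0 : ℂ) 1) :=
    isCompact_univ_pi fun _ => isCompact_univ_pi fun _ => isCompact_closedBall 0 1
  refine IsCompact.of_isClosed_subset h1 hG.closed fun a ha => ?_
  intro j _ k _
  rw [mem_closedBall_zero_iff]
  refine entry_norm_bound_of_unitary (U := a) ?_ j k
  rw [Matrix.mem_unitaryGroup_iff']
  exact hG.unitary a ha

theorem adGroup (hM : IsModel g i L) (hG : IsCompactGroup G g) : AdGroup L (AdSet G i) := by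
  obtain ⟨P, hP⟩ := ModelA_exists_left hM
  have hiP := ModelA_left_right hM hP
  refine ⟨?_, ?_, ?_, ?_⟩
  · have h1 : AdSet G i = (fun a : Mat N N => LinearMap.toContinuousLinearMap
        (P ∘ₗ ((LinearMap.mulRight ℝ aᴴ) ∘ₗ (LinearMap.mulLeft ℝ a)) ∘ₗ i)) '' G := by
      ext a
      constructor
      · rintro ⟨k, hk, h⟩
        refine ⟨k, hk, ?_⟩
        ext1 u
        show P (k * i u * kᴴ) = a u
        rw [← h u, hP]
      · rintro ⟨k, hk, rfl⟩
        refine ⟨k, hk, fun u => ?_⟩
        show i (P (k * i u * kᴴ)) = _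
        exact hiP _ (hG.ad_mem hk (hM.mem u))
    rw [h1]
    refine (ModelA_isCompact hG).image ?_
    rw [continuous_clm_apply]
    intro u
    show Continuous fun a : Mat N N => P (a * i u * aᴴ)
    refine P.continuous_of_finiteDimensional.comp ?_
    exact (continuous_id.mul continuous_const).mul continuous_id.matrix_conjTranspose
  · intro y
    refine ⟨NormedSpace.exp (i y), ?_, fun u => adSet_exp hM hG y u⟩
    have h1 := (hG.lie (i y)).1 (hM.mem y) 1
    rwa [one_smul] at h1
  · rintro a ⟨k, hk, h⟩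
    obtain ⟨ξ, hξ, hk'⟩ := hG.conn k hk
    rw [← hM.range] at hξ
    obtain ⟨y, rfl⟩ := hξ
    refine ⟨y, ?_⟩
    ext1 u
    apply hM.injective
    rw [adSet_exp hM hG, h u, hk']
  · rintro a ⟨k, hk, h⟩ b ⟨l, hl, h'⟩
    refine ⟨k * l, hG.mul k hk l hl, fun u => ?_⟩
    show i (a (b u)) = _
    rw [h, h', Matrix.conjTranspose_mul]
    simp only [Matrix.mul_assoc]

end Pool.Agent.W_9986fc_G
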