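import Pool.Agent.W_9986fc_G.AlgRot
import Pool.Agent.W_9986fc_G.AlgLong
import Pool.Agent.W_9986fc_G.ModelA

/-!
# Roots orthogonal to all others: `su j` is an ideal

Hypothesis `h : ∀ k ≠ j, ⟪α k, α j⟫ = 0`.

* `long_of_orth`: only `k = j` is not orthogonal to `j`.
* `su_ad`: `V` is spanned by `t` and the `x k`, `y k` (`R.span`), `su j` by `x j`, `y j`, `α j` (`Submodule.span_induction`,
  or `AlgRot_exists`).  `[h, x j]`, `[h, y j]`, `[h, α j] = 0` are in `su j` for `h ∈ t`; so are `[x j, y j] = α j`,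
  `[x j, α j] = - ‖α j‖² y j`, `[y j, α j] = ‖α j‖² x j`.  For `b = x k` or `y k`, `k ≠ j`: `[b, α j] = 0` (`adx`, `ady`, `h`) and
  `⟪b, α j⟫ = 0`, so `[b, x j] = [b, y j] = 0` by `Roots.commutes`.
* `exp_invariant`: finite dimensional subspaces are closed; power series
  (`NormedSpace.exp_eq_tsum`, `Submodule.closed_of_finiteDimensional`), or via `HasSum`.
* `su_ideal`: `le`: `hM.mem`; `dim`: `x j, y j, α j` are orthogonal and `≠ 0`, `i` injective; `inv`: for `a ∈ G`,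
  `a = exp (i y)` by `conn`, `hM.range` and `a (i u) a* = i (exp (ad y) u)` (`adSet_exp`); `nonab`: `i (x j)`, `i (y j)`:
  `i (α j) = i [x j, y j] = i (x j) i (y j) - i (y j) i (x j) ≠ 0`.
* `sphere3`: `c₀ = ξ - r α j`, `r = ⟪ξ, α j⟫ / ‖α j‖²` is in `t` and orthogonal to `α j`, so it commutes with `x j`, `y j`
  (`adx`, `ady`).  `η' = ∑ η k • e3 k` is in `su j`, `‖η'‖ = |r| ‖α j‖`.  `Roots.sphere` gives `s ∈ A` with
  `s (r α j) = η'`, `s c₀ = c₀`.
-/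

set_option autoImplicit false

open scoped Matrix RealInnerProductSpace

namespace Pool.Agent.W_9986fc_G

section Abstract

variable {V : Type*} [NormedAddCommGroup V] [InnerProductSpace ℝ V] [FiniteDimensional ℝ V]
variable {L : LieIP V} {t : Submodule ℝ V} {n : ℕ} {A : Set (V →L[ℝ] V)}

/-- an orthonormal basis of `su j` -/
noncomputable def Roots.e3 (R : Roots L t n) (j : Fin n) : Fin 3 → V :=
  ![R.x j, R.y j, (‖R.α j‖)⁻¹ • R.α j]

theorem Roots.e3_mem (R : Roots L t n) (j : Fin n) (k : Fin 3) : R.e3 j k ∈ R.su j := by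
  unfold Roots.su
  fin_cases k
  · exact Submodule.subset_span (by simp [Roots.e3])
  · exact Submodule.subset_span (by simp [Roots.e3])
  · exact Submodule.smul_mem _ _ (Submodule.subset_span (by simp))

theorem Roots.e3_inner (R : Roots L t n) (j : Fin n) (k l : Fin 3) :
    ⟪R.e3 j k, R.e3 j l⟫ = if k = l then (1 : ℝ) else 0 := by
  have hne := AlgRot_ne R j
  have hxx : ⟪R.x j, R.x j⟫ = (1 : ℝ) := by rw [R.xx, if_pos rfl]
  have hyy : ⟪R.y j, R.y j⟫ = (1 : ℝ) := by rw [R.yy, if_pos rfl]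
  have hxy : ⟪R.x j, R.y j⟫ = (0 : ℝ) := R.xy j j
  have hyx : ⟪R.y j, R.x j⟫ = (0 : ℝ) := by rw [real_inner_comm, hxy]
  have hax : ⟪R.α j, R.x j⟫ = (0 : ℝ) := R.tx _ (R.mem j) j
  have hay : ⟪R.α j, R.y j⟫ = (0 : ℝ) := R.ty _ (R.mem j) j
  have hxa : ⟪R.x j, R.α j⟫ = (0 : ℝ) := by rw [real_inner_comm, hax]
  have hya : ⟪R.y j, R.α j⟫ = (0 : ℝ) := by rw [real_inner_comm, hay]
  have haa : ⟪(‖R.α j‖)⁻¹ • R.α j, (‖R.α j‖)⁻¹ • R.α j⟫ = (1 : ℝ) := by
    rw [real_inner_smul_left, real_inner_smul_right, real_inner_self_eq_norm_sq]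
    field_simp
  have e0 : R.e3 j 0 = R.x j := rfl
  have e1 : R.e3 j 1 = R.y j := rfl
  have e2 : R.e3 j 2 = (‖R.α j‖)⁻¹ • R.α j := rfl
  fin_cases k <;> fin_cases l
  · show ⟪R.e3 j 0, R.e3 j 0⟫ = _
    rw [e0, hxx]; rfl
  · show ⟪R.e3 j 0, R.e3 j 1⟫ = _
    rw [e0, e1, hxy]; rfl
  · show ⟪R.e3 j 0, R.e3 j 2⟫ = _
    rw [e0, e2, real_inner_smul_right, hxa, mul_zero]; rfl
  · show ⟪R.e3 j 1, R.e3 j 0⟫ = _
    rw [e0, e1, hyx]; rfl
  · show ⟪R.e3 j 1, R.e3 j 1⟫ = _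
    rw [e1, hyy]; rfl
  · show ⟪R.e3 j 1, R.e3 j 2⟫ = _
    rw [e1, e2, real_inner_smul_right, hya, mul_zero]; rfl
  · show ⟪R.e3 j 2, R.e3 j 0⟫ = _
    rw [e0, e2, real_inner_smul_left, hax, mul_zero]; rfl
  · show ⟪R.e3 j 2, R.e3 j 1⟫ = _
    rw [e1, e2, real_inner_smul_left, hay, mul_zero]; rfl
  · show ⟪R.e3 j 2, R.e3 j 2⟫ = _
    rw [e2, haa]; rfl

theorem Roots.exists_e3 (R : Roots L t n) (j : Fin n) {u : V} (hu : u ∈ R.su j) :
    ∃ κ : Fin 3 → ℝ, u = ∑ k, κ k • R.e3 j k := by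
  obtain ⟨a, b, c, rfl⟩ := AlgRot_exists R j hu
  refine ⟨![a, b, c * ‖R.α j‖], ?_⟩
  rw [Fin.sum_univ_three]
  show a • R.x j + b • R.y j + c • R.α j =
    a • R.x j + b • R.y j + (c * ‖R.α j‖) • ((‖R.α j‖)⁻¹ • R.α j)
  rw [smul_smul, mul_assoc, mul_inv_cancel₀ (AlgRot_ne R j), mul_one]

theorem Roots.sphere3 (R : Roots L t n) (ht : IsTorus L t) (hA : AdGroup L A) (j : Fin n)
    {ξ : V} (hξ : ξ ∈ t) {η : Fin 3 → ℝ}
    (hη : ∑ k, η k ^ 2 = (⟪ξ, R.α j⟫ / ‖R.α j‖) ^ 2) :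
    ∃ a ∈ A, a ξ = (ξ - (⟪ξ, R.α j⟫ / ‖R.α j‖ ^ 2) • R.α j) + ∑ k, η k • R.e3 j k := by
  have hne := AlgRot_ne R j
  set r : ℝ := ⟪ξ, R.α j⟫ / ‖R.α j‖ ^ 2 with hr
  have hc0 : ξ - r • R.α j ∈ t := Submodule.sub_mem _ hξ (Submodule.smul_mem _ _ (R.mem j))
  have horth : ⟪R.α j, ξ - r • R.α j⟫ = (0 : ℝ) := by
    rw [inner_sub_right, real_inner_smul_right, real_inner_self_eq_norm_sq, real_inner_comm, hr]
    field_simp
    ring
  have hmem : ∑ k, η k • R.e3 j k ∈ R.su j :=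
    Submodule.sum_mem _ fun k _ => Submodule.smul_mem _ _ (R.e3_mem j k)
  have hnorm : ‖∑ k, η k • R.e3 j k‖ ^ 2 = ∑ k, η k ^ 2 := by
    rw [← real_inner_self_eq_norm_sq, sum_inner]
    refine Finset.sum_congr rfl fun k _ => ?_
    rw [inner_sum, Finset.sum_eq_single k]
    · rw [real_inner_smul_left, real_inner_smul_right, R.e3_inner, if_pos rfl]
      ring
    · intro l _ hl
      rw [real_inner_smul_left, real_inner_smul_right, R.e3_inner, if_neg hl.symm]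
      ring
    · intro hk
      exact absurd (Finset.mem_univ k) hk
  have hnn : ‖∑ k, η k • R.e3 j k‖ = |r| * ‖R.α j‖ := by
    rw [hη] at hnorm
    have h1 : (⟪ξ, R.α j⟫ / ‖R.α j‖) ^ 2 = (|r| * ‖R.α j‖) ^ 2 := by
      rw [mul_pow, sq_abs, hr]
      field_simp
    rw [h1] at hnorm
    exact (sq_eq_sq₀ (norm_nonneg _) (mul_nonneg (abs_nonneg _) (norm_nonneg _))).1 hnorm
  obtain ⟨s, hs, h1, h2⟩ := R.sphere ht hA j hmem hnn
  refine ⟨s, hs, ?_⟩
  have h3 : s (ξ - r • R.α j) = ξ - r • R.α j := by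
    apply h2
    · rw [R.adx _ hc0, horth, zero_smul]
    · rw [R.ady _ hc0, horth, zero_smul, neg_zero]
  have h4 : ξ = (ξ - r • R.α j) + r • R.α j := (sub_add_cancel _ _).symm
  calc s ξ = s ((ξ - r • R.α j) + r • R.α j) := by rw [← h4]
    _ = _ := by rw [map_add, h3, h1]

theorem Roots.long_of_orth (R : Roots L t n) {j : Fin n}
    (h : ∀ k, k ≠ j → ⟪R.α k, R.α j⟫ = (0 : ℝ)) : R.Long j := by
  intro k hk
  by_cases hkj : k = j
  · rw [hkj]
  · exact absurd (h k hkj) hk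

theorem Roots.su_ad (R : Roots L t n) (ht : IsTorus L t) {j : Fin n}
    (h : ∀ k, k ≠ j → ⟪R.α k, R.α j⟫ = (0 : ℝ)) (y : V) {u : V} (hu : u ∈ R.su j) :
    L.ad y u ∈ R.su j := by
  have hlong := R.long_of_orth h
  obtain ⟨a, b, c, rfl⟩ := AlgRot_exists R j hu
  obtain ⟨h0, hh0, e⟩ := R.span y
  have hxa : ∀ k, L.ad (R.x k) (R.α j) = -(⟪R.α k, R.α j⟫ • R.y k) := fun k => by
    rw [L.antisymm, R.adx _ (R.mem j)]
  have hya : ∀ k, L.ad (R.y k) (R.α j) = ⟪R.α k, R.α j⟫ • R.x k := fun k => by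
    rw [L.antisymm, R.ady _ (R.mem j), neg_neg]
  have hx0 : ∀ k, k ≠ j → L.ad (R.x k) (a • R.x j + b • R.y j + c • R.α j) = 0 := by
    intro k hk
    have h1 : L.ad (R.x k) (R.α j) = 0 := by rw [hxa, h k hk, zero_smul, neg_zero]
    have h2 : ⟪R.x k, R.α j⟫ = (0 : ℝ) := by rw [real_inner_comm, R.tx _ (R.mem j)]
    obtain ⟨h3, h4⟩ := R.commutes ht hlong h1 h2
    rw [map_add, map_add, map_smul, map_smul, map_smul, h1, h3, h4]
    simp
  have hy0 : ∀ k, k ≠ j → L.ad (R.y k) (a • R.x j + b • R.y j + c • R.α j) = 0 := by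
    intro k hk
    have h1 : L.ad (R.y k) (R.α j) = 0 := by rw [hya, h k hk, zero_smul]
    have h2 : ⟪R.y k, R.α j⟫ = (0 : ℝ) := by rw [real_inner_comm, R.ty _ (R.mem j)]
    obtain ⟨h3, h4⟩ := R.commutes ht hlong h1 h2
    rw [map_add, map_add, map_smul, map_smul, map_smul, h1, h3, h4]
    simp
  have hxj : L.ad (R.x j) (a • R.x j + b • R.y j + c • R.α j) ∈ R.su j := by
    rw [map_add, map_add, map_smul, map_smul, map_smul, L.ad_self, R.br_xy ht, hxa]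
    have h1 : a • (0 : V) + b • R.α j + c • -(⟪R.α j, R.α j⟫ • R.y j) =
        (0 : ℝ) • R.x j + (-(c * ⟪R.α j, R.α j⟫)) • R.y j + b • R.α j := by module
    rw [h1]
    exact AlgRot_mem R j _ _ _
  have hyj : L.ad (R.y j) (a • R.x j + b • R.y j + c • R.α j) ∈ R.su j := by
    rw [map_add, map_add, map_smul, map_smul, map_smul, L.ad_self, L.antisymm (R.y j) (R.x j),
      R.br_xy ht, hya]
    have h1 : a • -R.α j + b • (0 : V) + c • (⟪R.α j, R.α j⟫ • R.x j) =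
        (c * ⟪R.α j, R.α j⟫) • R.x j + (0 : ℝ) • R.y j + (-a) • R.α j := by module
    rw [h1]
    exact AlgRot_mem R j _ _ _
  have hh : L.ad h0 (a • R.x j + b • R.y j + c • R.α j) ∈ R.su j := by
    rw [map_add, map_add, map_smul, map_smul, map_smul, R.adx _ hh0, R.ady _ hh0,
      ht.abelian _ hh0 _ (R.mem j)]
    have h1 : a • ⟪R.α j, h0⟫ • R.y j + b • -(⟪R.α j, h0⟫ • R.x j) + c • (0 : V) =
        (-(b * ⟪R.α j, h0⟫)) • R.x j + (a * ⟪R.α j, h0⟫) • R.y j + (0 : ℝ) • R.α j := by module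
    rw [h1]
    exact AlgRot_mem R j _ _ _
  have hadd : ∀ u v z : V, L.ad (u + v) z = L.ad u z + L.ad v z := fun u v z => by
    rw [map_add]
    rfl
  have hsmul : ∀ (r : ℝ) (u z : V), L.ad (r • u) z = r • L.ad u z := fun r u z => by
    rw [map_smul]
    rfl
  have hsum : ∀ (f : Fin n → V) (z : V), L.ad (∑ i, f i) z = ∑ i, L.ad (f i) z := fun f z => by
    rw [map_sum, sum_apply]
  rw [e, hadd, hsum]
  refine Submodule.add_mem _ hh (Submodule.sum_mem _ fun k _ => ?_)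
  rw [hadd, hsmul, hsmul]
  refine Submodule.add_mem _ (Submodule.smul_mem _ _ ?_) (Submodule.smul_mem _ _ ?_)
  · by_cases hk : k = j
    · rw [hk]
      exact hxj
    · rw [hx0 k hk]
      exact Submodule.zero_mem _
  · by_cases hk : k = j
    · rw [hk]
      exact hyj
    · rw [hy0 k hk]
      exact Submodule.zero_mem _

theorem exp_invariant (f : V →L[ℝ] V) (W : Submodule ℝ V) (h : ∀ w ∈ W, f w ∈ W) :
    ∀ w ∈ W, NormedSpace.exp f w ∈ W := by
  intro w hw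
  have : CompleteSpace V := FiniteDimensional.complete ℝ V
  have h1 : HasSum (fun n : ℕ => ((n.factorial : ℝ)⁻¹) • f ^ n) (NormedSpace.exp f) :=
    NormedSpace.exp_series_hasSum_exp' f
  have h2 : HasSum (fun n : ℕ => (ContinuousLinearMap.apply ℝ V w) (((n.factorial : ℝ)⁻¹) • f ^ n))
      ((ContinuousLinearMap.apply ℝ V w) (NormedSpace.exp f)) := h1.mapL _
  have h3 : ∀ n : ℕ, (f ^ n) w ∈ W := by
    intro n
    induction n with
    | zero => exact hw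
    | succ n ih =>
      rw [pow_succ']
      exact h _ ih
  have h4 : IsClosed (W : Set V) := Submodule.closed_of_finiteDimensional W
  refine h4.mem_of_tendsto h2 (Filter.Eventually.of_forall fun s => ?_)
  refine Submodule.sum_mem _ fun n _ => ?_
  exact Submodule.smul_mem _ _ (h3 n)

end Abstract

variable {N : ℕ} {G : Set (Mat N N)} {g : Submodule ℝ (Mat N N)} {n : ℕ}
  {i : EuclideanSpace ℝ (Fin n) →ₗ[ℝ] Mat N N} {L : LieIP (EuclideanSpace ℝ (Fin n))}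

theorem su_ideal (hG : IsCompactGroup G g) (hM : IsModel g i L)
    {t : Submodule ℝ (EuclideanSpace ℝ (Fin n))} {q : ℕ} (R : Roots L t q) (ht : IsTorus L t)
    {j : Fin q} (h : ∀ k, k ≠ j → ⟪R.α k, R.α j⟫ = (0 : ℝ)) :
    IsSu2Ideal G g ((R.su j).map i) := by
  have hinj := hM.injective
  have hsu : R.su j = Submodule.span ℝ (Set.range (R.e3 j)) := by
    apply le_antisymm
    · intro u hu
      obtain ⟨κ, rfl⟩ := R.exists_e3 j hu
      exact Submodule.sum_mem _ fun k _ =>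
        Submodule.smul_mem _ _ (Submodule.subset_span ⟨k, rfl⟩)
    · rw [Submodule.span_le]
      rintro _ ⟨k, rfl⟩
      exact R.e3_mem j k
  have hon : Orthonormal ℝ (R.e3 j) := by
    rw [orthonormal_iff_ite]
    exact fun k l => R.e3_inner j k l
  refine ⟨?_, ?_, ?_, ?_⟩
  · rintro _ ⟨u, hu, rfl⟩
    exact hM.mem u
  · rw [hsu, Submodule.map_span, ← Set.range_comp]
    have h1 : LinearIndependent ℝ (i ∘ R.e3 j) :=
      hon.linearIndependent.map' i (LinearMap.ker_eq_bot.2 hinj)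
    rw [finrank_span_eq_card h1]
    rfl
  · rintro a ha _ ⟨u, hu, rfl⟩
    obtain ⟨η, hη, rfl⟩ := hG.conn a ha
    rw [← hM.range] at hη
    obtain ⟨y, rfl⟩ := hη
    rw [← adSet_exp hM hG]
    exact ⟨_, exp_invariant (L.ad y) (R.su j) (fun w hw => R.su_ad ht h y hw) u hu, rfl⟩
  · refine ⟨i (R.x j), ⟨_, R.e3_mem j 0, rfl⟩, i (R.y j), ⟨_, R.e3_mem j 1, rfl⟩, ?_⟩
    intro h1
    have h2 : i (R.α j) = 0 := by
      rw [← R.br_xy ht j, hM.bracket, h1, sub_self]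
    apply R.ne j
    apply hinj
    rw [h2, map_zero]

end Pool.Agent.W_9986fc_G
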