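import Pool.Agent.W_9986fc_G.Good
import Pool.Agent.W_9986fc_G.SuId
import Pool.Agent.W_9986fc_G.QuadC
import Pool.Agent.W_9986fc_G.EllC

/-!
# The ball condition is clopen

`e : Fin 3 → V`, `c₀ ∈ V`, `r > 0`.  Notation `P x f u = q6 (bb β x + ell x f (i u))`.
`SphC`: `P x f z * P x f (c₀ + ∑ η k • e k) > 0` for `∑ η k ^ 2 = r ^ 2`; `Filled x f`: the same for
`∑ η k ^ 2 ≤ r ^ 2`.

* `filled_frame`: let `f' = f k₀` (`frame_trans`), `a₀ ∈ A = AdSet G i` the element with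
  `i (a₀ u) = k₀ (i u) k₀*` (`exists_ad`).  `quad_clopen` on the preconnected space `A` (subtype) with constant
  `ε = P x f z`, `b a = bb β x + ell x f (i (a c₀))`, `M a k = ell x f (i (a (e k)))`: for `a ∈ A` with `k ∈ G`,
  `b a + ∑ η k • M a k = bb β x + ell x (f k) (i (c₀ + ∑ η k • e k))` (`ell_mul`), the sphere condition is `SphC` at
  `(x, f k)` and `sign_const`.  The clopen set contains `a = 1`, so it is everything (`IsClopen.eq_univ`,
  `Subtype.preconnectedSpace`), in particular `a₀` is in it.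
* `isClopen_filled`: `S = {x | ∀ f ∈ F x, Filled x f}`.  Both `S` and its complement are open by
  `isOpen_of_charts`: let `c` be a chart and `y₀ ∈ dom c`; `hF (inv c y₀)` gives a section `s` over `U ∋ inv c y₀`.
  `Z = {y // y ∈ dom c ∧ inv c y ∈ U}`, `ε y = q6 (bbc β c y + ellc c y (s (inv c y)) (i z))`,
  `b y = bbc β c y + ellc .. (i c₀)`, `M y k = ellc .. (i (e k))` are continuous on `Z`, and by `chart_change` (the
  factor `d` occurs squared) `ε y * q6 (b y + ∑ ..) > 0 ↔ P z * P (c₀ + ..) > 0` at `inv c y`, `f = s (inv c y)`.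
  By `quad_clopen` the set of `y ∈ Z` with `Filled (inv c y) (s (inv c y))` is clopen in `Z`; by `filled_frame` it is
  `{y ∈ Z | inv c y ∈ S}`; `Z` is open in `dom c` (`continuousOn_inv`, `isOpen_dom`).
* `fat_of_not_filled`: if `¬ Filled x f` for one frame `f ∈ F x`, then for all frames (`filled_frame`), and `quad_fat`
  with `ε = P x f z` gives `ε * q6 (∑ κ k • ell x f (i (e k))) > 0` for `κ ≠ 0`.
-/

set_option autoImplicit false

open scoped Manifold ContDiff Matrix RealInnerProductSpace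

namespace Pool.Agent.W_9986fc_G

open Pool.Agent.W_MP_d8b8b7_S

universe u

variable {X : Type u} [TopologicalSpace X] [ChartedSpace E4 X] [IsManifold I4 ∞ X] {K N n : ℕ}

/-- the sphere condition -/
def SphC (G : Set (Mat N N)) (g : Submodule ℝ (Mat N N)) (F : X → Set (Mat K N))
    (β : Form X 2) (i : EuclideanSpace ℝ (Fin n) →ₗ[ℝ] Mat N N)
    (z c₀ : EuclideanSpace ℝ (Fin n)) (e : Fin 3 → EuclideanSpace ℝ (Fin n)) (r : ℝ) : Prop :=
  ∀ x : X, ∀ f ∈ F x, ∀ η : Fin 3 → ℝ, ∑ k, η k ^ 2 = r ^ 2 →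
    0 < q6 (bb β x + ell G g F x f (i z)) *
      q6 (bb β x + ell G g F x f (i (c₀ + ∑ k, η k • e k)))

/-- the ball condition at the frame `f` -/
def Filled (G : Set (Mat N N)) (g : Submodule ℝ (Mat N N)) (F : X → Set (Mat K N))
    (β : Form X 2) (i : EuclideanSpace ℝ (Fin n) →ₗ[ℝ] Mat N N)
    (z c₀ : EuclideanSpace ℝ (Fin n)) (e : Fin 3 → EuclideanSpace ℝ (Fin n)) (r : ℝ) (x : X)
    (f : Mat K N) : Prop :=
  ∀ η : Fin 3 → ℝ, ∑ k, η k ^ 2 ≤ r ^ 2 →
    0 < q6 (bb β x + ell G g F x f (i z)) *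
      q6 (bb β x + ell G g F x f (i (c₀ + ∑ k, η k • e k)))

variable {G : Set (Mat N N)} {g : Submodule ℝ (Mat N N)} {F : X → Set (Mat K N)}
  {i : EuclideanSpace ℝ (Fin n) →ₗ[ℝ] Mat N N} {L : LieIP (EuclideanSpace ℝ (Fin n))}
  {β : Form X 2} {z c₀ : EuclideanSpace ℝ (Fin n)} {e : Fin 3 → EuclideanSpace ℝ (Fin n)} {r : ℝ}

theorem Fill_pos {A B C : ℝ} (h1 : 0 < A * B) (h2 : 0 < B * C) : 0 < A * C := by
  have h3 : B ≠ 0 := by
    rintro rfl
    simp at h1
  have h4 : 0 < B * B := mul_self_pos.2 h3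
  have h5 : 0 < A * C * (B * B) := by
    have e : A * C * (B * B) = A * B * (B * C) := by ring
    rw [e]
    exact mul_pos h1 h2
  exact (mul_pos_iff_of_pos_right h4).1 h5

theorem Fill_pos' {A B C : ℝ} (h1 : 0 < A * B) (h2 : 0 < A * C) : 0 < B * C :=
  Fill_pos (by rwa [mul_comm]) h2

/-- linearity -/
theorem Fill_lin (l : EuclideanSpace ℝ (Fin n) →ₗ[ℝ] (Fin 6 → ℝ)) (b : Fin 6 → ℝ)
    (c : EuclideanSpace ℝ (Fin n)) (e : Fin 3 → EuclideanSpace ℝ (Fin n)) (η : Fin 3 → ℝ) :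
    b + l c + ∑ k, η k • l (e k) = b + l (c + ∑ k, η k • e k) := by
  rw [map_add, map_sum]
  simp only [map_smul]
  rw [add_assoc]

theorem filled_frame (hG : IsCompactGroup G g) (hF : IsPrincipal G F) (hM : IsModel g i L)
    (hz : ∀ x : X, ∀ f ∈ F x, q6 (bb β x + ell G g F x f (i z)) ≠ 0) (hr : 0 < r)
    (hS : SphC G g F β i z c₀ e r) {x : X} {f f' : Mat K N} (hf : f ∈ F x) (hf' : f' ∈ F x)
    (h : Filled G g F β i z c₀ e r x f) : Filled G g F β i z c₀ e r x f' := by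
  obtain ⟨k₀, hk₀, rfl⟩ := frame_trans hG hF hf hf'
  obtain ⟨a₀, ha₀, h₀⟩ := hM.exists_ad hG hk₀
  have hA := adGroup hM hG
  have hpre : PreconnectedSpace (AdSet G i) :=
    isPreconnected_iff_preconnectedSpace.1 hA.isPreconnected
  have hl : Continuous ((ell G g F x f).comp i) := LinearMap.continuous_of_finiteDimensional _
  have hev : ∀ u : EuclideanSpace ℝ (Fin n), Continuous (fun a : AdSet G i =>
      ell G g F x f (i ((a : EuclideanSpace ℝ (Fin n) →L[ℝ] EuclideanSpace ℝ (Fin n)) u))) := by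
    intro u
    have h2 : Continuous (fun b : EuclideanSpace ℝ (Fin n) →L[ℝ] EuclideanSpace ℝ (Fin n) =>
        b u) := by fun_prop
    exact hl.comp (h2.comp continuous_subtype_val)
  have hlin : ∀ (a : EuclideanSpace ℝ (Fin n) →L[ℝ] EuclideanSpace ℝ (Fin n)) (η : Fin 3 → ℝ),
      (bb β x + ell G g F x f (i (a c₀))) + ∑ k, η k • ell G g F x f (i (a (e k))) =
        bb β x + ell G g F x f (i (a (c₀ + ∑ k, η k • e k))) := fun a η =>
    Fill_lin ((ell G g F x f).comp (i.comp (a : EuclideanSpace ℝ (Fin n) →ₗ[ℝ]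
      EuclideanSpace ℝ (Fin n)))) (bb β x) c₀ e η
  have hC := quad_clopen (Z := AdSet G i)
    (b := fun a => bb β x + ell G g F x f
      (i ((a : EuclideanSpace ℝ (Fin n) →L[ℝ] EuclideanSpace ℝ (Fin n)) c₀)))
    (M := fun a k => ell G g F x f
      (i ((a : EuclideanSpace ℝ (Fin n) →L[ℝ] EuclideanSpace ℝ (Fin n)) (e k))))
    (ε := fun _ => q6 (bb β x + ell G g F x f (i z)))
    (continuous_const.add (hev c₀)) (continuous_pi fun k => hev (e k)) continuous_const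
    (fun _ => hz x f hf) hr
    (by
      rintro ⟨a, ha⟩ η hη
      change 0 < q6 (bb β x + ell G g F x f (i z)) *
        q6 ((bb β x + ell G g F x f (i (a c₀))) + ∑ k, η k • ell G g F x f (i (a (e k))))
      rw [hlin]
      obtain ⟨f'', hf'', h''⟩ := Good_frame (i := i) hG hF hf ha
      have h2 := sign_const hG hF hM hz hf ha
      rw [h'' z] at h2
      rw [h'']
      exact Fill_pos h2 (hS x f'' hf'' η hη))
  have h1 : (⟨1, hA.one_mem⟩ : AdSet G i) ∈ {a : AdSet G i | ∀ η : Fin 3 → ℝ,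
      ∑ k, η k ^ 2 ≤ r ^ 2 → 0 < q6 (bb β x + ell G g F x f (i z)) *
        q6 ((bb β x + ell G g F x f
          (i ((a : EuclideanSpace ℝ (Fin n) →L[ℝ] EuclideanSpace ℝ (Fin n)) c₀))) +
          ∑ k, η k • ell G g F x f
            (i ((a : EuclideanSpace ℝ (Fin n) →L[ℝ] EuclideanSpace ℝ (Fin n)) (e k))))} := by
    intro η hη
    rw [hlin]
    exact h η hη
  have hU := hC.eq_univ ⟨_, h1⟩
  have h3 : (⟨a₀, ha₀⟩ : AdSet G i) ∈ {a : AdSet G i | ∀ η : Fin 3 → ℝ,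
      ∑ k, η k ^ 2 ≤ r ^ 2 → 0 < q6 (bb β x + ell G g F x f (i z)) *
        q6 ((bb β x + ell G g F x f
          (i ((a : EuclideanSpace ℝ (Fin n) →L[ℝ] EuclideanSpace ℝ (Fin n)) c₀))) +
          ∑ k, η k • ell G g F x f
            (i ((a : EuclideanSpace ℝ (Fin n) →L[ℝ] EuclideanSpace ℝ (Fin n)) (e k))))} := by
    have h4 : (⟨a₀, ha₀⟩ : AdSet G i) ∈ (Set.univ : Set (AdSet G i)) := Set.mem_univ _
    rw [← hU] at h4
    exact h4
  have hfr : ∀ u, ell G g F x f (i (a₀ u)) = ell G g F x (f * k₀) (i u) := fun u => by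
    rw [h₀ u, ell_mul hG hF hf hk₀]
  have h5 := sign_const hG hF hM hz hf ha₀
  rw [hfr z] at h5
  intro η hη
  have h6 := h3 η hη
  rw [hlin, hfr] at h6
  exact Fill_pos' h5 h6

/-- the set of the theorem in a chart -/
theorem Fill_local (hG : IsCompactGroup G g) (hF : IsPrincipal G F) (hM : IsModel g i L)
    (hβ : SmoothForm β) (hz : ∀ x : X, ∀ f ∈ F x, q6 (bb β x + ell G g F x f (i z)) ≠ 0)
    (hr : 0 < r) (hS : SphC G g F β i z c₀ e r) (c : X) {y₀ : EE} (hy₀ : y₀ ∈ dom c) :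
    ∃ D : Set EE, IsOpen D ∧ y₀ ∈ D ∧
      IsOpen {y : EE | y ∈ D ∧ ∀ f ∈ F (inv c y), Filled G g F β i z c₀ e r (inv c y) f} ∧
      IsOpen {y : EE | y ∈ D ∧ ¬ ∀ f ∈ F (inv c y), Filled G g F β i z c₀ e r (inv c y) f} := by
  obtain ⟨U, s, hU, hs⟩ := hF (inv c y₀)
  have hDo : IsOpen {y : EE | y ∈ dom c ∧ inv c y ∈ U} :=
    (continuousOn_inv c).isOpen_inter_preimage (isOpen_dom c) hs.isOpen
  refine ⟨{y : EE | y ∈ dom c ∧ inv c y ∈ U}, hDo, ⟨hy₀, hU⟩, ?_⟩
  have hsF : ∀ y ∈ U, s y ∈ F y := fun y hy => by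
    rw [hs.fibre y hy]
    exact ⟨1, hG.one, (Matrix.mul_one _).symm⟩
  -- continuity
  have hb : Continuous (fun y : {y : EE | y ∈ dom c ∧ inv c y ∈ U} => bbc β c (y : EE)) :=
    continuousOn_iff_continuous_restrict.1
      ((continuousOn_bbc hβ c).mono fun y hy => hy.1)
  have hl : ∀ ξ : Mat N N, Continuous (fun y : {y : EE | y ∈ dom c ∧ inv c y ∈ U} =>
      ellc G g F c (y : EE) (s (inv c (y : EE))) ξ) := fun ξ =>
    continuousOn_iff_continuous_restrict.1 (continuousOn_ellc hG hs c ξ)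
  have hlin : ∀ (y : EE) (η : Fin 3 → ℝ),
      (bbc β c y + ellc G g F c y (s (inv c y)) (i c₀)) +
          ∑ k, η k • ellc G g F c y (s (inv c y)) (i (e k)) =
        bbc β c y + ellc G g F c y (s (inv c y)) (i (c₀ + ∑ k, η k • e k)) := fun y η =>
    Fill_lin ((ellc G g F c y (s (inv c y))).comp i) (bbc β c y) c₀ e η
  have hiff : ∀ y : EE, y ∈ dom c → inv c y ∈ U → ∀ u v : EuclideanSpace ℝ (Fin n),
      (0 < q6 (bbc β c y + ellc G g F c y (s (inv c y)) (i u)) *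
        q6 (bbc β c y + ellc G g F c y (s (inv c y)) (i v)) ↔
      0 < q6 (bb β (inv c y) + ell G g F (inv c y) (s (inv c y)) (i u)) *
        q6 (bb β (inv c y) + ell G g F (inv c y) (s (inv c y)) (i v))) := by
    intro y hy hyU u v
    obtain ⟨d, hd, h⟩ := chart_change hG hF β c hy
    rw [h _ (hsF _ hyU), h _ (hsF _ hyU)]
    have e1 : ∀ a b : ℝ, d * a * (d * b) = a * b * (d * d) := fun a b => by ring
    rw [e1]
    exact mul_pos_iff_of_pos_right (mul_self_pos.2 hd)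
  have hne : ∀ y : EE, y ∈ dom c → inv c y ∈ U →
      q6 (bbc β c y + ellc G g F c y (s (inv c y)) (i z)) ≠ 0 := by
    intro y hy hyU
    obtain ⟨d, hd, h⟩ := chart_change hG hF β c hy
    rw [h _ (hsF _ hyU)]
    exact mul_ne_zero hd (hz _ _ (hsF _ hyU))
  have hC := quad_clopen (Z := {y : EE | y ∈ dom c ∧ inv c y ∈ U})
    (b := fun y => bbc β c (y : EE) + ellc G g F c (y : EE) (s (inv c (y : EE))) (i c₀))
    (M := fun y k => ellc G g F c (y : EE) (s (inv c (y : EE))) (i (e k)))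
    (ε := fun y => q6 (bbc β c (y : EE) + ellc G g F c (y : EE) (s (inv c (y : EE))) (i z)))
    (hb.add (hl _)) (continuous_pi fun k => hl _) (continuous_q6.comp (hb.add (hl _)))
    (fun y => hne y y.2.1 y.2.2) hr
    (by
      intro y η hη
      change 0 < q6 (bbc β c (y : EE) + ellc G g F c (y : EE) (s (inv c (y : EE))) (i z)) *
        q6 ((bbc β c (y : EE) + ellc G g F c (y : EE) (s (inv c (y : EE))) (i c₀)) +
          ∑ k, η k • ellc G g F c (y : EE) (s (inv c (y : EE))) (i (e k)))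
      rw [hlin, hiff y y.2.1 y.2.2]
      exact hS _ _ (hsF _ y.2.2) η hη)
  have hmem : ∀ y : {y : EE | y ∈ dom c ∧ inv c y ∈ U},
      (y ∈ {y : {y : EE | y ∈ dom c ∧ inv c y ∈ U} | ∀ η : Fin 3 → ℝ,
        ∑ k, η k ^ 2 ≤ r ^ 2 →
        0 < q6 (bbc β c (y : EE) + ellc G g F c (y : EE) (s (inv c (y : EE))) (i z)) *
        q6 ((bbc β c (y : EE) + ellc G g F c (y : EE) (s (inv c (y : EE))) (i c₀)) +
          ∑ k, η k • ellc G g F c (y : EE) (s (inv c (y : EE))) (i (e k)))} ↔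
      ∀ f ∈ F (inv c (y : EE)), Filled G g F β i z c₀ e r (inv c (y : EE)) f) := by
    intro y
    constructor
    · intro h f hf
      refine filled_frame hG hF hM hz hr hS (hsF _ y.2.2) hf fun η hη => ?_
      have h1 := h η hη
      rw [hlin, hiff y y.2.1 y.2.2] at h1
      exact h1
    · intro h η hη
      rw [hlin, hiff y y.2.1 y.2.2]
      exact h _ (hsF _ y.2.2) η hη
  constructor
  · obtain ⟨O, hO, hO'⟩ := isOpen_induced_iff.1 hC.isOpen
    have e1 : {y : EE | y ∈ {y : EE | y ∈ dom c ∧ inv c y ∈ U} ∧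
        ∀ f ∈ F (inv c y), Filled G g F β i z c₀ e r (inv c y) f} =
        {y : EE | y ∈ dom c ∧ inv c y ∈ U} ∩ O := by
      ext y
      constructor
      · rintro ⟨h1, h2⟩
        refine ⟨h1, ?_⟩
        have h3 := (hmem ⟨y, h1⟩).2 h2
        rw [← hO'] at h3
        exact h3
      · rintro ⟨h1, h2⟩
        refine ⟨h1, (hmem ⟨y, h1⟩).1 ?_⟩
        rw [← hO']
        exact h2
    rw [e1]
    exact hDo.inter hO
  · obtain ⟨O, hO, hO'⟩ := isOpen_induced_iff.1 hC.compl.isOpen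
    have e1 : {y : EE | y ∈ {y : EE | y ∈ dom c ∧ inv c y ∈ U} ∧
        ¬ ∀ f ∈ F (inv c y), Filled G g F β i z c₀ e r (inv c y) f} =
        {y : EE | y ∈ dom c ∧ inv c y ∈ U} ∩ O := by
      ext y
      constructor
      · rintro ⟨h1, h2⟩
        refine ⟨h1, ?_⟩
        have h3 := (not_congr (hmem ⟨y, h1⟩)).2 h2
        rw [← Set.mem_compl_iff, ← hO'] at h3
        exact h3
      · rintro ⟨h1, h2⟩
        refine ⟨h1, (not_congr (hmem ⟨y, h1⟩)).1 ?_⟩
        rw [← Set.mem_compl_iff, ← hO']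
        exact h2
    rw [e1]
    exact hDo.inter hO

theorem isClopen_filled (hG : IsCompactGroup G g) (hF : IsPrincipal G F) (hM : IsModel g i L)
    (hβ : SmoothForm β) (hz : ∀ x : X, ∀ f ∈ F x, q6 (bb β x + ell G g F x f (i z)) ≠ 0)
    (hr : 0 < r) (hS : SphC G g F β i z c₀ e r) :
    IsClopen {x : X | ∀ f ∈ F x, Filled G g F β i z c₀ e r x f} := by
  refine ⟨⟨isOpen_of_charts fun c => ?_⟩, isOpen_of_charts fun c => ?_⟩
  · rw [isOpen_iff_mem_nhds]
    rintro ⟨y₀, hy₀⟩ h0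
    obtain ⟨D, -, hD, -, h2⟩ := Fill_local hG hF hM hβ hz hr hS c hy₀
    have h3 : Subtype.val ⁻¹' {y : EE | y ∈ D ∧
        ¬ ∀ f ∈ F (inv c y), Filled G g F β i z c₀ e r (inv c y) f} ∈
        nhds (⟨y₀, hy₀⟩ : {y : EE // y ∈ dom c}) :=
      (h2.preimage continuous_subtype_val).mem_nhds ⟨hD, h0⟩
    filter_upwards [h3] with y hy
    exact hy.2
  · rw [isOpen_iff_mem_nhds]
    rintro ⟨y₀, hy₀⟩ h0
    obtain ⟨D, -, hD, h2, -⟩ := Fill_local hG hF hM hβ hz hr hS c hy₀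
    have h3 : Subtype.val ⁻¹' {y : EE | y ∈ D ∧
        ∀ f ∈ F (inv c y), Filled G g F β i z c₀ e r (inv c y) f} ∈
        nhds (⟨y₀, hy₀⟩ : {y : EE // y ∈ dom c}) :=
      (h2.preimage continuous_subtype_val).mem_nhds ⟨hD, h0⟩
    filter_upwards [h3] with y hy
    exact hy.2

theorem fat_of_not_filled (hG : IsCompactGroup G g) (hF : IsPrincipal G F) (hM : IsModel g i L)
    (hz : ∀ x : X, ∀ f ∈ F x, q6 (bb β x + ell G g F x f (i z)) ≠ 0) (hr : 0 < r)
    (hS : SphC G g F β i z c₀ e r) {x : X} (h : ¬ ∀ f ∈ F x, Filled G g F β i z c₀ e r x f)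
    {f : Mat K N} (hf : f ∈ F x) {κ : Fin 3 → ℝ} (hκ : κ ≠ 0) :
    q6 (ell G g F x f (i (∑ k, κ k • e k))) ≠ 0 := by
  have h1 : ¬ Filled G g F β i z c₀ e r x f := fun h1 =>
    h fun f' hf' => filled_frame hG hF hM hz hr hS hf hf' h1
  have hlin : ∀ (η : Fin 3 → ℝ),
      (bb β x + ell G g F x f (i c₀)) + ∑ k, η k • ell G g F x f (i (e k)) =
        bb β x + ell G g F x f (i (c₀ + ∑ k, η k • e k)) := fun η =>
    Fill_lin ((ell G g F x f).comp i) (bb β x) c₀ e η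
  have h2 := quad_fat (b := bb β x + ell G g F x f (i c₀))
    (M := fun k => ell G g F x f (i (e k))) (ε := q6 (bb β x + ell G g F x f (i z))) hr
    (fun η hη => by
      rw [hlin]
      exact hS x f hf η hη)
    (by
      unfold Filled at h1
      push Not at h1
      obtain ⟨η, hη, h3⟩ := h1
      exact ⟨η, hη, by rw [hlin]; exact h3⟩) κ hκ
  have e1 : ell G g F x f (i (∑ k, κ k • e k)) = ∑ k, κ k • ell G g F x f (i (e k)) := by
    rw [map_sum, map_sum]
    simp only [map_smul]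
  rw [e1]
  intro h3
  rw [h3, mul_zero] at h2
  exact lt_irrefl _ h2

end Pool.Agent.W_9986fc_G
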