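import Pool.Agent.W_9986fc_G.Vec6
import Pool.Agent.W_9986fc_G.Clopen3

/-!
# A projection to `ℝ³` detecting positive vectors

`s v = (v 0 + v 5, v 1 - v 4, v 2 + v 3)`, `a v = (v 0 - v 5, v 1 + v 4, v 2 - v 3)`:
`‖s v‖² - ‖a v‖² = 4 q6 v`.
`exists_pr`, case `ε > 0`: `q6 v₀ ≤ 0`, so `‖s v₀‖ ≤ ‖a v₀‖`.  If `a v₀ = 0` then `s v₀ = 0`; take `pr v = s v`.  Otherwise
`pr v = s v - (⟪a v₀, a v⟫ / ‖a v₀‖²) • s v₀`.  `pr v₀ = 0`, and if `pr v = 0` then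
`‖s v‖ ≤ ‖a v‖` by Cauchy-Schwarz, so `q6 v ≤ 0`.  Case `ε < 0`: exchange `s` and `a`.
-/

set_option autoImplicit false

open scoped RealInnerProductSpace

namespace Pool.Agent.W_9986fc_G

/-- the first triple of components -/
noncomputable def LemW_s : (Fin 6 → ℝ) →ₗ[ℝ] E3 where
  toFun v := WithLp.toLp 2 ![v 0 + v 5, v 1 - v 4, v 2 + v 3]
  map_add' v w := by
    ext i
    fin_cases i <;> simp <;> ring
  map_smul' c v := by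
    ext i
    fin_cases i <;> simp <;> ring

/-- the second triple of components -/
noncomputable def LemW_a : (Fin 6 → ℝ) →ₗ[ℝ] E3 where
  toFun v := WithLp.toLp 2 ![v 0 - v 5, v 1 + v 4, v 2 - v 3]
  map_add' v w := by
    ext i
    fin_cases i <;> simp <;> ring
  map_smul' c v := by
    ext i
    fin_cases i <;> simp <;> ring

theorem LemW_q (v : Fin 6 → ℝ) : ‖LemW_s v‖ ^ 2 - ‖LemW_a v‖ ^ 2 = 4 * q6 v := by
  rw [EuclideanSpace.norm_sq_eq, EuclideanSpace.norm_sq_eq, Fin.sum_univ_three, Fin.sum_univ_three]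
  simp only [LemW_s, LemW_a, LinearMap.coe_mk, AddHom.coe_mk, Real.norm_eq_abs, sq_abs, q6,
    Matrix.cons_val_zero, Matrix.cons_val_one, Matrix.cons_val]
  ring

theorem LemW_aux (S A : (Fin 6 → ℝ) →ₗ[ℝ] E3) {v₀ : Fin 6 → ℝ} (h : ‖S v₀‖ ≤ ‖A v₀‖) :
    ∃ pr : (Fin 6 → ℝ) →ₗ[ℝ] E3, pr v₀ = 0 ∧ ∀ v, ‖A v‖ < ‖S v‖ → pr v ≠ 0 := by
  by_cases hA : A v₀ = 0
  · refine ⟨S, ?_, fun v hv h0 => ?_⟩
    · rw [hA, norm_zero] at h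
      exact norm_le_zero_iff.1 h
    · rw [h0, norm_zero] at hv
      exact absurd (norm_nonneg (A v)) (not_le.2 hv)
  · have hpos : 0 < ‖A v₀‖ := norm_pos_iff.2 hA
    refine ⟨S - LinearMap.smulRight ((‖A v₀‖ ^ 2)⁻¹ • ((innerₛₗ ℝ (A v₀)) ∘ₗ A)) (S v₀), ?_,
      fun v hv h0 => ?_⟩
    · show S v₀ - ((‖A v₀‖ ^ 2)⁻¹ * ⟪A v₀, A v₀⟫) • S v₀ = 0
      rw [real_inner_self_eq_norm_sq, inv_mul_cancel₀ (by positivity), one_smul, sub_self]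
    · have h1 : S v - ((‖A v₀‖ ^ 2)⁻¹ * ⟪A v₀, A v⟫) • S v₀ = 0 := h0
      have h2 : ‖S v‖ = (‖A v₀‖ ^ 2)⁻¹ * |⟪A v₀, A v⟫| * ‖S v₀‖ := by
        rw [sub_eq_zero.1 h1, norm_smul, Real.norm_eq_abs, abs_mul, abs_of_pos (by positivity)]
      have h3 : |⟪A v₀, A v⟫| ≤ ‖A v₀‖ * ‖A v‖ := abs_real_inner_le_norm _ _
      have h4 : ‖S v‖ ≤ (‖A v₀‖ ^ 2)⁻¹ * (‖A v₀‖ * ‖A v‖) * ‖A v₀‖ := by
        rw [h2]
        gcongr
      have h5 : (‖A v₀‖ ^ 2)⁻¹ * (‖A v₀‖ * ‖A v‖) * ‖A v₀‖ = ‖A v‖ := by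
        field_simp
      rw [h5] at h4
      exact absurd hv (not_lt.2 h4)

theorem exists_pr {ε : ℝ} (hε : ε ≠ 0) {v₀ : Fin 6 → ℝ} (h : ε * q6 v₀ ≤ 0) :
    ∃ pr : (Fin 6 → ℝ) →ₗ[ℝ] E3, pr v₀ = 0 ∧ ∀ v, 0 < ε * q6 v → pr v ≠ 0 := by
  rcases lt_or_gt_of_ne hε with hneg | hpos
  · have h1 : 0 ≤ q6 v₀ := by
      by_contra hc
      exact absurd h (not_le.2 (mul_pos_of_neg_of_neg hneg (not_le.1 hc)))
    have h2 : ‖LemW_a v₀‖ ≤ ‖LemW_s v₀‖ := by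
      refine le_of_sq_le_sq ?_ (norm_nonneg _)
      have := LemW_q v₀
      linarith
    obtain ⟨pr, hp1, hp2⟩ := LemW_aux LemW_a LemW_s h2
    refine ⟨pr, hp1, fun v hv => hp2 v ?_⟩
    have h3 : q6 v < 0 := by
      by_contra hc
      exact absurd hv (not_lt.2 (mul_nonpos_of_nonpos_of_nonneg hneg.le (not_lt.1 hc)))
    refine lt_of_pow_lt_pow_left₀ 2 (norm_nonneg _) ?_
    have := LemW_q v
    linarith
  · have h1 : q6 v₀ ≤ 0 := by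
      by_contra hc
      exact absurd h (not_le.2 (mul_pos hpos (not_le.1 hc)))
    have h2 : ‖LemW_s v₀‖ ≤ ‖LemW_a v₀‖ := by
      refine le_of_sq_le_sq ?_ (norm_nonneg _)
      have := LemW_q v₀
      linarith
    obtain ⟨pr, hp1, hp2⟩ := LemW_aux LemW_s LemW_a h2
    refine ⟨pr, hp1, fun v hv => hp2 v ?_⟩
    have h3 : 0 < q6 v := (mul_pos_iff_of_pos_left hpos).1 hv
    refine lt_of_pow_lt_pow_left₀ 2 (norm_nonneg _) ?_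
    have := LemW_q v
    linarith

end Pool.Agent.W_9986fc_G
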