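import Pool.Agent.W_9986fc_G.AlgSeg
import Pool.Agent.W_9986fc_G.LemW

/-!
# Positivity along segments (`j` long, not an ideal)

Suppose `ε * q6 (b + l (g₀ ξ')) ≤ 0` for some `g₀ ∈ A`, `ξ' =` the point of the segment.  `exists_pr` with
`v₀ = b + l (g₀ ξ')` gives `pr`; `Roots.segment` with `w = pr b`, `ψ = pr ∘ l`: `w + ψ (g ξ) = pr (b + l (g ξ)) ≠ 0` for
all `g ∈ A`, hence `pr (b + l (g₀ ξ')) ≠ 0`, contradiction.
-/

set_option autoImplicit false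

open scoped RealInnerProductSpace

namespace Pool.Agent.W_9986fc_G

variable {V : Type*} [NormedAddCommGroup V] [InnerProductSpace ℝ V] [FiniteDimensional ℝ V]
variable {L : LieIP V} {t : Submodule ℝ V} {n : ℕ} {A : Set (V →L[ℝ] V)}

theorem Roots.pos_segment (R : Roots L t n) (ht : IsTorus L t) (hA : AdGroup L A) {j : Fin n}
    (hj : R.Long j) (hne : ∃ k, k ≠ j ∧ ⟪R.α k, R.α j⟫ ≠ (0 : ℝ))
    (l : V →ₗ[ℝ] (Fin 6 → ℝ)) (b : Fin 6 → ℝ) {ε : ℝ} (hε : ε ≠ 0)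
    {ξ : V} (hξ : ξ ∈ t) (h : ∀ g ∈ A, 0 < ε * q6 (b + l (g ξ))) {τ : ℝ} (h0 : 0 ≤ τ)
    (h1 : τ ≤ 1) : ∀ g ∈ A,
      0 < ε * q6 (b + l (g (ξ - (τ * (2 * ⟪ξ, R.α j⟫ / ‖R.α j‖ ^ 2)) • R.α j))) := by
  intro g₀ hg₀
  by_contra hcon
  obtain ⟨pr, hpr0, hpr⟩ := exists_pr hε (not_lt.mp hcon)
  have hseg := R.segment ht hA hj hne (pr ∘ₗ l) (pr b) hξ (fun g hg => by
    have h2 := hpr _ (h g hg)
    rwa [map_add] at h2) h0 h1 g₀ hg₀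
  apply hseg
  rw [map_add] at hpr0
  exact hpr0

end Pool.Agent.W_9986fc_G
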