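import Pool.Agent.W_9986fc_G.Ell
import Pool.Agent.W_9986fc_G.PosSeg
import Pool.Agent.W_9986fc_G.ModelA

/-!
# Vectors `u` of the same sign as `z`; segments along long roots that are not ideals

* `sign_const`: for fixed `x`, `f`, the function `a ↦ q6 (bb β x + ell x f (i (a z)))` is continuous on
  `A = AdSet G i` (finite dimensional linear algebra) and does not vanish there: for `a ∈ A`, `i (a z) = k (i z) k*`,
  `k ∈ G`, and `ell x f (k (i z) k*) = ell x (f k) (i z)` (`ell_mul`, `frame_mul`).  `A` is preconnected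
  (`adGroup`, `AdGroup.isPreconnected`) and contains `1` (`AdGroup.one_mem`), so it has constant sign
  (intermediate value theorem, `IsPreconnected.intermediate_value`).
* `good_ad`: with `k` as above: `Good` at `(x, f k)` and `sign_const`.
* `good_seg`: for `x`, `f ∈ F x` apply `Roots.pos_segment` with `l = ell x f ∘ i`, `b = bb β x`,
  `ε = q6 (bb β x + ell x f (i z))` (hypothesis: `good_ad`) to `g = 1`.
-/

set_option autoImplicit false

open scoped Manifold ContDiff Matrix RealInnerProductSpace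

namespace Pool.Agent.W_9986fc_G

open Pool.Agent.W_MP_d8b8b7_S

universe u

variable {X : Type u} [TopologicalSpace X] [ChartedSpace E4 X] [IsManifold I4 ∞ X] {K N n : ℕ}

/-- the form of `u` has at every frame the same sign as the form of `z` -/
def Good (G : Set (Mat N N)) (g : Submodule ℝ (Mat N N)) (F : X → Set (Mat K N))
    (β : Form X 2) (i : EuclideanSpace ℝ (Fin n) →ₗ[ℝ] Mat N N)
    (z u : EuclideanSpace ℝ (Fin n)) : Prop :=
  ∀ x : X, ∀ f ∈ F x,
    0 < q6 (bb β x + ell G g F x f (i z)) * q6 (bb β x + ell G g F x f (i u))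

variable {G : Set (Mat N N)} {g : Submodule ℝ (Mat N N)} {F : X → Set (Mat K N)}
  {i : EuclideanSpace ℝ (Fin n) →ₗ[ℝ] Mat N N} {L : LieIP (EuclideanSpace ℝ (Fin n))}
  {β : Form X 2} {z : EuclideanSpace ℝ (Fin n)}

theorem good_self (hz : ∀ x : X, ∀ f ∈ F x, q6 (bb β x + ell G g F x f (i z)) ≠ 0) :
    Good G g F β i z z := fun x f hf => mul_self_pos.2 (hz x f hf)

/-- for `a` in the adjoint group, `ell` at `i (a u)` is `ell` at another frame -/
theorem Good_frame (hG : IsCompactGroup G g) (hF : IsPrincipal G F) {x : X} {f : Mat K N}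
    (hf : f ∈ F x) {a : EuclideanSpace ℝ (Fin n) →L[ℝ] EuclideanSpace ℝ (Fin n)}
    (ha : a ∈ AdSet G i) : ∃ f' ∈ F x, ∀ u, ell G g F x f (i (a u)) = ell G g F x f' (i u) := by
  obtain ⟨k, hk, h⟩ := ha
  exact ⟨f * k, frame_mul hG hF hf hk, fun u => by rw [h u, ell_mul hG hF hf hk]⟩

theorem sign_const (hG : IsCompactGroup G g) (hF : IsPrincipal G F) (hM : IsModel g i L)
    (hz : ∀ x : X, ∀ f ∈ F x, q6 (bb β x + ell G g F x f (i z)) ≠ 0) {x : X} {f : Mat K N}
    (hf : f ∈ F x) {a : EuclideanSpace ℝ (Fin n) →L[ℝ] EuclideanSpace ℝ (Fin n)}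
    (ha : a ∈ AdSet G i) :
    0 < q6 (bb β x + ell G g F x f (i z)) * q6 (bb β x + ell G g F x f (i (a z))) := by
  have hA := adGroup hM hG
  have hne : ∀ b ∈ AdSet G i, q6 (bb β x + ell G g F x f (i (b z))) ≠ 0 := by
    intro b hb
    obtain ⟨f', hf', h⟩ := Good_frame (i := i) hG hF hf hb
    rw [h z]
    exact hz x f' hf'
  have hcont : Continuous (fun b : EuclideanSpace ℝ (Fin n) →L[ℝ] EuclideanSpace ℝ (Fin n) =>
      q6 (bb β x + ell G g F x f (i (b z)))) := by
    have h1 : Continuous ((ell G g F x f).comp i) := LinearMap.continuous_of_finiteDimensional _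
    have h2 : Continuous (fun b : EuclideanSpace ℝ (Fin n) →L[ℝ] EuclideanSpace ℝ (Fin n) =>
        b z) := by fun_prop
    exact continuous_q6.comp (continuous_const.add (h1.comp h2))
  have h1 : (1 : EuclideanSpace ℝ (Fin n) →L[ℝ] EuclideanSpace ℝ (Fin n)) ∈ AdSet G i :=
    hA.one_mem
  have key : ∀ b ∈ AdSet G i, ∀ b' ∈ AdSet G i,
      ¬ (q6 (bb β x + ell G g F x f (i (b z))) < 0 ∧
        0 < q6 (bb β x + ell G g F x f (i (b' z)))) := by
    rintro b hb b' hb' ⟨h3, h4⟩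
    obtain ⟨b'', hb'', h5⟩ := hA.isPreconnected.intermediate_value hb hb' hcont.continuousOn
      ⟨h3.le, h4.le⟩
    exact hne b'' hb'' h5
  have e1 : q6 (bb β x + ell G g F x f (i z)) = q6 (bb β x + ell G g F x f (i
      ((1 : EuclideanSpace ℝ (Fin n) →L[ℝ] EuclideanSpace ℝ (Fin n)) z))) := rfl
  rcases lt_or_gt_of_ne (hz x f hf) with h3 | h3 <;>
    rcases lt_or_gt_of_ne (hne a ha) with h4 | h4
  · exact mul_pos_of_neg_of_neg h3 h4
  · exact absurd ⟨e1 ▸ h3, h4⟩ (key 1 h1 a ha)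
  · exact absurd ⟨h4, e1 ▸ h3⟩ (key a ha 1 h1)
  · exact mul_pos h3 h4

theorem good_ad (hG : IsCompactGroup G g) (hF : IsPrincipal G F) (hM : IsModel g i L)
    (hz : ∀ x : X, ∀ f ∈ F x, q6 (bb β x + ell G g F x f (i z)) ≠ 0)
    {u : EuclideanSpace ℝ (Fin n)} (hu : Good G g F β i z u) {x : X} {f : Mat K N}
    (hf : f ∈ F x) {a : EuclideanSpace ℝ (Fin n) →L[ℝ] EuclideanSpace ℝ (Fin n)}
    (ha : a ∈ AdSet G i) :
    0 < q6 (bb β x + ell G g F x f (i z)) * q6 (bb β x + ell G g F x f (i (a u))) := by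
  obtain ⟨f', hf', h⟩ := Good_frame (i := i) hG hF hf ha
  have h1 := hu x f' hf'
  have h2 := sign_const hG hF hM hz hf ha
  rw [h z] at h2
  rw [h u]
  rcases lt_or_gt_of_ne (hz x f' hf') with h3 | h3
  · have h4 : q6 (bb β x + ell G g F x f' (i u)) < 0 := by nlinarith
    have h5 : q6 (bb β x + ell G g F x f (i z)) < 0 := by nlinarith
    exact mul_pos_of_neg_of_neg h5 h4
  · have h4 : 0 < q6 (bb β x + ell G g F x f' (i u)) := by nlinarith
    have h5 : 0 < q6 (bb β x + ell G g F x f (i z)) := by nlinarith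
    exact mul_pos h5 h4

theorem good_seg (hG : IsCompactGroup G g) (hF : IsPrincipal G F) (hM : IsModel g i L)
    (hz : ∀ x : X, ∀ f ∈ F x, q6 (bb β x + ell G g F x f (i z)) ≠ 0)
    {t : Submodule ℝ (EuclideanSpace ℝ (Fin n))} {q : ℕ} (R : Roots L t q) (ht : IsTorus L t)
    {j : Fin q} (hj : R.Long j) (hne : ∃ k, k ≠ j ∧ ⟪R.α k, R.α j⟫ ≠ (0 : ℝ))
    {ξ : EuclideanSpace ℝ (Fin n)} (hξ : ξ ∈ t) (hg : Good G g F β i z ξ) {τ : ℝ} (h0 : 0 ≤ τ)
    (h1 : τ ≤ 1) :
    Good G g F β i z (ξ - (τ * (2 * ⟪ξ, R.α j⟫ / ‖R.α j‖ ^ 2)) • R.α j) := by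
  intro x f hf
  have hA := adGroup hM hG
  exact R.pos_segment ht hA hj hne ((ell G g F x f).comp i) (bb β x) (hz x f hf) hξ
    (fun a ha => good_ad hG hF hM hz hg hf ha) h0 h1 1 hA.one_mem

end Pool.Agent.W_9986fc_G
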