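import Pool.Agent.W_9986fc_G.JcA
import Pool.Agent.W_9986fc_G.EStokes

/-!
# Stokes' theorem in a chart

`Jc_stokes`: by `dR_chart` and linearity, with `U a = u a ∘ inv c`, `dR (u a) (inv c y) (e b) =
∑ k, ∂_k (U a) y * Emat k b`, so `du4 e u (inv c y) = det (∂_k (U a) y) * det (Emat e c y)` and
`Jc e c (du4 e u) = ∫ σ(y) det (∂_k (U a) y)`, `σ = sign (det Emat)` which is locally constant on `dom c`
(continuous and nonzero determinant).  `U 0` extended by 0 outside `dom c` has compact support
`φ_c (tsupport (u 0))` in `dom c`; `euclid_stokes_on` with `O = dom c`.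
-/

set_option autoImplicit false

open scoped Manifold ContDiff
open MeasureTheory

namespace Pool.Agent.W_9986fc_G

open Pool.Agent.W_MP_d8b8b7_S

universe u

variable {X : Type u} [TopologicalSpace X] [ChartedSpace E4 X] [IsManifold I4 ∞ X]
  {e : Fin 4 → ∀ x : X, T x}

theorem JcC_vec (w : EE) : w = ∑ k, w k • e4 k := by
  have h := (EuclideanSpace.basisFun (Fin 4) ℝ).sum_repr w
  simp only [EuclideanSpace.basisFun_repr, EuclideanSpace.basisFun_apply] at h
  exact h.symm

theorem du4_chart (he : IsParallelization e) {u : Fin 4 → X → ℝ} (hu : ∀ a, SmR (u a)) (c : X)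
    {y : EE} (hy : y ∈ dom c) : du4 e u (inv c y) =
      Matrix.det (Matrix.of fun a b : Fin 4 => fderiv ℝ (fun z : EE => u a (inv c z)) y (e4 b)) *
        (Emat e c y).det := by
  unfold du4
  rw [← Matrix.det_mul]
  congr 1
  ext a b
  rw [Matrix.mul_apply]
  simp only [Matrix.of_apply]
  have h := dR_chart isOpen_univ (contMDiffOn_univ.2 (hu a)) c hy (Set.mem_univ _)
    (e b (inv c y))
  rw [h]
  have hv := JcC_vec (show EE from dChart c y (e b (inv c y)))
  have h2 : fderiv ℝ (fun z : EE => u a (inv c z)) y (show EE from dChart c y (e b (inv c y))) =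
      fderiv ℝ (fun z : EE => u a (inv c z)) y
        (∑ k, (show EE from dChart c y (e b (inv c y))) k • e4 k) :=
    congrArg _ hv
  rw [h2, map_sum]
  refine Finset.sum_congr rfl fun k _ => ?_
  rw [map_smul, smul_eq_mul, mul_comm]
  rfl

theorem Jc_stokes [CompactSpace X] [T2Space X] (he : IsParallelization e) {c : X}
    {u : Fin 4 → X → ℝ} (hu : ∀ a, SmR (u a)) (hs : tsupport (u 0) ⊆ src c) :
    Jc e c (du4 e u) = 0 := by
  classical
  obtain ⟨O, hOd⟩ : ∃ O : Set EE, O = dom c := ⟨_, rfl⟩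
  have hO : IsOpen O := by
    rw [hOd]
    exact isOpen_dom c
  obtain ⟨U, hU⟩ : ∃ U : Fin 4 → EE → ℝ, U = fun a z =>
    if a = 0 ∧ z ∉ O then 0 else u a (inv c z) := ⟨_, rfl⟩
  have hUO : ∀ a, ∀ z ∈ O, U a z = u a (inv c z) := by
    intro a z hz
    rw [hU]
    exact if_neg fun h => h.2 hz
  have hsub : O ⊆ {y : EE | y ∈ dom c ∧ inv c y ∈ (Set.univ : Set X)} := by
    intro z hz
    rw [hOd] at hz
    exact ⟨hz, Set.mem_univ _⟩
  have hUsm : ∀ a, ContDiffOn ℝ ∞ (U a) O := fun a =>
    ((smooth_chart isOpen_univ (contMDiffOn_univ.2 (hu a)) c).mono hsub).congr (hUO a)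
  have hK : IsCompact (show Set EE from (extChartAt I4 c) '' tsupport (u 0)) := by
    have h1 : IsCompact (tsupport (u 0)) := (isClosed_tsupport _).isCompact
    exact h1.image_of_continuousOn ((continuousOn_extChartAt c).mono hs)
  have hKO : (show Set EE from (extChartAt I4 c) '' tsupport (u 0)) ⊆ O := by
    rintro _ ⟨x, hx, rfl⟩
    rw [hOd]
    exact (extChartAt I4 c).map_source (hs hx)
  have hUK : Function.support (U 0) ⊆ (show Set EE from (extChartAt I4 c) '' tsupport (u 0)) := by
    intro z hz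
    have hzO : z ∈ O := by
      by_contra h
      apply hz
      rw [hU]
      exact if_pos ⟨rfl, h⟩
    have hz' : u 0 (inv c z) ≠ 0 := by
      rw [← hUO 0 z hzO]
      exact hz
    refine ⟨inv c z, subset_tsupport _ hz', ?_⟩
    rw [hOd] at hzO
    exact (extChartAt I4 c).right_inv hzO
  have hcs : HasCompactSupport (U 0) := HasCompactSupport.of_support_subset_isCompact hK hUK
  have hts : tsupport (U 0) ⊆ O := (closure_minimal hUK hK.isClosed).trans hKO
  obtain ⟨σ, hσ⟩ : ∃ σ : EE → ℝ, σ = fun y => (Emat e c y).det / |(Emat e c y).det| := ⟨_, rfl⟩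
  have hdc : ContinuousOn (fun y : EE => (Emat e c y).det) O := by
    have h1 : ContinuousOn (fun y : EE => Emat e c y) O := by
      refine continuousOn_pi.2 fun a => ?_
      refine continuousOn_pi.2 fun b => ?_
      rw [hOd]
      exact (contDiffOn_Emat he c a b).continuousOn
    exact (Continuous.matrix_det continuous_id).comp_continuousOn h1
  have hdn : ∀ y ∈ O, (Emat e c y).det ≠ 0 := by
    intro y hy
    rw [hOd] at hy
    exact Emat_det_ne he c hy
  have hσ' : ∀ y ∈ O, ∃ W, IsOpen W ∧ y ∈ W ∧ ∀ z ∈ W, σ z = σ y := by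
    intro y hy
    have hc2 : ContinuousOn (fun z : EE => (Emat e c z).det * (Emat e c y).det) O :=
      hdc.mul continuousOn_const
    refine ⟨O ∩ (fun z : EE => (Emat e c z).det * (Emat e c y).det) ⁻¹' (Set.Ioi 0),
      hc2.isOpen_inter_preimage hO isOpen_Ioi, ⟨hy, mul_self_pos.2 (hdn y hy)⟩, ?_⟩
    rintro z ⟨hz, hz2⟩
    have hz3 : 0 < (Emat e c z).det * (Emat e c y).det := hz2
    rw [hσ]
    change (Emat e c z).det / |(Emat e c z).det| = (Emat e c y).det / |(Emat e c y).det|
    rcases pos_and_pos_or_neg_and_neg_of_mul_pos hz3 with ⟨h1, h2⟩ | ⟨h1, h2⟩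
    · rw [abs_of_pos h1, abs_of_pos h2, div_self h1.ne', div_self h2.ne']
    · rw [abs_of_neg h1, abs_of_neg h2, div_neg, div_neg, div_self h1.ne, div_self h2.ne]
  have hst := euclid_stokes_on hO hUsm hcs hts hσ'
  rw [← hst]
  unfold Jc
  have hOd' : (show Set EE from dom c) = O := hOd.symm
  rw [hOd']
  refine setIntegral_congr_fun hO.measurableSet fun y hy => ?_
  have hyd : y ∈ dom c := by
    rw [hOd] at hy
    exact hy
  change du4 e u (inv c y) / |(Emat e c y).det| = σ y *
    Matrix.det (Matrix.of fun a b : Fin 4 => fderiv ℝ (U a) y (e4 b))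
  rw [du4_chart he hu c hyd, hσ]
  have hM : (Matrix.of fun a b : Fin 4 => fderiv ℝ (U a) y (e4 b)) =
      Matrix.of fun a b : Fin 4 => fderiv ℝ (fun z : EE => u a (inv c z)) y (e4 b) := by
    ext a b
    rw [Matrix.of_apply, Matrix.of_apply]
    have h1 : U a =ᶠ[nhds y] fun z : EE => u a (inv c z) := by
      filter_upwards [hO.mem_nhds hy] with z hz
      exact hUO a z hz
    rw [h1.fderiv_eq]
  rw [hM]
  ring

end Pool.Agent.W_9986fc_G
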