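import Pool.Agent.W_9986fc_G.JcB
import Pool.Agent.W_9986fc_G.JcC

/-!
# Existence of the integral

* `exists_pou`: `SmoothPartitionOfUnity.exists_isSubordinate` for the cover by the sources of the charts
  (`E4` is a finite dimensional space, instances by `inferInstanceAs`; `X` compact and T2), and compactness:
  only finitely many of its functions are not zero (`LocallyFinite.finite_nonempty_of_compact`).
* `exists_integral`: `I h = ∑ i, Jc (c i) (ρ i * h)`.  `pos`: each term is `≥ 0` and some
  `ρ i x₀ > 0` (`X` nonempty).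
  `stokes`: `u 0 = ∑ k, ρ k * u 0`; `du4 e u = ∑ k, D k`, `D k = du4 e (u with u 0 replaced by ρ k * u 0)` (the
  determinant is linear in the first row, `dR_sum`), `tsupport (D k) ⊆ tsupport (ρ k)`.
  `∑ i, Jc (c i) (ρ i * D k) = ∑ i, Jc (c k) (ρ i * D k)` (`Jc_change`) `= Jc (c k) (D k) = 0` (`Jc_stokes`).
-/

set_option autoImplicit false

open scoped Manifold ContDiff

namespace Pool.Agent.W_9986fc_G

open Pool.Agent.W_MP_d8b8b7_S

universe u

variable {X : Type u} [TopologicalSpace X] [ChartedSpace E4 X] [IsManifold I4 ∞ X]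
  {e : Fin 4 → ∀ x : X, T x}

theorem exists_pou [CompactSpace X] [T2Space X] : ∃ (m : ℕ) (c : Fin m → X)
    (ρ : Fin m → X → ℝ), (∀ i, SmR (ρ i)) ∧ (∀ i x, 0 ≤ ρ i x) ∧ (∀ x, ∑ i, ρ i x = 1) ∧
      ∀ i, tsupport (ρ i) ⊆ src (c i) := by
  letI : ChartedSpace (EuclideanSpace ℝ (Fin 4)) X := oldChart X
  have hM : @IsManifold ℝ _ _ _ _ _ _ 𝓘(ℝ, EuclideanSpace ℝ (Fin 4)) ∞ X _ (oldChart X) :=
    inferInstanceAs (IsManifold I4 ∞ X)
  obtain ⟨f, hf⟩ := SmoothPartitionOfUnity.exists_isSubordinate_chartAt_source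
    (I := 𝓘(ℝ, EuclideanSpace ℝ (Fin 4))) (M := X)
  have hfin : {i | (Function.support (f i)).Nonempty}.Finite :=
    f.locallyFinite.finite_nonempty_of_compact
  let S : Finset X := hfin.toFinset
  let c : Fin S.card → X := fun i => (S.equivFin.symm i).1
  refine ⟨S.card, c, fun i => f (c i), fun i => ?_, fun i x => f.nonneg _ x, fun x => ?_,
    fun i => ?_⟩
  · have h1 : ContMDiff 𝓘(ℝ, EuclideanSpace ℝ (Fin 4)) 𝓘(ℝ, ℝ) ∞ (f (c i)) := (f (c i)).contMDiff
    exact h1
  · have h1 : ∑ᶠ i, f i x = 1 := f.sum_eq_one (Set.mem_univ x)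
    have h2 : ∑ᶠ i, f i x = ∑ i ∈ S, f i x := by
      refine finsum_eq_sum_of_support_subset _ ?_
      intro i hi
      rw [Finset.mem_coe, Set.Finite.mem_toFinset]
      exact ⟨x, hi⟩
    rw [← h1, h2, ← Finset.sum_coe_sort S]
    exact Fintype.sum_equiv S.equivFin.symm _ _ fun i => rfl
  · intro x hx
    have h1 := hf (c i) hx
    have h2 : x ∈ (extChartAt 𝓘(ℝ, EuclideanSpace ℝ (Fin 4)) (c i)).source := by
      rw [extChartAt_source]
      exact h1
    exact h2

theorem IntEx_sum [CompactSpace X] [T2Space X] (he : IsParallelization e) {c : X} {ι : Type}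
    (s : Finset ι) (F : ι → X → ℝ) (hF : ∀ i, Continuous (F i))
    (hs : ∀ i, tsupport (F i) ⊆ src c) :
    tsupport (fun x => ∑ i ∈ s, F i x) ⊆ src c ∧
      Jc e c (fun x => ∑ i ∈ s, F i x) = ∑ i ∈ s, Jc e c (F i) := by
  classical
  induction s using Finset.induction_on with
  | empty =>
    simp only [Finset.sum_empty]
    constructor
    · have h1 : tsupport (fun _ : X => (0 : ℝ)) = ∅ := by
        rw [tsupport_eq_empty_iff]
        rfl
      rw [h1]
      exact Set.empty_subset _
    · have h1 := Jc_smul (e := e) c 0 (fun _ => 0)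
      simpa using h1
  | insert i s hi ih =>
    simp only [Finset.sum_insert hi]
    constructor
    · refine (tsupport_add (F i) (fun x => ∑ i ∈ s, F i x)).trans ?_
      exact Set.union_subset (hs i) ih.1
    · rw [Jc_add he (hF i) (hs i) (continuous_finsetSum _ fun i _ => hF i) ih.1, ih.2]

theorem IntEx_du4_update (u : Fin 4 → X → ℝ) (w : X → ℝ) (x : X) :
    du4 e (Function.update u 0 w) x = Matrix.detRowAlternating
      (Function.update (fun a b : Fin 4 => dR (u a) x (e b x)) 0 (fun b => dR w x (e b x))) := by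
  unfold du4
  show Matrix.detRowAlternating _ = _
  congr 1
  funext a
  by_cases ha : a = 0
  · subst ha
    rw [Function.update_self]
    funext b
    rw [Matrix.of_apply, Function.update_self]
  · rw [Function.update_of_ne ha]
    funext b
    rw [Matrix.of_apply, Function.update_of_ne ha]

theorem IntEx_du4_sum {m : ℕ} {ρ : Fin m → X → ℝ} (hρ : ∀ i, SmR (ρ i))
    (h1 : ∀ x, ∑ i, ρ i x = 1) {u : Fin 4 → X → ℝ} (hu : ∀ a, SmR (u a)) (x : X) :
    du4 e u x = ∑ k, du4 e (Function.update u 0 (fun y => ρ k y * u 0 y)) x := by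
  simp only [IntEx_du4_update]
  rw [← AlternatingMap.map_update_sum]
  have h2 : (∑ k, fun b => dR (fun y => ρ k y * u 0 y) x (e b x)) =
      fun b => dR (u 0) x (e b x) := by
    funext b
    rw [Finset.sum_apply, ← dR_sum (fun k => (hρ k).mul (hu 0))]
    congr 1
    funext y
    rw [← Finset.sum_mul, h1, one_mul]
  rw [h2]
  have h3 : Function.update (fun a b : Fin 4 => dR (u a) x (e b x)) 0
      (fun b => dR (u 0) x (e b x)) = fun a b : Fin 4 => dR (u a) x (e b x) :=
    Function.update_eq_self 0 _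
  rw [h3]
  rfl

theorem IntEx_supp {u : Fin 4 → X → ℝ} {w r : X → ℝ} (hw : ∀ x, r x = 0 → w x = 0) :
    tsupport (du4 e (Function.update u 0 w)) ⊆ tsupport r := by
  refine closure_minimal ?_ (isClosed_tsupport r)
  intro x hx
  by_contra h
  apply hx
  rw [IntEx_du4_update]
  refine AlternatingMap.map_coord_zero _ 0 ?_
  rw [Function.update_self]
  funext b
  have h2 : dR w x (e b x) = dR (fun _ => (0 : ℝ)) x (e b x) := by
    refine dR_congr (isClosed_tsupport r).isOpen_compl h (fun y hy => ?_) _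
    exact hw y (image_eq_zero_of_notMem_tsupport hy)
  rw [h2, dR_const]
  rfl

theorem IntEx_cont (he : IsParallelization e) {u : Fin 4 → X → ℝ} (hu : ∀ a, SmR (u a)) :
    Continuous (du4 e u) := by
  unfold du4
  refine Continuous.matrix_det ?_
  refine continuous_pi fun a => continuous_pi fun b => ?_
  exact (smooth_dR (hu a) he b).continuous

theorem exists_integral [CompactSpace X] [T2Space X] [Nonempty X] (he : IsParallelization e) :
    ∃ I : (X → ℝ) → ℝ, IsIntegral e I := by
  obtain ⟨m, c, ρ, hρ, h0, h1, hs⟩ := exists_pou (X := X)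
  have hts : ∀ i (h : X → ℝ), tsupport (fun x => ρ i x * h x) ⊆ src (c i) := fun i h =>
    (tsupport_mul_subset_left (f := ρ i) (g := h)).trans (hs i)
  refine ⟨fun h => ∑ i, Jc e (c i) (fun x => ρ i x * h x), ⟨fun h k hh hk => ?_, fun a h hh => ?_,
    fun h hh hp => ?_, fun u hu => ?_⟩⟩
  · show ∑ i, Jc e (c i) (fun x => ρ i x * (h x + k x)) = _ + _
    rw [← Finset.sum_add_distrib]
    refine Finset.sum_congr rfl fun i _ => ?_
    have hadd := Jc_add (h := fun x => ρ i x * h x) (k := fun x => ρ i x * k x) he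
      ((hρ i).continuous.mul hh) (hts i h) ((hρ i).continuous.mul hk) (hts i k)
    rw [← hadd]
    congr 1
    funext x
    ring
  · show ∑ i, Jc e (c i) (fun x => ρ i x * (a * h x)) = a * _
    rw [Finset.mul_sum]
    refine Finset.sum_congr rfl fun i _ => ?_
    rw [← Jc_smul]
    congr 1
    funext x
    ring
  · obtain ⟨x₀⟩ := ‹Nonempty X›
    have h2 : ∃ i, 0 < ρ i x₀ := by
      by_contra h3
      push Not at h3
      have h4 : ∑ i, ρ i x₀ ≤ 0 := Finset.sum_nonpos fun i _ => h3 i
      rw [h1] at h4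
      linarith
    obtain ⟨i, hi⟩ := h2
    refine Finset.sum_pos' (fun j _ => Jc_nonneg _ fun x => mul_nonneg (h0 j x) (hp x).le)
      ⟨i, Finset.mem_univ i, ?_⟩
    exact Jc_pos he ((hρ i).continuous.mul hh) (hts i h) (fun x => mul_nonneg (h0 i x) (hp x).le)
      (mul_pos hi (hp x₀))
  · show ∑ i, Jc e (c i) (fun x => ρ i x * du4 e u x) = 0
    let U : Fin m → Fin 4 → X → ℝ := fun k => Function.update u 0 (fun y => ρ k y * u 0 y)
    have hU : ∀ k a, SmR (U k a) := by
      intro k a
      by_cases ha : a = 0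
      · subst ha
        show SmR (Function.update u 0 (fun y => ρ k y * u 0 y) 0)
        rw [Function.update_self]
        exact (hρ k).mul (hu 0)
      · show SmR (Function.update u 0 (fun y => ρ k y * u 0 y) a)
        rw [Function.update_of_ne ha]
        exact hu a
    have hcont : ∀ k, Continuous (du4 e (U k)) := fun k => IntEx_cont he (hU k)
    have hsupp : ∀ k, tsupport (du4 e (U k)) ⊆ src (c k) := fun k =>
      (IntEx_supp (r := ρ k) fun x hx => by rw [hx, zero_mul]).trans (hs k)
    have hsupp' : ∀ i k, tsupport (fun x => ρ i x * du4 e (U k) x) ⊆ src (c k) := fun i k =>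
      (tsupport_mul_subset_right (f := ρ i) (g := du4 e (U k))).trans (hsupp k)
    have e1 : ∀ i, Jc e (c i) (fun x => ρ i x * du4 e u x) =
        ∑ k, Jc e (c k) (fun x => ρ i x * du4 e (U k) x) := by
      intro i
      have e2 : (fun x => ρ i x * du4 e u x) = fun x => ∑ k, ρ i x * du4 e (U k) x := by
        funext x
        rw [IntEx_du4_sum hρ h1 hu x, Finset.mul_sum]
      rw [e2, (IntEx_sum he Finset.univ (fun k x => ρ i x * du4 e (U k) x)
        (fun k => (hρ i).continuous.mul (hcont k)) (fun k => hts i _)).2]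
      exact Finset.sum_congr rfl fun k _ => Jc_change he (hts i _) (hsupp' i k)
    rw [Finset.sum_congr rfl fun i _ => e1 i, Finset.sum_comm]
    refine Finset.sum_eq_zero fun k _ => ?_
    rw [← (IntEx_sum he Finset.univ (fun i x => ρ i x * du4 e (U k) x)
      (fun i => (hρ i).continuous.mul (hcont k)) (fun i => hsupp' i k)).2]
    have e3 : (fun x => ∑ i, ρ i x * du4 e (U k) x) = du4 e (U k) := by
      funext x
      rw [← Finset.sum_mul, h1, one_mul]
    rw [e3]
    refine Jc_stokes he (hU k) ?_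
    show tsupport (Function.update u 0 (fun y => ρ k y * u 0 y) 0) ⊆ src (c k)
    rw [Function.update_self]
    exact hts k (u 0)

end Pool.Agent.W_9986fc_G
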