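import Pool.Agent.W_9986fc_G.RDer

/-!
# The integral of a parallelized manifold: definition

`I` is a positive linear functional on continuous functions which vanishes on the functions
`det (dR (u a) (e b)) = (du₀ ∧ du₁ ∧ du₂ ∧ du₃)(e₀, e₁, e₂, e₃)`.
-/

set_option autoImplicit false

open scoped Manifold ContDiff

namespace Pool.Agent.W_9986fc_G

open Pool.Agent.W_MP_d8b8b7_S

universe u

variable {X : Type u} [TopologicalSpace X] [ChartedSpace E4 X]

/-- `(du₀ ∧ du₁ ∧ du₂ ∧ du₃)(e₀, e₁, e₂, e₃)` -/
noncomputable def du4 (e : Fin 4 → ∀ x : X, T x) (u : Fin 4 → X → ℝ) (x : X) : ℝ :=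
  Matrix.det (Matrix.of fun a b : Fin 4 => dR (u a) x (e b x))

/-- `I` is the integral over `X` with the volume form of the frame `e` (or a positive multiple) -/
structure IsIntegral (e : Fin 4 → ∀ x : X, T x) (I : (X → ℝ) → ℝ) : Prop where
  add : ∀ h k : X → ℝ, Continuous h → Continuous k → I (fun x => h x + k x) = I h + I k
  smul : ∀ (c : ℝ) (h : X → ℝ), Continuous h → I (fun x => c * h x) = c * I h
  pos : ∀ h : X → ℝ, Continuous h → (∀ x, 0 < h x) → 0 < I h
  stokes : ∀ u : Fin 4 → X → ℝ, (∀ a, SmR (u a)) → I (du4 e u) = 0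

/-- the components of the frame in the chart -/
noncomputable def Emat (e : Fin 4 → ∀ x : X, T x) (c : X) (y : EE) : Matrix (Fin 4) (Fin 4) ℝ :=
  Matrix.of fun a b => (show EE from dChart c y (e b (inv c y))) a

/-- the source of the chart at `c` -/
def src (c : X) : Set X := (extChartAt I4 c).source

/-- the integral in the chart at `c` -/
noncomputable def Jc (e : Fin 4 → ∀ x : X, T x) (c : X) (h : X → ℝ) : ℝ :=
  ∫ y in (show Set EE from dom c), h (inv c y) / |(Emat e c y).det|

end Pool.Agent.W_9986fc_G
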