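import Pool.Agent.W_9986fc_G.Defs

/-!
# The inner product `ip A B = Re tr (A* B)` of matrices

* `ip_*`: elementary (`Matrix.trace_mul_comm`, `ip A A = ∑ ‖A i j‖²`).
* `ip_bracket`: direct computation with `trace_mul_comm`.
-/

set_option autoImplicit false

open scoped Matrix RealInnerProductSpace

namespace Pool.Agent.W_9986fc_G

variable {K N M : ℕ}

theorem Ip_self (A : Mat K N) : ip A A = ∑ j, ∑ i, ‖A i j‖ ^ 2 := by
  unfold ip
  rw [Matrix.trace, Complex.re_sum]
  refine Finset.sum_congr rfl fun j _ => ?_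
  rw [Matrix.diag_apply, Matrix.mul_apply, Complex.re_sum]
  refine Finset.sum_congr rfl fun i _ => ?_
  rw [Matrix.conjTranspose_apply]
  have h1 : star (A i j) * A i j = ((‖A i j‖ ^ 2 : ℝ) : ℂ) := by
    have h2 := Complex.conj_mul' (A i j)
    rw [Complex.ofReal_pow]
    exact h2
  rw [h1, Complex.ofReal_re]

theorem ip_add_left (A B C : Mat K N) : ip (A + B) C = ip A C + ip B C := by
  unfold ip
  rw [Matrix.conjTranspose_add, Matrix.add_mul, Matrix.trace_add, Complex.add_re]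

theorem ip_add_right (A B C : Mat K N) : ip A (B + C) = ip A B + ip A C := by
  unfold ip
  rw [Matrix.mul_add, Matrix.trace_add, Complex.add_re]

theorem ip_smul_left (c : ℝ) (A B : Mat K N) : ip (c • A) B = c * ip A B := by
  unfold ip
  rw [Matrix.conjTranspose_smul, star_trivial, Matrix.smul_mul, Matrix.trace_smul, Complex.smul_re,
    smul_eq_mul]

theorem ip_smul_right (c : ℝ) (A B : Mat K N) : ip A (c • B) = c * ip A B := by
  unfold ip
  rw [Matrix.mul_smul, Matrix.trace_smul, Complex.smul_re, smul_eq_mul]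

theorem ip_comm (A B : Mat K N) : ip A B = ip B A := by
  unfold ip
  have h1 : Bᴴ * A = (Aᴴ * B)ᴴ := by
    rw [Matrix.conjTranspose_mul, Matrix.conjTranspose_conjTranspose]
  rw [h1, Matrix.trace_conjTranspose]
  exact (Complex.conj_re _).symm

theorem ip_self_nonneg (A : Mat K N) : 0 ≤ ip A A := by
  rw [Ip_self]
  positivity

theorem ip_self_eq_zero {A : Mat K N} (h : ip A A = 0) : A = 0 := by
  rw [Ip_self] at h
  ext i j
  have h1 := (Finset.sum_eq_zero_iff_of_nonneg (fun j _ =>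
    Finset.sum_nonneg fun i _ => by positivity)).1 h j (Finset.mem_univ j)
  have h2 := (Finset.sum_eq_zero_iff_of_nonneg (fun i _ => by positivity)).1 h1 i
    (Finset.mem_univ i)
  have h3 : ‖A i j‖ = 0 := by simpa using h2
  simpa using h3

theorem ip_mul_left (A : Mat K M) (B : Mat M N) (C : Mat K N) : ip (A * B) C = ip B (Aᴴ * C) := by
  unfold ip
  rw [Matrix.conjTranspose_mul, Matrix.mul_assoc]

theorem ip_mul_right (A : Mat K M) (B : Mat M N) (C : Mat K N) : ip (A * B) C = ip A (C * Bᴴ) := by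
  unfold ip
  rw [Matrix.conjTranspose_mul, Matrix.mul_assoc, Matrix.trace_mul_comm, Matrix.mul_assoc]

theorem ip_unitary_conj {a : Mat N N} (ha : aᴴ * a = 1) (ξ η : Mat N N) :
    ip (a * ξ * aᴴ) (a * η * aᴴ) = ip ξ η := by
  have h1 : aᴴ * (a * η * aᴴ) = η * aᴴ := by
    rw [← Matrix.mul_assoc, ← Matrix.mul_assoc, ha, Matrix.one_mul]
  rw [Matrix.mul_assoc a ξ, ip_mul_left, h1, ip_mul_right, Matrix.conjTranspose_conjTranspose,
    Matrix.mul_assoc, ha, Matrix.mul_one]

theorem ip_bracket {ξ η ζ : Mat N N} (h1 : ξᴴ = -ξ) (h2 : ηᴴ = -η) (h3 : ζᴴ = -ζ) :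
    ip (ξ * η - η * ξ) ζ = ip ξ (η * ζ - ζ * η) := by
  unfold ip
  rw [Matrix.conjTranspose_sub, Matrix.conjTranspose_mul, Matrix.conjTranspose_mul, h1, h2,
    Matrix.neg_mul, Matrix.mul_neg, neg_neg, Matrix.neg_mul, Matrix.mul_neg, neg_neg,
    Matrix.sub_mul, Matrix.neg_mul, Matrix.mul_sub, Matrix.trace_sub, Matrix.trace_neg,
    Matrix.trace_sub]
  have h4 : (ξ * (ζ * η)).trace = (η * ξ * ζ).trace := by
    rw [← Matrix.mul_assoc, Matrix.trace_mul_comm, Matrix.mul_assoc]
  rw [h4, Matrix.mul_assoc ξ η ζ]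
  simp only [Complex.sub_re, Complex.neg_re]
  ring

end Pool.Agent.W_9986fc_G
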