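import Pool.Agent.W_9986fc_G.Ip

/-!
# Facts on `IsCompactGroup`

* `exp_conj_unitary`: `exp (a ξ a*) = a exp ξ a*` for `a* a = 1` (`Matrix.exp_conj` / `exp_units_conj`).
* `skewHerm`: `exp (t ξ)* exp (t ξ) = 1` for all `t`; the derivative at 0 is `ξ* + ξ = 0`
  (`Matrix.exp_conjTranspose`).  For derivatives of `exp` on matrices use a local norm
  (`open scoped Matrix.Norms.Operator` or `Matrix.linftyOpNormedRing` instances; the topology is the same) or
  entries.
* `ad_mem`: from `lie` and `exp_conj_unitary`.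
* `bracket_mem`: `exp (t ξ) η exp (t ξ)* ∈ g` for all `t`; `g` is a subspace of a finite dimensional space, so it is
  closed, and the derivative at `t = 0`, `ξ η - η ξ`, is in `g`.
-/

set_option autoImplicit false

open scoped Matrix RealInnerProductSpace

namespace Pool.Agent.W_9986fc_G

variable {N : ℕ}

theorem exp_conj_unitary {a : Mat N N} (ha : aᴴ * a = 1) (ξ : Mat N N) :
    NormedSpace.exp (a * ξ * aᴴ) = a * NormedSpace.exp ξ * aᴴ := by
  have h1 : a * aᴴ = 1 := mul_eq_one_comm.1 ha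
  have h2 : a⁻¹ = aᴴ := Matrix.inv_eq_right_inv h1
  rw [← h2]
  exact Matrix.exp_conj a ξ ⟨⟨a, aᴴ, h1, ha⟩, rfl⟩

open scoped Matrix.Norms.Operator

theorem IpG_deriv (ξ : Mat N N) :
    HasDerivAt (fun t : ℝ => NormedSpace.exp (t • ξ)) ξ 0 := by
  have h := hasDerivAt_exp_smul_const (𝕂 := ℝ) ξ (0 : ℝ)
  rwa [zero_smul, NormedSpace.exp_zero, one_mul] at h

variable {G : Set (Mat N N)} {g : Submodule ℝ (Mat N N)}

theorem IsCompactGroup.mul_conj (hG : IsCompactGroup G g) {a : Mat N N} (ha : a ∈ G) :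
    a * aᴴ = 1 := by
  exact mul_eq_one_comm.1 (hG.unitary a ha)

theorem IsCompactGroup.skewHerm (hG : IsCompactGroup G g) {ξ : Mat N N} (h : ξ ∈ g) :
    ξᴴ = -ξ := by
  have h1 : ∀ t : ℝ, NormedSpace.exp (t • ξᴴ) * NormedSpace.exp (t • ξ) = 1 := by
    intro t
    have h2 := hG.unitary _ ((hG.lie ξ).1 h t)
    rwa [← Matrix.exp_conjTranspose, Matrix.conjTranspose_smul, star_trivial] at h2
  have h3 := (IpG_deriv ξᴴ).mul (IpG_deriv ξ)
  have h4 : ((fun t : ℝ => NormedSpace.exp (t • ξᴴ)) * fun t : ℝ => NormedSpace.exp (t • ξ)) =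
      fun _ => (1 : Mat N N) := funext h1
  rw [h4] at h3
  have h5 := h3.unique (hasDerivAt_const (0 : ℝ) (1 : Mat N N))
  rw [zero_smul, zero_smul, NormedSpace.exp_zero, mul_one, one_mul] at h5
  exact eq_neg_of_add_eq_zero_left h5

theorem IsCompactGroup.ad_mem (hG : IsCompactGroup G g) {a ξ : Mat N N} (ha : a ∈ G)
    (h : ξ ∈ g) : a * ξ * aᴴ ∈ g := by
  refine (hG.lie _).2 fun t => ?_
  have h1 : t • (a * ξ * aᴴ) = a * (t • ξ) * aᴴ := by
    rw [mul_smul_comm, smul_mul_assoc]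
  rw [h1, exp_conj_unitary (hG.unitary a ha)]
  exact hG.mul _ (hG.mul _ ha _ ((hG.lie ξ).1 h t)) _ (hG.inv a ha)

theorem IsCompactGroup.bracket_mem (hG : IsCompactGroup G g) {ξ η : Mat N N} (h : ξ ∈ g)
    (h' : η ∈ g) : ξ * η - η * ξ ∈ g := by
  have h1 : ∀ t : ℝ, NormedSpace.exp (t • ξ) * η * NormedSpace.exp (t • (-ξ)) ∈ g := by
    intro t
    have h2 := hG.ad_mem ((hG.lie ξ).1 h t) h'
    rwa [← Matrix.exp_conjTranspose, Matrix.conjTranspose_smul, star_trivial,
      hG.skewHerm h] at h2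
  have h3 := ((IpG_deriv ξ).mul (hasDerivAt_const (0 : ℝ) η)).mul (IpG_deriv (-ξ))
  have h4 : HasDerivAt (fun t : ℝ => NormedSpace.exp (t • ξ) * η * NormedSpace.exp (t • (-ξ)))
      (ξ * η - η * ξ) 0 := by
    simp only [Pi.mul_apply, zero_smul, NormedSpace.exp_zero, mul_zero, add_zero, mul_one, one_mul,
      mul_neg, ← sub_eq_add_neg] at h3
    exact h3
  have h5 : IsClosed (g : Set (Mat N N)) := g.closed_of_finiteDimensional
  refine h5.mem_of_tendsto (hasDerivAt_iff_tendsto_slope.1 h4) (Filter.Eventually.of_forall ?_)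
  intro t
  exact g.smul_mem _ (g.sub_mem (h1 t) (h1 0))

end Pool.Agent.W_9986fc_G
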