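import Pool.Agent.W_9986fc_G.Integ

/-!
# The integral in a chart

`h` is continuous with `tsupport h ⊆ src c` and `X` is compact: `y ↦ h (inv c y)` vanishes outside the compact
set `K = φ_c (tsupport h) ⊆ dom c`.
* `Emat_det_ne`: `e b (inv c y)` is a basis and `dChart c y` is injective (`dI_dChart`), so the columns of `Emat` are
  linearly independent.  `contDiffOn_Emat`: `he.smooth`.
* `Jc_integrable`: the integrand is continuous on `dom c`, zero outside `K`, bounded.
* `Jc_add`, `Jc_smul`: linearity of the integral.  `Jc_nonneg`.  `Jc_pos`: the integrand is continuous,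
  nonnegative, and positive at `φ_c x₀`.
-/

set_option autoImplicit false

open scoped Manifold ContDiff
open MeasureTheory

namespace Pool.Agent.W_9986fc_G

open Pool.Agent.W_MP_d8b8b7_S

universe u

variable {X : Type u} [TopologicalSpace X] [ChartedSpace E4 X] [IsManifold I4 ∞ X]
  {e : Fin 4 → ∀ x : X, T x}

theorem contDiffOn_Emat (he : IsParallelization e) (c : X) (a b : Fin 4) :
    ContDiffOn ℝ ∞ (fun y : EE => Emat e c y a b) (dom c) := by
  have h1 : ContDiffOn ℝ ∞ (fun y : EE => (show EE from dChart c y (e b (inv c y)))) (dom c) :=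
    he.smooth b c
  exact (EuclideanSpace.proj a : EE →L[ℝ] ℝ).contDiff.comp_contDiffOn h1

theorem Emat_det_ne (he : IsParallelization e) (c : X) {y : EE} (hy : y ∈ dom c) :
    (Emat e c y).det ≠ 0 := by
  intro h0
  obtain ⟨v, hv, hMv⟩ := Matrix.exists_mulVec_eq_zero_iff.2 h0
  apply hv
  have h1 : (show EE from dChart c y (∑ b, v b • e b (inv c y))) = 0 := by
    ext a
    have h2 := congrFun hMv a
    have h3 : (show EE from dChart c y (∑ b, v b • e b (inv c y))) =
        ∑ b, v b • (show EE from dChart c y (e b (inv c y))) := by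
      have h4 := map_sum (dChart c y) (fun b => v b • e b (inv c y)) Finset.univ
      refine Eq.trans h4 (Finset.sum_congr rfl fun b _ => ?_)
      exact (dChart c y).map_smul (v b) (e b (inv c y))
    rw [h3]
    have h5 : (∑ b, v b • (show EE from dChart c y (e b (inv c y)))) a =
        ∑ b, v b * (show EE from dChart c y (e b (inv c y))) a := by
      simp
    rw [h5]
    have h6 : (Matrix.mulVec (Emat e c y) v) a =
        ∑ b, (show EE from dChart c y (e b (inv c y))) a * v b := rfl
    rw [h6] at h2
    rw [PiLp.zero_apply]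
    rw [Pi.zero_apply] at h2
    rw [← h2]
    exact Finset.sum_congr rfl fun b _ => mul_comm _ _
  have h7 : (∑ b, v b • e b (inv c y)) = (0 : T (inv c y)) := by
    have h8 := dI_dChart c hy (∑ b, v b • e b (inv c y))
    rw [← h8, h1]
    exact (dI c y).map_zero
  have h9 := Fintype.linearIndependent_iff.1 (he.indep (inv c y)) v h7
  funext b
  exact h9 b

omit [IsManifold I4 ∞ X] in
theorem JcA_src_mem {c x : X} (hx : x ∈ src c) : (show EE from extChartAt I4 c x) ∈ dom c :=
  (extChartAt I4 c).map_source hx

omit [IsManifold I4 ∞ X] in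
theorem JcA_inv_src {c x : X} (hx : x ∈ src c) :
    inv c (show EE from extChartAt I4 c x) = x :=
  (extChartAt I4 c).left_inv hx

omit [IsManifold I4 ∞ X] in
theorem JcA_right {c : X} {y : EE} (hy : y ∈ dom c) :
    (show EE from extChartAt I4 c (inv c y)) = y :=
  (extChartAt I4 c).right_inv hy

/-- the integrand is continuous in the domain of the chart -/
theorem JcA_cont (he : IsParallelization e) {c : X} {h : X → ℝ} (hh : Continuous h) :
    ContinuousOn (fun y : EE => h (inv c y) / |(Emat e c y).det|) (dom c) := by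
  have h1 : ContinuousOn (fun y : EE => h (inv c y)) (dom c) :=
    hh.comp_continuousOn (continuousOn_inv c)
  have h2 : ContinuousOn (fun y : EE => Emat e c y) (dom c) := by
    refine continuousOn_pi.2 fun a => continuousOn_pi.2 fun b => ?_
    exact (contDiffOn_Emat he c a b).continuousOn
  have h3 : ContinuousOn (fun y : EE => (Emat e c y).det) (dom c) := by
    have h4 : Continuous (fun A : Matrix (Fin 4) (Fin 4) ℝ => A.det) :=
      Continuous.matrix_det continuous_id
    exact h4.comp_continuousOn h2
  exact h1.div h3.abs fun y hy => abs_ne_zero.2 (Emat_det_ne he c hy)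

/-- the compact set in the chart -/
theorem JcA_compact [CompactSpace X] [T2Space X] {c : X} {h : X → ℝ}
    (hs : tsupport h ⊆ src c) :
    ∃ K : Set EE, IsCompact K ∧ K ⊆ (show Set EE from dom c) ∧
      ∀ y : EE, y ∈ dom c → y ∉ K → h (inv c y) = 0 := by
  have h1 : IsCompact (tsupport h) := (isClosed_tsupport h).isCompact
  have h2 : ContinuousOn (fun x : X => (show EE from extChartAt I4 c x)) (tsupport h) :=
    (continuousOn_extChartAt (I := I4) c).mono hs
  refine ⟨(fun x : X => (show EE from extChartAt I4 c x)) '' tsupport h, h1.image_of_continuousOn h2,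
    ?_, ?_⟩
  · rintro _ ⟨x, hx, rfl⟩
    exact JcA_src_mem (hs hx)
  · intro y hy hyK
    by_contra hne
    apply hyK
    refine ⟨inv c y, subset_tsupport h hne, ?_⟩
    exact JcA_right hy

theorem Jc_integrable [CompactSpace X] [T2Space X] (he : IsParallelization e) {c : X} {h : X → ℝ}
    (hh : Continuous h) (hs : tsupport h ⊆ src c) :
    IntegrableOn (fun y : EE => h (inv c y) / |(Emat e c y).det|) (show Set EE from dom c) := by
  obtain ⟨K, hK, hKd, h0⟩ := JcA_compact (c := c) (h := h) hs
  have h1 : IntegrableOn (fun y : EE => h (inv c y) / |(Emat e c y).det|) K :=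
    ContinuousOn.integrableOn_compact hK ((JcA_cont he hh).mono hKd)
  have h2 : @IsOpen EE _ (show Set EE from dom c) := isOpen_dom c
  refine h1.of_forall_sdiff_eq_zero h2.measurableSet ?_
  intro y hy
  rw [h0 y hy.1 hy.2, zero_div]

theorem Jc_add [CompactSpace X] [T2Space X] (he : IsParallelization e) {c : X} {h k : X → ℝ}
    (hh : Continuous h) (hs : tsupport h ⊆ src c) (hk : Continuous k) (hs' : tsupport k ⊆ src c) :
    Jc e c (fun x => h x + k x) = Jc e c h + Jc e c k := by
  have h1 := Jc_integrable he hh hs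
  have h2 := Jc_integrable he hk hs'
  have h3 := integral_add h1 h2
  unfold Jc
  rw [← h3]
  congr 1
  funext y
  exact add_div _ _ _

theorem Jc_smul (c : X) (a : ℝ) (h : X → ℝ) : Jc e c (fun x => a * h x) = a * Jc e c h := by
  unfold Jc
  rw [← integral_const_mul]
  congr 1
  funext y
  exact mul_div_assoc _ _ _

theorem Jc_nonneg (c : X) {h : X → ℝ} (h0 : ∀ x, 0 ≤ h x) : 0 ≤ Jc e c h := by
  exact integral_nonneg fun y => div_nonneg (h0 _) (abs_nonneg _)

theorem Jc_pos [CompactSpace X] [T2Space X] (he : IsParallelization e) {c : X} {h : X → ℝ}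
    (hh : Continuous h) (hs : tsupport h ⊆ src c) (h0 : ∀ x, 0 ≤ h x) {x₀ : X} (h1 : 0 < h x₀) :
    0 < Jc e c h := by
  have hx : x₀ ∈ src c := hs (subset_tsupport h h1.ne')
  have h2 : 0 ≤ᵐ[volume.restrict (show Set EE from dom c)]
      fun y : EE => h (inv c y) / |(Emat e c y).det| :=
    Filter.Eventually.of_forall fun y => div_nonneg (h0 _) (abs_nonneg _)
  unfold Jc
  rw [setIntegral_pos_iff_support_of_nonneg_ae h2 (Jc_integrable he hh hs)]
  have h3 := (JcA_cont (c := c) he hh).isOpen_inter_preimage (isOpen_dom c) (isOpen_Ioi (a := (0 : ℝ)))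
  have h4 : (show EE from extChartAt I4 c x₀) ∈ ((show Set EE from dom c) ∩
      (fun y : EE => h (inv c y) / |(Emat e c y).det|) ⁻¹' Set.Ioi 0) := by
    refine ⟨JcA_src_mem hx, ?_⟩
    show 0 < h (inv c (show EE from extChartAt I4 c x₀)) / _
    rw [JcA_inv_src hx]
    exact div_pos h1 (abs_pos.2 (Emat_det_ne he c (JcA_src_mem hx)))
  refine lt_of_lt_of_le (h3.measure_pos volume ⟨_, h4⟩) (measure_mono ?_)
  rintro y ⟨hy1, hy2⟩
  exact ⟨ne_of_gt hy2, hy1⟩

end Pool.Agent.W_9986fc_G
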