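import Pool.Agent.W_9986fc_G.JcA

/-!
# Change of charts

`Jc_change`: `τ = φ_c' ∘ inv c` is a diffeomorphism from `A = {y ∈ dom c | inv c y ∈ src c'}` onto
`A' = {y' ∈ dom c' | inv c' y' ∈ src c}`, `inv c' (τ y) = inv c y`, `Emat c' (τ y) = Dτ(y) * Emat c y`
(`dChart c' (τ y) v = Dτ(y) (dChart c y v)`, chain rule, `dI_dChart`), and both
integrands vanish outside `A`, `A'`: `MeasureTheory.integral_image_eq_integral_abs_det_fderiv_smul`
(`|det (Emat c' (τ y))| = |det Dτ(y)| |det (Emat c y)|`).  (`Pool.Agent.W_MP_d8b8b7_G1.ChartChange`, `Volume`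
have similar arguments.)
-/

set_option autoImplicit false

open scoped Manifold ContDiff
open MeasureTheory

namespace Pool.Agent.W_9986fc_G

open Pool.Agent.W_MP_d8b8b7_S

universe u

variable {X : Type u} [TopologicalSpace X] [ChartedSpace E4 X] [IsManifold I4 ∞ X]
  {e : Fin 4 → ∀ x : X, T x}

/-- The components of the frame in the chart at `c`, as a function on `X`. -/
noncomputable def JcB_mat (e : Fin 4 → ∀ x : X, T x) (c : X) (x : X) : Matrix (Fin 4) (Fin 4) ℝ :=
  Matrix.of fun a b => (show EE from (mfderiv I4 I4 (extChartAt I4 c) x :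
    TangentSpace I4 x →L[ℝ] E4) (e b x)) a

omit [IsManifold I4 ∞ X] in
theorem JcB_emat (e : Fin 4 → ∀ x : X, T x) (c : X) (y : EE) :
    Emat e c y = JcB_mat e c (inv c y) := rfl

/-- The change of charts. -/
noncomputable def JcB_tau (c c' : X) (y : EE) : EE := (extChartAt I4 c') (inv c y)

/-- Its derivative. -/
noncomputable def JcB_D (c c' : X) (y : EE) : EE →L[ℝ] EE :=
  (show EE →L[ℝ] EE from (mfderiv I4 I4 (extChartAt I4 c') (inv c y) :
    TangentSpace I4 (inv c y) →L[ℝ] E4)).comp (dI c y)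

omit [IsManifold I4 ∞ X] in
theorem JcB_isOpen_src (c : X) : IsOpen (src c) := isOpen_extChartAt_source c

theorem JcB_hasFDerivAt (c c' : X) {y : EE} (hy : y ∈ dom c) (hy' : inv c y ∈ src c') :
    HasFDerivAt (JcB_tau c c') (JcB_D c c' y) y := by
  have hM : IsManifold I4 1 X := IsManifold.of_le (n := ∞) (by norm_cast)
  have h1 : MDifferentiableAt 𝓘(ℝ, E4) I4 (extChartAt I4 c).symm y := RDer_mdsymm c hy
  have h2 : MDifferentiableAt I4 𝓘(ℝ, E4) (extChartAt I4 c') (inv c y) := by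
    have h := mdifferentiableAt_extChartAt (I := I4) (x := c') (y := inv c y)
      (by simpa [src, extChartAt_source] using hy')
    exact h
  have h3 := HasMFDerivAt.comp (M := E4) (I := 𝓘(ℝ, E4)) (I' := I4) (I'' := 𝓘(ℝ, E4)) y
    h2.hasMFDerivAt h1.hasMFDerivAt
  have h4 : HasMFDerivAt 𝓘(ℝ, E4) 𝓘(ℝ, E4) (fun z : E4 => (show E4 from JcB_tau c c' z)) y
      (show E4 →L[ℝ] E4 from JcB_D c c' y) := h3
  exact hasMFDerivAt_iff_hasFDerivAt.1 h4

omit [IsManifold I4 ∞ X] in
theorem JcB_inv_tau (c c' : X) {y : EE} (hy' : inv c y ∈ src c') :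
    inv c' (JcB_tau c c' y) = inv c y := (extChartAt I4 c').left_inv hy'

omit [IsManifold I4 ∞ X] in
theorem JcB_tau_mem (c c' : X) {y : EE} (hy' : inv c y ∈ src c') :
    JcB_tau c c' y ∈ dom c' := (extChartAt I4 c').map_source hy'

omit [IsManifold I4 ∞ X] in
theorem JcB_inv_mem (c : X) {y : EE} (hy : y ∈ dom c) : inv c y ∈ src c :=
  (extChartAt I4 c).map_target hy

omit [IsManifold I4 ∞ X] in
theorem JcB_tau_inv (c : X) {y : EE} (hy : y ∈ dom c) : JcB_tau c c y = y :=
  (extChartAt I4 c).right_inv hy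

omit [IsManifold I4 ∞ X] in
theorem JcB_image (c c' : X) : JcB_tau c c' '' {y : EE | y ∈ dom c ∧ inv c y ∈ src c'} =
    {y : EE | y ∈ dom c' ∧ inv c' y ∈ src c} := by
  ext z
  constructor
  · rintro ⟨y, ⟨hy, hy'⟩, rfl⟩
    refine ⟨JcB_tau_mem c c' hy', ?_⟩
    rw [JcB_inv_tau c c' hy']
    exact JcB_inv_mem c hy
  · rintro ⟨hz, hz'⟩
    refine ⟨JcB_tau c' c z, ⟨JcB_tau_mem c' c hz', ?_⟩, ?_⟩
    · rw [JcB_inv_tau c' c hz']
      exact JcB_inv_mem c' hz
    · have h1 : JcB_tau c c' (JcB_tau c' c z) = (extChartAt I4 c') (inv c (JcB_tau c' c z)) := rfl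
      rw [h1, JcB_inv_tau c' c hz']
      exact JcB_tau_inv c' hz

omit [IsManifold I4 ∞ X] in
theorem JcB_injOn (c c' : X) :
    Set.InjOn (JcB_tau c c') {y : EE | y ∈ dom c ∧ inv c y ∈ src c'} := by
  rintro y ⟨hy, hy'⟩ z ⟨hz, hz'⟩ h
  have h1 : inv c y = inv c z := by
    rw [← JcB_inv_tau c c' hy', ← JcB_inv_tau c c' hz', h]
  have h2 : JcB_tau c c y = JcB_tau c c z := congrArg (extChartAt I4 c) h1
  rwa [JcB_tau_inv c hy, JcB_tau_inv c hz] at h2

/-- The matrices of the frame. -/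
theorem JcB_det (e : Fin 4 → ∀ x : X, T x) (c c' : X) {y : EE} (hy : y ∈ dom c)
    (hy' : inv c y ∈ src c') :
    (Emat e c' (JcB_tau c c' y)).det = (JcB_D c c' y).det * (Emat e c y).det := by
  have h0 : Emat e c' (JcB_tau c c' y) = JcB_mat e c' (inv c y) := by
    rw [JcB_emat, JcB_inv_tau c c' hy']
  set b := (EuclideanSpace.basisFun (Fin 4) ℝ).toBasis with hb
  have h1 : JcB_mat e c' (inv c y) =
      LinearMap.toMatrix b b (JcB_D c c' y : EE →ₗ[ℝ] EE) * Emat e c y := by
    apply Matrix.ext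
    intro i j
    have h2 : (show EE from (mfderiv I4 I4 (extChartAt I4 c') (inv c y) :
        TangentSpace I4 (inv c y) →L[ℝ] E4) (e j (inv c y))) =
        JcB_D c c' y (show EE from dChart c y (e j (inv c y))) := by
      have h3 := dI_dChart c hy (e j (inv c y))
      exact congrArg (fun v : T (inv c y) => (show EE from
        (mfderiv I4 I4 (extChartAt I4 c') (inv c y) :
          TangentSpace I4 (inv c y) →L[ℝ] E4) v)) h3.symm
    have h4 := LinearMap.toMatrix_mulVec_repr b b (JcB_D c c' y : EE →ₗ[ℝ] EE)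
      (show EE from dChart c y (e j (inv c y)))
    have h5 := congrFun h4 i
    rw [Matrix.mulVec, dotProduct] at h5
    rw [Matrix.mul_apply]
    exact (congrArg (fun v : EE => v i) h2).trans h5.symm
  rw [h0, h1, Matrix.det_mul, LinearMap.det_toMatrix]

/-- The range of the chart. -/
noncomputable def JcB_dom (c : X) : Set EE := dom c

omit [IsManifold I4 ∞ X] in
theorem JcB_dom_meas (c : X) : MeasurableSet (JcB_dom c) := by
  have h : IsOpen (JcB_dom c) := isOpen_dom c
  exact h.measurableSet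

omit [IsManifold I4 ∞ X] in
theorem JcB_jc (c : X) (h : X → ℝ) :
    Jc e c h = ∫ y in JcB_dom c, h (inv c y) / |(Emat e c y).det| := rfl

theorem Jc_change (he : IsParallelization e) {c c' : X} {h : X → ℝ}
    (hs : tsupport h ⊆ src c) (hs' : tsupport h ⊆ src c') : Jc e c h = Jc e c' h := by
  have hA : IsOpen {y : EE | y ∈ dom c ∧ inv c y ∈ src c'} := RDer_isOpen c (JcB_isOpen_src c')
  have hA' : IsOpen {y : EE | y ∈ dom c' ∧ inv c' y ∈ src c} := RDer_isOpen c' (JcB_isOpen_src c)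
  have h1 : Jc e c h = ∫ y in {y : EE | y ∈ dom c ∧ inv c y ∈ src c'},
      h (inv c y) / |(Emat e c y).det| := by
    rw [JcB_jc]
    refine setIntegral_eq_of_subset_of_forall_sdiff_eq_zero (JcB_dom_meas c)
      (fun y hy => hy.1) fun y hy => ?_
    have h2 : inv c y ∉ tsupport h := fun h3 => hy.2 ⟨hy.1, hs' h3⟩
    rw [image_eq_zero_of_notMem_tsupport h2, zero_div]
  have h1' : Jc e c' h = ∫ y in {y : EE | y ∈ dom c' ∧ inv c' y ∈ src c},
      h (inv c' y) / |(Emat e c' y).det| := by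
    rw [JcB_jc]
    refine setIntegral_eq_of_subset_of_forall_sdiff_eq_zero (JcB_dom_meas c')
      (fun y hy => hy.1) fun y hy => ?_
    have h2 : inv c' y ∉ tsupport h := fun h3 => hy.2 ⟨hy.1, hs h3⟩
    rw [image_eq_zero_of_notMem_tsupport h2, zero_div]
  rw [h1, h1', ← JcB_image c c', integral_image_eq_integral_abs_det_fderiv_smul volume
    hA.measurableSet (fun y hy => (JcB_hasFDerivAt c c' hy.1 hy.2).hasFDerivWithinAt)
    (JcB_injOn c c')]
  refine setIntegral_congr_fun hA.measurableSet fun y hy => ?_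
  have hdet := JcB_det e c c' hy.1 hy.2
  have hne : (Emat e c' (JcB_tau c c' y)).det ≠ 0 := Emat_det_ne he c' (JcB_tau_mem c c' hy.2)
  have hD : (JcB_D c c' y).det ≠ 0 := fun h0 => hne (by rw [hdet, h0, zero_mul])
  have hE : (Emat e c y).det ≠ 0 := Emat_det_ne he c hy.1
  change h (inv c y) / |(Emat e c y).det| = |(JcB_D c c' y).det| •
    (h (inv c' (JcB_tau c c' y)) / |(Emat e c' (JcB_tau c c' y)).det|)
  rw [JcB_inv_tau c c' hy.2, hdet, abs_mul, smul_eq_mul]
  have h3 : |(JcB_D c c' y).det| ≠ 0 := abs_ne_zero.2 hD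
  have h4 : |(Emat e c y).det| ≠ 0 := abs_ne_zero.2 hE
  field_simp

end Pool.Agent.W_9986fc_G
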