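import Pool.Agent.W_9986fc_G.Cht

/-!
# Derivatives of matrix functions

`dM_*`: linearity of the derivative and the product rule, entrywise (`mfderiv` of sums and products of
complex functions differentiable at `x`; `ContMDiffOn` on the open set `U` gives `MDifferentiableAt`;
conjugation is the continuous real linear map `Complex.conjCLE`).
-/

set_option autoImplicit false

open scoped Manifold ContDiff Matrix

namespace Pool.Agent.W_9986fc_G

open Pool.Agent.W_MP_d8b8b7_S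

universe u

variable {X : Type u} [TopologicalSpace X] [ChartedSpace E4 X] [IsManifold I4 ∞ X] {K N M : ℕ}

/-- The derivative of a complex function. -/
noncomputable def LiftD_d (f : X → ℂ) (x : X) : E4 →L[ℝ] ℂ := mfderiv I4 𝓘(ℝ, ℂ) f x

omit [IsManifold I4 ∞ X] in
theorem LiftD_d_eq {f : X → ℂ} {x : X} {f' : E4 →L[ℝ] ℂ} (h : HasMFDerivAt I4 𝓘(ℝ, ℂ) f x f') :
    LiftD_d f x = f' := h.mfderiv

omit [IsManifold I4 ∞ X] in
theorem LiftD_has {f : X → ℂ} {x : X} (h : MDifferentiableAt I4 𝓘(ℝ, ℂ) f x) :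
    HasMFDerivAt I4 𝓘(ℝ, ℂ) f x (LiftD_d f x) := h.hasMFDerivAt

omit [IsManifold I4 ∞ X] in
theorem LiftD_at {f : X → ℂ} {U : Set X} (hU : IsOpen U) (hf : ContMDiffOn I4 𝓘(ℝ, ℂ) ∞ f U) {x : X}
    (hx : x ∈ U) : MDifferentiableAt I4 𝓘(ℝ, ℂ) f x :=
  ((hf.contMDiffAt (hU.mem_nhds hx)).mdifferentiableAt (by simp))

omit [IsManifold I4 ∞ X] in
theorem LiftD_dM (s : X → Mat K N) (x : X) (v : T x) (i : Fin K) (j : Fin N) :
    dM s x v i j = LiftD_d (fun y => s y i j) x (show E4 from v) := rfl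

omit [IsManifold I4 ∞ X] in
theorem LiftD_mul {f g : X → ℂ} {x : X} (hf : MDifferentiableAt I4 𝓘(ℝ, ℂ) f x)
    (hg : MDifferentiableAt I4 𝓘(ℝ, ℂ) g x) (v : E4) :
    LiftD_d (f * g) x v = f x * LiftD_d g x v + g x * LiftD_d f x v := by
  rw [LiftD_d_eq (x := x) (HasMFDerivAt.mul (LiftD_has hf) (LiftD_has hg))]
  rfl

omit [IsManifold I4 ∞ X] in
theorem LiftD_sum {n : ℕ} {f : Fin n → X → ℂ} {x : X}
    (hf : ∀ l, MDifferentiableAt I4 𝓘(ℝ, ℂ) (f l) x) (v : E4) :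
    LiftD_d (∑ l, f l) x v = ∑ l, LiftD_d (f l) x v := by
  have h := HasMFDerivAt.sum (I := I4) (E' := ℂ) (z := x) (t := Finset.univ) (f := f)
    (f' := fun l => LiftD_d (f l) x) (fun l _ => LiftD_has (hf l))
  rw [LiftD_d_eq (x := x) h]
  have h2 : ∀ t : Finset (Fin n),
      (∑ l ∈ t, LiftD_d (f l) x : E4 →L[ℝ] ℂ) v = ∑ l ∈ t, LiftD_d (f l) x v := by
    intro t
    induction t using Finset.induction_on with
    | empty => rfl
    | insert a t ha ih =>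
      rw [Finset.sum_insert ha, Finset.sum_insert ha, ← ih]
      rfl
  exact h2 _

omit [IsManifold I4 ∞ X] in
theorem LiftD_conj {f : X → ℂ} {x : X} (hf : MDifferentiableAt I4 𝓘(ℝ, ℂ) f x) (v : E4) :
    LiftD_d (fun y => star (f y)) x v = star (LiftD_d f x v) := by
  have h1 : HasMFDerivAt 𝓘(ℝ, ℂ) 𝓘(ℝ, ℂ) (Complex.conjCLE : ℂ → ℂ) (f x)
      (Complex.conjCLE : ℂ →L[ℝ] ℂ) :=
    (Complex.conjCLE : ℂ →L[ℝ] ℂ).hasFDerivAt.hasMFDerivAt
  have h2 := HasMFDerivAt.comp x h1 (LiftD_has hf)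
  have h3 : (fun y => star (f y)) = (Complex.conjCLE : ℂ → ℂ) ∘ f := rfl
  rw [h3, LiftD_d_eq (x := x) h2]
  rfl

theorem dM_mul {s : X → Mat K N} {k : X → Mat N M} {U : Set X} (hU : IsOpen U)
    (hs : ∀ i j, ContMDiffOn I4 𝓘(ℝ, ℂ) ∞ (fun y => s y i j) U)
    (hk : ∀ i j, ContMDiffOn I4 𝓘(ℝ, ℂ) ∞ (fun y => k y i j) U) {x : X} (hx : x ∈ U) (v : T x) :
    dM (fun y => s y * k y) x v = dM s x v * k x + s x * dM k x v := by
  ext i j
  have h1 : (fun y => (s y * k y) i j) = ∑ l, ((fun y => s y i l) * fun y => k y l j) := by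
    funext y
    rw [Matrix.mul_apply, Finset.sum_apply]
    rfl
  have hs' : ∀ l, MDifferentiableAt I4 𝓘(ℝ, ℂ) (fun y => s y i l) x := fun l =>
    LiftD_at hU (hs i l) hx
  have hk' : ∀ l, MDifferentiableAt I4 𝓘(ℝ, ℂ) (fun y => k y l j) x := fun l =>
    LiftD_at hU (hk l j) hx
  rw [LiftD_dM, h1, LiftD_sum (fun l => (hs' l).mul (hk' l)), Matrix.add_apply, Matrix.mul_apply,
    Matrix.mul_apply, ← Finset.sum_add_distrib]
  refine Finset.sum_congr rfl fun l _ => ?_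
  rw [LiftD_mul (hs' l) (hk' l), LiftD_dM, LiftD_dM]
  ring

theorem dM_conjTranspose {s : X → Mat K N} {U : Set X} (hU : IsOpen U)
    (hs : ∀ i j, ContMDiffOn I4 𝓘(ℝ, ℂ) ∞ (fun y => s y i j) U) {x : X} (hx : x ∈ U) (v : T x) :
    dM (fun y => (s y)ᴴ) x v = (dM s x v)ᴴ := by
  ext i j
  rw [LiftD_dM, Matrix.conjTranspose_apply, LiftD_dM]
  exact LiftD_conj (LiftD_at hU (hs j i) hx) _

theorem dM_add (s : X → Mat K N) (x : X) (v w : T x) :
    dM s x (v + w) = dM s x v + dM s x w := by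
  ext i j
  rw [Matrix.add_apply, LiftD_dM, LiftD_dM, LiftD_dM]
  exact map_add (LiftD_d (fun y => s y i j) x) (show E4 from v) (show E4 from w)

theorem dM_smul (s : X → Mat K N) (x : X) (c : ℝ) (v : T x) :
    dM s x (c • v) = c • dM s x v := by
  ext i j
  rw [Matrix.smul_apply, LiftD_dM, LiftD_dM]
  exact map_smul (LiftD_d (fun y => s y i j) x) c (show E4 from v)

theorem dM_mul_const {s : X → Mat K N} {U : Set X} (hU : IsOpen U)
    (hs : ∀ i j, ContMDiffOn I4 𝓘(ℝ, ℂ) ∞ (fun y => s y i j) U) (a : Mat N M) {x : X} (hx : x ∈ U)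
    (v : T x) : dM (fun y => s y * a) x v = dM s x v * a := by
  have h := dM_mul hU hs (k := fun _ => a) (fun i j => contMDiffOn_const) hx v
  rw [h]
  have h0 : dM (fun _ : X => a) x v = 0 := by
    ext i j
    rw [LiftD_dM, LiftD_d_eq (x := x) (hasMFDerivAt_const (I := I4) (I' := 𝓘(ℝ, ℂ)) (a i j) x)]
    rfl
  rw [h0, Matrix.mul_zero, add_zero]

end Pool.Agent.W_9986fc_G
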