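import Pool.Agent.W_9986fc_G.IpG

/-!
# Tangent vectors of the closed group `G` at `1` lie in `g`

Let `k : ℝ → Mat N N`, `k t ∈ G` for `t` near 0, `k 0 = 1`, `k' 0 = D`.  By `lie` we must show
`exp (s D) ∈ G` for every `s`.  `G` is closed and `k (s/n) ^ n ∈ G` for large `n`; so it suffices that
`k (s/n) ^ n → exp (s D)`.  With a norm in which unitary matrices have norm `≤ 1` (the operator norm of
`Matrix.Norms.L2Operator`, or `toEuclideanLin`) and `E = exp (s D / n)`, `E ^ n = exp (s D)`: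
`k^n - E^n = ∑_{i < n} k^i (k - E) E^(n-1-i)` (`Commute` is not available; telescoping) so
`‖k^n - E^n‖ ≤ n ‖k (s/n) - E‖ * max 1 ‖E‖^n`, `‖E‖^n ≤ exp (|s| ‖D‖)`, and
`n ‖k (s/n) - exp (s D / n)‖ → 0` because both have the same value and derivative at 0.
(With any norm: `‖k (s/n)‖ ≤ 1 + C/n`, so `‖k (s/n)‖^i ≤ exp C`.)
-/

set_option autoImplicit false

open scoped Matrix Topology

namespace Pool.Agent.W_9986fc_G

theorem Tang_pow_sub_le {A : Type*} [NormedRing A] (h1 : ‖(1 : A)‖ ≤ 1) {a b : A} {M : ℝ}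
    (hM : 1 ≤ M) (ha : ‖a‖ ≤ M) (hb : ‖b‖ ≤ M) (n : ℕ) :
    ‖a ^ n - b ^ n‖ ≤ n * ‖a - b‖ * M ^ n := by
  have hM0 : 0 ≤ M := by linarith
  have hpow : ∀ m : ℕ, ‖a ^ m‖ ≤ M ^ m := by
    intro m
    induction m with
    | zero => simpa using h1
    | succ m ih =>
      rw [pow_succ, pow_succ]
      exact (norm_mul_le _ _).trans (mul_le_mul ih ha (norm_nonneg _) (by positivity))
  induction n with
  | zero => simp
  | succ n ih =>
    have e : a ^ (n + 1) - b ^ (n + 1) = a ^ n * (a - b) + (a ^ n - b ^ n) * b := by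
      rw [pow_succ, pow_succ]; noncomm_ring
    have h2 : ‖a ^ n * (a - b)‖ ≤ M ^ (n + 1) * ‖a - b‖ :=
      (norm_mul_le _ _).trans (mul_le_mul_of_nonneg_right
        ((hpow n).trans (pow_le_pow_right₀ hM (Nat.le_succ n))) (norm_nonneg _))
    have h3 : ‖(a ^ n - b ^ n) * b‖ ≤ (n * ‖a - b‖ * M ^ n) * M :=
      (norm_mul_le _ _).trans (mul_le_mul ih hb (norm_nonneg _) (by positivity))
    rw [e]
    refine (norm_add_le _ _).trans ?_
    push_cast
    calc ‖a ^ n * (a - b)‖ + ‖(a ^ n - b ^ n) * b‖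
        ≤ M ^ (n + 1) * ‖a - b‖ + (n * ‖a - b‖ * M ^ n) * M := add_le_add h2 h3
      _ = (n + 1) * ‖a - b‖ * M ^ (n + 1) := by ring

theorem Tang_norm_le {A : Type*} [NormedRing A] [NormedAlgebra ℝ A] (h1 : ‖(1 : A)‖ ≤ 1)
    {k : ℝ → A} {D : A} (h0 : k 0 = 1) (hD : HasDerivAt k D 0) :
    ∀ᶠ t in 𝓝 (0 : ℝ), ‖k t‖ ≤ 1 + (‖D‖ + 1) * |t| := by
  have h := hD.isLittleO.def (c := 1) one_pos
  filter_upwards [h] with t ht
  rw [h0, sub_zero, one_mul, Real.norm_eq_abs] at ht
  have e : k t = (k t - 1 - t • D) + 1 + t • D := by abel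
  calc ‖k t‖ = ‖(k t - 1 - t • D) + 1 + t • D‖ := by rw [← e]
    _ ≤ ‖k t - 1 - t • D‖ + ‖(1 : A)‖ + ‖t • D‖ := norm_add₃_le
    _ ≤ |t| + 1 + |t| * ‖D‖ := by
        rw [norm_smul, Real.norm_eq_abs]
        gcongr
    _ = 1 + (‖D‖ + 1) * |t| := by ring

theorem Tang_pow_tendsto {A : Type*} [NormedRing A] [NormedAlgebra ℝ A] [CompleteSpace A]
    (h1 : ‖(1 : A)‖ ≤ 1) {k : ℝ → A} {D : A} (h0 : k 0 = 1) (hD : HasDerivAt k D 0) (s : ℝ) :
    Filter.Tendsto (fun n : ℕ => k (s / n) ^ n) Filter.atTop (𝓝 (NormedSpace.exp (s • D))) := by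
  have hE : HasDerivAt (fun t : ℝ => NormedSpace.exp (t • D)) D 0 := by
    have := hasDerivAt_exp_smul_const (𝕂 := ℝ) D (0 : ℝ)
    simpa using this
  have hE0 : (fun t : ℝ => NormedSpace.exp (t • D)) 0 = 1 := by simp
  have hs : Filter.Tendsto (fun n : ℕ => s / (n : ℝ)) Filter.atTop (𝓝 0) :=
    tendsto_const_div_atTop_nhds_zero_nat s
  have hk := hs.eventually (Tang_norm_le h1 h0 hD)
  have hk' := hs.eventually (Tang_norm_le h1 hE0 hE)
  have hlo := (hD.sub hE).isLittleO
  simp only [Pi.sub_apply, sub_self, smul_zero, sub_zero, h0, zero_smul, NormedSpace.exp_zero] at hlo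
  have hlo2 := hlo.comp_tendsto hs
  rw [tendsto_iff_norm_sub_tendsto_zero]
  set C : ℝ := (‖D‖ + 1) * |s| with hC
  have hC0 : 0 ≤ C := by positivity
  have hlim : Filter.Tendsto (fun n : ℕ => (n : ℝ) *
      ‖k (s / n) - NormedSpace.exp ((s / n) • D)‖ * Real.exp C) Filter.atTop (𝓝 0) := by
    have h5 : Filter.Tendsto (fun n : ℕ => (n : ℝ) *
      ‖k (s / n) - NormedSpace.exp ((s / n) • D)‖) Filter.atTop (𝓝 0) := by
      rw [Metric.tendsto_nhds]
      intro ε hε
      have h6 := hlo2.def (c := ε / (|s| + 1)) (by positivity)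
      filter_upwards [h6, Filter.eventually_gt_atTop 0] with n hn hn0
      have hn0' : (0 : ℝ) < n := by exact_mod_cast hn0
      simp only [Function.comp_apply, Real.norm_eq_abs] at hn
      rw [Real.dist_eq, sub_zero, abs_of_nonneg (by positivity)]
      rw [abs_div, abs_of_pos hn0'] at hn
      calc (n : ℝ) * ‖k (s / n) - NormedSpace.exp ((s / n) • D)‖
          ≤ n * (ε / (|s| + 1) * (|s| / n)) := by gcongr
        _ = ε * (|s| / (|s| + 1)) := by field_simp
        _ < ε * 1 := by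
            apply mul_lt_mul_of_pos_left _ hε
            rw [div_lt_one (by positivity)]
            linarith
        _ = ε := mul_one ε
    simpa using h5.mul_const (Real.exp C)
  refine squeeze_zero' (Filter.Eventually.of_forall fun n => norm_nonneg _) ?_ hlim
  filter_upwards [hk, hk', Filter.eventually_gt_atTop 0] with n hn hn' hn0
  have hn0' : (0 : ℝ) < n := by exact_mod_cast hn0
  have hM : (1 : ℝ) ≤ 1 + C / n := by
    have : 0 ≤ C / n := by positivity
    linarith
  have e1 : (‖D‖ + 1) * |s / (n : ℝ)| = C / n := by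
    rw [abs_div, abs_of_pos hn0', hC]; ring
  rw [e1] at hn hn'
  have hE : NormedSpace.exp (s • D) = NormedSpace.exp ((s / (n : ℝ)) • D) ^ n := by
    let _ : NormedAlgebra ℚ A := NormedAlgebra.restrictScalars ℚ ℝ A
    rw [← NormedSpace.exp_nsmul]
    congr 1
    rw [← Nat.cast_smul_eq_nsmul ℝ, smul_smul]
    congr 1
    field_simp
  rw [hE]
  refine (Tang_pow_sub_le h1 hM hn hn' n).trans ?_
  have h7 : (1 + C / n) ^ n ≤ Real.exp C := by
    calc (1 + C / n) ^ n ≤ (Real.exp (C / n)) ^ n := by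
          apply pow_le_pow_left₀ (by linarith)
          have := Real.add_one_le_exp (C / n)
          linarith
      _ = Real.exp C := by
          rw [← Real.exp_nat_mul]
          congr 1
          field_simp
  gcongr

variable {N : ℕ} {G : Set (Mat N N)} {g : Submodule ℝ (Mat N N)}

theorem IsCompactGroup.tangent_mem (hG : IsCompactGroup G g) {k : ℝ → Mat N N} {D : Mat N N}
    (hk : ∀ᶠ t in 𝓝 (0 : ℝ), k t ∈ G) (h1 : k 0 = 1)
    (hD : ∀ i j, HasDerivAt (fun t => k t i j) (D i j) 0) : D ∈ g := by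
  let _ : NormedRing (Mat N N) := Matrix.linftyOpNormedRing
  let _ : NormedAlgebra ℝ (Mat N N) := Matrix.linftyOpNormedAlgebra
  have h1' : ‖(1 : Mat N N)‖ ≤ 1 := by
    rcases Nat.eq_zero_or_pos N with rfl | hN
    · have : (1 : Mat 0 0) = 0 := Subsingleton.elim _ _
      rw [this, norm_zero]
      exact zero_le_one
    · haveI : Nonempty (Fin N) := ⟨⟨0, hN⟩⟩
      have : NormOneClass (Mat N N) := Matrix.linfty_opNormOneClass
      exact norm_one.le
  have hDer : HasDerivAt k D 0 := by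
    have h2 : ∀ i, HasDerivAt (fun t => k t i) (D i) 0 := fun i => hasDerivAt_pi.2 (hD i)
    exact hasDerivAt_pi.2 h2
  rw [hG.lie]
  intro s
  refine hG.closed.mem_of_tendsto (Tang_pow_tendsto h1' h1 hDer s) ?_
  have hs : Filter.Tendsto (fun n : ℕ => s / (n : ℝ)) Filter.atTop (𝓝 0) :=
    tendsto_const_div_atTop_nhds_zero_nat s
  filter_upwards [hs.eventually hk] with n hn
  have : ∀ m : ℕ, k (s / n) ^ m ∈ G := by
    intro m
    induction m with
    | zero => rw [pow_zero]; exact hG.one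
    | succ m ih => rw [pow_succ]; exact hG.mul _ ih _ hn
  exact this n

end Pool.Agent.W_9986fc_G
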