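import Pool.Agent.W_9986fc_G.IpM
import Pool.Agent.W_9986fc_G.Tang
import Pool.Agent.W_9986fc_G.LiftD

/-!
# Sections; uniqueness of horizontal lifts

* `section_diff`: on `U ∩ U'`, `s' y = s y * k y` with `k y = (s y)* s' y ∈ G` (`fibre`, `iso`).  `k x = 1`.  For a
  tangent vector `v` take the curve `γ t = inv x (φ x + t v)` (chart at `x`; `mfderiv` of the chart at the centre is
  the identity for `extChartAt`... or any curve with velocity `v`): `t ↦ k (γ t)` has derivative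
  `dM k x v`, which is in `g` by `tangent_mem`.  Product rule: `dM s' x v = dM s x v * k x + s x * dM k x v`.
* `lift_unique`: two lifts differ by `f * ξ`, `ξ ∈ g` (`section_diff`), and `ip η (f* f ξ) = ip η ξ = 0` for all
  `η ∈ g`; take `η = ξ`.
* `section_translate`: `s` a section over `U`, `a ∈ G`: `y ↦ s y * a` is a section over `U`.
* `section_lift`: for a section `s` over `U ∋ x` and a projection `pr` as in `exists_proj`,
  `D = dM s x v - s x * pr ((s x)* dM s x v)` is a lift of `v` at `s x`.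
-/

set_option autoImplicit false

open scoped Manifold ContDiff Matrix

namespace Pool.Agent.W_9986fc_G

open Pool.Agent.W_MP_d8b8b7_S

universe u

variable {X : Type u} [TopologicalSpace X] [ChartedSpace E4 X] [IsManifold I4 ∞ X] {K N M : ℕ}
variable {G : Set (Mat N N)} {g : Submodule ℝ (Mat N N)} {F : X → Set (Mat K N)}

omit [IsManifold I4 ∞ X] in
theorem LiftA_smooth_mul {s : X → Mat K N} {k : X → Mat N M} {U : Set X}
    (hs : ∀ i j, ContMDiffOn I4 𝓘(ℝ, ℂ) ∞ (fun y => s y i j) U)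
    (hk : ∀ i j, ContMDiffOn I4 𝓘(ℝ, ℂ) ∞ (fun y => k y i j) U) (i : Fin K) (j : Fin M) :
    ContMDiffOn I4 𝓘(ℝ, ℂ) ∞ (fun y => (s y * k y) i j) U := by
  have h1 : ContMDiffOn I4 𝓘(ℝ, Fin N → ℂ) ∞ (fun y => fun l => s y i l) U :=
    contMDiffOn_pi_space.2 fun l => hs i l
  have h2 : ContMDiffOn I4 𝓘(ℝ, Fin N → ℂ) ∞ (fun y => fun l => k y l j) U :=
    contMDiffOn_pi_space.2 fun l => hk l j
  have h3 : ContDiff ℝ ∞ (fun q : (Fin N → ℂ) × (Fin N → ℂ) => ∑ l, q.1 l * q.2 l) := by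
    refine ContDiff.sum fun l _ => ?_
    exact ((contDiff_apply ℝ ℂ l).comp contDiff_fst).mul ((contDiff_apply ℝ ℂ l).comp contDiff_snd)
  exact h3.contMDiff.comp_contMDiffOn (h1.prodMk_space h2)

omit [IsManifold I4 ∞ X] in
theorem LiftA_smooth_conj {s : X → Mat K N} {U : Set X}
    (hs : ∀ i j, ContMDiffOn I4 𝓘(ℝ, ℂ) ∞ (fun y => s y i j) U) (i : Fin N) (j : Fin K) :
    ContMDiffOn I4 𝓘(ℝ, ℂ) ∞ (fun y => (s y)ᴴ i j) U :=
  (Complex.conjCLE.contDiff (n := ∞)).contMDiff.comp_contMDiffOn (hs j i)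

theorem section_translate (hG : IsCompactGroup G g) {U : Set X} {s : X → Mat K N}
    (hs : IsSection G F U s) {a : Mat N N} (ha : a ∈ G) :
    IsSection G F U (fun y => s y * a) := by
  refine ⟨hs.isOpen, ?_, ?_, ?_⟩
  · exact LiftA_smooth_mul hs.smooth fun i j => contMDiffOn_const
  · intro y hy
    rw [Matrix.conjTranspose_mul, Matrix.mul_assoc, ← Matrix.mul_assoc _ (s y), hs.iso y hy,
      Matrix.one_mul, hG.unitary a ha]
  · intro y hy
    rw [hs.fibre y hy]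
    ext f
    constructor
    · rintro ⟨b, hb, rfl⟩
      refine ⟨aᴴ * b, hG.mul _ (hG.inv a ha) _ hb, ?_⟩
      rw [Matrix.mul_assoc, ← Matrix.mul_assoc a, hG.mul_conj ha, Matrix.one_mul]
    · rintro ⟨b, hb, rfl⟩
      exact ⟨a * b, hG.mul _ ha _ hb, Matrix.mul_assoc _ _ _⟩

omit [IsManifold I4 ∞ X] in
theorem LiftA_curve {x : X} {f : X → ℂ} (hf : MDifferentiableAt I4 𝓘(ℝ, ℂ) f x) (v : T x) :
    HasDerivAt (fun t : ℝ => f ((extChartAt I4 x).symm (extChartAt I4 x x + t • (show E4 from v))))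
      ((show T x →L[ℝ] ℂ from mfderiv I4 𝓘(ℝ, ℂ) f x) v) 0 := by
  have h1 := hf.hasMFDerivAt.2
  have hr : Set.range I4 = Set.univ := by
    unfold I4
    exact ModelWithCorners.range_eq_univ _
  rw [hr, hasFDerivWithinAt_univ] at h1
  have h2 : HasDerivAt (fun t : ℝ => extChartAt I4 x x + t • (show E4 from v)) (show E4 from v) 0 := by
    have h3 := ((hasDerivAt_id (0 : ℝ)).smul_const (show E4 from v)).const_add (extChartAt I4 x x)
    rw [one_smul] at h3
    exact h3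
  have h4 : HasFDerivAt (writtenInExtChartAt I4 𝓘(ℝ, ℂ) x f)
      (show E4 →L[ℝ] ℂ from mfderiv I4 𝓘(ℝ, ℂ) f x)
      (extChartAt I4 x x + (0 : ℝ) • (show E4 from v)) := by
    rw [zero_smul, add_zero]
    exact h1
  exact h4.comp_hasDerivAt (0 : ℝ) h2

theorem section_diff (hG : IsCompactGroup G g) {U U' : Set X} {s s' : X → Mat K N}
    (hs : IsSection G F U s) (hs' : IsSection G F U' s') {x : X} (hx : x ∈ U) (hx' : x ∈ U')
    (h : s x = s' x) (v : T x) : ∃ ξ ∈ g, dM s' x v = dM s x v + s x * ξ := by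
  obtain ⟨k, hk⟩ : ∃ k : X → Mat N N, ∀ y, k y = (s y)ᴴ * s' y := ⟨_, fun _ => rfl⟩
  have hV : IsOpen (U ∩ U') := hs.isOpen.inter hs'.isOpen
  have hxV : x ∈ U ∩ U' := ⟨hx, hx'⟩
  have hkG : ∀ y ∈ U ∩ U', k y ∈ G ∧ s y * k y = s' y := by
    rintro y ⟨hy, hy'⟩
    have h1 : s' y ∈ F y := by
      rw [hs'.fibre y hy']
      exact ⟨1, hG.one, (Matrix.mul_one _).symm⟩
    rw [hs.fibre y hy] at h1
    obtain ⟨a, ha, h2⟩ := h1
    have h3 : k y = a := by
      rw [hk, h2, ← Matrix.mul_assoc, hs.iso y hy, Matrix.one_mul]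
    rw [h3]
    exact ⟨ha, h2.symm⟩
  have hkx : k x = 1 := by
    rw [hk, ← h, hs.iso x hx]
  have hsm : ∀ i j, ContMDiffOn I4 𝓘(ℝ, ℂ) ∞ (fun y => s y i j) (U ∩ U') :=
    fun i j => (hs.smooth i j).mono Set.inter_subset_left
  have hsm' : ∀ i j, ContMDiffOn I4 𝓘(ℝ, ℂ) ∞ (fun y => s' y i j) (U ∩ U') :=
    fun i j => (hs'.smooth i j).mono Set.inter_subset_right
  have hkm : ∀ i j, ContMDiffOn I4 𝓘(ℝ, ℂ) ∞ (fun y => k y i j) (U ∩ U') := by
    intro i j
    have h1 := LiftA_smooth_mul (LiftA_smooth_conj hsm) hsm' i j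
    refine h1.congr fun y _ => ?_
    rw [hk]
  refine ⟨dM k x v, ?_, ?_⟩
  · obtain ⟨γ, hγ⟩ : ∃ γ : ℝ → X, ∀ t, γ t =
      (extChartAt I4 x).symm (extChartAt I4 x x + t • (show E4 from v)) := ⟨_, fun _ => rfl⟩
    have hγ0 : γ 0 = x := by
      rw [hγ, zero_smul, add_zero]
      exact extChartAt_to_inv x
    have hcont : Filter.Tendsto γ (nhds 0) (nhds x) := by
      have h1 : ContinuousAt (extChartAt I4 x).symm (extChartAt I4 x x) :=
        continuousAt_extChartAt_symm x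
      have h2 : Filter.Tendsto (fun t : ℝ => extChartAt I4 x x + t • (show E4 from v)) (nhds 0)
          (nhds (extChartAt I4 x x)) := by
        have h3 : Continuous (fun t : ℝ => extChartAt I4 x x + t • (show E4 from v)) := by
          fun_prop
        have h4 := h3.tendsto 0
        rw [zero_smul, add_zero] at h4
        exact h4
      have h5 := h1.tendsto.comp h2
      rw [extChartAt_to_inv] at h5
      refine h5.congr fun t => ?_
      rw [hγ]
      rfl
    refine hG.tangent_mem (k := fun t => k (γ t)) ?_ ?_ ?_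
    · filter_upwards [hcont (hV.mem_nhds hxV)] with t ht
      exact (hkG _ ht).1
    · rw [hγ0, hkx]
    · intro i j
      have h1 : MDifferentiableAt I4 𝓘(ℝ, ℂ) (fun y => k y i j) x :=
        ((hkm i j).contMDiffAt (hV.mem_nhds hxV)).mdifferentiableAt (by simp)
      have h2 := LiftA_curve h1 v
      simp only [← hγ] at h2
      exact h2
  · have h1 := dM_mul hV hsm hkm hxV v
    rw [hkx, Matrix.mul_one] at h1
    rw [← h1]
    ext i j
    show (show T x →L[ℝ] ℂ from mfderiv I4 𝓘(ℝ, ℂ) (fun y => s' y i j) x) v =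
      (show T x →L[ℝ] ℂ from mfderiv I4 𝓘(ℝ, ℂ) (fun y => (s y * k y) i j) x) v
    have h2 : (fun y => s' y i j) =ᶠ[nhds x] fun y => (s y * k y) i j := by
      filter_upwards [hV.mem_nhds hxV] with y hy
      rw [(hkG y hy).2]
    rw [h2.mfderiv_eq]

theorem lift_unique (hG : IsCompactGroup G g) {x : X} {f : Mat K N} {v : T x} {D D' : Mat K N}
    (h : IsLift G g F x f v D) (h' : IsLift G g F x f v D') : D = D' := by
  obtain ⟨⟨U, s, ξ, hξ, hxU, hs, hsx, hD⟩, h1⟩ := h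
  obtain ⟨⟨U', s', ξ', hξ', hxU', hs', hsx', hD'⟩, h1'⟩ := h'
  obtain ⟨ζ, hζ, h2⟩ := section_diff hG hs hs' hxU hxU' (hsx.trans hsx'.symm) v
  have hf : fᴴ * f = 1 := by
    rw [← hsx]
    exact hs.iso x hxU
  have h3 : D' = D + f * (ζ + ξ' - ξ) := by
    rw [hD, hD', h2, hsx, Matrix.mul_sub, Matrix.mul_add]
    abel
  have hχ : ζ + ξ' - ξ ∈ g := g.sub_mem (g.add_mem hζ hξ') hξ
  have h4 : ip (ζ + ξ' - ξ) (ζ + ξ' - ξ) = 0 := by
    have h5 := h1' _ hχ
    rw [h3, Matrix.mul_add, ← Matrix.mul_assoc, hf, Matrix.one_mul, ip_add_right, h1 _ hχ,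
      zero_add] at h5
    exact h5
  rw [h3, ip_self_eq_zero h4, Matrix.mul_zero, add_zero]

theorem section_lift (hG : IsCompactGroup G g) {U : Set X} {s : X → Mat K N}
    (hs : IsSection G F U s) {x : X} (hx : x ∈ U) {pr : Mat N N →ₗ[ℝ] Mat N N}
    (h1 : ∀ Z, pr Z ∈ g) (h2 : ∀ Z, ∀ ξ ∈ g, ip ξ (Z - pr Z) = 0) (v : T x) :
    IsLift G g F x (s x) v (dM s x v - s x * pr ((s x)ᴴ * dM s x v)) := by
  refine ⟨⟨U, s, -pr ((s x)ᴴ * dM s x v), g.neg_mem (h1 _), hx, hs, rfl, ?_⟩, fun η hη => ?_⟩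
  · rw [Matrix.mul_neg, sub_eq_add_neg]
  · rw [Matrix.mul_sub, ← Matrix.mul_assoc (s x)ᴴ (s x), hs.iso x hx, Matrix.one_mul]
    exact h2 _ η hη

end Pool.Agent.W_9986fc_G
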