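import Pool.Agent.W_9986fc_G.LiftA

/-!
# The horizontal lift

* `exists_section`: a section through a given frame: `section_translate`.
* `hor_isLift`: `Classical.epsilon_spec` with `section_lift`.  `hor_section`: `lift_unique`.
* `hor_add`, `hor_smul`: from `hor_section` (linear).  `hor_mul`: for `a ∈ G`,
  `hor (f a) v = hor f v * a`: the section `s a` and `ip η (a* f* D a) = ip (a η a*) (f* D) = 0` (`ad_mem`).
-/

set_option autoImplicit false

open scoped Manifold ContDiff Matrix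

namespace Pool.Agent.W_9986fc_G

open Pool.Agent.W_MP_d8b8b7_S

universe u

variable {X : Type u} [TopologicalSpace X] [ChartedSpace E4 X] [IsManifold I4 ∞ X] {K N : ℕ}
variable {G : Set (Mat N N)} {g : Submodule ℝ (Mat N N)} {F : X → Set (Mat K N)}

theorem exists_section (hG : IsCompactGroup G g) (hF : IsPrincipal G F) {x : X} {f : Mat K N}
    (hf : f ∈ F x) : ∃ (U : Set X) (s : X → Mat K N), x ∈ U ∧ IsSection G F U s ∧ s x = f := by
  obtain ⟨U, s, hx, hs⟩ := hF x
  rw [hs.fibre x hx] at hf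
  obtain ⟨a, ha, rfl⟩ := hf
  exact ⟨U, fun y => s y * a, hx, section_translate hG hs ha, rfl⟩

theorem frame_iso (hG : IsCompactGroup G g) (hF : IsPrincipal G F) {x : X} {f : Mat K N}
    (hf : f ∈ F x) : fᴴ * f = 1 := by
  obtain ⟨U, s, hx, hs, rfl⟩ := exists_section hG hF hf
  exact hs.iso x hx

theorem frame_mul (hG : IsCompactGroup G g) (hF : IsPrincipal G F) {x : X} {f : Mat K N}
    (hf : f ∈ F x) {a : Mat N N} (ha : a ∈ G) : f * a ∈ F x := by
  obtain ⟨U, s, hx, hs, rfl⟩ := exists_section hG hF hf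
  rw [hs.fibre x hx]
  exact ⟨a, ha, rfl⟩

theorem frame_trans (hG : IsCompactGroup G g) (hF : IsPrincipal G F) {x : X} {f f' : Mat K N}
    (hf : f ∈ F x) (hf' : f' ∈ F x) : ∃ a ∈ G, f' = f * a := by
  obtain ⟨U, s, hx, hs, rfl⟩ := exists_section hG hF hf
  rw [hs.fibre x hx] at hf'
  exact hf'

theorem frame_nonempty (hG : IsCompactGroup G g) (hF : IsPrincipal G F) (x : X) :
    (F x).Nonempty := by
  obtain ⟨U, s, hx, hs⟩ := hF x
  rw [hs.fibre x hx]
  exact ⟨s x * 1, 1, hG.one, rfl⟩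

theorem hor_isLift (hG : IsCompactGroup G g) (hF : IsPrincipal G F) {x : X} {f : Mat K N}
    (hf : f ∈ F x) (v : T x) : IsLift G g F x f v (hor G g F x f v) := by
  obtain ⟨U, s, hx, hs, rfl⟩ := exists_section hG hF hf
  obtain ⟨pr, h1, h2⟩ := exists_proj g
  exact Classical.epsilon_spec (p := fun D => IsLift G g F x (s x) v D)
    ⟨_, section_lift hG hs hx h1 h2 v⟩

theorem hor_section (hG : IsCompactGroup G g) {U : Set X} {s : X → Mat K N}
    (hs : IsSection G F U s) {x : X} (hx : x ∈ U) {pr : Mat N N →ₗ[ℝ] Mat N N}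
    (h1 : ∀ Z, pr Z ∈ g) (h2 : ∀ Z, ∀ ξ ∈ g, ip ξ (Z - pr Z) = 0) (v : T x) :
    hor G g F x (s x) v = dM s x v - s x * pr ((s x)ᴴ * dM s x v) := by
  have h := section_lift hG hs hx h1 h2 v
  have h' : IsLift G g F x (s x) v (hor G g F x (s x) v) :=
    Classical.epsilon_spec (p := fun D => IsLift G g F x (s x) v D) ⟨_, h⟩
  exact lift_unique hG h' h

theorem hor_add (hG : IsCompactGroup G g) (hF : IsPrincipal G F) {x : X} {f : Mat K N}
    (hf : f ∈ F x) (v w : T x) :
    hor G g F x f (v + w) = hor G g F x f v + hor G g F x f w := by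
  obtain ⟨U, s, hx, hs, rfl⟩ := exists_section hG hF hf
  obtain ⟨pr, h1, h2⟩ := exists_proj g
  rw [hor_section hG hs hx h1 h2, hor_section hG hs hx h1 h2, hor_section hG hs hx h1 h2, dM_add,
    Matrix.mul_add, map_add, Matrix.mul_add]
  abel

theorem hor_smul (hG : IsCompactGroup G g) (hF : IsPrincipal G F) {x : X} {f : Mat K N}
    (hf : f ∈ F x) (c : ℝ) (v : T x) : hor G g F x f (c • v) = c • hor G g F x f v := by
  obtain ⟨U, s, hx, hs, rfl⟩ := exists_section hG hF hf
  obtain ⟨pr, h1, h2⟩ := exists_proj g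
  rw [hor_section hG hs hx h1 h2, hor_section hG hs hx h1 h2, dM_smul,
    Matrix.mul_smul, map_smul, Matrix.mul_smul, smul_sub]

theorem hor_mul (hG : IsCompactGroup G g) (hF : IsPrincipal G F) {x : X} {f : Mat K N}
    (hf : f ∈ F x) {a : Mat N N} (ha : a ∈ G) (v : T x) :
    hor G g F x (f * a) v = hor G g F x f v * a := by
  have hlift := hor_isLift hG hF hf v
  obtain ⟨U, s, hx, hs, rfl⟩ := exists_section hG hF hf
  obtain ⟨pr, h1, h2⟩ := exists_proj g
  refine lift_unique hG (hor_isLift hG hF (frame_mul hG hF hf ha) v) ⟨?_, ?_⟩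
  · refine ⟨U, fun y => s y * a, -(aᴴ * pr ((s x)ᴴ * dM s x v) * aᴴᴴ),
      g.neg_mem (hG.ad_mem (hG.inv a ha) (h1 _)), hx, section_translate hG hs ha, rfl, ?_⟩
    rw [hor_section hG hs hx h1 h2, dM_mul_const hs.isOpen hs.smooth a hx v,
      Matrix.conjTranspose_conjTranspose, Matrix.sub_mul, Matrix.mul_neg, ← sub_eq_add_neg]
    congr 1
    have e : s x * a * (aᴴ * pr ((s x)ᴴ * dM s x v) * a) =
        s x * (a * aᴴ) * pr ((s x)ᴴ * dM s x v) * a := by
      simp only [Matrix.mul_assoc]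
    rw [e, hG.mul_conj ha, Matrix.mul_one]
  · intro η hη
    have h := hlift.2 (a * η * aᴴ) (hG.ad_mem ha hη)
    rw [Matrix.mul_assoc, ip_mul_left, ip_mul_right, Matrix.conjTranspose_conjTranspose] at h
    rw [Matrix.conjTranspose_mul]
    have e : aᴴ * (s x)ᴴ * (hor G g F x (s x) v * a) =
        aᴴ * ((s x)ᴴ * hor G g F x (s x) v) * a := by
      simp only [Matrix.mul_assoc]
    rw [e]
    exact h

end Pool.Agent.W_9986fc_G
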