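import Pool.Agent.W_9986fc_G.LiftB

/-!
# The curvature

`curv_*`: bilinearity, antisymmetry, `curv_mul`: `ip ξ (a* Z a) = ip (a ξ a*) Z`.
`exists_curvB`: the curvature as a bilinear map.
-/

set_option autoImplicit false

open scoped Manifold ContDiff Matrix

namespace Pool.Agent.W_9986fc_G

open Pool.Agent.W_MP_d8b8b7_S

universe u

variable {X : Type u} [TopologicalSpace X] [ChartedSpace E4 X] [IsManifold I4 ∞ X] {K N : ℕ}
variable {G : Set (Mat N N)} {g : Submodule ℝ (Mat N N)} {F : X → Set (Mat K N)}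

theorem curv_self (x : X) (f : Mat K N) (ξ : Mat N N) (v : T x) :
    curv G g F x f ξ v v = 0 := by
  unfold curv ip
  rw [sub_self, Matrix.mul_zero, Matrix.trace_zero, Complex.zero_re]

theorem curv_add (x : X) (f : Mat K N) (ξ η : Mat N N) (v w : T x) :
    curv G g F x f (ξ + η) v w = curv G g F x f ξ v w + curv G g F x f η v w := by
  unfold curv
  rw [ip_add_left]

theorem curv_smul (x : X) (f : Mat K N) (c : ℝ) (ξ : Mat N N) (v w : T x) :
    curv G g F x f (c • ξ) v w = c * curv G g F x f ξ v w := by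
  unfold curv
  rw [ip_smul_left]

theorem curv_mul (hG : IsCompactGroup G g) (hF : IsPrincipal G F) {x : X} {f : Mat K N}
    (hf : f ∈ F x) {a : Mat N N} (ha : a ∈ G) (ξ : Mat N N) (v w : T x) :
    curv G g F x (f * a) ξ v w = curv G g F x f (a * ξ * aᴴ) v w := by
  unfold curv
  rw [hor_mul hG hF hf ha, hor_mul hG hF hf ha, Matrix.mul_assoc a ξ, ip_mul_left, ip_mul_right,
    Matrix.conjTranspose_conjTranspose, Matrix.conjTranspose_mul, Matrix.conjTranspose_mul,
    Matrix.mul_sub, Matrix.sub_mul]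
  simp only [Matrix.mul_assoc]

/-- the curvature as a bilinear map on `T x` -/
theorem exists_curvB (hG : IsCompactGroup G g) (hF : IsPrincipal G F) {x : X} {f : Mat K N}
    (hf : f ∈ F x) (ξ : Mat N N) :
    ∃ B : T x →ₗ[ℝ] T x →ₗ[ℝ] ℝ, ∀ v w, B v w = curv G g F x f ξ v w := by
  have h1 : ∀ v v' w : T x, curv G g F x f ξ (v + v') w =
      curv G g F x f ξ v w + curv G g F x f ξ v' w := by
    intro v v' w
    unfold curv
    rw [hor_add hG hF hf, ← ip_add_right]
    congr 1
    rw [Matrix.conjTranspose_add, Matrix.add_mul, Matrix.mul_add]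
    abel
  have h2 : ∀ (c : ℝ) (v w : T x), curv G g F x f ξ (c • v) w = c * curv G g F x f ξ v w := by
    intro c v w
    unfold curv
    rw [hor_smul hG hF hf, ← ip_smul_right]
    congr 1
    rw [Matrix.conjTranspose_smul, star_trivial, Matrix.smul_mul, Matrix.mul_smul, smul_sub]
  have h3 : ∀ v w : T x, curv G g F x f ξ v w = - curv G g F x f ξ w v := by
    intro v w
    have h4 : curv G g F x f ξ v w + curv G g F x f ξ w v = 0 := by
      unfold curv
      rw [← ip_add_right, sub_add_sub_cancel, sub_self]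
      unfold ip
      rw [Matrix.mul_zero, Matrix.trace_zero, Complex.zero_re]
    linarith
  refine ⟨LinearMap.mk₂ ℝ (fun v w => curv G g F x f ξ v w) h1 h2 ?_ ?_, fun v w => rfl⟩
  · intro v w w'
    rw [h3, h1, h3 w, h3 w']
    ring
  · intro c v w
    rw [h3, h2, h3 w]
    show _ = c * _
    ring

end Pool.Agent.W_9986fc_G
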