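import Pool.Agent.W_9986fc_G.PVal
import Pool.Agent.W_9986fc_G.IntEx

/-!
# No fat `su(2)`-ideals over parallelizable manifolds

* `fat_sign`: for `x`, `f ∈ F x`, `0 ≠ ξ ∈ s`: `q6 (ve x f ξ) ≠ 0` (`nondeg_q6` with the basis `e a x`, `exists_curvB`).
  For fixed `(x, f)` the sign is constant on `s \ {0}` (connected, `dim s = 3`; `q6 (ve x f ξ)` is continuous in `ξ`,
  `ve_add`, `ve_smul`); for `f a`, `a ∈ G`: `ve x (f a) ξ = ve x f (a ξ a*)`, the same sign.  So there is a sign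
  `ε x`; along a section `σ` the function `y ↦ q6 (ve y (σ y) ξ)` is continuous (`smO_curv`), so `ε` is locally
  constant, and `X` is connected.
* `parallel_swap`: the frame `e' = (e 0, e 1, e 3, e 2)` has `q6 (ve' ..) = - q6 (ve ..)`.
* `no_fat_pos`: `IsIntegral I` from `exists_integral`.  By `pp_val` `pp x = - ∑ ∑ q6 (ve x f [η j, η k])`, all terms
  `≥ 0` (`[η j, η k] ∈ s`) and some `[η j, η k] ≠ 0` (`nonab`: otherwise `s` is abelian by `span`), so `- pp > 0`, `I (-pp) > 0`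
  (`IsIntegral.pos`, `continuous_pp`), but `I pp = 0` (`integral_pp`) and `I (-pp) = - I pp` (`smul` with `-1`).
* `no_fat`: `exists_onb`, `fat_sign`, `no_fat_pos` for `e` or the swapped frame.
-/

set_option autoImplicit false

open scoped Manifold ContDiff Matrix

namespace Pool.Agent.W_9986fc_G

open Pool.Agent.W_MP_d8b8b7_S

universe u

variable {X : Type u} [TopologicalSpace X] [ChartedSpace E4 X] [IsManifold I4 ∞ X] {K N : ℕ}
variable {G : Set (Mat N N)} {g s : Submodule ℝ (Mat N N)} {F : X → Set (Mat K N)}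
  {e : Fin 4 → ∀ x : X, T x}

theorem NoFat_basis (he : IsParallelization e) (x : X) :
    ∃ b : Module.Basis (Fin 4) ℝ (T x), ∀ i, b i = e i x := by
  have h4 : Module.finrank ℝ (T x) = 4 := by
    have h := finrank_euclideanSpace_fin (𝕜 := ℝ) (n := 4)
    exact h
  refine ⟨basisOfLinearIndependentOfCardEqFinrank (he.indep x) ?_, fun i => ?_⟩
  · rw [h4, Fintype.card_fin]
  · rw [coe_basisOfLinearIndependentOfCardEqFinrank]

theorem NoFat_ne (hG : IsCompactGroup G g) (hF : IsPrincipal G F) (he : IsParallelization e)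
    (hfat : FatOn G g F s) {x : X} {f : Mat K N} (hf : f ∈ F x) {ξ : Mat N N} (hξ : ξ ∈ s)
    (h0 : ξ ≠ 0) : q6 (ve G g F e x f ξ) ≠ 0 := by
  obtain ⟨B, hB⟩ := exists_curvB hG hF hf ξ
  obtain ⟨b, hb⟩ := NoFat_basis he x
  have h1 := (nondeg_q6 b B (fun v => by rw [hB, curv_self])).1
    (fun v hv => hfat x f hf ξ hξ h0 v (fun w => by rw [← hB]; exact hv w))
  have h2 : vec6 (fun v w => B v w) b = ve G g F e x f ξ := by
    unfold ve vec6
    simp only [hb, hB]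
  rwa [h2] at h1

theorem NoFat_point (hG : IsCompactGroup G g) (hF : IsPrincipal G F)
    (hs : IsSu2Ideal G g s) (he : IsParallelization e) (hfat : FatOn G g F s) {x : X}
    {f : Mat K N} (hf : f ∈ F x) : (∀ ξ ∈ s, ξ ≠ 0 → 0 < q6 (ve G g F e x f ξ)) ∨
      (∀ ξ ∈ s, ξ ≠ 0 → q6 (ve G g F e x f ξ) < 0) := by
  obtain ⟨η, hη⟩ := exists_onb hs.dim
  by_contra hcon
  rw [not_or] at hcon
  obtain ⟨h1, h2⟩ := hcon
  push Not at h1 h2
  obtain ⟨ξ₁, hm₁, hn₁, hq₁⟩ := h1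
  obtain ⟨ξ₂, hm₂, hn₂, hq₂⟩ := h2
  have hvec : ∀ κ : Fin 3 → ℝ, q6 (ve G g F e x f (∑ i, κ i • η i)) =
      q6 (∑ i, κ i • ve G g F e x f (η i)) := fun κ => by rw [ve_sum]
  have hcont : Continuous fun κ : Fin 3 → ℝ => q6 (ve G g F e x f (∑ i, κ i • η i)) := by
    simp only [hvec]
    unfold q6
    simp only [Finset.sum_apply, Pi.smul_apply, smul_eq_mul]
    fun_prop
  have hrank : 1 < Module.rank ℝ (Fin 3 → ℝ) := by
    rw [rank_fin_fun]
    norm_num
  have hconn : IsPreconnected ({0}ᶜ : Set (Fin 3 → ℝ)) :=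
    (isConnected_compl_singleton_of_one_lt_rank hrank 0).isPreconnected
  have hk : ∀ ξ ∈ s, ξ ≠ 0 → (fun i => ip (η i) ξ) ∈ ({0}ᶜ : Set (Fin 3 → ℝ)) := by
    intro ξ hξ h0 h
    apply h0
    rw [hη.span ξ hξ]
    refine Finset.sum_eq_zero fun k _ => ?_
    have h3 : ip (η k) ξ = 0 := congrFun (Set.mem_singleton_iff.1 h) k
    rw [h3, zero_smul]
  have h3 := hconn.intermediate_value (hk ξ₁ hm₁ hn₁) (hk ξ₂ hm₂ hn₂) hcont.continuousOn
  have h4 : (0 : ℝ) ∈ Set.Icc (q6 (ve G g F e x f (∑ i, ip (η i) ξ₁ • η i)))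
      (q6 (ve G g F e x f (∑ i, ip (η i) ξ₂ • η i))) := by
    rw [← hη.span ξ₁ hm₁, ← hη.span ξ₂ hm₂]
    exact ⟨hq₁, hq₂⟩
  obtain ⟨κ, hκ, hκ0⟩ := h3 h4
  refine NoFat_ne hG hF he hfat hf (ξ := ∑ i, κ i • η i)
    (s.sum_mem fun i _ => s.smul_mem _ (hη.mem i)) ?_ hκ0
  intro h5
  apply hκ
  rw [Set.mem_singleton_iff]
  funext k
  have h6 : ip (η k) (∑ i, κ i • η i) = κ k := by
    have h7 : ∀ t : Finset (Fin 3), ip (η k) (∑ i ∈ t, κ i • η i) =
        ∑ i ∈ t, κ i * ip (η k) (η i) := by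
      intro t
      induction t using Finset.induction_on with
      | empty =>
        rw [Finset.sum_empty, Finset.sum_empty]
        unfold ip
        rw [Matrix.mul_zero, Matrix.trace_zero, Complex.zero_re]
      | insert a t ha ih =>
        rw [Finset.sum_insert ha, Finset.sum_insert ha, ip_add_right, ip_smul_right, ih]
    rw [h7]
    simp only [hη.inner, mul_ite, mul_one, mul_zero, Finset.sum_ite_eq, Finset.mem_univ, if_true]
  rw [h5] at h6
  rw [← h6]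
  unfold ip
  rw [Matrix.mul_zero, Matrix.trace_zero, Complex.zero_re]
  rfl

theorem NoFat_fibre (hG : IsCompactGroup G g) (hF : IsPrincipal G F)
    (hs : IsSu2Ideal G g s) (he : IsParallelization e) (hfat : FatOn G g F s) (x : X) :
    (∀ f ∈ F x, ∀ ξ ∈ s, ξ ≠ 0 → 0 < q6 (ve G g F e x f ξ)) ∨
      (∀ f ∈ F x, ∀ ξ ∈ s, ξ ≠ 0 → q6 (ve G g F e x f ξ) < 0) := by
  obtain ⟨f₀, hf₀⟩ := frame_nonempty hG hF x
  have hmove : ∀ a ∈ G, ∀ ξ ∈ s, ξ ≠ 0 → a * ξ * aᴴ ∈ s ∧ a * ξ * aᴴ ≠ 0 := by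
    intro a ha ξ hξ h0
    refine ⟨hs.inv a ha ξ hξ, fun h => h0 ?_⟩
    have h1 : aᴴ * (a * ξ * aᴴ) * a = ξ := by
      have h2 : aᴴ * (a * ξ * aᴴ) * a = (aᴴ * a) * ξ * (aᴴ * a) := by
        simp only [Matrix.mul_assoc]
      rw [h2, hG.unitary a ha, Matrix.one_mul, Matrix.mul_one]
    rw [← h1, h, Matrix.mul_zero, Matrix.zero_mul]
  have hve : ∀ a ∈ G, ∀ ξ : Mat N N, ve G g F e x (f₀ * a) ξ = ve G g F e x f₀ (a * ξ * aᴴ) := by
    intro a ha ξ
    unfold ve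
    congr 1
    funext v w
    exact curv_mul hG hF hf₀ ha ξ v w
  rcases NoFat_point hG hF hs he hfat hf₀ with h | h
  · left
    intro f hf ξ hξ h0
    obtain ⟨a, ha, rfl⟩ := frame_trans hG hF hf₀ hf
    rw [hve a ha]
    exact h _ (hmove a ha ξ hξ h0).1 (hmove a ha ξ hξ h0).2
  · right
    intro f hf ξ hξ h0
    obtain ⟨a, ha, rfl⟩ := frame_trans hG hF hf₀ hf
    rw [hve a ha]
    exact h _ (hmove a ha ξ hξ h0).1 (hmove a ha ξ hξ h0).2

theorem NoFat_cont (hG : IsCompactGroup G g) {U : Set X} {σ : X → Mat K N}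
    (hσ : IsSection G F U σ) (he : IsParallelization e) (ξ : Mat N N) :
    ContinuousOn (fun y => q6 (ve G g F e y (σ y) ξ)) U := by
  have h1 : ∀ a b : Fin 4, ContinuousOn (fun y => curv G g F y (σ y) ξ (e a y) (e b y)) U := by
    intro a b
    have h2 := smO_curv hG hσ he ξ a b
    exact ContMDiffOn.continuousOn h2
  have h3 : (fun y => q6 (ve G g F e y (σ y) ξ)) = fun y =>
      curv G g F y (σ y) ξ (e 0 y) (e 1 y) * curv G g F y (σ y) ξ (e 2 y) (e 3 y) -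
      curv G g F y (σ y) ξ (e 0 y) (e 2 y) * curv G g F y (σ y) ξ (e 1 y) (e 3 y) +
      curv G g F y (σ y) ξ (e 0 y) (e 3 y) * curv G g F y (σ y) ξ (e 1 y) (e 2 y) := rfl
  rw [h3]
  exact (((h1 0 1).mul (h1 2 3)).sub ((h1 0 2).mul (h1 1 3))).add ((h1 0 3).mul (h1 1 2))

theorem fat_sign [PreconnectedSpace X] (hG : IsCompactGroup G g) (hF : IsPrincipal G F)
    (hs : IsSu2Ideal G g s) (he : IsParallelization e) (hfat : FatOn G g F s) :
    (∀ x : X, ∀ f ∈ F x, ∀ ξ ∈ s, ξ ≠ 0 → 0 < q6 (ve G g F e x f ξ)) ∨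
    (∀ x : X, ∀ f ∈ F x, ∀ ξ ∈ s, ξ ≠ 0 → q6 (ve G g F e x f ξ) < 0) := by
  obtain ⟨ξ₀, hξ₀, hne⟩ : ∃ ξ₀ ∈ s, ξ₀ ≠ 0 := by
    obtain ⟨ξ, hξ, η, _, h⟩ := hs.nonab
    refine ⟨ξ, hξ, fun h0 => h ?_⟩
    rw [h0, Matrix.zero_mul, Matrix.mul_zero]
  obtain ⟨P, hP⟩ : ∃ P : Set X, P = {x | ∀ f ∈ F x, ∀ ξ ∈ s, ξ ≠ 0 →
      0 < q6 (ve G g F e x f ξ)} := ⟨_, rfl⟩
  obtain ⟨Q, hQ⟩ : ∃ Q : Set X, Q = {x | ∀ f ∈ F x, ∀ ξ ∈ s, ξ ≠ 0 →
      q6 (ve G g F e x f ξ) < 0} := ⟨_, rfl⟩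
  have hPQ : ∀ x, x ∈ P ∨ x ∈ Q := by
    intro x
    rw [hP, hQ]
    exact NoFat_fibre hG hF hs he hfat x
  have hmem : ∀ {U : Set X} {σ : X → Mat K N}, IsSection G F U σ → ∀ y ∈ U, σ y ∈ F y := by
    intro U σ hσ y hy
    rw [hσ.fibre y hy]
    exact ⟨1, hG.one, by rw [Matrix.mul_one]⟩
  have hPo : IsOpen P := by
    rw [isOpen_iff_mem_nhds]
    intro x hx
    obtain ⟨U, σ, hxU, hσ⟩ := hF x
    have h1 : ContinuousAt (fun y => q6 (ve G g F e y (σ y) ξ₀)) x :=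
      (NoFat_cont hG hσ he ξ₀).continuousAt (hσ.isOpen.mem_nhds hxU)
    have h2 : 0 < q6 (ve G g F e x (σ x) ξ₀) := by
      rw [hP] at hx
      exact hx _ (hmem hσ x hxU) _ hξ₀ hne
    filter_upwards [hσ.isOpen.mem_nhds hxU, h1.eventually (lt_mem_nhds h2)] with y hy hy2
    rcases hPQ y with h | h
    · exact h
    · rw [hQ] at h
      exact absurd (h _ (hmem hσ y hy) _ hξ₀ hne) (not_lt.2 hy2.le)
  have hQo : IsOpen Q := by
    rw [isOpen_iff_mem_nhds]
    intro x hx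
    obtain ⟨U, σ, hxU, hσ⟩ := hF x
    have h1 : ContinuousAt (fun y => q6 (ve G g F e y (σ y) ξ₀)) x :=
      (NoFat_cont hG hσ he ξ₀).continuousAt (hσ.isOpen.mem_nhds hxU)
    have h2 : q6 (ve G g F e x (σ x) ξ₀) < 0 := by
      rw [hQ] at hx
      exact hx _ (hmem hσ x hxU) _ hξ₀ hne
    filter_upwards [hσ.isOpen.mem_nhds hxU, h1.eventually (gt_mem_nhds h2)] with y hy hy2
    rcases hPQ y with h | h
    · rw [hP] at h
      exact absurd (h _ (hmem hσ y hy) _ hξ₀ hne) (not_lt.2 hy2.le)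
    · exact h
  have hPc : Pᶜ = Q := by
    ext x
    constructor
    · intro hx
      exact (hPQ x).resolve_left hx
    · intro hx hx'
      obtain ⟨f, hf⟩ := frame_nonempty hG hF x
      rw [hP] at hx'
      rw [hQ] at hx
      have h1 := hx' f hf ξ₀ hξ₀ hne
      have h2 := hx f hf ξ₀ hξ₀ hne
      linarith
  have hcl : IsClopen P := ⟨by rw [← isOpen_compl_iff, hPc]; exact hQo, hPo⟩
  rcases isClopen_iff.1 hcl with h | h
  · right
    intro x
    have h1 : x ∈ Q := by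
      rw [← hPc, h]
      exact Set.mem_compl (Set.notMem_empty x)
    rw [hQ] at h1
    exact h1
  · left
    intro x
    have h1 : x ∈ P := by
      rw [h]
      exact Set.mem_univ x
    rw [hP] at h1
    exact h1

theorem parallel_swap (he : IsParallelization e) : ∃ e' : Fin 4 → ∀ x : X, T x,
    IsParallelization e' ∧ ∀ (x : X) (f : Mat K N) (ξ : Mat N N),
      q6 (ve G g F e' x f ξ) = - q6 (ve G g F e x f ξ) := by
  refine ⟨fun i => e (Equiv.swap (2 : Fin 4) 3 i), ⟨fun i c => he.smooth _ c, fun x =>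
    (he.indep x).comp _ (Equiv.injective (Equiv.swap (2 : Fin 4) 3))⟩, fun x f ξ => ?_⟩
  have hskew : ∀ v w : T x, curv G g F x f ξ w v = - curv G g F x f ξ v w := by
    intro v w
    have h : curv G g F x f ξ w v + curv G g F x f ξ v w = 0 := by
      unfold curv
      rw [← ip_add_right, sub_add_sub_cancel, sub_self]
      unfold ip
      rw [Matrix.mul_zero, Matrix.trace_zero, Complex.zero_re]
    linarith
  have e0 : Equiv.swap (2 : Fin 4) 3 0 = 0 := by decide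
  have e1 : Equiv.swap (2 : Fin 4) 3 1 = 1 := by decide
  have e2 : Equiv.swap (2 : Fin 4) 3 2 = 3 := by decide
  have e3 : Equiv.swap (2 : Fin 4) 3 3 = 2 := by decide
  have h1 : q6 (ve G g F (fun i => e (Equiv.swap (2 : Fin 4) 3 i)) x f ξ) =
      curv G g F x f ξ (e (Equiv.swap (2 : Fin 4) 3 0) x) (e (Equiv.swap (2 : Fin 4) 3 1) x) *
        curv G g F x f ξ (e (Equiv.swap (2 : Fin 4) 3 2) x) (e (Equiv.swap (2 : Fin 4) 3 3) x) -
      curv G g F x f ξ (e (Equiv.swap (2 : Fin 4) 3 0) x) (e (Equiv.swap (2 : Fin 4) 3 2) x) *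
        curv G g F x f ξ (e (Equiv.swap (2 : Fin 4) 3 1) x) (e (Equiv.swap (2 : Fin 4) 3 3) x) +
      curv G g F x f ξ (e (Equiv.swap (2 : Fin 4) 3 0) x) (e (Equiv.swap (2 : Fin 4) 3 3) x) *
        curv G g F x f ξ (e (Equiv.swap (2 : Fin 4) 3 1) x) (e (Equiv.swap (2 : Fin 4) 3 2) x) :=
    rfl
  have h2 : q6 (ve G g F e x f ξ) =
      curv G g F x f ξ (e 0 x) (e 1 x) * curv G g F x f ξ (e 2 x) (e 3 x) -
      curv G g F x f ξ (e 0 x) (e 2 x) * curv G g F x f ξ (e 1 x) (e 3 x) +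
      curv G g F x f ξ (e 0 x) (e 3 x) * curv G g F x f ξ (e 1 x) (e 2 x) := rfl
  rw [h1, h2, e0, e1, e2, e3, hskew (e 2 x) (e 3 x)]
  ring

theorem no_fat_pos [CompactSpace X] [T2Space X] [Nonempty X] (hG : IsCompactGroup G g)
    (hF : IsPrincipal G F) (hs : IsSu2Ideal G g s) (he : IsParallelization e)
    (h : ∀ x : X, ∀ f ∈ F x, ∀ ξ ∈ s, ξ ≠ 0 → 0 < q6 (ve G g F e x f ξ)) : False := by
  obtain ⟨η, hη⟩ := exists_onb hs.dim
  obtain ⟨I, hI⟩ := exists_integral he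
  have hT := smM_TT hG hF hs hη he
  have hS := smM_SS hG hF hs hη he h
  have hc := continuous_pp he hT hS
  have h0 := integral_pp he hI hT hS
  have hbr : ∀ j k, η j * η k - η k * η j ∈ s := fun j k =>
    bracket_mem_s hG hs (hs.le (hη.mem j)) (hη.mem k)
  have hne : ∃ j k, η j * η k - η k * η j ≠ 0 := by
    by_contra hcon
    push Not at hcon
    obtain ⟨ξ, hξ, ζ, hζ, hn⟩ := hs.nonab
    apply hn
    have hcomm : ∀ j k, η j * η k = η k * η j := fun j k => sub_eq_zero.1 (hcon j k)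
    rw [hη.span ξ hξ, hη.span ζ hζ, Finset.sum_mul_sum, Finset.sum_mul_sum, Finset.sum_comm]
    refine Finset.sum_congr rfl fun k _ => Finset.sum_congr rfl fun j _ => ?_
    rw [smul_mul_smul_comm, smul_mul_smul_comm, hcomm, mul_comm]
  have hpos : ∀ x, 0 < (-1) * pp e (TT G g F e η) (SS G g F e η) x := by
    intro x
    obtain ⟨f, hf⟩ := frame_nonempty hG hF x
    rw [pp_val hG hF hs hη he h hf, neg_mul_neg, one_mul]
    have hz : q6 (ve G g F e x f 0) = 0 := by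
      have h1 := ve_smul (G := G) (g := g) (F := F) (e := e) x f 0 (0 : Mat N N)
      rw [zero_smul, zero_smul] at h1
      rw [h1]
      unfold q6
      simp
    have hnn : ∀ k j, 0 ≤ q6 (ve G g F e x f (η j * η k - η k * η j)) := by
      intro k j
      by_cases h2 : η j * η k - η k * η j = 0
      · rw [h2, hz]
      · exact (h x f hf _ (hbr j k) h2).le
    obtain ⟨j, k, hjk⟩ := hne
    refine Finset.sum_pos' (fun k _ => Finset.sum_nonneg fun j _ => hnn k j)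
      ⟨k, Finset.mem_univ k, ?_⟩
    exact Finset.sum_pos' (fun j _ => hnn k j)
      ⟨j, Finset.mem_univ j, h x f hf _ (hbr j k) hjk⟩
  have h3 := hI.pos (fun x => (-1) * pp e (TT G g F e η) (SS G g F e η) x)
    (continuous_const.mul hc) hpos
  rw [hI.smul (-1) _ hc, h0, mul_zero] at h3
  exact lt_irrefl _ h3

theorem no_fat [CompactSpace X] [T2Space X] [ConnectedSpace X] (hG : IsCompactGroup G g)
    (hF : IsPrincipal G F) (hs : IsSu2Ideal G g s) (he : IsParallelization e) :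
    ¬ FatOn G g F s := by
  intro hfat
  rcases fat_sign hG hF hs he hfat with h | h
  · exact no_fat_pos hG hF hs he h
  · obtain ⟨e', he', hq⟩ := parallel_swap (G := G) (g := g) (F := F) he
    refine no_fat_pos hG hF hs he' fun x f hf ξ hξ h0 => ?_
    rw [hq]
    exact neg_pos.2 (h x f hf ξ hξ h0)

end Pool.Agent.W_9986fc_G
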