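import Pool.Agent.W_9986fc_G.ClauseA
import Pool.Agent.W_9986fc_G.NoFat
import Pool.Agent.W_9986fc_G.Big

/-!
# The main theorem

* `exists_central_part`: `exists_proj` for the subspace `{z ∈ g | ∀ a ∈ G, a z = z a}`.
-/

set_option autoImplicit false

open scoped Manifold ContDiff Matrix

namespace Pool.Agent.W_9986fc_G

open Pool.Agent.W_MP_d8b8b7_S

universe u

theorem exists_central_part {N : ℕ} (G : Set (Mat N N)) (g : Submodule ℝ (Mat N N))
    (ξ : Mat N N) : ∃ c, IsCentralPart G g ξ c := by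
  let zc : Submodule ℝ (Mat N N) :=
    { carrier := {z | z ∈ g ∧ ∀ a ∈ G, a * z = z * a}
      add_mem' := fun {z w} hz hw => ⟨g.add_mem hz.1 hw.1, fun a ha => by
        rw [Matrix.mul_add, Matrix.add_mul, hz.2 a ha, hw.2 a ha]⟩
      zero_mem' := ⟨g.zero_mem, fun a _ => by rw [Matrix.mul_zero, Matrix.zero_mul]⟩
      smul_mem' := fun r z hz => ⟨g.smul_mem r hz.1, fun a ha => by
        rw [Matrix.mul_smul, Matrix.smul_mul, hz.2 a ha]⟩ }
  obtain ⟨pr, h1, h2⟩ := exists_proj zc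
  exact ⟨pr ξ, (h1 ξ).1, (h1 ξ).2, fun z hz hz' => h2 ξ z ⟨hz, hz'⟩⟩

variable {X : Type u} [TopologicalSpace X] [ChartedSpace E4 X] [IsManifold I4 ∞ X]
  [CompactSpace X] [T2Space X] [ConnectedSpace X] {K N : ℕ}
variable {G : Set (Mat N N)} {g : Submodule ℝ (Mat N N)} {F : X → Set (Mat K N)}

theorem main_noFat (hG : IsCompactGroup G g) (hF : IsPrincipal G F)
    (h : ∃ e : Fin 4 → ∀ x : X, T x, IsParallelization e) :
    ∀ s : Submodule ℝ (Mat N N), IsSu2Ideal G g s → ¬ FatOn G g F s := by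
  intro s hs
  obtain ⟨e, he⟩ := h
  exact no_fat hG hF hs he

theorem main_iff (hG : IsCompactGroup G g) (hF : IsPrincipal G F) {d : ℕ} {Y : Type}
    [TopologicalSpace Y] [ChartedSpace (EuclideanSpace ℝ (Fin d)) Y] [Nonempty Y]
    [CompactSpace Y] (Φ : Fibre G g d Y) (hμ : Continuous Φ.mu)
    (h : ∀ s : Submodule ℝ (Mat N N), IsSu2Ideal G g s → ¬ FatOn G g F s) :
    (∃ β : Form X 2, SmoothForm β ∧ ClosedForm β ∧ CouplingSymplectic G g F Φ β) ↔
      ∃ Ω : Form X 2, IsSymplectic Ω := by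
  constructor
  · rintro ⟨β, h1, h2, h3⟩
    obtain ⟨m⟩ := ‹Nonempty Y›
    obtain ⟨c, hc⟩ := exists_central_part G g (Φ.mu m)
    obtain ⟨Ω, hΩ, -⟩ := clauseA hG hF Φ h1 h2 h3 (fun ⟨s, hs, hf⟩ => h s hs hf) m c hc
    exact ⟨Ω, hΩ⟩
  · rintro ⟨Ω, hΩ⟩
    exact clauseB hG hF Φ hμ hΩ

end Pool.Agent.W_9986fc_G
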