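import Pool.Agent.W_9986fc_G.IpM
import Pool.Agent.W_9986fc_G.IpG
import Pool.Agent.W_9986fc_G.AlgExp

/-!
# The Lie algebra `g` as an abstract Lie algebra with invariant inner product

* `exists_model`: `i` from `exists_model_sub g`; `ad u v = i⁻¹ (i u * i v - i v * i u)` (`bracket_mem`), linear in
  both arguments, `LinearMap.toContinuousLinearMap`; `jacobi` and `antisymm` from the matrix identities and
  injectivity of `i`; `inv` from `ip_bracket`, `skewHerm`.
* `exists_ad`: `u ↦ i⁻¹ (k (i u) k*)`, `ad_mem`.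
-/

set_option autoImplicit false

open scoped Matrix RealInnerProductSpace

namespace Pool.Agent.W_9986fc_G

variable {N : ℕ} {G : Set (Mat N N)} {g : Submodule ℝ (Mat N N)}

/-- `i` identifies a Euclidean space with the Lie algebra `g` -/
structure IsModel (g : Submodule ℝ (Mat N N)) {n : ℕ}
    (i : EuclideanSpace ℝ (Fin n) →ₗ[ℝ] Mat N N) (L : LieIP (EuclideanSpace ℝ (Fin n))) : Prop where
  inner : ∀ u v, ip (i u) (i v) = ⟪u, v⟫
  range : LinearMap.range i = g
  bracket : ∀ u v, i (L.ad u v) = i u * i v - i v * i u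

/-- the adjoint group -/
def AdSet (G : Set (Mat N N)) {n : ℕ} (i : EuclideanSpace ℝ (Fin n) →ₗ[ℝ] Mat N N) :
    Set (EuclideanSpace ℝ (Fin n) →L[ℝ] EuclideanSpace ℝ (Fin n)) :=
  {a | ∃ k ∈ G, ∀ u, i (a u) = k * i u * kᴴ}

theorem Model_inj {n : ℕ} {i : EuclideanSpace ℝ (Fin n) →ₗ[ℝ] Mat N N}
    (h : ∀ u v, ip (i u) (i v) = ⟪u, v⟫) : Function.Injective i := by
  rw [← LinearMap.ker_eq_bot, LinearMap.ker_eq_bot']
  intro u hu
  have h1 := h u u
  rw [hu] at h1
  have h2 : ip (0 : Mat N N) 0 = 0 := by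
    unfold ip
    simp
  rw [h2] at h1
  exact inner_self_eq_zero.1 h1.symm

theorem exists_model (hG : IsCompactGroup G g) :
    ∃ (n : ℕ) (i : EuclideanSpace ℝ (Fin n) →ₗ[ℝ] Mat N N)
      (L : LieIP (EuclideanSpace ℝ (Fin n))), IsModel g i L := by
  obtain ⟨n, i, hi, hr⟩ := exists_model_sub g
  have hinj := Model_inj hi
  have hmem : ∀ u, i u ∈ g := fun u => by
    rw [← hr]
    exact ⟨u, rfl⟩
  have hex : ∀ u v, ∃ z, i z = i u * i v - i v * i u := by
    intro u v
    have h1 := hG.bracket_mem (hmem u) (hmem v)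
    rw [← hr] at h1
    exact h1
  choose f hf using hex
  let B : EuclideanSpace ℝ (Fin n) →ₗ[ℝ] EuclideanSpace ℝ (Fin n) →ₗ[ℝ]
      EuclideanSpace ℝ (Fin n) := LinearMap.mk₂ ℝ f
    (fun u u' v => hinj (by
      rw [map_add, hf, hf, hf, map_add, add_mul, mul_add]
      abel))
    (fun c u v => hinj (by
      rw [map_smul, hf, hf, map_smul, Matrix.smul_mul, Matrix.mul_smul, smul_sub]))
    (fun u v v' => hinj (by
      rw [map_add, hf, hf, hf, map_add, add_mul, mul_add]
      abel))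
    (fun c u v => hinj (by
      rw [map_smul, hf, hf, map_smul, Matrix.smul_mul, Matrix.mul_smul, smul_sub]))
  let T : (EuclideanSpace ℝ (Fin n) →ₗ[ℝ] EuclideanSpace ℝ (Fin n)) ≃ₗ[ℝ]
      (EuclideanSpace ℝ (Fin n) →L[ℝ] EuclideanSpace ℝ (Fin n)) :=
    LinearMap.toContinuousLinearMap
  obtain ⟨ad, had⟩ : ∃ ad : EuclideanSpace ℝ (Fin n) →ₗ[ℝ]
      (EuclideanSpace ℝ (Fin n) →L[ℝ] EuclideanSpace ℝ (Fin n)), ∀ u v, ad u v = f u v :=
    ⟨T.toLinearMap.comp B, fun u v => rfl⟩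
  refine ⟨n, i, ⟨ad, fun x y => ?_, fun x y z => ?_, fun x y z => ?_⟩, ⟨hi, hr, fun u v => ?_⟩⟩
  · rw [had, had]
    apply hinj
    rw [map_neg, hf, hf, neg_sub]
  · simp only [had]
    apply hinj
    rw [map_add, hf, hf, hf, hf, hf, hf]
    noncomm_ring
  · rw [had, had, ← hi, ← hi, hf, hf]
    exact ip_bracket (hG.skewHerm (hmem x)) (hG.skewHerm (hmem y)) (hG.skewHerm (hmem z))
  · exact (congrArg i (had u v)).trans (hf u v)

variable {n : ℕ} {i : EuclideanSpace ℝ (Fin n) →ₗ[ℝ] Mat N N}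
  {L : LieIP (EuclideanSpace ℝ (Fin n))}

theorem IsModel.mem (hM : IsModel g i L) (u : EuclideanSpace ℝ (Fin n)) : i u ∈ g := by
  rw [← hM.range]
  exact ⟨u, rfl⟩

theorem IsModel.injective (hM : IsModel g i L) : Function.Injective i := by
  exact Model_inj hM.inner

theorem IsModel.exists_ad (hM : IsModel g i L) (hG : IsCompactGroup G g) {k : Mat N N}
    (hk : k ∈ G) : ∃ a ∈ AdSet G i, ∀ u, i (a u) = k * i u * kᴴ := by
  have hex : ∀ u, ∃ z, i z = k * i u * kᴴ := by
    intro u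
    have h1 := hG.ad_mem hk (hM.mem u)
    rw [← hM.range] at h1
    exact h1
  choose f hf using hex
  have hinj := hM.injective
  let F : EuclideanSpace ℝ (Fin n) →ₗ[ℝ] EuclideanSpace ℝ (Fin n) :=
    { toFun := f
      map_add' := fun u v => hinj (by rw [map_add, hf, hf, hf, map_add, mul_add, add_mul])
      map_smul' := fun c u => hinj (by
        rw [RingHom.id_apply, map_smul, hf, hf, map_smul, Matrix.mul_smul, Matrix.smul_mul]) }
  have h1 : ∀ u, i (LinearMap.toContinuousLinearMap F u) = k * i u * kᴴ := fun u => hf u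
  exact ⟨LinearMap.toContinuousLinearMap F, ⟨k, hk, h1⟩, h1⟩

end Pool.Agent.W_9986fc_G
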