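import Mathlib

/-!
# Algebra of the Pontryagin form

* `pp_alg`: with `θ a = A * C a` the left side is the sum over permutations `σ` of `0, 1, 2, 3` (with sign, times
  `1/2 * 1/4`...) of the traces of the words in `B`, `C`, `θ`.  Let
  `w₂ a b c d = tr (B a C b B c C d)`, `w₁ a b c d = tr (B a C b θ c θ d)`, `w₀ a b c d = tr (θ a θ b θ c θ d)`.
  Expand: `F a b = B a C b - B b C a + θ a θ b - θ b θ a`.  Cyclicity: `w₀ a b c d = w₀ b c d a`, so the words `w₀`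
  cancel; `w₂ a b c d = w₂ c d a b`; `tr (θ a θ b B c C d) = w₁ c d a b`.  Right side: the first sum is
  `∑_σ sign σ w₂ (σ 0) (σ 1) (σ 2) (σ 3)` (`Matrix.det_apply`, or `Matrix.det_succ_row_zero` and the explicit formula);
  in the second sum each of the three terms of the first row gives `∑_σ sign σ w₁ (σ 0) (σ 1) (σ 2) (σ 3)` after
  renaming the summation indices (`A j q * C k? ..` combine to `θ`) and a cyclic permutation of the three
  factors `C`, which is even.  The identity was checked numerically.  (Suggestion: first prove a formula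
  `det4` for 4x4 determinants of rows `x, y, z, w` as a sum of 24 products, and for each product
  `∑_{i j p q} x_ip y_pj z_jq w_qi = tr`; then both sides are linear combinations of traces.)
* `proj_alg`: `T = A W`, `S = Wᵀ A⁻¹`, `W Wᵀ = 1`.  With `δ a = dW a * (1 - Wᵀ W)`:
  `dT a dS b = (dA a W + A dW a) (dW bᵀ A⁻¹ - Wᵀ A⁻¹ dA b A⁻¹)`, `T dS a = A W dW aᵀ A⁻¹ - dA a A⁻¹`, and
  `W dW aᵀ = - dW a Wᵀ`, `δ a (δ b)ᵀ = dW a dW bᵀ - dW a Wᵀ W dW bᵀ` (`1 - Wᵀ W` is a symmetric idempotent).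
-/

set_option autoImplicit false

open scoped Matrix

namespace Pool.Agent.W_9986fc_G

variable {P : Type} [Fintype P] [DecidableEq P]

/-- the curvature matrix of the projection connection -/
noncomputable def FA (A : Matrix (Fin 3) P ℝ) (B : Fin 4 → Matrix (Fin 3) P ℝ)
    (C : Fin 4 → Matrix P (Fin 3) ℝ) (a b : Fin 4) : Matrix (Fin 3) (Fin 3) ℝ :=
  B a * C b - B b * C a + (A * C a * (A * C b) - A * C b * (A * C a))

/-- the alternating sum -/
def PAlg_S (w : Fin 4 → Fin 4 → Fin 4 → Fin 4 → ℝ) : ℝ :=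
  w 0 1 2 3 - w 0 1 3 2 - w 0 2 1 3 + w 0 2 3 1
    + w 0 3 1 2 - w 0 3 2 1 - w 1 0 2 3 + w 1 0 3 2
    + w 1 2 0 3 - w 1 2 3 0 - w 1 3 0 2 + w 1 3 2 0
    + w 2 0 1 3 - w 2 0 3 1 - w 2 1 0 3 + w 2 1 3 0
    + w 2 3 0 1 - w 2 3 1 0 - w 3 0 1 2 + w 3 0 2 1
    + w 3 1 0 2 - w 3 1 2 0 - w 3 2 0 1 + w 3 2 1 0

theorem PAlg_S_sum {ι : Type} [Fintype ι] (w : ι → Fin 4 → Fin 4 → Fin 4 → Fin 4 → ℝ) :
    ∑ i, PAlg_S (w i) = PAlg_S fun a b c d => ∑ i, w i a b c d := by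
  unfold PAlg_S
  simp only [Finset.sum_add_distrib, Finset.sum_sub_distrib]

theorem PAlg_S_add (w w' : Fin 4 → Fin 4 → Fin 4 → Fin 4 → ℝ) :
    PAlg_S (fun a b c d => w a b c d + w' a b c d) = PAlg_S w + PAlg_S w' := by
  unfold PAlg_S
  ring

theorem PAlg_det4 (x0 x1 x2 x3 : Fin 4 → ℝ) :
    Matrix.det (Matrix.of ![x0, x1, x2, x3]) =
      PAlg_S fun a b c d => x0 a * x1 b * x2 c * x3 d := by
  unfold PAlg_S
  simp [Matrix.det_succ_row_zero, Fin.sum_univ_succ, Fin.succAbove]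
  ring

noncomputable def PAlg_w2 (B : Fin 4 → Matrix (Fin 3) P ℝ) (C : Fin 4 → Matrix P (Fin 3) ℝ)
    (a b c d : Fin 4) : ℝ := (B a * C b * (B c * C d)).trace

noncomputable def PAlg_w1 (A : Matrix (Fin 3) P ℝ) (B : Fin 4 → Matrix (Fin 3) P ℝ)
    (C : Fin 4 → Matrix P (Fin 3) ℝ) (a b c d : Fin 4) : ℝ :=
  (B a * C b * (A * C c * (A * C d))).trace

noncomputable def PAlg_w0 (A : Matrix (Fin 3) P ℝ) (C : Fin 4 → Matrix P (Fin 3) ℝ)
    (a b c d : Fin 4) : ℝ := (A * C a * (A * C b) * (A * C c * (A * C d))).trace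

omit [DecidableEq P] in
theorem PAlg_tr (A : Matrix (Fin 3) P ℝ) (B : Fin 4 → Matrix (Fin 3) P ℝ)
    (C : Fin 4 → Matrix P (Fin 3) ℝ) (a b c d : Fin 4) :
    (FA A B C a b * FA A B C c d).trace =
      (PAlg_w2 B C a b c d - PAlg_w2 B C a b d c - PAlg_w2 B C b a c d + PAlg_w2 B C b a d c) +
      (PAlg_w1 A B C a b c d - PAlg_w1 A B C a b d c - PAlg_w1 A B C b a c d +
        PAlg_w1 A B C b a d c) +
      (PAlg_w1 A B C c d a b - PAlg_w1 A B C c d b a - PAlg_w1 A B C d c a b +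
        PAlg_w1 A B C d c b a) +
      (PAlg_w0 A C a b c d - PAlg_w0 A C a b d c - PAlg_w0 A C b a c d + PAlg_w0 A C b a d c) := by
  have h : ∀ a b c d, (A * C a * (A * C b) * (B c * C d)).trace = PAlg_w1 A B C c d a b := by
    intro a b c d
    rw [Matrix.trace_mul_comm]
    rfl
  unfold FA
  simp only [Matrix.add_mul, Matrix.mul_add, Matrix.sub_mul, Matrix.mul_sub, Matrix.trace_add,
    Matrix.trace_sub, h]
  unfold PAlg_w2 PAlg_w1 PAlg_w0
  ring

omit [DecidableEq P] in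
theorem PAlg_sum2 (X Y : Matrix (Fin 3) P ℝ) (U V : Matrix P (Fin 3) ℝ) :
    ∑ i, ∑ j, ∑ p, ∑ q, X i p * U p j * Y j q * V q i = (X * U * (Y * V)).trace := by
  rw [Matrix.trace]
  refine Finset.sum_congr rfl fun i _ => ?_
  rw [Matrix.diag_apply, Matrix.mul_apply]
  refine Finset.sum_congr rfl fun j _ => ?_
  rw [Matrix.mul_apply, Matrix.mul_apply, Finset.sum_mul_sum]
  refine Finset.sum_congr rfl fun p _ => Finset.sum_congr rfl fun q _ => ?_
  ring

omit [DecidableEq P] in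
theorem PAlg_sum3 (X Y Z : Matrix (Fin 3) P ℝ) (U V T : Matrix P (Fin 3) ℝ) :
    ∑ i, ∑ j, ∑ k, ∑ p, ∑ q, ∑ r, X i p * Y j q * Z k r * U p j * V q k * T r i =
      (X * U * (Y * V) * (Z * T)).trace := by
  rw [Matrix.trace]
  refine Finset.sum_congr rfl fun i _ => ?_
  rw [Matrix.diag_apply, Matrix.mul_apply, Finset.sum_comm]
  refine Finset.sum_congr rfl fun k _ => ?_
  rw [Matrix.mul_apply, Finset.sum_mul]
  refine Finset.sum_congr rfl fun j _ => ?_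
  rw [Matrix.mul_apply, Matrix.mul_apply, Matrix.mul_apply, Finset.sum_mul_sum, Finset.sum_mul]
  refine Finset.sum_congr rfl fun p _ => ?_
  rw [Finset.sum_mul_sum]
  refine Finset.sum_congr rfl fun q _ => Finset.sum_congr rfl fun r _ => ?_
  ring

theorem pp_alg (A : Matrix (Fin 3) P ℝ) (B : Fin 4 → Matrix (Fin 3) P ℝ)
    (C : Fin 4 → Matrix P (Fin 3) ℝ) :
    (FA A B C 0 1 * FA A B C 2 3).trace - (FA A B C 0 2 * FA A B C 1 3).trace +
      (FA A B C 0 3 * FA A B C 1 2).trace =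
    (1 / 2) * ∑ i, ∑ j, ∑ p, ∑ q, Matrix.det (Matrix.of
      ![fun a => B a i p, fun a => C a p j, fun a => B a j q, fun a => C a q i]) +
    (1 / 3) * ∑ i, ∑ j, ∑ k, ∑ p, ∑ q, ∑ r, Matrix.det (Matrix.of
      ![fun a => B a i p * A j q * A k r + A i p * B a j q * A k r + A i p * A j q * B a k r,
        fun a => C a p j, fun a => C a q k, fun a => C a r i]) := by
  have hR1 : ∑ i, ∑ j, ∑ p, ∑ q, Matrix.det (Matrix.of
      ![fun a => B a i p, fun a => C a p j, fun a => B a j q, fun a => C a q i]) =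
      PAlg_S (PAlg_w2 B C) := by
    simp only [PAlg_det4, PAlg_S_sum, PAlg_sum2]
    rfl
  have hR2 : ∑ i, ∑ j, ∑ k, ∑ p, ∑ q, ∑ r, Matrix.det (Matrix.of
      ![fun a => B a i p * A j q * A k r + A i p * B a j q * A k r + A i p * A j q * B a k r,
        fun a => C a p j, fun a => C a q k, fun a => C a r i]) =
      PAlg_S (PAlg_w1 A B C) + PAlg_S (fun a b c d => PAlg_w1 A B C a c d b) +
        PAlg_S (fun a b c d => PAlg_w1 A B C a d b c) := by
    rw [← PAlg_S_add, ← PAlg_S_add]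
    simp only [PAlg_det4, PAlg_S_sum, add_mul, Finset.sum_add_distrib, PAlg_sum3]
    congr 1
    funext a b c d
    unfold PAlg_w1
    congr 1
    · congr 1
      · rw [Matrix.mul_assoc]
      · rw [Matrix.mul_assoc, Matrix.trace_mul_comm, Matrix.mul_assoc]
    · rw [Matrix.trace_mul_comm, Matrix.mul_assoc]
  have h2 : ∀ a b c d, PAlg_w2 B C a b c d = PAlg_w2 B C c d a b := by
    intro a b c d
    unfold PAlg_w2
    rw [Matrix.trace_mul_comm]
  have h0 : ∀ a b c d, PAlg_w0 A C a b c d = PAlg_w0 A C b c d a := by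
    intro a b c d
    have h : ∀ X Y Z V : Matrix (Fin 3) (Fin 3) ℝ,
        (X * Y * (Z * V)).trace = (Y * Z * (V * X)).trace := by
      intro X Y Z V
      rw [Matrix.mul_assoc X Y, Matrix.trace_mul_comm]
      simp only [Matrix.mul_assoc]
    exact h _ _ _ _
  rw [PAlg_tr, PAlg_tr, PAlg_tr, hR1, hR2]
  unfold PAlg_S
  linear_combination 1/2 * h2 0 1 2 3 +
    (-1/2) * h2 0 1 3 2 +
    (-1/2) * h2 1 0 2 3 +
    1/2 * h2 1 0 3 2 +
    (-1/2) * h2 0 2 1 3 +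
    1/2 * h2 0 2 3 1 +
    1/2 * h2 2 0 1 3 +
    (-1/2) * h2 2 0 3 1 +
    1/2 * h2 0 3 1 2 +
    (-1/2) * h2 0 3 2 1 +
    (-1/2) * h2 3 0 1 2 +
    1/2 * h2 3 0 2 1 +
    (-1) * h0 3 0 1 2 +
    1 * h0 2 0 1 3 +
    (-1) * h0 1 0 2 3 +
    1 * h0 1 0 3 2 +
    1 * h0 3 0 2 1 +
    (-1) * h0 2 0 3 1

theorem proj_alg {A : Matrix (Fin 3) (Fin 3) ℝ} (hA : A.det ≠ 0)
    {dA : Fin 4 → Matrix (Fin 3) (Fin 3) ℝ} {W : Matrix (Fin 3) P ℝ} (hW : W * Wᵀ = 1)
    {dW : Fin 4 → Matrix (Fin 3) P ℝ} (hdW : ∀ a, dW a * Wᵀ + W * (dW a)ᵀ = 0)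
    (a b : Fin 4) :
    FA (A * W) (fun c => dA c * W + A * dW c)
      (fun c => (dW c)ᵀ * A⁻¹ - Wᵀ * (A⁻¹ * dA c * A⁻¹)) a b =
    A * (dW a * (1 - Wᵀ * W) * (dW b * (1 - Wᵀ * W))ᵀ -
      dW b * (1 - Wᵀ * W) * (dW a * (1 - Wᵀ * W))ᵀ) * A⁻¹ := by
  have hu : IsUnit A.det := isUnit_iff_ne_zero.2 hA
  obtain ⟨R, hR⟩ : ∃ R, R = A⁻¹ := ⟨_, rfl⟩
  have hRA : R * A = 1 := by rw [hR]; exact Matrix.nonsing_inv_mul A hu
  have hAR : A * R = 1 := by rw [hR]; exact Matrix.mul_nonsing_inv A hu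
  rw [← hR]
  have hK : ∀ c, dW c * Wᵀ = -(W * (dW c)ᵀ) := fun c => eq_neg_of_add_eq_zero_left (hdW c)
  -- `T C`
  have hTC : ∀ c, A * W * ((dW c)ᵀ * R - Wᵀ * (R * dA c * R)) =
      A * (W * (dW c)ᵀ) * R - dA c * R := by
    intro c
    rw [Matrix.mul_sub]
    have e1 : A * W * ((dW c)ᵀ * R) = A * (W * (dW c)ᵀ) * R := by
      simp only [Matrix.mul_assoc]
    have e2 : A * W * (Wᵀ * (R * dA c * R)) = dA c * R := by
      have e3 : A * W * (Wᵀ * (R * dA c * R)) = A * (W * Wᵀ) * (R * dA c * R) := by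
        simp only [Matrix.mul_assoc]
      rw [e3, hW, Matrix.mul_one, Matrix.mul_assoc R, ← Matrix.mul_assoc A R, hAR, Matrix.one_mul]
    rw [e1, e2]
  have hBC : ∀ c d, (dA c * W + A * dW c) * ((dW d)ᵀ * R - Wᵀ * (R * dA d * R)) =
      dA c * (W * (dW d)ᵀ) * R + A * (dW c * (dW d)ᵀ) * R - dA c * (R * dA d * R) +
        A * (W * (dW c)ᵀ) * (R * dA d * R) := by
    intro c d
    rw [Matrix.add_mul, Matrix.mul_sub, Matrix.mul_sub]
    have e1 : dA c * W * ((dW d)ᵀ * R) = dA c * (W * (dW d)ᵀ) * R := by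
      simp only [Matrix.mul_assoc]
    have e2 : dA c * W * (Wᵀ * (R * dA d * R)) = dA c * (R * dA d * R) := by
      have e3 : dA c * W * (Wᵀ * (R * dA d * R)) = dA c * (W * Wᵀ) * (R * dA d * R) := by
        simp only [Matrix.mul_assoc]
      rw [e3, hW, Matrix.mul_one]
    have e4 : A * dW c * ((dW d)ᵀ * R) = A * (dW c * (dW d)ᵀ) * R := by
      simp only [Matrix.mul_assoc]
    have e5 : A * dW c * (Wᵀ * (R * dA d * R)) = -(A * (W * (dW c)ᵀ) * (R * dA d * R)) := by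
      have e6 : A * dW c * (Wᵀ * (R * dA d * R)) = A * (dW c * Wᵀ) * (R * dA d * R) := by
        simp only [Matrix.mul_assoc]
      rw [e6, hK, Matrix.mul_neg, Matrix.neg_mul]
    rw [e1, e2, e4, e5]
    abel
  have hTT : ∀ c d, (A * (W * (dW c)ᵀ) * R - dA c * R) * (A * (W * (dW d)ᵀ) * R - dA d * R) =
      A * (W * (dW c)ᵀ * (W * (dW d)ᵀ)) * R - A * (W * (dW c)ᵀ) * (R * dA d * R) -
        dA c * (W * (dW d)ᵀ) * R + dA c * (R * dA d * R) := by
    intro c d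
    rw [Matrix.sub_mul, Matrix.mul_sub, Matrix.mul_sub]
    have e1 : A * (W * (dW c)ᵀ) * R * (A * (W * (dW d)ᵀ) * R) =
        A * (W * (dW c)ᵀ * (W * (dW d)ᵀ)) * R := by
      have e : A * (W * (dW c)ᵀ) * R * (A * (W * (dW d)ᵀ) * R) =
          A * (W * (dW c)ᵀ) * (R * A) * ((W * (dW d)ᵀ) * R) := by
        simp only [Matrix.mul_assoc]
      rw [e, hRA, Matrix.mul_one]
      simp only [Matrix.mul_assoc]
    have e2 : A * (W * (dW c)ᵀ) * R * (dA d * R) = A * (W * (dW c)ᵀ) * (R * dA d * R) := by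
      simp only [Matrix.mul_assoc]
    have e3 : dA c * R * (A * (W * (dW d)ᵀ) * R) = dA c * (W * (dW d)ᵀ) * R := by
      have e : dA c * R * (A * (W * (dW d)ᵀ) * R) = dA c * (R * A) * ((W * (dW d)ᵀ) * R) := by
        simp only [Matrix.mul_assoc]
      rw [e, hRA, Matrix.mul_one]
      simp only [Matrix.mul_assoc]
    have e4 : dA c * R * (dA d * R) = dA c * (R * dA d * R) := by
      simp only [Matrix.mul_assoc]
    rw [e1, e2, e3, e4]
    abel
  have hδ : ∀ c d, dW c * (1 - Wᵀ * W) * (dW d * (1 - Wᵀ * W))ᵀ =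
      dW c * (dW d)ᵀ + W * (dW c)ᵀ * (W * (dW d)ᵀ) := by
    intro c d
    have hI : (1 - Wᵀ * W) * (1 - Wᵀ * W)ᵀ = 1 - Wᵀ * W := by
      rw [Matrix.transpose_sub, Matrix.transpose_one, Matrix.transpose_mul,
        Matrix.transpose_transpose, Matrix.sub_mul, Matrix.one_mul, Matrix.mul_sub, Matrix.mul_one]
      have e : Wᵀ * W * (Wᵀ * W) = Wᵀ * W := by
        rw [Matrix.mul_assoc, ← Matrix.mul_assoc W, hW, Matrix.one_mul]
      rw [e, sub_self, sub_zero]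
    rw [Matrix.transpose_mul, ← Matrix.mul_assoc, Matrix.mul_assoc (dW c), hI, Matrix.mul_sub,
      Matrix.mul_one, Matrix.sub_mul]
    have e : dW c * (Wᵀ * W) * (dW d)ᵀ = (dW c * Wᵀ) * (W * (dW d)ᵀ) := by
      simp only [Matrix.mul_assoc]
    rw [e, hK, Matrix.neg_mul, sub_neg_eq_add]
  unfold FA
  rw [hTC, hTC, hBC, hBC, hTT, hTT, hδ, hδ, Matrix.mul_sub, Matrix.sub_mul, Matrix.mul_add,
    Matrix.mul_add, Matrix.add_mul, Matrix.add_mul]
  abel

end Pool.Agent.W_9986fc_G
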