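import Pool.Agent.W_9986fc_G.Integ
import Pool.Agent.W_9986fc_G.PAlg

/-!
# The integral of the Pontryagin form of a projection connection is zero

`pp_alg` at each point with `B a = dRM A x (e a x)`, `C a = dRM S x (e a x)`: the determinants are
`du4 e ![A i p, S p j, A j q, S q i] x` and `du4 e ![A i p * A j q * A k r, S p j, S q k, S r i] x` (`dR_mul` for
the triple product).  `IsIntegral.add`, `smul`, `stokes` (finite sums by induction, or `Finset.sum_induction`;
`du4` of smooth functions is continuous by `smooth_dR`).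
-/

set_option autoImplicit false

open scoped Manifold ContDiff Matrix

namespace Pool.Agent.W_9986fc_G

open Pool.Agent.W_MP_d8b8b7_S

universe u

variable {X : Type u} [TopologicalSpace X] [ChartedSpace E4 X]

/-- entrywise derivative of a real matrix function -/
noncomputable def dRM {m p : Type} (M : X → Matrix m p ℝ) (x : X) (v : T x) : Matrix m p ℝ :=
  Matrix.of fun i j => dR (fun y => M y i j) x v

/-- matrix function with smooth entries -/
def SmM {m p : Type} (M : X → Matrix m p ℝ) : Prop := ∀ i j, SmR (fun y => M y i j)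

theorem PInt_dRM_apply {m p : Type} (M : X → Matrix m p ℝ) (x : X) (v : T x) (i : m) (j : p) :
    dRM M x v i j = dR (fun y => M y i j) x v := rfl

variable {P : Type} [Fintype P] [DecidableEq P]

/-- the curvature of the projection connection of `A`, `S` in the frame `e` -/
noncomputable def FX (e : Fin 4 → ∀ x : X, T x) (A : X → Matrix (Fin 3) P ℝ)
    (S : X → Matrix P (Fin 3) ℝ) (x : X) : Fin 4 → Fin 4 → Matrix (Fin 3) (Fin 3) ℝ :=
  FA (A x) (fun a => dRM A x (e a x)) (fun a => dRM S x (e a x))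

/-- the Pontryagin form on the frame `e` -/
noncomputable def pp (e : Fin 4 → ∀ x : X, T x) (A : X → Matrix (Fin 3) P ℝ)
    (S : X → Matrix P (Fin 3) ℝ) (x : X) : ℝ :=
  (FX e A S x 0 1 * FX e A S x 2 3).trace - (FX e A S x 0 2 * FX e A S x 1 3).trace +
    (FX e A S x 0 3 * FX e A S x 1 2).trace

/-- continuous functions with vanishing integral -/
def PInt_Z (I : (X → ℝ) → ℝ) (h : X → ℝ) : Prop := Continuous h ∧ I h = 0

theorem PInt_Z_add {e : Fin 4 → ∀ x : X, T x} {I : (X → ℝ) → ℝ} (hI : IsIntegral e I)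
    {h k : X → ℝ} (hh : PInt_Z I h) (hk : PInt_Z I k) : PInt_Z I (fun x => h x + k x) :=
  ⟨hh.1.add hk.1, by rw [hI.add h k hh.1 hk.1, hh.2, hk.2, add_zero]⟩

theorem PInt_Z_smul {e : Fin 4 → ∀ x : X, T x} {I : (X → ℝ) → ℝ} (hI : IsIntegral e I)
    (c : ℝ) {h : X → ℝ} (hh : PInt_Z I h) : PInt_Z I (fun x => c * h x) :=
  ⟨continuous_const.mul hh.1, by rw [hI.smul c h hh.1, hh.2, mul_zero]⟩

theorem PInt_Z_sum {e : Fin 4 → ∀ x : X, T x} {I : (X → ℝ) → ℝ} (hI : IsIntegral e I)
    {ι : Type} [Fintype ι] {h : ι → X → ℝ} (hh : ∀ i, PInt_Z I (h i)) :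
    PInt_Z I (fun x => ∑ i, h i x) := by
  classical
  have key : ∀ s : Finset ι, PInt_Z I (fun x => ∑ i ∈ s, h i x) := by
    intro s
    induction s using Finset.induction_on with
    | empty =>
      simp only [Finset.sum_empty]
      refine ⟨continuous_const, ?_⟩
      have h1 := hI.smul 0 (fun _ => 0) continuous_const
      simpa using h1
    | insert a t ha ih =>
      simp only [Finset.sum_insert ha]
      exact PInt_Z_add hI (hh a) ih
  exact key Finset.univ

variable [IsManifold I4 ∞ X]

theorem continuous_du4 {e : Fin 4 → ∀ x : X, T x} (he : IsParallelization e)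
    {u : Fin 4 → X → ℝ} (hu : ∀ a, SmR (u a)) : Continuous (du4 e u) := by
  unfold du4
  refine Continuous.matrix_det ?_
  refine continuous_matrix fun a b => ?_
  exact (smooth_dR (hu a) he b).continuous

theorem PInt_dRM {m p : Type} {e : Fin 4 → ∀ x : X, T x} (he : IsParallelization e)
    {M : X → Matrix m p ℝ} (hM : SmM M) (a : Fin 4) : Continuous fun x => dRM M x (e a x) := by
  refine continuous_matrix fun i j => ?_
  exact (smooth_dR (hM i j) he a).continuous

omit [DecidableEq P] in
theorem continuous_pp {e : Fin 4 → ∀ x : X, T x} (he : IsParallelization e)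
    {A : X → Matrix (Fin 3) P ℝ} {S : X → Matrix P (Fin 3) ℝ} (hA : SmM A) (hS : SmM S) :
    Continuous (pp e A S) := by
  have hA' : Continuous A := continuous_matrix fun i j => (hA i j).continuous
  have hF : ∀ a b, Continuous fun x => FX e A S x a b := by
    intro a b
    unfold FX FA
    have hB := PInt_dRM he hA
    have hC := PInt_dRM he hS
    exact (((hB a).matrix_mul (hC b)).sub ((hB b).matrix_mul (hC a))).add
      (((hA'.matrix_mul (hC a)).matrix_mul (hA'.matrix_mul (hC b))).sub
        ((hA'.matrix_mul (hC b)).matrix_mul (hA'.matrix_mul (hC a))))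
  unfold pp
  exact ((((hF 0 1).matrix_mul (hF 2 3)).matrix_trace).sub
    (((hF 0 2).matrix_mul (hF 1 3)).matrix_trace)).add
      (((hF 0 3).matrix_mul (hF 1 2)).matrix_trace)

theorem integral_pp {e : Fin 4 → ∀ x : X, T x} (he : IsParallelization e)
    {I : (X → ℝ) → ℝ} (hI : IsIntegral e I) {A : X → Matrix (Fin 3) P ℝ}
    {S : X → Matrix P (Fin 3) ℝ} (hA : SmM A) (hS : SmM S) : I (pp e A S) = 0 := by
  have hZ : ∀ u0 u1 u2 u3 : X → ℝ, SmR u0 → SmR u1 → SmR u2 → SmR u3 →
      PInt_Z I (du4 e ![u0, u1, u2, u3]) := by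
    intro u0 u1 u2 u3 h0 h1 h2 h3
    have h : ∀ a, SmR ((![u0, u1, u2, u3] : Fin 4 → X → ℝ) a) := by
      intro a
      fin_cases a
      · exact h0
      · exact h1
      · exact h2
      · exact h3
    exact ⟨continuous_du4 he h, hI.stokes _ h⟩
  have hdet : ∀ (u0 u1 u2 u3 : X → ℝ) (x : X), du4 e ![u0, u1, u2, u3] x =
      Matrix.det (Matrix.of ![fun a => dR u0 x (e a x), fun a => dR u1 x (e a x),
        fun a => dR u2 x (e a x), fun a => dR u3 x (e a x)]) := by
    intro u0 u1 u2 u3 x
    unfold du4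
    congr 1
    ext a b
    fin_cases a <;> rfl
  have hpp : pp e A S = fun x =>
      (1 / 2) * (∑ i, ∑ j, ∑ p, ∑ q, du4 e ![fun y => A y i p, fun y => S y p j,
        fun y => A y j q, fun y => S y q i] x) +
      (1 / 3) * (∑ i, ∑ j, ∑ k, ∑ p, ∑ q, ∑ r, du4 e
        ![fun y => A y i p * A y j q * A y k r, fun y => S y p j, fun y => S y q k,
          fun y => S y r i] x) := by
    funext x
    have h1 := pp_alg (A x) (fun a => dRM A x (e a x)) (fun a => dRM S x (e a x))
    have h2 : ∀ i p j q k r a, dR (fun y => A y i p * A y j q * A y k r) x (e a x) =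
        dRM A x (e a x) i p * A x j q * A x k r + A x i p * dRM A x (e a x) j q * A x k r +
          A x i p * A x j q * dRM A x (e a x) k r := by
      intro i p j q k r a
      rw [dR_mul ((hA i p).mul (hA j q)) (hA k r), dR_mul (hA i p) (hA j q), PInt_dRM_apply,
        PInt_dRM_apply, PInt_dRM_apply]
      ring
    simp only [hdet, h2, ← PInt_dRM_apply]
    exact h1
  rw [hpp]
  refine (PInt_Z_add hI (PInt_Z_smul hI _ ?_) (PInt_Z_smul hI _ ?_)).2
  · exact PInt_Z_sum hI fun i => PInt_Z_sum hI fun j => PInt_Z_sum hI fun p =>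
      PInt_Z_sum hI fun q => hZ _ _ _ _ (hA i p) (hS p j) (hA j q) (hS q i)
  · exact PInt_Z_sum hI fun i => PInt_Z_sum hI fun j => PInt_Z_sum hI fun k =>
      PInt_Z_sum hI fun p => PInt_Z_sum hI fun q => PInt_Z_sum hI fun r =>
      hZ _ _ _ _ (((hA i p).mul (hA j q)).mul (hA k r)) (hS p j) (hS q k) (hS r i)

end Pool.Agent.W_9986fc_G
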