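import Pool.Agent.W_9986fc_G.TMapC

/-!
# The value of the Pontryagin form

Let `f ∈ F x`, `σ` a section with `σ x = f`, `D_a = hor x f (e a x)`, so `dM σ x (e a x) = D_a + f ξ_a` with `ξ_a ∈ g`
(`hor_section`).
* `dWm_orth`: `(dWm η f D) Wᵀ + W (dWm η f D)ᵀ = 0` if `f* D` is skew: `ip` computation, entries
  `ip [Z, η i] (η j) + ip (η i) [Z, η j] = 0`, `Z = f* D`.
* `dWm_proj`: `dWm η f (D + f ξ) * (1 - Wᵀ W) = dWm η f D` for `ξ ∈ g`, `D` horizontal: `dWm` is additive in `D`;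
  `dWm η f (f ξ)` has rows `co (f [ξ, η i] f*)`, `[ξ, η i] ∈ s`, which are combinations of the rows of `W`, so it is `c W`
  and `c W (1 - Wᵀ W) = 0`; `dWm η f D * Wᵀ = 0` by `hor_perp` (`[η j, η k] ∈ s ≤ g`).
* `R_entry`: `(dWm η f D (dWm η f D')ᵀ - dWm η f D' (dWm η f D)ᵀ) k j = ip [η j, η k] (D* D' - D'* D)`: `co_ip`, `hor_curv`.
* `bracket_mem_s`: `[ξ, η] ∈ s` for `ξ ∈ g`, `η ∈ s`: derivative of `exp (t ξ) η exp (t ξ)* ∈ s` (as in `IpG`).
* `pp_val`: `proj_alg` with `dW a = dWm η f (dM σ x (e a x))`; `FX .. a b = A R_ab A⁻¹` with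
  `R_ab k j = curv x f [η j, η k] (e a) (e b)`; `trace (A R A⁻¹ A R' A⁻¹) = trace (R R')`
  `= ∑ k j, R k j * R' j k`, and `R' j k = - curv x f [η j, η k] (..)`.
-/

set_option autoImplicit false

open scoped Manifold ContDiff Matrix

namespace Pool.Agent.W_9986fc_G

open Pool.Agent.W_MP_d8b8b7_S

universe u

variable {X : Type u} [TopologicalSpace X] [ChartedSpace E4 X] [IsManifold I4 ∞ X] {K N : ℕ}
variable {G : Set (Mat N N)} {g s : Submodule ℝ (Mat N N)} {F : X → Set (Mat K N)}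
  {e : Fin 4 → ∀ x : X, T x} {η : Fin 3 → Mat N N}

section

open scoped Matrix.Norms.Operator

theorem bracket_mem_s (hG : IsCompactGroup G g) (hs : IsSu2Ideal G g s) {ξ η : Mat N N}
    (h : ξ ∈ g) (h' : η ∈ s) : ξ * η - η * ξ ∈ s := by
  have h1 : ∀ t : ℝ, NormedSpace.exp (t • ξ) * η * NormedSpace.exp (t • (-ξ)) ∈ s := by
    intro t
    have h2 := hs.inv _ ((hG.lie ξ).1 h t) η h'
    rwa [← Matrix.exp_conjTranspose, Matrix.conjTranspose_smul, star_trivial,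
      hG.skewHerm h] at h2
  have h3 := ((IpG_deriv ξ).mul (hasDerivAt_const (0 : ℝ) η)).mul (IpG_deriv (-ξ))
  have h4 : HasDerivAt (fun t : ℝ => NormedSpace.exp (t • ξ) * η * NormedSpace.exp (t • (-ξ)))
      (ξ * η - η * ξ) 0 := by
    simp only [Pi.mul_apply, zero_smul, NormedSpace.exp_zero, mul_zero, add_zero, mul_one, one_mul,
      mul_neg, ← sub_eq_add_neg] at h3
    exact h3
  have h5 : IsClosed (s : Set (Mat N N)) := s.closed_of_finiteDimensional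
  refine h5.mem_of_tendsto (hasDerivAt_iff_tendsto_slope.1 h4) (Filter.Eventually.of_forall ?_)
  intro t
  exact s.smul_mem _ (s.sub_mem (h1 t) (h1 0))

end

omit [IsManifold I4 ∞ X] [TopologicalSpace X] [ChartedSpace E4 X] in
theorem PVal_ip_sub_right (A B C : Mat K N) : ip A (B - C) = ip A B - ip A C := by
  rw [sub_eq_add_neg, ip_add_right, ← neg_one_smul ℝ C, ip_smul_right]
  ring

theorem dWm_orth (hG : IsCompactGroup G g) (hs : IsSu2Ideal G g s) (hη : IsOnb s η)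
    {f D : Mat K N} (hf : fᴴ * f = 1) (hD : (fᴴ * D)ᴴ = -(fᴴ * D)) :
    dWm η f D * (Wm η f)ᵀ + Wm η f * (dWm η f D)ᵀ = 0 := by
  have key : ∀ i j : Fin 3, ip (D * η i * fᴴ + f * η i * Dᴴ) (f * η j * fᴴ) =
      ip (η j) (fᴴ * D * η i) + ip (η i) (η j * (fᴴ * D)) := by
    intro i j
    rw [ip_add_left]
    congr 1
    · rw [ip_mul_right, Matrix.conjTranspose_conjTranspose, Matrix.mul_assoc (f * η j), hf,
        Matrix.mul_one, ip_comm, ip_mul_left, Matrix.mul_assoc]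
    · rw [Matrix.mul_assoc, ip_mul_left, ← Matrix.mul_assoc, ← Matrix.mul_assoc, hf,
        Matrix.one_mul, ip_mul_right, Matrix.conjTranspose_conjTranspose, Matrix.mul_assoc]
  have hneg : ∀ A B : Mat N N, ip A (-B) = - ip A B := by
    intro A B
    rw [← neg_one_smul ℝ B, ip_smul_right]
    ring
  have h1 : ∀ i j : Fin 3, ip (η j) (fᴴ * D * η i) = - ip (η i) (fᴴ * D * η j) := by
    intro i j
    rw [ip_comm, ip_mul_left, hD, Matrix.neg_mul, hneg]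
  have h2 : ∀ i j : Fin 3, ip (η i) (η j * (fᴴ * D)) = - ip (η j) (η i * (fᴴ * D)) := by
    intro i j
    rw [ip_comm, ip_mul_right, hD, Matrix.mul_neg, hneg]
  ext i j
  rw [Matrix.add_apply, Matrix.mul_apply, Matrix.mul_apply, Matrix.zero_apply]
  have e1 : ∑ p, dWm η f D i p * (Wm η f)ᵀ p j =
      ip (D * η i * fᴴ + f * η i * Dᴴ) (f * η j * fᴴ) := co_ip _ _
  have e2 : ∑ p, Wm η f i p * (dWm η f D)ᵀ p j =
      ip (f * η i * fᴴ) (D * η j * fᴴ + f * η j * Dᴴ) := co_ip _ _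
  rw [e1, e2, ip_comm (f * η i * fᴴ), key, key, h1 i j, h2 i j]
  ring

theorem dWm_proj (hG : IsCompactGroup G g) (hs : IsSu2Ideal G g s) (hη : IsOnb s η)
    {f D : Mat K N} (hf : fᴴ * f = 1) (hD : (fᴴ * D)ᴴ = -(fᴴ * D))
    (hD' : ∀ ζ ∈ g, ip ζ (fᴴ * D) = 0) {ξ : Mat N N} (hξ : ξ ∈ g) :
    dWm η f (D + f * ξ) * (1 - (Wm η f)ᵀ * Wm η f) = dWm η f D := by
  have hW : Wm η f * (Wm η f)ᵀ = 1 := Wm_mul hη hf
  have hlin : dWm η f (D + f * ξ) = dWm η f D + dWm η f (f * ξ) := by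
    ext i p
    show co ((D + f * ξ) * η i * fᴴ + f * η i * (D + f * ξ)ᴴ) p =
      co (D * η i * fᴴ + f * η i * Dᴴ) p + co (f * ξ * η i * fᴴ + f * η i * (f * ξ)ᴴ) p
    rw [← co_add]
    congr 1
    rw [Matrix.conjTranspose_add, Matrix.add_mul, Matrix.add_mul, Matrix.mul_add]
    abel
  have hc : dWm η f (f * ξ) =
      (Matrix.of fun i k : Fin 3 => ip (η k) (ξ * η i - η i * ξ)) * Wm η f := by
    ext i p
    rw [Matrix.mul_apply]
    show co (f * ξ * η i * fᴴ + f * η i * (f * ξ)ᴴ) p =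
      ∑ k, ip (η k) (ξ * η i - η i * ξ) * co (f * η k * fᴴ) p
    have h1 : f * ξ * η i * fᴴ + f * η i * (f * ξ)ᴴ = f * (ξ * η i - η i * ξ) * fᴴ := by
      rw [Matrix.conjTranspose_mul, hG.skewHerm hξ, Matrix.mul_sub, Matrix.sub_mul, Matrix.neg_mul,
        Matrix.mul_neg, ← sub_eq_add_neg]
      simp only [Matrix.mul_assoc]
    have h2 := hη.span _ (bracket_mem_s hG hs hξ (hη.mem i))
    have h3 : f * (ξ * η i - η i * ξ) * fᴴ =
        ∑ k, ip (η k) (ξ * η i - η i * ξ) • (f * η k * fᴴ) := by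
      conv_lhs => rw [h2]
      rw [Matrix.mul_sum, Matrix.sum_mul]
      refine Finset.sum_congr rfl fun k _ => ?_
      rw [Matrix.mul_smul, Matrix.smul_mul]
    rw [h1, h3, co_sum]
    refine Finset.sum_congr rfl fun k _ => ?_
    rw [co_smul]
  have hz : dWm η f D * (Wm η f)ᵀ = 0 := by
    ext i j
    rw [Matrix.mul_apply, Matrix.zero_apply]
    have e1 : ∑ p, dWm η f D i p * (Wm η f)ᵀ p j =
        ip (D * η i * fᴴ + f * η i * Dᴴ) (f * η j * fᴴ) := co_ip _ _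
    rw [e1, ip_comm]
    have hi := hη.mem i
    have hj := hη.mem j
    exact hor_perp hf hD (hG.skewHerm (hs.le hj)) (hG.skewHerm (hs.le hi))
      (hD' _ (hs.le (bracket_mem_s hG hs (hs.le hi) hj)))
  rw [hlin, Matrix.add_mul, hc, Matrix.mul_sub, Matrix.mul_sub, Matrix.mul_one, Matrix.mul_one,
    ← Matrix.mul_assoc, ← Matrix.mul_assoc, hz, Matrix.zero_mul, sub_zero,
    Matrix.mul_assoc (Matrix.of _) (Wm η f) (Wm η f)ᵀ, hW, Matrix.mul_one, sub_self, add_zero]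

theorem R_entry (hG : IsCompactGroup G g) (hs : IsSu2Ideal G g s) (hη : IsOnb s η)
    {f D D' : Mat K N} (hf : fᴴ * f = 1) (hD : (fᴴ * D)ᴴ = -(fᴴ * D))
    (hD' : (fᴴ * D')ᴴ = -(fᴴ * D')) (k j : Fin 3) :
    (dWm η f D * (dWm η f D')ᵀ - dWm η f D' * (dWm η f D)ᵀ) k j =
      ip (η j * η k - η k * η j) (Dᴴ * D' - D'ᴴ * D) := by
  rw [Matrix.sub_apply, Matrix.mul_apply, Matrix.mul_apply]
  have e1 : ∑ p, dWm η f D k p * (dWm η f D')ᵀ p j =
      ip (D * η k * fᴴ + f * η k * Dᴴ) (D' * η j * fᴴ + f * η j * D'ᴴ) := co_ip _ _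
  have e2 : ∑ p, dWm η f D' k p * (dWm η f D)ᵀ p j =
      ip (D' * η k * fᴴ + f * η k * D'ᴴ) (D * η j * fᴴ + f * η j * Dᴴ) := co_ip _ _
  rw [e1, e2]
  exact hor_curv hf hD hD' (hG.skewHerm (hs.le (hη.mem k))) (hG.skewHerm (hs.le (hη.mem j)))

theorem PVal_skew {U : Set X} {σ : X → Mat K N} (hσ : IsSection G F U σ) {x : X} (hx : x ∈ U)
    (v : T x) : ((σ x)ᴴ * dM σ x v)ᴴ = -((σ x)ᴴ * dM σ x v) := by
  have h1 := dM_mul hσ.isOpen (LiftA_smooth_conj hσ.smooth) hσ.smooth hx v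
  rw [dM_conjTranspose hσ.isOpen hσ.smooth hx v] at h1
  have h2 : dM (fun y => (σ y)ᴴ * σ y) x v = 0 := by
    ext i j
    have h3 : (fun y => ((σ y)ᴴ * σ y) i j) =ᶠ[nhds x] fun _ => (1 : Mat N N) i j := by
      filter_upwards [hσ.isOpen.mem_nhds hx] with y hy
      rw [hσ.iso y hy]
    have h4 : mfderiv I4 𝓘(ℝ, ℂ) (fun y => ((σ y)ᴴ * σ y) i j) x = 0 := by
      rw [h3.mfderiv_eq]
      exact mfderiv_const
    exact congrArg (fun A : TangentSpace I4 x →L[ℝ] ℂ => A v) h4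
  rw [h2] at h1
  rw [Matrix.conjTranspose_mul, Matrix.conjTranspose_conjTranspose]
  exact eq_neg_of_add_eq_zero_left h1.symm

theorem PVal_trace {A R R' : Matrix (Fin 3) (Fin 3) ℝ} (hA : A.det ≠ 0) :
    (A * R * A⁻¹ * (A * R' * A⁻¹)).trace = ∑ k, ∑ j, R k j * R' j k := by
  have h1 : A⁻¹ * A = 1 := Matrix.nonsing_inv_mul A (Ne.isUnit hA)
  have h2 : A * R * A⁻¹ * (A * R' * A⁻¹) = A * (R * R' * A⁻¹) := by
    calc A * R * A⁻¹ * (A * R' * A⁻¹) = A * R * (A⁻¹ * A) * R' * A⁻¹ := by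
          simp only [Matrix.mul_assoc]
      _ = A * (R * R' * A⁻¹) := by
          rw [h1, Matrix.mul_one]
          simp only [Matrix.mul_assoc]
  rw [h2, Matrix.trace_mul_comm, Matrix.mul_assoc (R * R'), h1, Matrix.mul_one]
  simp only [Matrix.trace, Matrix.diag_apply, Matrix.mul_apply]

theorem pp_val (hG : IsCompactGroup G g) (hF : IsPrincipal G F) (hs : IsSu2Ideal G g s)
    (hη : IsOnb s η) (he : IsParallelization e)
    (h : ∀ x : X, ∀ f ∈ F x, ∀ ξ ∈ s, ξ ≠ 0 → 0 < q6 (ve G g F e x f ξ)) {x : X} {f : Mat K N}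
    (hf : f ∈ F x) : pp e (TT G g F e η) (SS G g F e η) x =
      -∑ k, ∑ j, q6 (ve G g F e x f (η j * η k - η k * η j)) := by
  obtain ⟨U, σ, hx, hσ, hσx⟩ := exists_section hG hF hf
  subst hσx
  have hff : (σ x)ᴴ * σ x = 1 := hσ.iso x hx
  have hA : (Am G g F e η x (σ x)).det ≠ 0 := Am_det_ne hη (h x (σ x) hf)
  obtain ⟨dA, h1, h2⟩ := exists_dA hG hF hs hη he h hσ hx
  obtain ⟨pr, hp1, hp2⟩ := exists_proj g
  have hsk := PVal_skew hσ hx
  set Dh : Fin 4 → Mat K N := fun a => hor G g F x (σ x) (e a x) with hDh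
  have hdec : ∀ a, dM σ x (e a x) = Dh a + σ x * pr ((σ x)ᴴ * dM σ x (e a x)) := by
    intro a
    rw [hDh]
    simp only
    rw [hor_section hG hσ hx hp1 hp2 (e a x)]
    abel
  have hDsk : ∀ a, ((σ x)ᴴ * Dh a)ᴴ = -((σ x)ᴴ * Dh a) := by
    intro a
    have h3 : (σ x)ᴴ * Dh a = (σ x)ᴴ * dM σ x (e a x) - pr ((σ x)ᴴ * dM σ x (e a x)) := by
      have h6 : Dh a = dM σ x (e a x) - σ x * pr ((σ x)ᴴ * dM σ x (e a x)) :=
        hor_section hG hσ hx hp1 hp2 (e a x)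
      rw [h6, Matrix.mul_sub, ← Matrix.mul_assoc, hff, Matrix.one_mul]
    rw [h3, Matrix.conjTranspose_sub, hsk, hG.skewHerm (hp1 _)]
    abel
  have hDh0 : ∀ a, ∀ ζ ∈ g, ip ζ ((σ x)ᴴ * Dh a) = 0 := fun a =>
    (hor_isLift hG hF hf (e a x)).2
  have hWW : Wm η (σ x) * (Wm η (σ x))ᵀ = 1 := Wm_mul hη hff
  set R : Fin 4 → Fin 4 → Matrix (Fin 3) (Fin 3) ℝ := fun a b =>
    dWm η (σ x) (Dh a) * (dWm η (σ x) (Dh b))ᵀ - dWm η (σ x) (Dh b) * (dWm η (σ x) (Dh a))ᵀ with hR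
  have hFX : ∀ a b, FX e (TT G g F e η) (SS G g F e η) x a b =
      Am G g F e η x (σ x) * R a b * (Am G g F e η x (σ x))⁻¹ := by
    intro a b
    have h4 := proj_alg hA (dA := dA) hWW (dW := fun c => dWm η (σ x) (dM σ x (e c x)))
      (fun c => dWm_orth hG hs hη hff (hsk (e c x))) a b
    have h5 : ∀ c, dWm η (σ x) (dM σ x (e c x)) * (1 - (Wm η (σ x))ᵀ * Wm η (σ x)) =
        dWm η (σ x) (Dh c) := by
      intro c
      rw [hdec c]
      exact dWm_proj hG hs hη hff (hDsk c) (hDh0 c) (hp1 _)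
    simp only [h5] at h4
    have h6 : FX e (TT G g F e η) (SS G g F e η) x a b =
        FA (TT G g F e η x) (fun c => dRM (TT G g F e η) x (e c x))
          (fun c => dRM (SS G g F e η) x (e c x)) a b := rfl
    rw [h6, TT_eq hG hF hs hη hf]
    simp only [h1, h2]
    exact h4
  have hRc : ∀ a b k j, R a b k j =
      curv G g F x (σ x) (η j * η k - η k * η j) (e a x) (e b x) := fun a b k j =>
    R_entry hG hs hη hff (hDsk a) (hDsk b) k j
  have hneg : ∀ a b k j, R a b j k = -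
      curv G g F x (σ x) (η j * η k - η k * η j) (e a x) (e b x) := by
    intro a b k j
    rw [hRc, ← neg_sub, ← neg_one_smul ℝ (η j * η k - η k * η j), curv_smul]
    ring
  have hpp : pp e (TT G g F e η) (SS G g F e η) x =
      (∑ k, ∑ j, R 0 1 k j * R 2 3 j k) - (∑ k, ∑ j, R 0 2 k j * R 1 3 j k) +
        ∑ k, ∑ j, R 0 3 k j * R 1 2 j k := by
    unfold pp
    simp only [hFX]
    rw [PVal_trace hA, PVal_trace hA, PVal_trace hA]
  rw [hpp, ← Finset.sum_sub_distrib, ← Finset.sum_add_distrib, ← Finset.sum_neg_distrib]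
  refine Finset.sum_congr rfl fun k _ => ?_
  rw [← Finset.sum_sub_distrib, ← Finset.sum_add_distrib, ← Finset.sum_neg_distrib]
  refine Finset.sum_congr rfl fun j _ => ?_
  rw [hRc 0 1, hRc 0 2, hRc 0 3, hneg 2 3, hneg 1 3, hneg 1 2]
  show _ = -(curv G g F x (σ x) (η j * η k - η k * η j) (e 0 x) (e 1 x) *
      curv G g F x (σ x) (η j * η k - η k * η j) (e 2 x) (e 3 x) -
    curv G g F x (σ x) (η j * η k - η k * η j) (e 0 x) (e 2 x) *
      curv G g F x (σ x) (η j * η k - η k * η j) (e 1 x) (e 3 x) +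
    curv G g F x (σ x) (η j * η k - η k * η j) (e 0 x) (e 3 x) *
      curv G g F x (σ x) (η j * η k - η k * η j) (e 1 x) (e 2 x))
  ring

end Pool.Agent.W_9986fc_G
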