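import Pool.Agent.W_9986fc_G.Cht

/-!
# Derivatives of real functions on `X`

* `smooth_chart`, `dR_chart`: chain rule: `dI c y` and `dChart c y` are inverse to each other for
  `y ∈ dom c` (see `dI_injective` in `Cht`, `dext_dsymm` in `Pool.Agent.W_MP_d8b8b7_G1`, and
  `Pool.Agent.W_9986fc_h63.Man3`: `fderiv_chart`, `contDiffOn_chart`), so
  `dR u (inv c y) v = fderiv (u ∘ inv c) y (dChart c y v)`.
* `smooth_of_chart`: in the chart at `x` itself (`contMDiffOn_iff`/`contMDiffAt_iff`).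
* `smooth_dR`: `smooth_of_chart` and `dR_chart`: the derivative of a smooth function applied to a smooth
  vector function.
* `dR_add`, `dR_mul`, `dR_const`, `dR_congr`: rules for `mfderiv`.
* `dR_add_vec`, `dR_smul_vec`: linearity in the vector.
-/

set_option autoImplicit false

open scoped Manifold ContDiff

namespace Pool.Agent.W_9986fc_G

open Pool.Agent.W_MP_d8b8b7_S

universe u

variable {X : Type u} [TopologicalSpace X] [ChartedSpace E4 X]

/-- derivative of a real function -/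
noncomputable def dR (u : X → ℝ) (x : X) (v : T x) : ℝ :=
  (show T x →L[ℝ] ℝ from mfderiv I4 𝓘(ℝ, ℝ) u x) v

/-- smooth real function -/
def SmR (u : X → ℝ) : Prop := ContMDiff I4 𝓘(ℝ, ℝ) ∞ u

theorem dR_add_vec (u : X → ℝ) (x : X) (v w : T x) : dR u x (v + w) = dR u x v + dR u x w :=
  (show T x →L[ℝ] ℝ from mfderiv I4 𝓘(ℝ, ℝ) u x).map_add v w

theorem dR_smul_vec (u : X → ℝ) (x : X) (c : ℝ) (v : T x) : dR u x (c • v) = c * dR u x v :=
  (show T x →L[ℝ] ℝ from mfderiv I4 𝓘(ℝ, ℝ) u x).map_smul c v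

variable [IsManifold I4 ∞ X]

theorem dR_congr {u w : X → ℝ} {U : Set X} (hU : IsOpen U) {x : X} (hx : x ∈ U)
    (h : ∀ y ∈ U, u y = w y) (v : T x) : dR u x v = dR w x v := by
  have h1 : u =ᶠ[nhds x] w := by
    filter_upwards [hU.mem_nhds hx] with y hy
    exact h y hy
  have h2 := Filter.EventuallyEq.mfderiv_eq (I := I4) (I' := 𝓘(ℝ, ℝ)) h1
  have h3 : u x = w x := h x hx
  unfold dR
  exact congrArg (fun A : TangentSpace I4 x →L[ℝ] ℝ => A v) h2

theorem dR_const (c : ℝ) (x : X) (v : T x) : dR (fun _ => c) x v = 0 := by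
  have h2 := mfderiv_const (I := I4) (I' := 𝓘(ℝ, ℝ)) (x := x) (c := c)
  exact congrArg (fun A : TangentSpace I4 x →L[ℝ] ℝ => A v) h2

theorem dR_add {u w : X → ℝ} (hu : SmR u) (hw : SmR w) (x : X) (v : T x) :
    dR (fun y => u y + w y) x v = dR u x v + dR w x v := by
  have h1 : MDifferentiableAt I4 𝓘(ℝ, ℝ) u x := (hu.mdifferentiable (by simp)) x
  have h2 : MDifferentiableAt I4 𝓘(ℝ, ℝ) w x := (hw.mdifferentiable (by simp)) x
  have h3 := mfderiv_add h1 h2
  exact congrArg (fun A : TangentSpace I4 x →L[ℝ] ℝ => A v) h3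

theorem dR_mul {u w : X → ℝ} (hu : SmR u) (hw : SmR w) (x : X) (v : T x) :
    dR (fun y => u y * w y) x v = u x * dR w x v + dR u x v * w x := by
  have h1 : MDifferentiableAt I4 𝓘(ℝ, ℝ) u x := (hu.mdifferentiable (by simp)) x
  have h2 : MDifferentiableAt I4 𝓘(ℝ, ℝ) w x := (hw.mdifferentiable (by simp)) x
  have h3 := (HasMFDerivAt.mul h1.hasMFDerivAt h2.hasMFDerivAt).mfderiv
  have h4 := congrArg (fun A : TangentSpace I4 x →L[ℝ] ℝ => A v) h3
  refine h4.trans ?_
  change u x * dR w x v + w x * dR u x v = u x * dR w x v + dR u x v * w x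
  ring

theorem dR_sum {ι : Type} [Fintype ι] {u : ι → X → ℝ} (hu : ∀ i, SmR (u i)) (x : X) (v : T x) :
    dR (fun y => ∑ i, u i y) x v = ∑ i, dR (u i) x v := by
  have h1 : ∀ i ∈ (Finset.univ : Finset ι), HasMFDerivAt I4 𝓘(ℝ, ℝ) (u i) x
      (mfderiv I4 𝓘(ℝ, ℝ) (u i) x) := fun i _ =>
    (((hu i).mdifferentiable (by simp)) x).hasMFDerivAt
  have h2 := (HasMFDerivAt.sum h1).mfderiv
  have h3 := congrArg (fun A : TangentSpace I4 x →L[ℝ] ℝ => A v) h2
  have h4 : (fun y => ∑ i, u i y) = ∑ i, u i := by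
    funext y
    simp
  rw [h4]
  refine h3.trans ?_
  exact ContinuousLinearMap.sum_apply _ _ _

theorem SmR.add {u w : X → ℝ} (hu : SmR u) (hw : SmR w) : SmR (fun y => u y + w y) := by
  exact ContMDiff.add hu hw

theorem SmR.mul {u w : X → ℝ} (hu : SmR u) (hw : SmR w) : SmR (fun y => u y * w y) := by
  exact ContMDiff.mul hu hw

theorem SmR.neg {u : X → ℝ} (hu : SmR u) : SmR (fun y => - u y) := by
  exact ContMDiff.neg hu

theorem SmR.const (c : ℝ) : SmR (fun _ : X => c) := by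
  exact contMDiff_const

theorem SmR.inv {u : X → ℝ} (hu : SmR u) (h : ∀ x, u x ≠ 0) : SmR (fun y => (u y)⁻¹) := by
  exact ContMDiff.inv₀ hu h

theorem SmR.sum {ι : Type} [Fintype ι] {u : ι → X → ℝ} (hu : ∀ i, SmR (u i)) :
    SmR (fun y => ∑ i, u i y) := by
  exact contMDiff_finsetSum fun i _ => hu i

theorem SmR.continuous {u : X → ℝ} (hu : SmR u) : Continuous u := by
  exact ContMDiff.continuous hu

omit [IsManifold I4 ∞ X] in
theorem RDer_range : Set.range I4 = Set.univ :=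
  ModelWithCorners.range_eq_univ (𝓘(ℝ, E4))

theorem RDer_symm (c : X) : ContMDiffOn 𝓘(ℝ, E4) I4 ∞ (extChartAt I4 c).symm (dom c) :=
  contMDiffOn_extChartAt_symm c

theorem RDer_isOpen (c : X) {U : Set X} (hU : IsOpen U) :
    IsOpen {y : EE | y ∈ dom c ∧ inv c y ∈ U} :=
  (continuousOn_inv c).isOpen_inter_preimage (isOpen_dom c) hU

theorem RDer_mdsymm (c : X) {y : E4} (hy : y ∈ dom c) :
    MDifferentiableAt 𝓘(ℝ, E4) I4 (extChartAt I4 c).symm y := by
  have h := mdifferentiableWithinAt_extChartAt_symm (I := I4) (x := c) hy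
  rw [RDer_range, mdifferentiableWithinAt_univ] at h
  exact h

theorem RDer_fd (u : X → ℝ) (c : X) {y : E4} (h1 : MDifferentiableAt I4 𝓘(ℝ, ℝ) u (inv c y))
    (hy : y ∈ dom c) (w : E4) :
    fderiv ℝ (fun z : E4 => u (inv c z)) y w = dR u (inv c y) (dInv c y w) := by
  have h3 := mfderiv_comp (I := 𝓘(ℝ, E4)) (I' := I4) (I'' := 𝓘(ℝ, ℝ)) y h1 (RDer_mdsymm c hy)
  rw [mfderiv_eq_fderiv] at h3
  exact congrArg (fun A : E4 →L[ℝ] ℝ => A w) h3

theorem smooth_chart {u : X → ℝ} {U : Set X} (hU : IsOpen U)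
    (hu : ContMDiffOn I4 𝓘(ℝ, ℝ) ∞ u U) (c : X) :
    ContDiffOn ℝ ∞ (fun z : EE => u (inv c z)) {y : EE | y ∈ dom c ∧ inv c y ∈ U} := by
  have h1 : ContMDiffOn 𝓘(ℝ, E4) 𝓘(ℝ, ℝ) ∞ (u ∘ (extChartAt I4 c).symm)
      (dom c ∩ (extChartAt I4 c).symm ⁻¹' U) :=
    hu.comp (t := U) ((RDer_symm c).mono Set.inter_subset_left) Set.inter_subset_right
  exact contMDiffOn_iff_contDiffOn.1 h1

theorem dI_dChart (c : X) {y : EE} (hy : y ∈ dom c) (v : T (inv c y)) :
    (show T (inv c y) from dI c y (show EE from dChart c y v)) = v := by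
  have hM : IsManifold I4 1 X := IsManifold.of_le (n := ∞) (by norm_cast)
  have hq : inv c y ∈ (extChartAt I4 c).source := (extChartAt I4 c).map_target hy
  have hy2 : extChartAt I4 c (inv c y) = y := (extChartAt I4 c).right_inv hy
  have h := mfderivWithin_extChartAt_symm_comp_mfderiv_extChartAt' (I := I4) (x := c) hq
  rw [RDer_range, mfderivWithin_univ] at h
  have h2 := congrArg (fun A : TangentSpace I4 (inv c y) →L[ℝ] TangentSpace I4 (inv c y) => A v) h
  have h3 : ∀ z : E4, z = y → ∀ w : E4,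
      (show E4 from (mfderiv 𝓘(ℝ, E4) I4 (extChartAt I4 c).symm z) w) =
      (show E4 from (mfderiv 𝓘(ℝ, E4) I4 (extChartAt I4 c).symm y) w) := by
    rintro z rfl w
    rfl
  exact (h3 _ hy2 _).symm.trans h2

theorem dR_chart {u : X → ℝ} {U : Set X} (hU : IsOpen U)
    (hu : ContMDiffOn I4 𝓘(ℝ, ℝ) ∞ u U) (c : X) {y : EE} (hy : y ∈ dom c) (hyU : inv c y ∈ U)
    (v : T (inv c y)) : dR u (inv c y) v =
      fderiv ℝ (fun z : EE => u (inv c z)) y (show EE from dChart c y v) := by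
  have h1 : MDifferentiableAt I4 𝓘(ℝ, ℝ) u (inv c y) :=
    (hu.contMDiffAt (hU.mem_nhds hyU)).mdifferentiableAt (by simp)
  have h4 := RDer_fd u c (y := y) h1 hy (show E4 from dChart c y v)
  refine Eq.trans ?_ h4.symm
  have h5 := dI_dChart c hy v
  exact congrArg (fun w : T (inv c y) => dR u (inv c y) w) h5.symm

theorem smooth_of_chart {u : X → ℝ}
    (h : ∀ c : X, ContDiffOn ℝ ∞ (fun z : EE => u (inv c z)) (dom c)) : SmR u := by
  intro x
  have h1 : ContMDiffAt I4 𝓘(ℝ, E4) ∞ (extChartAt I4 x) x := contMDiffAt_extChartAt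
  have hx : extChartAt I4 x x ∈ dom x := mem_extChartAt_target x
  have h2 : ContMDiffAt 𝓘(ℝ, E4) 𝓘(ℝ, ℝ) ∞ (fun z : E4 => u (inv x z)) (extChartAt I4 x x) :=
    (contMDiffOn_iff_contDiffOn.2 (h x)).contMDiffAt ((isOpen_dom x).mem_nhds hx)
  have h3 := h2.comp x h1
  refine h3.congr_of_eventuallyEq ?_
  filter_upwards [extChartAt_source_mem_nhds (I := I4) x] with y hy
  have h4 : inv x (extChartAt I4 x y) = y := (extChartAt I4 x).left_inv hy
  show u y = u (inv x (extChartAt I4 x y))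
  rw [h4]

theorem smooth_dR {u : X → ℝ} (hu : SmR u) {e : Fin 4 → ∀ x : X, T x}
    (he : IsParallelization e) (b : Fin 4) : SmR (fun x => dR u x (e b x)) := by
  refine smooth_of_chart fun c => ?_
  have h1 := smooth_chart isOpen_univ (contMDiffOn_univ.2 hu) c
  have h0 : {y : EE | y ∈ dom c ∧ inv c y ∈ (Set.univ : Set X)} = dom c := by
    ext y
    exact ⟨fun h => h.1, fun h => ⟨h, trivial⟩⟩
  rw [h0] at h1
  have h2 : ContDiffOn ℝ ∞ (fun z : EE => fderiv ℝ (fun z : EE => u (inv c z)) z) (dom c) :=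
    h1.fderiv_of_isOpen (isOpen_dom c) (by simp)
  have h3 : ContDiffOn ℝ ∞ (fun z : EE => (show EE from dChart c z (e b (inv c z)))) (dom c) :=
    he.smooth b c
  have h4 := h2.clm_apply h3
  refine h4.congr fun z hz => ?_
  exact dR_chart isOpen_univ (contMDiffOn_univ.2 hu) c hz (Set.mem_univ _) _

end Pool.Agent.W_9986fc_G
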