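import Pool.Agent.W_9986fc_G.PInt
import Pool.Agent.W_9986fc_G.LiftD

/-!
# Local rules for derivatives of real (matrix) functions

As in `RDer`, for functions smooth on an open set `U` (`ContMDiffOn`).  `dRM_inv`: differentiate `A * A⁻¹ = 1`;
the entries of `A⁻¹` are polynomials in the entries of `A` divided by the determinant
(`Matrix.inv_def`, `Matrix.adjugate`, `Ring.inverse_eq_inv'`).
`smooth_dM`: in a chart, as `smooth_dR`; `dM s (inv c y) (e b) i j = fderiv (s ∘ inv c) y (dChart c y (e b)) i j`.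
-/

set_option autoImplicit false

open scoped Manifold ContDiff Matrix

namespace Pool.Agent.W_9986fc_G

open Pool.Agent.W_MP_d8b8b7_S

universe u

variable {X : Type u} [TopologicalSpace X] [ChartedSpace E4 X]

/-- smooth on the set `U` -/
def SmO (U : Set X) (u : X → ℝ) : Prop := ContMDiffOn I4 𝓘(ℝ, ℝ) ∞ u U

/-- matrix function with entries smooth on `U` -/
def SmMO {m p : Type} (U : Set X) (M : X → Matrix m p ℝ) : Prop :=
  ∀ i j, SmO U (fun y => M y i j)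

set_option linter.unusedSectionVars false

variable [IsManifold I4 ∞ X] {U : Set X}

theorem SmO.const (U : Set X) (c : ℝ) : SmO U (fun _ : X => c) :=
  contMDiffOn_const

theorem SmO.add {u w : X → ℝ} (hu : SmO U u) (hw : SmO U w) : SmO U (fun y => u y + w y) :=
  ContMDiffOn.add hu hw

theorem SmO.sub {u w : X → ℝ} (hu : SmO U u) (hw : SmO U w) : SmO U (fun y => u y - w y) :=
  ContMDiffOn.sub hu hw

theorem SmO.mul {u w : X → ℝ} (hu : SmO U u) (hw : SmO U w) : SmO U (fun y => u y * w y) :=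
  ContMDiffOn.mul hu hw

theorem SmO.sum {ι : Type} [Fintype ι] {u : ι → X → ℝ} (hu : ∀ i, SmO U (u i)) :
    SmO U (fun y => ∑ i, u i y) :=
  contMDiffOn_finsetSum fun i _ => hu i

theorem SmO.inv {u : X → ℝ} (hu : SmO U u) (h : ∀ x ∈ U, u x ≠ 0) : SmO U (fun y => (u y)⁻¹) :=
  ContMDiffOn.inv₀ hu h

theorem SmO.congr {u w : X → ℝ} (hu : SmO U u) (h : ∀ x ∈ U, w x = u x) : SmO U w :=
  ContMDiffOn.congr hu h

/-- local smoothness suffices -/
theorem smR_of_local {u : X → ℝ} (h : ∀ x : X, ∃ U : Set X, IsOpen U ∧ x ∈ U ∧ SmO U u) :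
    SmR u := by
  intro x
  obtain ⟨U, hU, hx, hu⟩ := h x
  exact hu.contMDiffAt (hU.mem_nhds hx)

theorem SmMO.mul {m p q : Type} [Fintype p] {A : X → Matrix m p ℝ} {B : X → Matrix p q ℝ}
    (hA : SmMO U A) (hB : SmMO U B) : SmMO U (fun y => A y * B y) := by
  intro i j
  have h : (fun y => (A y * B y) i j) = fun y => ∑ l, A y i l * B y l j := by
    funext y
    exact Matrix.mul_apply
  rw [h]
  exact SmO.sum fun l => (hA i l).mul (hB l j)

theorem RDerL_det {A : X → Matrix (Fin 3) (Fin 3) ℝ} (hA : SmMO U A) :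
    SmO U (fun y => (A y).det) := by
  have h : (fun y => (A y).det) = fun y =>
      A y 0 0 * A y 1 1 * A y 2 2 - A y 0 0 * A y 1 2 * A y 2 1 - A y 0 1 * A y 1 0 * A y 2 2 +
        A y 0 1 * A y 1 2 * A y 2 0 + A y 0 2 * A y 1 0 * A y 2 1 -
        A y 0 2 * A y 1 1 * A y 2 0 := by
    funext y
    exact Matrix.det_fin_three (A y)
  rw [h]
  exact (((((((hA 0 0).mul (hA 1 1)).mul (hA 2 2)).sub (((hA 0 0).mul (hA 1 2)).mul (hA 2 1))).sub
    (((hA 0 1).mul (hA 1 0)).mul (hA 2 2))).add (((hA 0 1).mul (hA 1 2)).mul (hA 2 0))).add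
    (((hA 0 2).mul (hA 1 0)).mul (hA 2 1))).sub (((hA 0 2).mul (hA 1 1)).mul (hA 2 0))

theorem SmMO.inv {A : X → Matrix (Fin 3) (Fin 3) ℝ} (hA : SmMO U A)
    (h : ∀ x ∈ U, (A x).det ≠ 0) : SmMO U (fun y => (A y)⁻¹) := by
  intro i j
  have h1 : SmMO U (fun y => (A y).updateRow j (Pi.single i 1)) := by
    intro k l
    by_cases hk : k = j
    · subst hk
      have h2 : (fun y => ((A y).updateRow k (Pi.single i 1)) k l) =
          fun _ => (Pi.single i 1 : Fin 3 → ℝ) l := by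
        funext y
        rw [Matrix.updateRow_self]
      rw [h2]
      exact SmO.const U _
    · have h2 : (fun y => ((A y).updateRow j (Pi.single i 1)) k l) = fun y => A y k l := by
        funext y
        rw [Matrix.updateRow_ne hk]
      rw [h2]
      exact hA k l
  have h2 : (fun y => (A y)⁻¹ i j) = fun y =>
      ((A y).det)⁻¹ * ((A y).updateRow j (Pi.single i 1)).det := by
    funext y
    rw [Matrix.inv_def, Ring.inverse_eq_inv', Matrix.smul_apply, smul_eq_mul,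
      Matrix.adjugate_apply]
  rw [h2]
  exact ((RDerL_det hA).inv h).mul (RDerL_det h1)

theorem dRM_congr {m p : Type} {A B : X → Matrix m p ℝ} (hU : IsOpen U) {x : X} (hx : x ∈ U)
    (h : ∀ y ∈ U, A y = B y) (v : T x) : dRM A x v = dRM B x v := by
  ext i j
  exact dR_congr hU hx (fun y hy => by rw [h y hy]) v

omit [IsManifold I4 ∞ X] in
theorem RDerL_at {u : X → ℝ} (hU : IsOpen U) (hu : SmO U u) {x : X} (hx : x ∈ U) :
    MDifferentiableAt I4 𝓘(ℝ, ℝ) u x :=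
  (ContMDiffOn.contMDiffAt hu (hU.mem_nhds hx)).mdifferentiableAt (by simp)

omit [IsManifold I4 ∞ X] in
theorem RDerL_mul {u w : X → ℝ} {x : X} (h1 : MDifferentiableAt I4 𝓘(ℝ, ℝ) u x)
    (h2 : MDifferentiableAt I4 𝓘(ℝ, ℝ) w x) (v : T x) :
    dR (fun y => u y * w y) x v = u x * dR w x v + dR u x v * w x := by
  have h3 := (HasMFDerivAt.mul h1.hasMFDerivAt h2.hasMFDerivAt).mfderiv
  have h4 := congrArg (fun A : TangentSpace I4 x →L[ℝ] ℝ => A v) h3
  refine h4.trans ?_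
  change u x * dR w x v + w x * dR u x v = u x * dR w x v + dR u x v * w x
  ring

omit [IsManifold I4 ∞ X] in
theorem RDerL_sum {ι : Type} [Fintype ι] {u : ι → X → ℝ} {x : X}
    (hu : ∀ i, MDifferentiableAt I4 𝓘(ℝ, ℝ) (u i) x) (v : T x) :
    dR (fun y => ∑ i, u i y) x v = ∑ i, dR (u i) x v := by
  have h1 : ∀ i ∈ (Finset.univ : Finset ι), HasMFDerivAt I4 𝓘(ℝ, ℝ) (u i) x
      (mfderiv I4 𝓘(ℝ, ℝ) (u i) x) := fun i _ => (hu i).hasMFDerivAt
  have h2 := (HasMFDerivAt.sum h1).mfderiv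
  have h3 := congrArg (fun A : TangentSpace I4 x →L[ℝ] ℝ => A v) h2
  have h4 : (fun y => ∑ i, u i y) = ∑ i, u i := by
    funext y
    simp
  rw [h4]
  refine h3.trans ?_
  exact sum_apply _ _ _

theorem dRM_mul {m p q : Type} [Fintype p] {A : X → Matrix m p ℝ} {B : X → Matrix p q ℝ}
    (hU : IsOpen U) (hA : SmMO U A) (hB : SmMO U B) {x : X} (hx : x ∈ U) (v : T x) :
    dRM (fun y => A y * B y) x v = dRM A x v * B x + A x * dRM B x v := by
  ext i j
  have h : (fun y => (A y * B y) i j) = fun y => ∑ l, A y i l * B y l j := by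
    funext y
    exact Matrix.mul_apply
  have hA' : ∀ l, MDifferentiableAt I4 𝓘(ℝ, ℝ) (fun y => A y i l) x := fun l =>
    RDerL_at hU (hA i l) hx
  have hB' : ∀ l, MDifferentiableAt I4 𝓘(ℝ, ℝ) (fun y => B y l j) x := fun l =>
    RDerL_at hU (hB l j) hx
  have e1 : dRM (fun y => A y * B y) x v i j = dR (fun y => ∑ l, A y i l * B y l j) x v := by
    rw [← h]
    rfl
  have e2 : dR (fun y => ∑ l, A y i l * B y l j) x v =
      ∑ l, dR (fun y => A y i l * B y l j) x v :=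
    RDerL_sum (u := fun l y => A y i l * B y l j)
      (fun l => MDifferentiableAt.mul (hA' l) (hB' l)) v
  rw [e1, e2, Matrix.add_apply, Matrix.mul_apply, Matrix.mul_apply, ← Finset.sum_add_distrib]
  refine Finset.sum_congr rfl fun l _ => ?_
  rw [RDerL_mul (hA' l) (hB' l), add_comm]
  rfl

theorem dRM_transpose {m p : Type} (A : X → Matrix m p ℝ) (x : X) (v : T x) :
    dRM (fun y => (A y)ᵀ) x v = (dRM A x v)ᵀ := rfl

theorem dRM_inv {A : X → Matrix (Fin 3) (Fin 3) ℝ} (hU : IsOpen U) (hA : SmMO U A)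
    (h : ∀ x ∈ U, (A x).det ≠ 0) {x : X} (hx : x ∈ U) (v : T x) :
    dRM (fun y => (A y)⁻¹) x v = -((A x)⁻¹ * dRM A x v * (A x)⁻¹) := by
  have h1 := dRM_mul hU hA (hA.inv h) hx v
  have h2 : dRM (fun y => A y * (A y)⁻¹) x v = dRM (fun _ => (1 : Matrix (Fin 3) (Fin 3) ℝ)) x v :=
    dRM_congr hU hx (fun y hy => Matrix.mul_nonsing_inv _ (isUnit_iff_ne_zero.2 (h y hy))) v
  have h3 : dRM (fun _ : X => (1 : Matrix (Fin 3) (Fin 3) ℝ)) x v = 0 := by
    ext i j
    exact dR_const _ x v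
  rw [h2, h3] at h1
  have h4 : A x * dRM (fun y => (A y)⁻¹) x v = -(dRM A x v * (A x)⁻¹) := by
    rw [eq_neg_iff_add_eq_zero, add_comm]
    exact h1.symm
  have h5 : (A x)⁻¹ * (A x * dRM (fun y => (A y)⁻¹) x v) = dRM (fun y => (A y)⁻¹) x v := by
    rw [← Matrix.mul_assoc, Matrix.nonsing_inv_mul _ (isUnit_iff_ne_zero.2 (h x hx)),
      Matrix.one_mul]
  rw [← h5, h4, Matrix.mul_neg, Matrix.mul_assoc]

/-- real part of a smooth complex function -/
theorem smO_re {u : X → ℂ} (hu : ContMDiffOn I4 𝓘(ℝ, ℂ) ∞ u U) : SmO U (fun y => (u y).re) :=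
  (Complex.reCLM.contDiff.contMDiff (n := ∞)).comp_contMDiffOn hu

theorem smO_im {u : X → ℂ} (hu : ContMDiffOn I4 𝓘(ℝ, ℂ) ∞ u U) : SmO U (fun y => (u y).im) :=
  (Complex.imCLM.contDiff.contMDiff (n := ∞)).comp_contMDiffOn hu

theorem dR_re {u : X → ℂ} (hU : IsOpen U) (hu : ContMDiffOn I4 𝓘(ℝ, ℂ) ∞ u U) {x : X}
    (hx : x ∈ U) (v : T x) : dR (fun y => (u y).re) x v =
      ((show T x →L[ℝ] ℂ from mfderiv I4 𝓘(ℝ, ℂ) u x) v).re := by
  have h1 : HasMFDerivAt 𝓘(ℝ, ℂ) 𝓘(ℝ, ℝ) (Complex.reCLM : ℂ → ℝ) (u x) Complex.reCLM :=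
    Complex.reCLM.hasFDerivAt.hasMFDerivAt
  have h2 := (HasMFDerivAt.comp x h1 (LiftD_at hU hu hx).hasMFDerivAt).mfderiv
  exact congrArg (fun A : TangentSpace I4 x →L[ℝ] ℝ => A v) h2

theorem dR_im {u : X → ℂ} (hU : IsOpen U) (hu : ContMDiffOn I4 𝓘(ℝ, ℂ) ∞ u U) {x : X}
    (hx : x ∈ U) (v : T x) : dR (fun y => (u y).im) x v =
      ((show T x →L[ℝ] ℂ from mfderiv I4 𝓘(ℝ, ℂ) u x) v).im := by
  have h1 : HasMFDerivAt 𝓘(ℝ, ℂ) 𝓘(ℝ, ℝ) (Complex.imCLM : ℂ → ℝ) (u x) Complex.imCLM :=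
    Complex.imCLM.hasFDerivAt.hasMFDerivAt
  have h2 := (HasMFDerivAt.comp x h1 (LiftD_at hU hu hx).hasMFDerivAt).mfderiv
  exact congrArg (fun A : TangentSpace I4 x →L[ℝ] ℝ => A v) h2

theorem RDerL_fd (u : X → ℂ) (c : X) {y : E4} (h1 : MDifferentiableAt I4 𝓘(ℝ, ℂ) u (inv c y))
    (hy : y ∈ dom c) (w : E4) :
    fderiv ℝ (fun z : E4 => u (inv c z)) y w = LiftD_d u (inv c y) (dInv c y w) := by
  have h3 := mfderiv_comp (I := 𝓘(ℝ, E4)) (I' := I4) (I'' := 𝓘(ℝ, ℂ)) y h1 (RDer_mdsymm c hy)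
  rw [mfderiv_eq_fderiv] at h3
  exact congrArg (fun A : E4 →L[ℝ] ℂ => A w) h3

theorem RDerL_chart {u : X → ℂ} (hU : IsOpen U)
    (hu : ContMDiffOn I4 𝓘(ℝ, ℂ) ∞ u U) (c : X) {y : EE} (hy : y ∈ dom c) (hyU : inv c y ∈ U)
    (v : T (inv c y)) : LiftD_d u (inv c y) (show E4 from v) =
      fderiv ℝ (fun z : EE => u (inv c z)) y (show EE from dChart c y v) := by
  have h1 : MDifferentiableAt I4 𝓘(ℝ, ℂ) u (inv c y) := LiftD_at hU hu hyU
  have h4 := RDerL_fd u c (y := y) h1 hy (show E4 from dChart c y v)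
  refine Eq.trans ?_ h4.symm
  have h5 := dI_dChart c hy v
  exact congrArg (fun w : T (inv c y) => LiftD_d u (inv c y) (show E4 from w)) h5.symm

theorem smooth_dM {K N : ℕ} {s : X → Mat K N} (hU : IsOpen U)
    (hs : ∀ i j, ContMDiffOn I4 𝓘(ℝ, ℂ) ∞ (fun y => s y i j) U) {e : Fin 4 → ∀ x : X, T x}
    (he : IsParallelization e) (b : Fin 4) (i : Fin K) (j : Fin N) :
    ContMDiffOn I4 𝓘(ℝ, ℂ) ∞ (fun x => dM s x (e b x) i j) U := by
  have hu := hs i j
  have hloc : ∀ c : X, ContDiffOn ℝ ∞ (fun z : EE => dM s (inv c z) (e b (inv c z)) i j)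
      {y : EE | y ∈ dom c ∧ inv c y ∈ U} := by
    intro c
    have h1 : ContDiffOn ℝ ∞ (fun z : EE => s (inv c z) i j) {y : EE | y ∈ dom c ∧ inv c y ∈ U} := by
      have h1 : ContMDiffOn 𝓘(ℝ, E4) 𝓘(ℝ, ℂ) ∞ ((fun y => s y i j) ∘ (extChartAt I4 c).symm)
          (dom c ∩ (extChartAt I4 c).symm ⁻¹' U) :=
        hu.comp (t := U) ((RDer_symm c).mono Set.inter_subset_left) Set.inter_subset_right
      exact contMDiffOn_iff_contDiffOn.1 h1
    have h2 : ContDiffOn ℝ ∞ (fun z : EE => fderiv ℝ (fun z : EE => s (inv c z) i j) z)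
        {y : EE | y ∈ dom c ∧ inv c y ∈ U} :=
      h1.fderiv_of_isOpen (RDer_isOpen c hU) (by simp)
    have h3 : ContDiffOn ℝ ∞ (fun z : EE => (show EE from dChart c z (e b (inv c z))))
        {y : EE | y ∈ dom c ∧ inv c y ∈ U} := ContDiffOn.mono (he.smooth b c) fun y hy => hy.1
    have h4 := h2.clm_apply h3
    refine h4.congr fun z hz => ?_
    exact RDerL_chart hU hu c hz.1 hz.2 _
  intro x hxU
  have h1 : ContMDiffAt I4 𝓘(ℝ, E4) ∞ (extChartAt I4 x) x := contMDiffAt_extChartAt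
  have hx : extChartAt I4 x x ∈ dom x := mem_extChartAt_target x
  have hinv : inv x (extChartAt I4 x x) = x := (extChartAt I4 x).left_inv (mem_extChartAt_source x)
  have hxU' : extChartAt I4 x x ∈ {y : EE | y ∈ dom x ∧ inv x y ∈ U} := by
    refine ⟨hx, ?_⟩
    show inv x (extChartAt I4 x x) ∈ U
    rw [hinv]
    exact hxU
  have h2 : ContMDiffAt 𝓘(ℝ, E4) 𝓘(ℝ, ℂ) ∞
      (fun z : E4 => dM s (inv x z) (e b (inv x z)) i j) (extChartAt I4 x x) :=
    (contMDiffOn_iff_contDiffOn.2 (hloc x)).contMDiffAt ((RDer_isOpen x hU).mem_nhds hxU')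
  have h3 := h2.comp x h1
  refine (h3.congr_of_eventuallyEq ?_).contMDiffWithinAt
  filter_upwards [extChartAt_source_mem_nhds (I := I4) x] with y hy
  have h4 : inv x (extChartAt I4 x y) = y := (extChartAt I4 x).left_inv hy
  show dM s y (e b y) i j = dM s (inv x (extChartAt I4 x y)) (e b (inv x (extChartAt I4 x y))) i j
  rw [h4]

end Pool.Agent.W_9986fc_G
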