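import Pool.Agent.W_9986fc_G.LiftC
import Pool.Agent.W_9986fc_G.Vec6
import Pool.Agent.W_9986fc_G.CoP
import Pool.Agent.W_9986fc_G.Integ

/-!
# The matrices `A` and `W`

`ve x f ξ` are the components of the curvature in the frame `e`, `sd` the self-dual part:
`4 q6 v = |sd v|² - |(v 0 - v 5, v 1 + v 4, v 2 - v 3)|²`.
* `Wm_mul`: `co_ip`, `ip_frame`.
* `AW_indep`: for `a ∈ G`: `a η_i a* = ∑ j, O j i • η_j`, `O j i = ip (η j) (a η_i a*)`, `O Oᵀ = 1` (the `a η_i a*` are
  orthonormal in `s`; a 3x3 matrix with `Oᵀ O = 1` has `O Oᵀ = 1`).  `Am x (f a) = Am x f * O` (`curv_mul`,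
  linearity), `Wm (f a) = Oᵀ * Wm f`.
* `Am_det_ne`: otherwise `Am *ᵥ κ = 0` for some `κ ≠ 0` (`Matrix.exists_mulVec_eq_zero_iff`), `ξ = ∑ κ i • η i ≠ 0` has
  `sd (ve x f ξ) = 0`, so `q6 (ve x f ξ) ≤ 0`.
* `ve_add`, `ve_smul`: linearity.
-/

set_option autoImplicit false

open scoped Manifold ContDiff Matrix

namespace Pool.Agent.W_9986fc_G

open Pool.Agent.W_MP_d8b8b7_S

universe u

variable {X : Type u} [TopologicalSpace X] [ChartedSpace E4 X] [IsManifold I4 ∞ X] {K N : ℕ}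

/-- self-dual part -/
def sd (v : Fin 6 → ℝ) : Fin 3 → ℝ := ![v 0 + v 5, v 1 - v 4, v 2 + v 3]

/-- curvature components in the frame `e` -/
noncomputable def ve (G : Set (Mat N N)) (g : Submodule ℝ (Mat N N)) (F : X → Set (Mat K N))
    (e : Fin 4 → ∀ x : X, T x) (x : X) (f : Mat K N) (ξ : Mat N N) : Fin 6 → ℝ :=
  vec6 (fun v w => curv G g F x f ξ v w) (fun a => e a x)

/-- self-dual parts of the curvatures of `η 0, η 1, η 2` -/
noncomputable def Am (G : Set (Mat N N)) (g : Submodule ℝ (Mat N N)) (F : X → Set (Mat K N))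
    (e : Fin 4 → ∀ x : X, T x) (η : Fin 3 → Mat N N) (x : X) (f : Mat K N) :
    Matrix (Fin 3) (Fin 3) ℝ :=
  Matrix.of fun a i => sd (ve G g F e x f (η i)) a

/-- coordinates of `f η_i f*` -/
noncomputable def Wm (η : Fin 3 → Mat N N) (f : Mat K N) : Matrix (Fin 3) (Pk K) ℝ :=
  Matrix.of fun i p => co (f * η i * fᴴ) p

variable {G : Set (Mat N N)} {g s : Submodule ℝ (Mat N N)} {F : X → Set (Mat K N)}
  {e : Fin 4 → ∀ x : X, T x} {η : Fin 3 → Mat N N}

theorem ve_add (x : X) (f : Mat K N) (ξ ξ' : Mat N N) :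
    ve G g F e x f (ξ + ξ') = ve G g F e x f ξ + ve G g F e x f ξ' := by
  funext i
  fin_cases i <;> exact curv_add x f ξ ξ' _ _

theorem ve_smul (x : X) (f : Mat K N) (c : ℝ) (ξ : Mat N N) :
    ve G g F e x f (c • ξ) = c • ve G g F e x f ξ := by
  funext i
  fin_cases i <;> exact curv_smul x f c ξ _ _

/-- The curvature components as a linear map in `ξ`. -/
noncomputable def TMapA_L (G : Set (Mat N N)) (g : Submodule ℝ (Mat N N)) (F : X → Set (Mat K N))
    (e : Fin 4 → ∀ x : X, T x) (x : X) (f : Mat K N) : Mat N N →ₗ[ℝ] (Fin 6 → ℝ) where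
  toFun := ve G g F e x f
  map_add' := ve_add x f
  map_smul' := ve_smul x f

theorem ve_sum {ι : Type} [Fintype ι] (x : X) (f : Mat K N) (κ : ι → ℝ) (ξ : ι → Mat N N) :
    ve G g F e x f (∑ i, κ i • ξ i) = ∑ i, κ i • ve G g F e x f (ξ i) := by
  have h1 := map_sum (TMapA_L G g F e x f) (fun i => κ i • ξ i) Finset.univ
  simp only [map_smul] at h1
  exact h1

/-- The self-dual part as a linear map. -/
def TMapA_sd : (Fin 6 → ℝ) →ₗ[ℝ] (Fin 3 → ℝ) where
  toFun := sd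
  map_add' v w := by
    funext a
    fin_cases a
    · show (v + w) 0 + (v + w) 5 = (v 0 + v 5) + (w 0 + w 5)
      simp only [Pi.add_apply]
      ring
    · show (v + w) 1 - (v + w) 4 = (v 1 - v 4) + (w 1 - w 4)
      simp only [Pi.add_apply]
      ring
    · show (v + w) 2 + (v + w) 3 = (v 2 + v 3) + (w 2 + w 3)
      simp only [Pi.add_apply]
      ring
  map_smul' c v := by
    funext a
    fin_cases a
    · show (c • v) 0 + (c • v) 5 = c * (v 0 + v 5)
      simp only [Pi.smul_apply, smul_eq_mul]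
      ring
    · show (c • v) 1 - (c • v) 4 = c * (v 1 - v 4)
      simp only [Pi.smul_apply, smul_eq_mul]
      ring
    · show (c • v) 2 + (c • v) 3 = c * (v 2 + v 3)
      simp only [Pi.smul_apply, smul_eq_mul]
      ring

theorem TMapA_sd_sum {ι : Type} [Fintype ι] (x : X) (f : Mat K N) (κ : ι → ℝ) (ξ : ι → Mat N N)
    (a : Fin 3) : sd (ve G g F e x f (∑ i, κ i • ξ i)) a =
      ∑ i, sd (ve G g F e x f (ξ i)) a * κ i := by
  rw [ve_sum]
  have h : sd (∑ i, κ i • ve G g F e x f (ξ i)) = ∑ i, κ i • sd (ve G g F e x f (ξ i)) := by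
    have h1 := map_sum TMapA_sd (fun i => κ i • ve G g F e x f (ξ i)) Finset.univ
    simp only [map_smul] at h1
    exact h1
  rw [h, Finset.sum_apply]
  refine Finset.sum_congr rfl fun i _ => ?_
  rw [Pi.smul_apply, smul_eq_mul, mul_comm]

theorem Wm_mul (hη : IsOnb s η) {f : Mat K N} (hf : fᴴ * f = 1) :
    Wm η f * (Wm η f)ᵀ = 1 := by
  ext i j
  rw [Matrix.mul_apply, Matrix.one_apply, ← hη.inner i j, ← ip_frame hf (η i) (η j), ← co_ip]
  rfl

theorem TMapA_step (hG : IsCompactGroup G g) (hF : IsPrincipal G F) (hs : IsSu2Ideal G g s)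
    (hη : IsOnb s η) {x : X} {f : Mat K N} (hf : f ∈ F x) {a : Mat N N} (ha : a ∈ G) :
    Am G g F e η x (f * a) * Wm η (f * a) = Am G g F e η x f * Wm η f := by
  obtain ⟨O, hO⟩ : ∃ O : Matrix (Fin 3) (Fin 3) ℝ, ∀ k i, O k i = ip (η k) (a * η i * aᴴ) :=
    ⟨Matrix.of fun k i => ip (η k) (a * η i * aᴴ), fun _ _ => rfl⟩
  have hexp : ∀ i, a * η i * aᴴ = ∑ k, O k i • η k := fun i => by
    simp only [hO]
    exact hη.span _ (hs.inv a ha _ (hη.mem i))
  have hOO : Oᵀ * O = 1 := by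
    ext i j
    rw [Matrix.mul_apply, Matrix.one_apply, ← hη.inner i j, ← ip_unitary_conj (hG.unitary a ha),
      hexp i, IpM_sum_left]
    refine Finset.sum_congr rfl fun k _ => ?_
    rw [Matrix.transpose_apply, hO k j]
  have hOO' : O * Oᵀ = 1 := mul_eq_one_comm.1 hOO
  have hA : Am G g F e η x (f * a) = Am G g F e η x f * O := by
    ext r i
    rw [Matrix.mul_apply]
    show sd (ve G g F e x (f * a) (η i)) r = ∑ k, sd (ve G g F e x f (η k)) r * O k i
    rw [← TMapA_sd_sum x f (fun k => O k i) η r, ← hexp i]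
    have h1 : ve G g F e x (f * a) (η i) = ve G g F e x f (a * η i * aᴴ) := by
      funext l
      fin_cases l <;> exact curv_mul hG hF hf ha (η i) _ _
    rw [h1]
  have hW : Wm η (f * a) = Oᵀ * Wm η f := by
    ext i p
    rw [Matrix.mul_apply]
    show co (f * a * η i * (f * a)ᴴ) p = ∑ k, O k i * co (f * η k * fᴴ) p
    have h1 : f * a * η i * (f * a)ᴴ = ∑ k, O k i • (f * η k * fᴴ) := by
      have h2 : f * a * η i * (f * a)ᴴ = f * (a * η i * aᴴ) * fᴴ := by
        rw [Matrix.conjTranspose_mul]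
        simp only [Matrix.mul_assoc]
      rw [h2, hexp i, Matrix.mul_sum, Matrix.sum_mul]
      refine Finset.sum_congr rfl fun k _ => ?_
      rw [Matrix.mul_smul, Matrix.smul_mul]
    rw [h1, co_sum]
    refine Finset.sum_congr rfl fun k _ => ?_
    rw [co_smul]
  rw [hA, hW, Matrix.mul_assoc, ← Matrix.mul_assoc O, hOO', Matrix.one_mul]

theorem AW_indep (hG : IsCompactGroup G g) (hF : IsPrincipal G F) (hs : IsSu2Ideal G g s)
    (hη : IsOnb s η) {x : X} {f f' : Mat K N} (hf : f ∈ F x) (hf' : f' ∈ F x) :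
    Am G g F e η x f * Wm η f = Am G g F e η x f' * Wm η f' := by
  obtain ⟨U, s', hx, hsec⟩ := hF x
  have hfib := hsec.fibre x hx
  rw [hfib] at hf hf'
  obtain ⟨a, ha, rfl⟩ := hf
  obtain ⟨b, hb, rfl⟩ := hf'
  have h1 : s' x ∈ F x := by
    rw [hfib]
    exact ⟨1, hG.one, (Matrix.mul_one _).symm⟩
  rw [TMapA_step hG hF hs hη h1 ha, TMapA_step hG hF hs hη h1 hb]

theorem Am_det_ne (hη : IsOnb s η) {x : X} {f : Mat K N}
    (h : ∀ ξ ∈ s, ξ ≠ 0 → 0 < q6 (ve G g F e x f ξ)) : (Am G g F e η x f).det ≠ 0 := by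
  intro hdet
  obtain ⟨κ, hκ, hκ0⟩ := Matrix.exists_mulVec_eq_zero_iff.2 hdet
  have hξs : ∑ i, κ i • η i ∈ s := s.sum_mem fun i _ => s.smul_mem _ (hη.mem i)
  have hξ0 : ∑ i, κ i • η i ≠ 0 := by
    intro h0
    apply hκ
    funext k
    have h1 : ip (∑ i, κ i • η i) (η k) = κ k := by
      rw [IpM_sum_left]
      simp only [hη.inner]
      simp
    have h2 : ip (0 : Mat N N) (η k) = 0 := by
      have h3 := ip_smul_left (0 : ℝ) (0 : Mat N N) (η k)
      rwa [zero_smul, zero_mul] at h3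
    rw [h0, h2] at h1
    exact h1.symm
  have hpos := h _ hξs hξ0
  have hsd : ∀ a, sd (ve G g F e x f (∑ i, κ i • η i)) a = 0 := fun a => by
    rw [TMapA_sd_sum]
    exact congrFun hκ0 a
  generalize ve G g F e x f (∑ i, κ i • η i) = v at hpos hsd
  have e0 : v 0 + v 5 = 0 := hsd 0
  have e1 : v 1 - v 4 = 0 := hsd 1
  have e2 : v 2 + v 3 = 0 := hsd 2
  have h0 : v 0 = -v 5 := by linarith
  have h1 : v 1 = v 4 := by linarith
  have h2 : v 2 = -v 3 := by linarith
  unfold q6 at hpos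
  rw [h0, h1, h2] at hpos
  nlinarith [sq_nonneg (v 5), sq_nonneg (v 4), sq_nonneg (v 3)]

end Pool.Agent.W_9986fc_G
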