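import Pool.Agent.W_9986fc_G.TMapA
import Pool.Agent.W_9986fc_G.RDerL

/-!
# The global smooth matrix functions `T` and `S`

* `smO_curv`: `hor_section` with `pr` from `exists_proj`: `D_v = dM s y v - s y * pr ((s y)* dM s y v)`, so
  `curv y (s y) ξ (e a) (e b)` is a real polynomial in the entries of `s` and `dM s y (e a y)` (`smooth_dM`,
  `smO_re`; `pr` is real linear on the finite dimensional space of matrices).
* `smO_Am`, `smO_Wm`: from it.
* `TT_eq`: `AW_indep`, `Classical.epsilon_spec`, `frame_nonempty`.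
* `SS_eq`: with `A = Am x f`, `W = Wm η f`, `W Wᵀ = 1`: `T Tᵀ = A Aᵀ`, `Tᵀ (T Tᵀ)⁻¹ = Wᵀ Aᵀ (A Aᵀ)⁻¹ = Wᵀ A⁻¹`.
* `smM_TT`, `smM_SS`: `smR_of_local` with sections (`SmMO.mul`, `SmMO.inv`).
-/

set_option autoImplicit false

open scoped Manifold ContDiff Matrix

namespace Pool.Agent.W_9986fc_G

open Pool.Agent.W_MP_d8b8b7_S

universe u

variable {X : Type u} [TopologicalSpace X] [ChartedSpace E4 X] [IsManifold I4 ∞ X] {K N : ℕ}

/-- a frame at `x` -/
noncomputable def fr (F : X → Set (Mat K N)) (x : X) : Mat K N := Classical.epsilon fun f => f ∈ F x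

/-- the map `T` -/
noncomputable def TT (G : Set (Mat N N)) (g : Submodule ℝ (Mat N N)) (F : X → Set (Mat K N))
    (e : Fin 4 → ∀ x : X, T x) (η : Fin 3 → Mat N N) (x : X) : Matrix (Fin 3) (Pk K) ℝ :=
  Am G g F e η x (fr F x) * Wm η (fr F x)

/-- the map `S` -/
noncomputable def SS (G : Set (Mat N N)) (g : Submodule ℝ (Mat N N)) (F : X → Set (Mat K N))
    (e : Fin 4 → ∀ x : X, T x) (η : Fin 3 → Mat N N) (x : X) : Matrix (Pk K) (Fin 3) ℝ :=
  (TT G g F e η x)ᵀ * (TT G g F e η x * (TT G g F e η x)ᵀ)⁻¹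

variable {G : Set (Mat N N)} {g s : Submodule ℝ (Mat N N)} {F : X → Set (Mat K N)}
  {e : Fin 4 → ∀ x : X, T x} {η : Fin 3 → Mat N N}

/-- complex matrix function with smooth entries -/
def TMapB_C {K N : ℕ} (U : Set X) (M : X → Mat K N) : Prop :=
  ∀ i j, ContMDiffOn I4 𝓘(ℝ, ℂ) ∞ (fun y => M y i j) U

omit [IsManifold I4 ∞ X] in
theorem TMapB_lin {U : Set X} (L : Mat K N →ₗ[ℝ] ℂ) {Z : X → Mat K N} (hZ : TMapB_C U Z) :
    ContMDiffOn I4 𝓘(ℝ, ℂ) ∞ (fun y => L (Z y)) U := by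
  have h1 : ContMDiffOn I4 𝓘(ℝ, Fin K → Fin N → ℂ) ∞
      (fun y => (show Fin K → Fin N → ℂ from Z y)) U :=
    contMDiffOn_pi_space.2 fun i => contMDiffOn_pi_space.2 fun j => hZ i j
  have h2 : ContDiff ℝ ∞ (fun Z : Fin K → Fin N → ℂ => L (show Mat K N from Z)) :=
    (LinearMap.toContinuousLinearMap
      (show (Fin K → Fin N → ℂ) →ₗ[ℝ] ℂ from L)).contDiff
  exact h2.contMDiff.comp_contMDiffOn h1

omit [IsManifold I4 ∞ X] in
theorem TMapB_map {U : Set X} {K' N' : ℕ} (L : Mat K N →ₗ[ℝ] Mat K' N') {Z : X → Mat K N}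
    (hZ : TMapB_C U Z) : TMapB_C U (fun y => L (Z y)) := by
  intro i j
  exact TMapB_lin
    ({ toFun := fun M => L M i j
       map_add' := fun M M' => by rw [map_add]; rfl
       map_smul' := fun c M => by rw [map_smul]; rfl } : Mat K N →ₗ[ℝ] ℂ) hZ

omit [IsManifold I4 ∞ X] in
theorem TMapB_cmul {U : Set X} {f g : X → ℂ} (hf : ContMDiffOn I4 𝓘(ℝ, ℂ) ∞ f U)
    (hg : ContMDiffOn I4 𝓘(ℝ, ℂ) ∞ g U) : ContMDiffOn I4 𝓘(ℝ, ℂ) ∞ (fun y => f y * g y) U := by
  have h1 : ContDiff ℝ ∞ (fun p : ℂ × ℂ => p.1 * p.2) := contDiff_fst.mul contDiff_snd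
  exact h1.contMDiff.comp_contMDiffOn (hf.prodMk_space hg)

omit [IsManifold I4 ∞ X] in
theorem TMapB_csum {U : Set X} {ι : Type} (t : Finset ι) {f : ι → X → ℂ}
    (hf : ∀ i, ContMDiffOn I4 𝓘(ℝ, ℂ) ∞ (f i) U) :
    ContMDiffOn I4 𝓘(ℝ, ℂ) ∞ (fun y => ∑ i ∈ t, f i y) U := by
  classical
  induction t using Finset.induction_on with
  | empty =>
    simp only [Finset.sum_empty]
    exact contMDiffOn_const
  | insert a t ha ih =>
    simp only [Finset.sum_insert ha]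
    have h1 : ContDiff ℝ ∞ (fun p : ℂ × ℂ => p.1 + p.2) := contDiff_fst.add contDiff_snd
    exact h1.contMDiff.comp_contMDiffOn ((hf a).prodMk_space ih)

omit [IsManifold I4 ∞ X] in
theorem TMapB_mul {U : Set X} {M : ℕ} {A : X → Mat K N} {B : X → Mat N M} (hA : TMapB_C U A)
    (hB : TMapB_C U B) : TMapB_C U (fun y => A y * B y) := by
  intro i j
  simp only [Matrix.mul_apply]
  exact TMapB_csum _ fun l => TMapB_cmul (hA i l) (hB l j)

omit [IsManifold I4 ∞ X] in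
theorem TMapB_sub {U : Set X} {A B : X → Mat K N} (hA : TMapB_C U A)
    (hB : TMapB_C U B) : TMapB_C U (fun y => A y - B y) := by
  intro i j
  simp only [Matrix.sub_apply]
  have h1 : ContDiff ℝ ∞ (fun p : ℂ × ℂ => p.1 - p.2) := contDiff_fst.sub contDiff_snd
  exact h1.contMDiff.comp_contMDiffOn ((hA i j).prodMk_space (hB i j))

omit [IsManifold I4 ∞ X] in
theorem TMapB_conj {U : Set X} {A : X → Mat K N} (hA : TMapB_C U A) :
    TMapB_C U (fun y => (A y)ᴴ) := by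
  intro i j
  have h1 : ContDiff ℝ ∞ (fun z : ℂ => star z) := Complex.conjCLE.contDiff
  exact h1.contMDiff.comp_contMDiffOn (hA j i)

theorem TMapB_mem (hG : IsCompactGroup G g) {U : Set X} {σ : X → Mat K N}
    (hσ : IsSection G F U σ) {y : X} (hy : y ∈ U) : σ y ∈ F y := by
  rw [hσ.fibre y hy]
  exact ⟨1, hG.one, (Matrix.mul_one _).symm⟩

theorem TMapB_fr (hG : IsCompactGroup G g) (hF : IsPrincipal G F) (x : X) : fr F x ∈ F x := by
  obtain ⟨f, hf⟩ := frame_nonempty hG hF x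
  exact Classical.epsilon_spec (p := fun f => f ∈ F x) ⟨f, hf⟩

theorem smO_curv (hG : IsCompactGroup G g) {U : Set X} {σ : X → Mat K N}
    (hσ : IsSection G F U σ) (he : IsParallelization e) (ξ : Mat N N) (a b : Fin 4) :
    SmO U (fun y => curv G g F y (σ y) ξ (e a y) (e b y)) := by
  obtain ⟨pr, h1, h2⟩ := exists_proj g
  have hsm : TMapB_C U σ := hσ.smooth
  have hd : ∀ c : Fin 4, TMapB_C U (fun y => dM σ y (e c y)) := fun c i j =>
    smooth_dM hσ.isOpen hσ.smooth he c i j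
  have hD : ∀ c : Fin 4, TMapB_C U
      (fun y => dM σ y (e c y) - σ y * pr ((σ y)ᴴ * dM σ y (e c y))) := fun c =>
    TMapB_sub (hd c) (TMapB_mul hsm (TMapB_map pr (TMapB_mul (TMapB_conj hsm) (hd c))))
  have hZ := TMapB_sub (TMapB_mul (TMapB_conj (hD a)) (hD b))
    (TMapB_mul (TMapB_conj (hD b)) (hD a))
  have hL := TMapB_lin
    ({ toFun := fun M => (ξᴴ * M).trace
       map_add' := fun M M' => by rw [Matrix.mul_add, Matrix.trace_add]
       map_smul' := fun c M => by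
        rw [Matrix.mul_smul, Matrix.trace_smul]
        rfl } : Mat N N →ₗ[ℝ] ℂ) hZ
  refine (smO_re hL).congr fun y hy => ?_
  unfold curv ip
  rw [hor_section hG hσ hy h1 h2, hor_section hG hσ hy h1 h2]
  rfl

theorem smO_Am (hG : IsCompactGroup G g) {U : Set X} {σ : X → Mat K N}
    (hσ : IsSection G F U σ) (he : IsParallelization e) :
    SmMO U (fun y => Am G g F e η y (σ y)) := by
  intro a i
  have h := smO_curv (F := F) hG hσ he (η i)
  have e0 : ∀ y, Am G g F e η y (σ y) a i = sd (ve G g F e y (σ y) (η i)) a := fun y => rfl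
  simp only [e0]
  fin_cases a
  · exact (h 0 1).add (h 2 3)
  · exact (h 0 2).sub (h 1 3)
  · exact (h 0 3).add (h 1 2)

theorem smO_Wm {U : Set X} {σ : X → Mat K N} (hσ : IsSection G F U σ) :
    SmMO U (fun y => Wm η (σ y)) := by
  intro i p
  have hsm : TMapB_C U σ := hσ.smooth
  have hc : TMapB_C U (fun _ : X => η i) := fun a b => contMDiffOn_const
  have h := TMapB_mul (TMapB_mul hsm hc) (TMapB_conj hsm)
  have e0 : ∀ y, Wm η (σ y) i p = co (σ y * η i * (σ y)ᴴ) p := fun y => rfl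
  simp only [e0]
  unfold co
  by_cases hp : p.2 = 0
  · simp only [if_pos hp]
    exact smO_re (h p.1.1 p.1.2)
  · simp only [if_neg hp]
    exact smO_im (h p.1.1 p.1.2)

theorem TT_eq (hG : IsCompactGroup G g) (hF : IsPrincipal G F) (hs : IsSu2Ideal G g s)
    (hη : IsOnb s η) {x : X} {f : Mat K N} (hf : f ∈ F x) :
    TT G g F e η x = Am G g F e η x f * Wm η f := by
  unfold TT
  exact AW_indep hG hF hs hη (TMapB_fr hG hF x) hf

theorem SS_eq (hG : IsCompactGroup G g) (hF : IsPrincipal G F) (hs : IsSu2Ideal G g s)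
    (hη : IsOnb s η) {x : X} {f : Mat K N} (hf : f ∈ F x)
    (h : ∀ ξ ∈ s, ξ ≠ 0 → 0 < q6 (ve G g F e x f ξ)) :
    SS G g F e η x = (Wm η f)ᵀ * (Am G g F e η x f)⁻¹ := by
  unfold SS
  rw [TT_eq hG hF hs hη hf]
  have hW := Wm_mul (K := K) hη (frame_iso hG hF hf)
  have hA := Am_det_ne (G := G) (g := g) (F := F) (e := e) hη (h)
  obtain ⟨A, hAd⟩ : ∃ A, A = Am G g F e η x f := ⟨_, rfl⟩
  obtain ⟨W, hWd⟩ : ∃ W, W = Wm η f := ⟨_, rfl⟩
  rw [← hAd] at hA ⊢
  rw [← hWd] at hW ⊢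
  have hu : IsUnit (Aᵀ).det := by
    rw [Matrix.det_transpose]
    exact isUnit_iff_ne_zero.2 hA
  have h1 : (A * W) * (A * W)ᵀ = A * Aᵀ := by
    rw [Matrix.transpose_mul, Matrix.mul_assoc, ← Matrix.mul_assoc W, hW, Matrix.one_mul]
  rw [h1, Matrix.transpose_mul, Matrix.mul_inv_rev, Matrix.mul_assoc, ← Matrix.mul_assoc Aᵀ,
    Matrix.mul_nonsing_inv _ hu, Matrix.one_mul]

theorem smM_TT (hG : IsCompactGroup G g) (hF : IsPrincipal G F) (hs : IsSu2Ideal G g s)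
    (hη : IsOnb s η) (he : IsParallelization e) : SmM (TT G g F e η) := by
  intro i j
  refine smR_of_local fun x => ?_
  obtain ⟨U, σ, hx, hσ⟩ := hF x
  refine ⟨U, hσ.isOpen, hx, ?_⟩
  refine ((smO_Am (η := η) hG hσ he).mul (smO_Wm (η := η) hσ) i j).congr fun y hy => ?_
  rw [TT_eq hG hF hs hη (TMapB_mem hG hσ hy)]

theorem smM_SS (hG : IsCompactGroup G g) (hF : IsPrincipal G F) (hs : IsSu2Ideal G g s)
    (hη : IsOnb s η) (he : IsParallelization e)
    (h : ∀ x : X, ∀ f ∈ F x, ∀ ξ ∈ s, ξ ≠ 0 → 0 < q6 (ve G g F e x f ξ)) :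
    SmM (SS G g F e η) := by
  intro i j
  refine smR_of_local fun x => ?_
  obtain ⟨U, σ, hx, hσ⟩ := hF x
  refine ⟨U, hσ.isOpen, hx, ?_⟩
  have h1 : SmMO U (fun y => (Wm η (σ y))ᵀ) := fun a b => smO_Wm hσ b a
  have h2 : SmMO U (fun y => (Am G g F e η y (σ y))⁻¹) :=
    (smO_Am (η := η) hG hσ he).inv fun y hy =>
      Am_det_ne hη (h y (σ y) (TMapB_mem hG hσ hy))
  refine ((h1.mul h2) i j).congr fun y hy => ?_
  have hm := TMapB_mem hG hσ hy
  rw [SS_eq hG hF hs hη hm (h y (σ y) hm)]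

end Pool.Agent.W_9986fc_G
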