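import Pool.Agent.W_9986fc_G.TMapB

/-!
# The derivatives of `T` and `S` at a point

`σ` a section over `U ∋ x`, `f = σ x`.
* `dRM_Wm`: entrywise, `co` is the real or imaginary part of an entry (`dR_re`, `dR_im`), product rule
  (`dM_mul`, `dM_conjTranspose`).
* `exists_dA`: `dA a = dRM (fun y => Am y (σ y)) x (e a x)`; on `U`, `TT y = Am y (σ y) * Wm η (σ y)` and
  `SS y = (Wm η (σ y))ᵀ * (Am y (σ y))⁻¹` (`TT_eq`, `SS_eq`); `dRM_congr`, `dRM_mul`, `dRM_transpose`, `dRM_inv`.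
-/

set_option autoImplicit false

open scoped Manifold ContDiff Matrix

namespace Pool.Agent.W_9986fc_G

open Pool.Agent.W_MP_d8b8b7_S

universe u

variable {X : Type u} [TopologicalSpace X] [ChartedSpace E4 X] [IsManifold I4 ∞ X] {K N : ℕ}

/-- the derivative of `Wm` at `f` in the direction `D` -/
noncomputable def dWm (η : Fin 3 → Mat N N) (f D : Mat K N) : Matrix (Fin 3) (Pk K) ℝ :=
  Matrix.of fun i p => co (D * η i * fᴴ + f * η i * Dᴴ) p

variable {G : Set (Mat N N)} {g s : Submodule ℝ (Mat N N)} {F : X → Set (Mat K N)}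
  {e : Fin 4 → ∀ x : X, T x} {η : Fin 3 → Mat N N}

theorem TMapC_co {U : Set X} (hU : IsOpen U) {m : X → Mat K K}
    (hm : ∀ i j, ContMDiffOn I4 𝓘(ℝ, ℂ) ∞ (fun y => m y i j) U) {x : X} (hx : x ∈ U)
    (v : T x) (p : Pk K) : dR (fun y => co (m y) p) x v = co (dM m x v) p := by
  unfold co
  by_cases h : p.2 = 0
  · simp only [if_pos h]
    exact dR_re hU (hm p.1.1 p.1.2) hx v
  · simp only [if_neg h]
    exact dR_im hU (hm p.1.1 p.1.2) hx v

theorem TMapC_mem (hG : IsCompactGroup G g) {U : Set X} {σ : X → Mat K N}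
    (hσ : IsSection G F U σ) {y : X} (hy : y ∈ U) : σ y ∈ F y := by
  rw [hσ.fibre y hy]
  exact ⟨1, hG.one, (Matrix.mul_one _).symm⟩

theorem dRM_Wm {U : Set X} {σ : X → Mat K N} (hσ : IsSection G F U σ) {x : X} (hx : x ∈ U)
    (v : T x) : dRM (fun y => Wm η (σ y)) x v = dWm η (σ x) (dM σ x v) := by
  have h1 : ∀ i : Fin 3, ∀ k l, ContMDiffOn I4 𝓘(ℝ, ℂ) ∞ (fun y => (σ y * η i) k l) U :=
    fun i => LiftA_smooth_mul hσ.smooth fun k l => contMDiffOn_const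
  have h2 := LiftA_smooth_conj hσ.smooth
  have h3 : ∀ i : Fin 3, ∀ k l,
      ContMDiffOn I4 𝓘(ℝ, ℂ) ∞ (fun y => (σ y * η i * (σ y)ᴴ) k l) U :=
    fun i => LiftA_smooth_mul (h1 i) h2
  ext i p
  have h4 : dRM (fun y => Wm η (σ y)) x v i p =
      dR (fun y => co (σ y * η i * (σ y)ᴴ) p) x v := rfl
  rw [h4, TMapC_co hσ.isOpen (h3 i) hx v p, dM_mul hσ.isOpen (h1 i) h2 hx v,
    dM_mul_const hσ.isOpen hσ.smooth (η i) hx v, dM_conjTranspose hσ.isOpen hσ.smooth hx v]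
  rfl

theorem exists_dA (hG : IsCompactGroup G g) (hF : IsPrincipal G F) (hs : IsSu2Ideal G g s)
    (hη : IsOnb s η) (he : IsParallelization e)
    (h : ∀ x : X, ∀ f ∈ F x, ∀ ξ ∈ s, ξ ≠ 0 → 0 < q6 (ve G g F e x f ξ))
    {U : Set X} {σ : X → Mat K N} (hσ : IsSection G F U σ) {x : X} (hx : x ∈ U) :
    ∃ dA : Fin 4 → Matrix (Fin 3) (Fin 3) ℝ,
      (∀ a, dRM (TT G g F e η) x (e a x) = dA a * Wm η (σ x) +
        Am G g F e η x (σ x) * dWm η (σ x) (dM σ x (e a x))) ∧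
      ∀ a, dRM (SS G g F e η) x (e a x) =
        (dWm η (σ x) (dM σ x (e a x)))ᵀ * (Am G g F e η x (σ x))⁻¹ -
          (Wm η (σ x))ᵀ * ((Am G g F e η x (σ x))⁻¹ * dA a * (Am G g F e η x (σ x))⁻¹) := by
  have hA := smO_Am (η := η) hG hσ he
  have hW := smO_Wm (η := η) hσ
  have hdet : ∀ y ∈ U, (Am G g F e η y (σ y)).det ≠ 0 := fun y hy =>
    Am_det_ne hη (h y (σ y) (TMapC_mem hG hσ hy))
  refine ⟨fun a => dRM (fun y => Am G g F e η y (σ y)) x (e a x), fun a => ?_, fun a => ?_⟩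
  · rw [dRM_congr hσ.isOpen hx (A := TT G g F e η)
      (B := fun y => Am G g F e η y (σ y) * Wm η (σ y))
      (fun y hy => TT_eq hG hF hs hη (TMapC_mem hG hσ hy)) (e a x),
      dRM_mul hσ.isOpen hA hW hx (e a x), dRM_Wm hσ hx]
  · have hWT : SmMO U (fun y => (Wm η (σ y))ᵀ) := fun i j => hW j i
    rw [dRM_congr hσ.isOpen hx (A := SS G g F e η)
      (B := fun y => (Wm η (σ y))ᵀ * (Am G g F e η y (σ y))⁻¹)
      (fun y hy => SS_eq hG hF hs hη (TMapC_mem hG hσ hy) (h y (σ y) (TMapC_mem hG hσ hy)))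
      (e a x),
      dRM_mul hσ.isOpen hWT (hA.inv hdet) hx (e a x), dRM_transpose, dRM_Wm hσ hx,
      dRM_inv hσ.isOpen hA hdet hx (e a x), Matrix.mul_neg, ← sub_eq_add_neg]

end Pool.Agent.W_9986fc_G
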